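import Mathlib
import Pool.Agent.H300R2.EC.Defs

/-!
X7: the Hardy-Littlewood product converges to a positive number.
-/

namespace Pool.Agent.H715R2.EC

open Finset Polynomial Filter
open Pool.Agent.H300R2.BH Pool.Agent.H300R2.EC

lemma Sd_eq (D : ℤ) (M N : ℕ) :
    Sd D M N = ∑ p ∈ Ioc M N, (if p.Prime ∧ p ≠ 2 then (jacobiSym D p : ℝ) / p else 0) := by
  unfold Sd
  rw [Finset.sum_filter]

lemma Sd_split (D : ℤ) (L M N : ℕ) (h1 : L ≤ M) (h2 : M ≤ N) :
    Sd D L N = Sd D L M + Sd D M N := by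
  rw [Sd_eq, Sd_eq, Sd_eq, Finset.sum_Ioc_consecutive _ h1 h2]

lemma sd_conv
    (sw_tail : ∀ V W : ℕ, ∃ P0 : ℕ, ∀ P : ℕ, P0 ≤ P → ∀ Q : ℕ, P ≤ Q → Q ≤ 2 * P → ∀ D : ℤ,
      ¬ IsSquare D → 4 * |(D : ℝ)| ≤ Real.log P ^ W → |Sd D P Q| ≤ 1 / Real.log P ^ V)
    (D : ℤ) (hD : ¬ IsSquare D) :
    ∃ L : ℝ, Tendsto (fun N : ℕ => Sd D 0 N) atTop (nhds L) := by
  obtain ⟨P0, hP0⟩ := sw_tail 2 1
  have hlog2 : 0 < Real.log 2 := Real.log_pos (by norm_num)
  -- threshold
  obtain ⟨i1, hi1⟩ := exists_nat_ge (4 * |(D : ℝ)| / Real.log 2)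
  obtain ⟨i0, hi0a, hi0b⟩ : ∃ i0 : ℕ, P0 ≤ i0 ∧ i1 ≤ i0 ∧ 1 ≤ i0 :=
    ⟨P0 + i1 + 1, by omega, by omega, by omega⟩
  have key : ∀ i : ℕ, i0 ≤ i → ∀ Q : ℕ, 2 ^ i ≤ Q → Q ≤ 2 * 2 ^ i →
      |Sd D (2 ^ i) Q| ≤ 1 / (Real.log 2 * i) ^ 2 := by
    intro i hi Q h1 h2
    have h3 : P0 ≤ 2 ^ i := by
      have : i < 2 ^ i := Nat.lt_two_pow_self
      omega
    have h4 : Real.log ((2 ^ i : ℕ) : ℝ) = i * Real.log 2 := by
      push_cast
      rw [Real.log_pow]
    have h5 := hP0 (2 ^ i) h3 Q h1 h2 D hD (by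
      rw [h4, pow_one]
      have : (i1 : ℝ) ≤ i := by exact_mod_cast (by omega : i1 ≤ i)
      have h6 : 4 * |(D : ℝ)| / Real.log 2 ≤ i := le_trans hi1 this
      rwa [div_le_iff₀ hlog2] at h6)
    rw [h4] at h5
    rwa [mul_comm (Real.log 2) (i : ℝ)]
  -- the dyadic subsequence converges
  have hsum : Summable (fun i : ℕ => 1 / (Real.log 2 * (i : ℝ)) ^ 2) := by
    have h := (Real.summable_one_div_nat_pow (p := 2)).2 (by norm_num)
    have h2 := h.mul_left (1 / Real.log 2 ^ 2)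
    refine h2.congr ?_
    intro i
    rw [mul_pow, one_div_mul_one_div]
  have hdy : ∃ L : ℝ, Tendsto (fun i : ℕ => Sd D 0 (2 ^ i)) atTop (nhds L) := by
    have hc : CauchySeq (fun i : ℕ => Sd D 0 (2 ^ (i + i0))) := by
      refine cauchySeq_of_dist_le_of_summable (fun i : ℕ => 1 / (Real.log 2 * ((i + i0 : ℕ) : ℝ)) ^ 2)
        ?_ ?_
      · intro i
        rw [Real.dist_eq, abs_sub_comm]
        have h1 : Sd D 0 (2 ^ (i + 1 + i0)) - Sd D 0 (2 ^ (i + i0)) =
            Sd D (2 ^ (i + i0)) (2 ^ (i + 1 + i0)) := by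
          rw [Sd_split D 0 (2 ^ (i + i0)) (2 ^ (i + 1 + i0)) (Nat.zero_le _)
            (Nat.pow_le_pow_right (by norm_num) (by omega))]
          ring
        have h2 : Sd D 0 (2 ^ (i.succ + i0)) - Sd D 0 (2 ^ (i + i0)) =
            Sd D (2 ^ (i + i0)) (2 ^ (i + 1 + i0)) := h1
        rw [h2]
        refine key (i + i0) (by omega) _ (Nat.pow_le_pow_right (by norm_num) (by omega)) ?_
        rw [show i + 1 + i0 = (i + i0) + 1 by omega, pow_succ]
        omega
      · exact (summable_nat_add_iff (f := fun i : ℕ => 1 / (Real.log 2 * (i : ℝ)) ^ 2) i0).2 hsum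
    obtain ⟨L, hL⟩ := cauchySeq_tendsto_of_complete hc
    refine ⟨L, ?_⟩
    exact (tendsto_add_atTop_iff_nat (f := fun i : ℕ => Sd D 0 (2 ^ i)) i0).1 hL
  obtain ⟨L, hL⟩ := hdy
  refine ⟨L, ?_⟩
  have hlogt : Tendsto (fun n : ℕ => Nat.log 2 n) atTop atTop := by
    refine tendsto_atTop.2 ?_
    intro b
    filter_upwards [eventually_ge_atTop (2 ^ b)] with n hn
    exact Nat.le_log_of_pow_le (by norm_num) hn
  have h1 : Tendsto (fun n : ℕ => Sd D 0 (2 ^ (Nat.log 2 n))) atTop (nhds L) := hL.comp hlogt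
  have h2 : Tendsto (fun n : ℕ => Sd D 0 n - Sd D 0 (2 ^ (Nat.log 2 n))) atTop (nhds 0) := by
    have h3 : Tendsto (fun n : ℕ => 1 / (Real.log 2 * ((Nat.log 2 n : ℕ) : ℝ)) ^ 2) atTop (nhds 0) :=
      (hsum.tendsto_atTop_zero).comp hlogt
    refine squeeze_zero_norm' ?_ h3
    filter_upwards [eventually_ge_atTop (2 ^ i0)] with n hn
    have hn0 : n ≠ 0 := by
      have : 0 < 2 ^ i0 := by positivity
      omega
    have h4 : 2 ^ (Nat.log 2 n) ≤ n := Nat.pow_log_le_self 2 hn0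
    have h5 : n < 2 ^ (Nat.log 2 n + 1) := Nat.lt_pow_succ_log_self (by norm_num) n
    have h6 : i0 ≤ Nat.log 2 n := Nat.le_log_of_pow_le (by norm_num) hn
    rw [Sd_split D 0 (2 ^ (Nat.log 2 n)) n (Nat.zero_le _) h4, Real.norm_eq_abs]
    have h7 := key (Nat.log 2 n) h6 n h4 (by rw [pow_succ] at h5; omega)
    rwa [add_sub_cancel_left]
  have h3 := h1.add h2
  simp only [add_zero] at h3
  refine h3.congr ?_
  intro n
  ring

/-- X7 -/
theorem conv_prod
    (sw_tail : ∀ V W : ℕ, ∃ P0 : ℕ, ∀ P : ℕ, P0 ≤ P → ∀ Q : ℕ, P ≤ Q → Q ≤ 2 * P → ∀ D : ℤ,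
      ¬ IsSquare D → 4 * |(D : ℝ)| ≤ Real.log P ^ W → |Sd D P Q| ≤ 1 / Real.log P ^ V)
    (a D : ℤ) (ha : a ≠ 0) (hD : ¬ IsSquare D) :
    ∃ C : ℝ, 0 < C ∧ Tendsto (fun N : ℕ => Pd a D 0 N) atTop (nhds C) := by
  classical
  obtain ⟨L, hL⟩ := sd_conv sw_tail D hD
  have hj : ∀ p : ℕ, |(jacobiSym D p : ℝ)| ≤ 1 := by
    intro p
    rcases jacobiSym.trichotomy D p with h | h | h <;> simp [h]
  -- the three sequences
  let e : ℕ → ℝ := fun p => if p.Prime ∧ p ≠ 2 ∧ ¬ (p : ℤ) ∣ a then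
    Real.log (1 - (jacobiSym D p : ℝ) / (p - 1)) + (jacobiSym D p : ℝ) / p else 0
  let g : ℕ → ℝ := fun p => if p.Prime ∧ p ≠ 2 ∧ (p : ℤ) ∣ a then (jacobiSym D p : ℝ) / p else 0
  have hg : Summable g := by
    refine summable_of_ne_finset_zero (s := Finset.range (a.natAbs + 1)) ?_
    intro p hp
    simp only [g]
    rw [if_neg]
    rintro ⟨-, -, h⟩
    apply hp
    rw [Finset.mem_range]
    have := Nat.le_of_dvd (Int.natAbs_pos.2 ha) (Int.natCast_dvd.1 h)
    omega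
  have he : Summable e := by
    have hs : Summable (fun n : ℕ => 12 * (1 / (n : ℝ) ^ 2)) :=
      ((Real.summable_one_div_nat_pow (p := 2)).2 (by norm_num)).mul_left 12
    refine Summable.of_norm_bounded hs ?_
    intro p
    simp only [e]
    split_ifs with h
    · obtain ⟨h1, h2, -⟩ := h
      have h3 : 3 ≤ p := by
        have := h1.two_le
        omega
      have h3' : (3 : ℝ) ≤ p := by exact_mod_cast h3
      set x : ℝ := (jacobiSym D p : ℝ) / (p - 1) with hx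
      have hx1 : |x| ≤ 1 / (p - 1) := by
        rw [hx, abs_div, abs_of_pos (by linarith : (0 : ℝ) < p - 1)]
        gcongr
        · linarith
        · exact hj p
      have hx2 : |x| ≤ 1 / 2 := by
        refine le_trans hx1 ?_
        rw [div_le_div_iff₀ (by linarith) (by norm_num)]
        linarith
      have h4 := Real.abs_log_sub_add_sum_range_le (x := x) (by linarith) 1
      simp only [Finset.sum_range_one, zero_add, pow_one, Nat.cast_zero, div_one] at h4
      have h5 : |x + Real.log (1 - x)| ≤ 2 * x ^ 2 := by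
        refine le_trans h4 ?_
        rw [div_le_iff₀ (by linarith)]
        have : |x| ^ (1 + 1) = x ^ 2 := by rw [sq_abs]
        rw [this]
        nlinarith [sq_nonneg x]
      have h6 : x ^ 2 ≤ 1 / (p - 1) ^ 2 := by
        rw [← sq_abs]
        calc |x| ^ 2 ≤ (1 / ((p : ℝ) - 1)) ^ 2 := by gcongr
          _ = 1 / ((p : ℝ) - 1) ^ 2 := by rw [div_pow, one_pow]
      have h7 : |(jacobiSym D p : ℝ) / p - x| ≤ 1 / (p - 1) ^ 2 := by
        have : (jacobiSym D p : ℝ) / p - x = - ((jacobiSym D p : ℝ) / (p * (p - 1))) := by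
          rw [hx]
          have h8 : (p : ℝ) ≠ 0 := by linarith
          have h9 : (p : ℝ) - 1 ≠ 0 := by linarith
          field_simp
          ring
        rw [this, abs_neg, abs_div]
        have h10 : (0 : ℝ) < p * (p - 1) := by
          have : (0 : ℝ) < p - 1 := by linarith
          positivity
        rw [abs_of_pos h10, div_le_div_iff₀ h10 (by nlinarith)]
        have := hj p
        have h0 := abs_nonneg (jacobiSym D p : ℝ)
        have h11 : (0 : ℝ) < p - 1 := by linarith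
        nlinarith [mul_le_mul_of_nonneg_right this (sq_nonneg ((p : ℝ) - 1))]
      have h8 : |Real.log (1 - x) + (jacobiSym D p : ℝ) / p| ≤ 3 * (1 / ((p : ℝ) - 1) ^ 2) := by
        have : Real.log (1 - x) + (jacobiSym D p : ℝ) / p =
            (x + Real.log (1 - x)) + ((jacobiSym D p : ℝ) / p - x) := by ring
        rw [this]
        refine le_trans (abs_add_le _ _) ?_
        linarith
      rw [Real.norm_eq_abs]
      refine le_trans h8 ?_
      have h12 : 1 / ((p : ℝ) - 1) ^ 2 ≤ 4 * (1 / (p : ℝ) ^ 2) := by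
        rw [mul_one_div, div_le_div_iff₀ (by nlinarith) (by nlinarith)]
        nlinarith
      linarith
    · rw [norm_zero]
      positivity
  have hsumIoc : ∀ f : ℕ → ℝ, f 0 = 0 → Summable f →
      Tendsto (fun N : ℕ => ∑ p ∈ Ioc 0 N, f p) atTop (nhds (∑' p, f p)) := by
    intro f h0 hf
    have h1 := (tendsto_add_atTop_iff_nat (f := fun N : ℕ => ∑ p ∈ range N, f p) 1).2
      hf.hasSum.tendsto_sum_nat
    refine h1.congr ?_
    intro N
    rw [Finset.range_eq_Ico, Finset.sum_eq_sum_Ico_succ_bot (by omega), h0, zero_add]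
    refine Finset.sum_congr ?_ (fun _ _ => rfl)
    ext p
    simp only [Finset.mem_Ico, Finset.mem_Ioc]
    omega
  have he0 : e 0 = 0 := by
    simp only [e]
    rw [if_neg]
    rintro ⟨h, -⟩
    exact Nat.not_prime_zero h
  have hg0 : g 0 = 0 := by
    simp only [g]
    rw [if_neg]
    rintro ⟨h, -⟩
    exact Nat.not_prime_zero h
  have hT := ((hsumIoc e he0 he).sub hL).add (hsumIoc g hg0 hg)
  refine ⟨Real.exp ((∑' p, e p) - L + ∑' p, g p), Real.exp_pos _, ?_⟩
  have hT2 := (Real.continuous_exp.tendsto _).comp hT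
  refine hT2.congr ?_
  intro N
  simp only [Function.comp]
  have hlog : (∑ p ∈ Ioc 0 N, e p) - Sd D 0 N + ∑ p ∈ Ioc 0 N, g p =
      ∑ p ∈ (Ioc 0 N).filter (fun p : ℕ => p.Prime ∧ p ≠ 2 ∧ ¬ (p : ℤ) ∣ a),
        Real.log (1 - (jacobiSym D p : ℝ) / (p - 1)) := by
    rw [Sd_eq, Finset.sum_filter, ← Finset.sum_sub_distrib, ← Finset.sum_add_distrib]
    refine Finset.sum_congr rfl ?_
    intro p _
    simp only [e, g]
    by_cases h1 : p.Prime
    · by_cases h2 : p ≠ 2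
      · by_cases h3 : (p : ℤ) ∣ a
        · simp [h1, h2, h3]
        · simp [h1, h2, h3]
      · push Not at h2
        simp [h2]
    · simp [h1]
  rw [hlog, Real.exp_sum]
  unfold Pd
  refine Finset.prod_congr rfl ?_
  intro p hp
  rw [Finset.mem_filter] at hp
  obtain ⟨-, h1, h2, -⟩ := hp
  have h3 : 3 ≤ p := by
    have := h1.two_le
    omega
  have h3' : (3 : ℝ) ≤ p := by exact_mod_cast h3
  rw [Real.exp_log]
  have h4 : |(jacobiSym D p : ℝ) / (p - 1)| ≤ 1 / 2 := by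
    rw [abs_div, abs_of_pos (by linarith : (0 : ℝ) < p - 1), div_le_div_iff₀ (by linarith) (by norm_num)]
    have := hj p
    nlinarith
  have := (abs_le.1 h4).2
  linarith

end Pool.Agent.H715R2.EC
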