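import Pool.Agent.H961R2.Lev.Stubs

open MeasureTheory Set Filter Topology InnerProductSpace Complex

namespace H961Lev

namespace C8aux

/-- regrouping of the terms `≥ r` -/
noncomputable def G (R r : ℕ) (g : ℕ → ℝ) (s : ℕ) : ℝ :=
  if s < r then g s else if s = r then ∑ k ∈ (Finset.range (R + 1)).filter (fun k => r ≤ k), g k
    else 0

theorem sum_G (R r : ℕ) (hr : r ≤ R) (g : ℕ → ℝ) :
    ∑ s ∈ Finset.range (R + 1), G R r g s = ∑ s ∈ Finset.range (R + 1), g s := by
  have h1 : ∀ s, G R r g s = (if ¬ (r ≤ s) then g s else 0) +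
      (if s = r then ∑ k ∈ (Finset.range (R + 1)).filter (fun k => r ≤ k), g k else 0) := by
    intro s
    unfold G
    by_cases h : s < r
    · rw [if_pos h, if_pos (by omega), if_neg (by omega), add_zero]
    · rw [if_neg h, if_neg (not_not.2 (not_lt.1 h)), zero_add]
  rw [Finset.sum_congr rfl (fun s _ => h1 s), Finset.sum_add_distrib, ← Finset.sum_filter,
    Finset.sum_ite_eq' (Finset.range (R + 1)) r, if_pos (Finset.mem_range.2 (by omega)), add_comm]
  exact Finset.sum_filter_add_sum_filter_not _ _ _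

theorem ind_01 (N s : ℕ) (i : ℤ) : ind N s i = 0 ∨ ind N s i = 1 := by
  unfold ind
  split_ifs
  · right; rfl
  · left; rfl

theorem ind_mono (N s s' : ℕ) (i : ℤ) (h : s ≤ s') (hs : ind N s i = 1) : ind N s' i = 1 := by
  unfold ind at hs ⊢
  split_ifs at hs with h1
  · rw [if_pos]
    obtain ⟨k, hk⟩ := h1
    refine ⟨k, hk.trans ?_⟩
    exact_mod_cast h
  · exact absurd hs zero_ne_one

end C8aux

open C8aux in
theorem T_C8 : S_C8 := by
  intro N R r f v w _ hr hf hRel
  obtain ⟨c, ψ, hψ, hv, hw⟩ := hRel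
  have hc0 : ∀ s, s ≤ R → 0 ≤ c s := fun s hs => ((hψ s hs).1 0).1.trans ((hψ s hs).1 0).2
  have hf0 : ∀ i, 0 ≤ f i := fun i => (hf.1 i).1
  have hf1 : ∀ i, f i ≤ 1 := fun i => (hf.1 i).2
  have hmem : ∀ k ∈ (Finset.range (R + 1)).filter (fun k => r ≤ k), k ≤ R := by
    intro k hk
    have := Finset.mem_range.1 (Finset.mem_filter.1 hk).1
    omega
  refine ⟨G R r c, fun s i => G R r (fun s => f i * ψ s i) s, ?_, ?_, ?_⟩
  · intro s hs
    show C9 N (2 * (s : ℝ) + 1) (G R r c s) (fun i => G R r (fun s => f i * ψ s i) s)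
    rcases lt_trichotomy s r with h | h | h
    · have e1 : G R r c s = c s := by unfold G; rw [if_pos h]
      have e2 : (fun i => G R r (fun s => f i * ψ s i) s) = fun i => f i * ψ s i := by
        funext i; unfold G; rw [if_pos h]
      rw [e1, e2]
      obtain ⟨hb, hwin⟩ := hψ s hs
      refine ⟨fun i => ⟨mul_nonneg (hf0 i) (hb i).1, ?_⟩, fun i => ?_⟩
      · calc f i * ψ s i ≤ 1 * ψ s i := mul_le_mul_of_nonneg_right (hf1 i) (hb i).1
          _ ≤ c s := by rw [one_mul]; exact (hb i).2
      · refine le_trans (Finset.sum_le_sum fun k _ => ?_) (hwin i)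
        calc f (i + k) * ψ s (i + k) ≤ 1 * ψ s (i + k) :=
              mul_le_mul_of_nonneg_right (hf1 _) (hb _).1
          _ = ψ s (i + k) := one_mul _
    · subst h
      have e1 : G R s c s = ∑ k ∈ (Finset.range (R + 1)).filter (fun k => s ≤ k), c k := by
        unfold G; rw [if_neg (lt_irrefl s), if_pos rfl]
      have e2 : (fun i => G R s (fun s => f i * ψ s i) s) = fun i => f i *
          ∑ k ∈ (Finset.range (R + 1)).filter (fun k => s ≤ k), ψ k i := by
        funext i; unfold G; rw [if_neg (lt_irrefl s), if_pos rfl, Finset.mul_sum]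
      rw [e1, e2]
      set T := ∑ k ∈ (Finset.range (R + 1)).filter (fun k => s ≤ k), c k with hT
      have hT0 : 0 ≤ T := Finset.sum_nonneg fun k hk => hc0 k (hmem k hk)
      have hS0 : ∀ i, 0 ≤ ∑ k ∈ (Finset.range (R + 1)).filter (fun k => s ≤ k), ψ k i := fun i =>
        Finset.sum_nonneg fun k hk => ((hψ k (hmem k hk)).1 i).1
      have hS1 : ∀ i, ∑ k ∈ (Finset.range (R + 1)).filter (fun k => s ≤ k), ψ k i ≤ T := fun i =>
        Finset.sum_le_sum fun k hk => ((hψ k (hmem k hk)).1 i).2
      refine ⟨fun i => ⟨mul_nonneg (hf0 i) (hS0 i), ?_⟩, fun i => ?_⟩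
      · calc _ ≤ 1 * T := mul_le_mul (hf1 i) (hS1 i) (hS0 i) zero_le_one
          _ = T := one_mul _
      · calc _ ≤ ∑ k ∈ Finset.range N, f (i + k) * T :=
              Finset.sum_le_sum fun k _ => mul_le_mul_of_nonneg_left (hS1 _) (hf0 _)
          _ = (∑ k ∈ Finset.range N, f (i + k)) * T := by rw [Finset.sum_mul]
          _ ≤ ((2 * (s : ℝ) + 1) * 1) * T := mul_le_mul_of_nonneg_right (hf.2 i) hT0
          _ = _ := by ring
    · have e1 : G R r c s = 0 := by unfold G; rw [if_neg (by omega), if_neg (by omega)]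
      have e2 : (fun i => G R r (fun s => f i * ψ s i) s) = fun i => (0 : ℝ) := by
        funext i; unfold G; rw [if_neg (by omega), if_neg (by omega)]
      rw [e1, e2]
      exact ⟨fun i => ⟨le_rfl, le_rfl⟩, fun i => by simp⟩
  · intro i
    show f i * v i ≤ ∑ s ∈ Finset.range (R + 1), G R r (fun s => f i * ψ s i) s
    rw [sum_G R r hr, ← Finset.mul_sum]
    exact mul_le_mul_of_nonneg_left (hv i) (hf0 i)
  · intro i
    show ∑ s ∈ Finset.range (R + 1), G R r c s * ind N s i ≤ ind N r i * w i
    rcases ind_01 N r i with h | h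
    · rw [h, zero_mul]
      apply le_of_eq
      apply Finset.sum_eq_zero
      intro s _
      by_cases hs : s ≤ r
      · have : ind N s i = 0 := by
          rcases ind_01 N s i with h' | h'
          · exact h'
          · have := ind_mono N s r i hs h'
            rw [h] at this
            exact absurd this zero_ne_one
        rw [this, mul_zero]
      · have : G R r c s = 0 := by unfold G; rw [if_neg (by omega), if_neg (by omega)]
        rw [this, zero_mul]
    · rw [h, one_mul]
      refine le_trans (le_of_eq ?_) (hw i)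
      rw [← sum_G R r hr (fun s => c s * ind N s i)]
      apply Finset.sum_congr rfl
      intro s _
      unfold G
      split_ifs with h1 h2
      · rfl
      · subst h2
        rw [h, mul_one]
        apply Finset.sum_congr rfl
        intro k hk
        show c k = c k * ind N k i
        rw [ind_mono N s k i (Finset.mem_filter.1 hk).2 h, mul_one]
      · rw [zero_mul]

end H961Lev
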