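import Pool.Agent.H961R2.Lev.Stubs

open MeasureTheory Set Filter Topology InnerProductSpace Complex

namespace H961Lev

namespace L1aux

theorem PK_eq (h : ℝ) (hh : 0 < h) (t : ℝ) :
    PK h t = (Real.pi * h)⁻¹ * (1 + (t / h) ^ 2)⁻¹ := by
  unfold PK
  have hp := Real.pi_pos
  rw [div_pow]
  field_simp
  ring

theorem PK_nonneg (h : ℝ) (hh : 0 < h) (t : ℝ) : 0 ≤ PK h t := by
  unfold PK
  have hp := Real.pi_pos
  positivity

theorem PK_integrable (h : ℝ) (hh : 0 < h) : Integrable (PK h) := by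
  have h1 : PK h = fun t => (Real.pi * h)⁻¹ * (1 + (t / h) ^ 2)⁻¹ := by
    funext t; exact PK_eq h hh t
  rw [h1]
  exact (integrable_inv_one_add_sq.comp_div hh.ne').const_mul _

theorem PK_integral (h : ℝ) (hh : 0 < h) : ∫ t, PK h t = 1 := by
  have h1 : PK h = fun t => (Real.pi * h)⁻¹ * (1 + (t / h) ^ 2)⁻¹ := by
    funext t; exact PK_eq h hh t
  rw [h1, integral_const_mul,
    MeasureTheory.Measure.integral_comp_div (fun t : ℝ => (1 + t ^ 2)⁻¹) h,
    integral_univ_inv_one_add_sq, abs_of_pos hh, smul_eq_mul]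
  have hp := Real.pi_pos
  field_simp

theorem PK_ratio (h d : ℝ) (hh : 0 < h) (hd : 0 ≤ d) (s s' : ℝ) (hs : |s - s'| ≤ d) :
    PK h s ≤ (1 + (d / h + d ^ 2 / h ^ 2)) * PK h s' := by
  unfold PK
  have hp := Real.pi_pos
  have h1 : s' ^ 2 ≤ s ^ 2 + 2 * |s| * d + d ^ 2 := by
    have h2 : |s'| ≤ |s| + d := by
      have := abs_sub_abs_le_abs_sub s' s
      rw [abs_sub_comm] at this
      linarith
    have h3 : |s'| ^ 2 ≤ (|s| + d) ^ 2 := pow_le_pow_left₀ (abs_nonneg _) h2 2
    rw [sq_abs] at h3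
    have h4 := sq_abs s
    nlinarith
  have h2 : 2 * |s| * d ≤ d / h * (s ^ 2 + h ^ 2) := by
    rw [div_mul_eq_mul_div, le_div_iff₀ hh]
    have h4 := sq_abs s
    nlinarith [sq_nonneg (|s| - h), mul_nonneg hd (sq_nonneg (|s| - h))]
  have h3 : d ^ 2 ≤ d ^ 2 / h ^ 2 * (s ^ 2 + h ^ 2) := by
    rw [div_mul_eq_mul_div, le_div_iff₀ (by positivity)]
    nlinarith [mul_nonneg (sq_nonneg d) (sq_nonneg s)]
  have h4 : s' ^ 2 + h ^ 2 ≤ (1 + (d / h + d ^ 2 / h ^ 2)) * (s ^ 2 + h ^ 2) := by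
    nlinarith
  have h5 : 0 < s ^ 2 + h ^ 2 := by positivity
  have h6 : 0 < s' ^ 2 + h ^ 2 := by positivity
  rw [mul_div_assoc', div_le_div_iff₀ (by positivity) (by positivity)]
  have h7 : 0 ≤ h * Real.pi := by positivity
  calc h * (Real.pi * (s' ^ 2 + h ^ 2)) = h * Real.pi * (s' ^ 2 + h ^ 2) := by ring
    _ ≤ h * Real.pi * ((1 + (d / h + d ^ 2 / h ^ 2)) * (s ^ 2 + h ^ 2)) :=
        mul_le_mul_of_nonneg_left h4 h7
    _ = _ := by ring

theorem modulus (G : ℝ → ℝ) (hG : Continuous G) (hper : ∀ x, G (x + 1) = G x) (w : ℝ)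
    (hw : 0 < w) : ∃ δ > 0, ∀ x y, |x - y| ≤ δ → G x ≤ G y + w := by
  have hP : Function.Periodic G 1 := hper
  have hu := isCompact_Icc (a := (-1 : ℝ)) (b := 2) |>.uniformContinuousOn_of_continuous
    hG.continuousOn
  rw [Metric.uniformContinuousOn_iff] at hu
  obtain ⟨δ, hδ, hu⟩ := hu w hw
  refine ⟨min (δ / 2) 1, by positivity, fun x y hxy => ?_⟩
  have h1 : |x - y| < δ := lt_of_le_of_lt (hxy.trans (min_le_left _ _)) (by linarith)
  have h2 : |x - y| ≤ 1 := hxy.trans (min_le_right _ _)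
  have e1 : G (x - (⌊x⌋ : ℝ) * 1) = G x := hP.sub_int_mul_eq ⌊x⌋
  have e2 : G (y - (⌊x⌋ : ℝ) * 1) = G y := hP.sub_int_mul_eq ⌊x⌋
  have f1 := Int.floor_le x
  have f2 := Int.lt_floor_add_one x
  obtain ⟨h3, h4⟩ := abs_le.1 h2
  have h5 := hu (x - (⌊x⌋ : ℝ) * 1) ⟨by linarith, by linarith⟩ (y - (⌊x⌋ : ℝ) * 1)
    ⟨by linarith, by linarith⟩ (by
      rw [Real.dist_eq]
      have : x - (⌊x⌋ : ℝ) * 1 - (y - (⌊x⌋ : ℝ) * 1) = x - y := by ring
      rw [this]
      exact h1)
  rw [e1, e2, Real.dist_eq] at h5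
  have := le_abs_self (G x - G y)
  linarith

theorem bound (G : ℝ → ℝ) (hG : Continuous G) (hper : ∀ x, G (x + 1) = G x) :
    ∃ B : ℝ, 0 ≤ B ∧ ∀ x, |G x| ≤ B := by
  have hP : Function.Periodic G 1 := hper
  obtain ⟨B, hB⟩ := (isCompact_Icc (a := (0 : ℝ)) (b := 1)).exists_bound_of_continuousOn
    hG.continuousOn
  refine ⟨B, (norm_nonneg _).trans (hB 0 ⟨le_rfl, zero_le_one⟩), fun x => ?_⟩
  have e1 : G (x - (⌊x⌋ : ℝ) * 1) = G x := hP.sub_int_mul_eq ⌊x⌋
  have f1 := Int.floor_le x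
  have f2 := Int.lt_floor_add_one x
  rw [← e1]
  exact hB _ ⟨by linarith, by linarith⟩

end L1aux

open L1aux in
theorem T_L1 : S_L1 := by
  intro G hG hper hG0 h e hh he
  obtain ⟨B, hB0, hB⟩ := bound G hG hper
  set w : ℝ := e / 4 with hw
  have hw0 : 0 < w := by positivity
  obtain ⟨δ, hδ, hmod⟩ := modulus G hG hper w hw0
  set κ : ℝ := min 1 (e / (2 * (B + 1))) with hκ
  have hκ0 : 0 < κ := by positivity
  have hκ1 : κ ≤ 1 := min_le_left _ _
  have hκ2 : κ * B ≤ e / 2 := by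
    have h1 : κ ≤ e / (2 * (B + 1)) := min_le_right _ _
    calc κ * B ≤ e / (2 * (B + 1)) * B := mul_le_mul_of_nonneg_right h1 hB0
      _ ≤ e / 2 := by
        rw [div_mul_eq_mul_div, div_le_div_iff₀ (by positivity) (by norm_num)]
        nlinarith
  obtain ⟨N₀, hN₀⟩ := exists_nat_gt (1 / min δ (h * κ / 2))
  refine ⟨N₀ + 1, fun N hN i => ?_⟩
  have hmin : 0 < min δ (h * κ / 2) := by positivity
  have hNpos : (0 : ℝ) < N := by
    have : (1 : ℝ) ≤ N := by exact_mod_cast (by omega : 1 ≤ N)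
    linarith
  set d : ℝ := 1 / (2 * N) with hd
  have hd0 : 0 < d := by positivity
  have hdm : d ≤ min δ (h * κ / 2) := by
    have h1 : 1 / min δ (h * κ / 2) < N := by
      refine hN₀.trans_le ?_
      exact_mod_cast (by omega : N₀ ≤ N)
    rw [div_lt_iff₀ hmin] at h1
    rw [hd, div_le_iff₀ (by positivity)]
    nlinarith
  have hdδ : d ≤ δ := hdm.trans (min_le_left _ _)
  have hdh : d ≤ h * κ / 2 := hdm.trans (min_le_right _ _)
  set ε : ℝ := d / h + d ^ 2 / h ^ 2 with hε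
  have hε0 : 0 ≤ ε := by positivity
  have hεκ : ε ≤ κ := by
    have h1 : d / h ≤ κ / 2 := by
      rw [div_le_iff₀ hh]
      linarith
    have h2 : d ^ 2 / h ^ 2 ≤ κ / 2 := by
      rw [← div_pow]
      have h3 : 0 ≤ d / h := by positivity
      nlinarith
    linarith
  -- the integrand
  set P : ℝ → ℝ := fun t => PK h ((i : ℝ) / N - t) * (G t + w) with hP
  have hPKi : Integrable (fun t : ℝ => PK h ((i : ℝ) / N - t)) :=
    (PK_integrable h hh).comp_sub_left _
  have hPG : Integrable (fun t : ℝ => PK h ((i : ℝ) / N - t) * G t) := by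
    refine hPKi.mul_bdd (c := B) hG.aestronglyMeasurable ?_
    exact Filter.Eventually.of_forall hB
  have hPi : Integrable P := by
    have : P = fun t => PK h ((i : ℝ) / N - t) * G t + w * PK h ((i : ℝ) / N - t) := by
      funext t; rw [hP]; ring
    rw [this]
    exact hPG.add (hPKi.const_mul w)
  have hPint : ∫ t, P t = (∫ t : ℝ, PK h ((i : ℝ) / N - t) * G t) + w := by
    have : P = fun t => PK h ((i : ℝ) / N - t) * G t + w * PK h ((i : ℝ) / N - t) := by
      funext t; rw [hP]; ring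
    rw [this, integral_add hPG (hPKi.const_mul w), integral_const_mul,
      integral_sub_left_eq_self (fun t => PK h t) volume ((i : ℝ) / N), PK_integral h hh, mul_one]
  set F : ℝ → ℝ := fun u => (1 / N) * (1 + ε) * P (u / N) with hF
  have hFi : Integrable F := (hPi.comp_div hNpos.ne').const_mul _
  have hFint : ∫ u, F u = (1 + ε) * ∫ t, P t := by
    rw [hF, integral_const_mul, MeasureTheory.Measure.integral_comp_div, abs_of_pos hNpos,
      smul_eq_mul]
    field_simp
  have hFcont : Continuous F := by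
    have h1 : Continuous (PK h) := by
      unfold PK
      apply Continuous.div continuous_const (by fun_prop)
      intro t
      have := Real.pi_pos
      positivity
    rw [hF, hP]
    have h2 : Continuous fun u : ℝ => PK h ((i : ℝ) / N - u / N) := h1.comp (by fun_prop)
    have h3 : Continuous fun u : ℝ => G (u / N) := hG.comp (by fun_prop)
    exact continuous_const.mul (h2.mul (h3.add continuous_const))
  have hsum := hFi.hasSum_intervalIntegral ((i : ℝ) - 1 / 2)
  have hterm : ∀ m : ℤ, kap (h * N) m * G (((i + m : ℤ) : ℝ) / N) ≤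
      ∫ u in ((i : ℝ) - 1 / 2 + m)..((i : ℝ) - 1 / 2 + m + 1), F u := by
    intro m
    have hconst : kap (h * N) m * G (((i + m : ℤ) : ℝ) / N) =
        ∫ _ in ((i : ℝ) - 1 / 2 + m)..((i : ℝ) - 1 / 2 + m + 1),
          kap (h * N) m * G (((i + m : ℤ) : ℝ) / N) := by
      rw [intervalIntegral.integral_const]
      simp
    rw [hconst]
    apply intervalIntegral.integral_mono_on (by linarith) _root_.intervalIntegrable_const
      (hFcont.intervalIntegrable _ _)
    intro u hu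
    obtain ⟨hu1, hu2⟩ := hu
    have hcell : |u / N - ((i + m : ℤ) : ℝ) / N| ≤ d := by
      rw [← sub_div, abs_div, abs_of_pos hNpos, hd, div_le_div_iff₀ hNpos (by positivity)]
      have : |u - ((i + m : ℤ) : ℝ)| ≤ 1 / 2 := by
        push_cast
        rw [abs_le]
        constructor <;> linarith
      nlinarith
    have hkap : kap (h * N) m = (1 / N) * PK h ((i : ℝ) / N - ((i + m : ℤ) : ℝ) / N) := by
      unfold kap PK
      have e1 : (i : ℝ) / N - ((i + m : ℤ) : ℝ) / N = -(m : ℝ) / N := by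
        push_cast
        ring
      rw [e1]
      have hp := Real.pi_pos
      field_simp
      ring
    rw [hkap, hF]
    show _ ≤ 1 / (N : ℝ) * (1 + ε) * (PK h ((i : ℝ) / N - u / N) * (G (u / N) + w))
    have hr := PK_ratio h d hh hd0.le ((i : ℝ) / N - ((i + m : ℤ) : ℝ) / N)
      ((i : ℝ) / N - u / N) (by
        have e2 : (i : ℝ) / N - ((i + m : ℤ) : ℝ) / N - ((i : ℝ) / N - u / N) =
          u / N - ((i + m : ℤ) : ℝ) / N := by ring
        rw [e2]
        exact hcell)
    have hg := hmod (((i + m : ℤ) : ℝ) / N) (u / N) (by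
      rw [abs_sub_comm]
      exact hcell.trans hdδ)
    have hk0 := PK_nonneg h hh ((i : ℝ) / N - ((i + m : ℤ) : ℝ) / N)
    have hk1 := PK_nonneg h hh ((i : ℝ) / N - u / N)
    calc 1 / (N : ℝ) * PK h ((i : ℝ) / N - ((i + m : ℤ) : ℝ) / N) * G (((i + m : ℤ) : ℝ) / N)
        = 1 / (N : ℝ) * (PK h ((i : ℝ) / N - ((i + m : ℤ) : ℝ) / N) *
            G (((i + m : ℤ) : ℝ) / N)) := by ring
      _ ≤ 1 / (N : ℝ) * (((1 + ε) * PK h ((i : ℝ) / N - u / N)) * (G (u / N) + w)) := by
          apply mul_le_mul_of_nonneg_left _ (by positivity)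
          apply mul_le_mul hr hg (hG0 _)
          positivity
      _ = _ := by ring
  have hterm0 : ∀ m : ℤ, 0 ≤ kap (h * N) m * G (((i + m : ℤ) : ℝ) / N) := by
    intro m
    apply mul_nonneg _ (hG0 _)
    unfold kap
    have hp := Real.pi_pos
    positivity
  have hsL : Summable fun m : ℤ => kap (h * N) m * G (((i + m : ℤ) : ℝ) / N) :=
    Summable.of_nonneg_of_le hterm0 hterm hsum.summable
  have hle := hasSum_le hterm hsL.hasSum hsum
  refine hle.trans ?_
  rw [hFint, hPint]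
  set A : ℝ := ∫ t : ℝ, PK h ((i : ℝ) / N - t) * G t with hA
  have hAB : A ≤ B := by
    have h1 : A ≤ ∫ t : ℝ, B * PK h ((i : ℝ) / N - t) := by
      apply integral_mono hPG (hPKi.const_mul B)
      intro t
      show PK h ((i : ℝ) / N - t) * G t ≤ B * PK h ((i : ℝ) / N - t)
      rw [mul_comm]
      exact mul_le_mul_of_nonneg_right ((le_abs_self _).trans (hB t)) (PK_nonneg h hh _)
    rw [integral_const_mul,
      integral_sub_left_eq_self (fun t => PK h t) volume ((i : ℝ) / N), PK_integral h hh,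
      mul_one] at h1
    exact h1
  have h1 : ε * A ≤ e / 2 := by
    calc ε * A ≤ ε * B := mul_le_mul_of_nonneg_left hAB hε0
      _ ≤ κ * B := mul_le_mul_of_nonneg_right hεκ hB0
      _ ≤ e / 2 := hκ2
  have h2 : (1 + ε) * w ≤ e / 2 := by
    have : 1 + ε ≤ 2 := by linarith
    nlinarith
  nlinarith

end H961Lev
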