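import Pool.Agent.H961R2.Lev.Stubs

open MeasureTheory Set Filter Topology InnerProductSpace Complex

namespace H961Lev

namespace P1aux

theorem circleMap_zet (R t : ℝ) :
    circleMap ((R : ℂ) * I) R (t / R - Real.pi / 2) = zet R t := by
  unfold circleMap zet
  have h1 : Complex.exp (((t / R - Real.pi / 2 : ℝ) : ℂ) * I) =
      ((Real.sin (t / R) : ℝ) : ℂ) - ((Real.cos (t / R) : ℝ) : ℂ) * I := by
    rw [Complex.exp_mul_I, ← Complex.ofReal_cos, ← Complex.ofReal_sin, Real.cos_sub_pi_div_two,
      Real.sin_sub_pi_div_two]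
    push_cast
    ring
  rw [h1]
  push_cast
  ring

theorem nsq (R : ℝ) (z : ℂ) : ‖z - (R : ℂ) * I‖ ^ 2 = ‖z‖ ^ 2 - 2 * R * z.im + R ^ 2 := by
  rw [← Complex.normSq_eq_norm_sq, ← Complex.normSq_eq_norm_sq, Complex.normSq_apply,
    Complex.normSq_apply]
  simp
  ring

end P1aux

open P1aux in
theorem T_P1 : S_P1 := by
  intro u hu z R hR hz
  set c : ℂ := (R : ℂ) * I with hc
  have hcim : c.im = R := by simp [hc]
  have hball : Metric.ball c R ⊆ {z : ℂ | 0 < z.im} := by
    intro w hw
    rw [Metric.mem_ball, Complex.dist_eq] at hw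
    have h1 := Complex.abs_im_le_norm (w - c)
    rw [Complex.sub_im, hcim] at h1
    have h2 := (abs_lt.1 (lt_of_le_of_lt h1 hw)).1
    show 0 < w.im
    linarith
  have hcball : Metric.closedBall c R ⊆ {z : ℂ | 0 ≤ z.im} := by
    intro w hw
    rw [Metric.mem_closedBall, Complex.dist_eq] at hw
    have h1 := Complex.abs_im_le_norm (w - c)
    rw [Complex.sub_im, hcim] at h1
    have h2 := (abs_le.1 (h1.trans hw)).1
    show 0 ≤ w.im
    linarith
  have hharm : HarmonicContOnCl u (Metric.ball c R) := by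
    refine ⟨hu.harm.mono hball, ?_⟩
    rw [closure_ball c hR.ne']
    exact hu.cont.mono hcball
  have hzb : z ∈ Metric.ball c R := by
    rw [Metric.mem_ball, Complex.dist_eq]
    have h1 := nsq R z
    have h2 : ‖z - c‖ ^ 2 < R ^ 2 := by
      rw [hc, h1]
      linarith
    exact lt_of_pow_lt_pow_left₀ 2 hR.le h2
  have key := hharm.circleAverage_poissonKernel_smul hzb
  rw [Real.circleAverage_eq_integral_add (-(3 * Real.pi / 2))] at key
  set g : ℝ → ℝ := fun θ => (poissonKernel c z • u) (circleMap c R θ) with hg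
  have e1 : ∫ θ in (0 : ℝ)..2 * Real.pi, g (θ + -(3 * Real.pi / 2)) =
      ∫ θ in (-(3 * Real.pi / 2))..(Real.pi / 2), g θ := by
    rw [intervalIntegral.integral_comp_add_right g]
    congr 1 <;> ring
  have e2 : ∫ t in (-(Real.pi * R))..(Real.pi * R), g (t / R - Real.pi / 2) =
      R * ∫ θ in (-(3 * Real.pi / 2))..(Real.pi / 2), g θ := by
    rw [intervalIntegral.integral_comp_div_sub g hR.ne', smul_eq_mul]
    congr 2
    · field_simp
      ring
    · field_simp
      ring
  have e3 : ∀ t : ℝ, u (zet R t) * KR R z t = R⁻¹ * g (t / R - Real.pi / 2) := by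
    intro t
    show u (zet R t) * KR R z t = R⁻¹ * (poissonKernel c z (circleMap c R (t / R - Real.pi / 2)) •
      u (circleMap c R (t / R - Real.pi / 2)))
    rw [hc, circleMap_zet, poissonKernel_def, smul_eq_mul]
    have h1 : ‖zet R t - (R : ℂ) * I‖ ^ 2 = R ^ 2 := by
      have h3 : circleMap ((R : ℂ) * I) R (t / R - Real.pi / 2) ∈
          Metric.sphere ((R : ℂ) * I) R := circleMap_mem_sphere _ hR.le _
      rw [mem_sphere_iff_norm, circleMap_zet] at h3
      rw [h3]
    have h2 : zet R t - (R : ℂ) * I - (z - (R : ℂ) * I) = zet R t - z := by ring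
    rw [h1, nsq, h2]
    unfold KR
    by_cases h0 : ‖zet R t - z‖ = 0
    · rw [h0]
      simp
    · field_simp
      ring
  have e4 : ∫ t in (-(Real.pi * R))..(Real.pi * R), u (zet R t) * KR R z t =
      ∫ θ in (-(3 * Real.pi / 2))..(Real.pi / 2), g θ := by
    have : (fun t : ℝ => u (zet R t) * KR R z t) = fun t => R⁻¹ * g (t / R - Real.pi / 2) := by
      funext t; exact e3 t
    rw [this, intervalIntegral.integral_const_mul, e2, ← mul_assoc, inv_mul_cancel₀ hR.ne', one_mul]
  rw [e4, ← e1, one_div]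
  exact key.symm

end H961Lev
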