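import Mathlib

/-! # Closed subgroups of a complex torus: one-parameter subgroups -/

open Filter Topology

namespace H715R2

set_option linter.unusedSectionVars false

variable {ι : Type*} [Fintype ι]

/-- exponential into the unit group -/
noncomputable def expU (z : ℂ) : ℂˣ := Units.mk0 (Complex.exp z) (Complex.exp_ne_zero z)

/-- coordinatewise exponential -/
noncomputable def expM (η : ι → ℂ) : ι → ℂˣ := fun i => expU (η i)

@[simp] lemma coe_expM (η : ι → ℂ) (i : ι) : ((expM η i : ℂˣ) : ℂ) = Complex.exp (η i) := rfl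

lemma expM_add (η η' : ι → ℂ) : expM (η + η') = expM η * expM η' := by
  funext i
  apply Units.ext
  simp [Complex.exp_add]

lemma expM_zero : expM (0 : ι → ℂ) = 1 := by
  funext i
  apply Units.ext
  simp

lemma expM_neg (η : ι → ℂ) : expM (-η) = (expM η)⁻¹ := by
  rw [eq_inv_iff_mul_eq_one, ← expM_add, neg_add_cancel, expM_zero]

lemma expM_zsmul (n : ℤ) (η : ι → ℂ) : expM ((n : ℝ) • η) = (expM η) ^ n := by
  funext i
  apply Units.ext
  rw [coe_expM, Pi.pow_apply, Units.val_zpow_eq_zpow_val, coe_expM, ← Complex.exp_int_mul]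
  simp

lemma continuous_expM : Continuous (expM : (ι → ℂ) → (ι → ℂˣ)) := by
  refine continuous_pi fun i => ?_
  rw [Units.isEmbedding_val₀.continuous_iff]
  exact Complex.continuous_exp.comp (continuous_apply i)

/-- The tangent space of a closed subgroup. -/
noncomputable def tang (C : Subgroup (ι → ℂˣ)) : Submodule ℝ (ι → ℂ) where
  carrier := {η | ∀ t : ℝ, expM (t • η) ∈ C}
  add_mem' := by
    intro a b ha hb t
    rw [smul_add, expM_add]
    exact C.mul_mem (ha t) (hb t)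
  zero_mem' := by
    intro t
    rw [smul_zero, expM_zero]
    exact C.one_mem
  smul_mem' := by
    intro c x hx t
    rw [smul_smul]
    exact hx _

lemma mem_tang {C : Subgroup (ι → ℂˣ)} {η : ι → ℂ} : η ∈ tang C ↔ ∀ t : ℝ, expM (t • η) ∈ C :=
  Iff.rfl

/-- Limit directions of small elements belong to the tangent space. -/
theorem exists_limit_direction (C : Subgroup (ι → ℂˣ)) (hC : IsClosed (C : Set (ι → ℂˣ)))
    (b : ℕ → ι → ℂ) (hb : Tendsto b atTop (𝓝 0)) (hb0 : ∀ n, b n ≠ 0)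
    (hbC : ∀ n, expM (b n) ∈ C) :
    ∃ β : ι → ℂ, ‖β‖ = 1 ∧ β ∈ tang C ∧ ∃ φ : ℕ → ℕ, StrictMono φ ∧
      Tendsto (fun n => (‖b (φ n)‖⁻¹ : ℝ) • b (φ n)) atTop (𝓝 β) := by
  have hnorm : ∀ n, (‖b n‖⁻¹ : ℝ) • b n ∈ Metric.sphere (0 : ι → ℂ) 1 := by
    intro n
    rw [mem_sphere_zero_iff_norm, norm_smul, norm_inv, norm_norm]
    exact inv_mul_cancel₀ (norm_ne_zero_iff.2 (hb0 n))
  obtain ⟨β, hβ, φ, hφ, hlim⟩ := (isCompact_sphere (0 : ι → ℂ) 1).tendsto_subseq hnorm
  refine ⟨β, by simpa using hβ, ?_, φ, hφ, hlim⟩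
  rw [mem_tang]
  intro t
  have hnb : Tendsto (fun n => ‖b (φ n)‖) atTop (𝓝 0) := by
    have := (hb.comp hφ.tendsto_atTop).norm
    simpa using this
  have h1 : Tendsto (fun n => ((⌊t / ‖b (φ n)‖⌋ : ℝ) * ‖b (φ n)‖)) atTop (𝓝 t) := by
    have h2 : ∀ n, t - ‖b (φ n)‖ ≤ (⌊t / ‖b (φ n)‖⌋ : ℝ) * ‖b (φ n)‖ ∧
        (⌊t / ‖b (φ n)‖⌋ : ℝ) * ‖b (φ n)‖ ≤ t := by
      intro n
      have hpos : 0 < ‖b (φ n)‖ := norm_pos_iff.2 (hb0 _)
      constructor
      · have := (Int.sub_one_lt_floor (t / ‖b (φ n)‖)).le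
        have h3 := mul_le_mul_of_nonneg_right this hpos.le
        rw [sub_mul, div_mul_cancel₀ _ hpos.ne', one_mul] at h3
        exact h3
      · have h3 := mul_le_mul_of_nonneg_right (Int.floor_le (t / ‖b (φ n)‖)) hpos.le
        rwa [div_mul_cancel₀ _ hpos.ne'] at h3
    refine tendsto_of_tendsto_of_tendsto_of_le_of_le ?_ tendsto_const_nhds
      (fun n => (h2 n).1) (fun n => (h2 n).2)
    have := hnb.const_sub t
    simpa using this
  have h4 : Tendsto (fun n => ((⌊t / ‖b (φ n)‖⌋ : ℤ) : ℝ) • b (φ n)) atTop (𝓝 (t • β)) := by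
    have h5 := h1.smul hlim
    refine h5.congr fun n => ?_
    simp only [Function.comp]
    rw [smul_smul, mul_assoc, mul_inv_cancel₀ (norm_ne_zero_iff.2 (hb0 _)), mul_one]
  refine hC.mem_of_tendsto ((continuous_expM.tendsto _).comp h4) (Eventually.of_forall fun n => ?_)
  simp only [Function.comp]
  rw [expM_zsmul]
  exact C.zpow_mem (hbC _) _

/-- Near the identity a closed subgroup is the exponential of its tangent space. -/
theorem exists_nhds_tang (C : Subgroup (ι → ℂˣ)) (hC : IsClosed (C : Set (ι → ℂˣ))) :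
    ∃ δ : ℝ, 0 < δ ∧ ∀ η : ι → ℂ, ‖η‖ < δ → expM η ∈ C → η ∈ tang C := by
  by_contra hcon
  push Not at hcon
  have h1 : ∀ n : ℕ, ∃ η : ι → ℂ, ‖η‖ < 1 / ((n : ℝ) + 1) ∧ expM η ∈ C ∧ η ∉ tang C :=
    fun n => hcon _ (by positivity)
  choose η hη hηC hηt using h1
  obtain ⟨q, hq⟩ := (tang C).exists_isCompl
  -- projection onto `tang C` along `q`
  set P : (ι → ℂ) →ₗ[ℝ] (ι → ℂ) := (tang C).subtype ∘ₗ (tang C).projectionOnto q hq with hP
  have hPt : ∀ x, P x ∈ tang C := fun x => by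
    rw [hP]; exact ((tang C).projectionOnto q hq x).2
  have hPq : ∀ x, x - P x ∈ q := by
    intro x
    have h2 : (tang C).projectionOnto q hq (x - P x) = 0 := by
      rw [map_sub, hP]
      simp only [LinearMap.comp_apply, Submodule.subtype_apply]
      rw [Submodule.projectionOnto_apply_left]
      simp
    exact (Submodule.projectionOnto_apply_eq_zero_iff hq).1 h2
  have hPc : Continuous P := P.continuous_of_finiteDimensional
  have hη0 : Tendsto η atTop (𝓝 0) := by
    rw [tendsto_zero_iff_norm_tendsto_zero]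
    exact squeeze_zero (fun n => norm_nonneg _) (fun n => (hη n).le)
      tendsto_one_div_add_atTop_nhds_zero_nat
  set b : ℕ → ι → ℂ := fun n => η n - P (η n) with hb
  have hb0 : Tendsto b atTop (𝓝 0) := by
    have h3 : Tendsto (fun n => η n - P (η n)) atTop (𝓝 (0 - P 0)) :=
      hη0.sub ((hPc.tendsto 0).comp hη0)
    simpa using h3
  have hbne : ∀ n, b n ≠ 0 := by
    intro n h
    apply hηt n
    have : η n = P (η n) := sub_eq_zero.1 h
    rw [this]
    exact hPt _
  have hbC : ∀ n, expM (b n) ∈ C := by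
    intro n
    have h4 : expM (-(P (η n))) ∈ C := by
      have := hPt (η n)
      rw [mem_tang] at this
      have := this (-1)
      simpa using this
    have h5 : b n = η n + -(P (η n)) := sub_eq_add_neg _ _
    rw [h5, expM_add]
    exact C.mul_mem (hηC n) h4
  obtain ⟨β, hβ1, hβt, φ, hφ, hlim⟩ := exists_limit_direction C hC b hb0 hbne hbC
  have hβq : β ∈ q := by
    have hqc : IsClosed (q : Set (ι → ℂ)) := q.closed_of_finiteDimensional
    refine hqc.mem_of_tendsto hlim (Eventually.of_forall fun n => ?_)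
    exact q.smul_mem _ (hPq _)
  have : β ∈ tang C ⊓ q := ⟨hβt, hβq⟩
  rw [hq.inf_eq_bot, Submodule.mem_bot] at this
  rw [this, norm_zero] at hβ1
  exact zero_ne_one hβ1

/-- local logarithm -/
lemma exists_log (δ : ℝ) (hδ : 0 < δ) : ∃ δ' : ℝ, 0 < δ' ∧ ∀ g : ι → ℂˣ,
    (∀ i, ‖((g i : ℂˣ) : ℂ) - 1‖ < δ') → ∃ η : ι → ℂ, ‖η‖ < δ ∧ expM η = g := by
  have hcont : ContinuousAt Complex.log 1 := continuousAt_clog (by simp)
  rw [Metric.continuousAt_iff] at hcont
  obtain ⟨δ', hδ', h⟩ := hcont δ hδ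
  refine ⟨δ', hδ', fun g hg => ⟨fun i => Complex.log (g i), ?_, ?_⟩⟩
  · rw [pi_norm_lt_iff hδ]
    intro i
    have := h (x := (g i : ℂ)) (by rw [dist_eq_norm]; exact hg i)
    rwa [Complex.log_one, dist_zero_right] at this
  · funext i
    apply Units.ext
    rw [coe_expM, Complex.exp_log (Units.ne_zero _)]

end H715R2
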