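import Mathlib

/-! # Complex embeddings of a number field -/

open NumberField

namespace H715R2

variable {K : Type*} [Field K] [NumberField K]

/-- the field where two embeddings agree -/
def eqF (τ τ' : K →+* ℂ) : IntermediateField ℚ K where
  carrier := {z | τ z = τ' z}
  mul_mem' := by
    intro a b ha hb
    simp only [Set.mem_ofPred_eq, map_mul] at *
    rw [ha, hb]
  one_mem' := by simp
  add_mem' := by
    intro a b ha hb
    simp only [Set.mem_ofPred_eq, map_add] at *
    rw [ha, hb]
  zero_mem' := by simp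
  algebraMap_mem' := by
    intro r
    simp
  inv_mem' := by
    intro a ha
    simp only [Set.mem_ofPred_eq, map_inv₀] at *
    rw [ha]

lemma mem_eqF {τ τ' : K →+* ℂ} {z : K} : z ∈ eqF τ τ' ↔ τ z = τ' z := Iff.rfl

/-- If `τ ≠ τ'`, then for every embedding `φ` there is another embedding which agrees with `φ` on
the subfield where `τ = τ'`. -/
theorem exists_other (τ τ' φ : K →+* ℂ) (h : τ ≠ τ') :
    ∃ ψ : K →+* ℂ, ψ ≠ φ ∧ ∀ z : K, τ z = τ' z → ψ z = φ z := by
  set F := eqF τ τ' with hF
  have hne : F ≠ ⊤ := by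
    intro htop
    apply h
    ext z
    have : z ∈ F := by rw [htop]; trivial
    exact this
  let _ : Algebra F ℂ := (φ.comp (algebraMap F K)).toAlgebra
  have hcard := AlgHom.card F K ℂ
  have hfr : Module.finrank F K ≠ 1 := by
    intro h1
    exact hne (IntermediateField.finrank_eq_one_iff_eq_top.1 h1)
  have hpos : 0 < Module.finrank F K := Module.finrank_pos
  have hlt : 1 < Fintype.card (K →ₐ[F] ℂ) := by rw [hcard]; omega
  let φ0 : K →ₐ[F] ℂ := { φ with commutes' := fun r => rfl }
  obtain ⟨ψ, hψ⟩ := Fintype.exists_ne_of_one_lt_card hlt φ0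
  refine ⟨ψ.toRingHom, ?_, ?_⟩
  · intro heq
    apply hψ
    ext z
    have := congrArg (fun f : K →+* ℂ => f z) heq
    exact this
  · intro z hz
    exact ψ.commutes ⟨z, hz⟩

/-- linear independence of the embeddings -/
theorem embed_indep {d : ℕ} (b : Module.Basis (Fin d) ℚ K) (c : (K →+* ℂ) → ℂ)
    (h : ∀ j, ∑ τ : K →+* ℂ, c τ * τ (b j) = 0) : c = 0 := by
  have hz : ∀ z : K, ∑ τ : K →+* ℂ, c τ * τ z = 0 := by
    intro z
    rw [← b.sum_repr z]
    simp only [map_sum, Finset.mul_sum]
    rw [Finset.sum_comm]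
    refine Finset.sum_eq_zero fun j _ => ?_
    have : ∀ τ : K →+* ℂ, c τ * τ (b.repr z j • b j) = (b.repr z j : ℂ) * (c τ * τ (b j)) := by
      intro τ
      rw [Algebra.smul_def, map_mul]
      have : τ ((algebraMap ℚ K) (b.repr z j)) = (b.repr z j : ℂ) := by simp
      rw [this]; ring
    rw [Finset.sum_congr rfl fun τ _ => this τ, ← Finset.mul_sum, h j, mul_zero]
  have hli := linearIndependent_monoidHom K ℂ
  have hinj : Function.Injective (fun τ : K →+* ℂ => (τ : K →* ℂ)) := by
    intro τ τ' h
    ext z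
    exact congrArg (fun f : K →* ℂ => f z) h
  have hli' := hli.comp _ hinj
  rw [Fintype.linearIndependent_iff] at hli'
  funext τ
  refine hli' c ?_ τ
  funext z
  simp only [Finset.sum_apply, Pi.smul_apply, Function.comp_apply, smul_eq_mul, Pi.zero_apply]
  exact hz z

/-- every complex vector is a combination of the embedding vectors -/
theorem embed_surj {d : ℕ} (b : Module.Basis (Fin d) ℚ K) (v : Fin d → ℂ) :
    ∃ c : (K →+* ℂ) → ℂ, ∀ j, v j = ∑ τ : K →+* ℂ, c τ * τ (b j) := by
  let T : ((K →+* ℂ) → ℂ) →ₗ[ℂ] (Fin d → ℂ) :=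
    { toFun := fun c j => ∑ τ : K →+* ℂ, c τ * τ (b j)
      map_add' := by
        intro c c'; funext j
        simp [add_mul, Finset.sum_add_distrib]
      map_smul' := by
        intro a c; funext j
        simp [Finset.mul_sum, mul_assoc] }
  have hinj : Function.Injective T := by
    rw [injective_iff_map_eq_zero]
    intro c hc
    exact embed_indep b c fun j => congrFun hc j
  have hfin : Module.finrank ℂ ((K →+* ℂ) → ℂ) = Module.finrank ℂ (Fin d → ℂ) := by
    rw [Module.finrank_fintype_fun_eq_card, Module.finrank_fintype_fun_eq_card,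
      NumberField.Embeddings.card K ℂ, Module.finrank_eq_card_basis b]
  have hsurj := (LinearMap.injective_iff_surjective_of_finrank_eq_finrank hfin).1 hinj
  obtain ⟨c, hc⟩ := hsurj v
  exact ⟨c, fun j => (congrFun hc j).symm⟩

/-- conversely every vector of values of embeddings is attained -/
theorem embed_surj' {d : ℕ} (b : Module.Basis (Fin d) ℚ K) (v : (K →+* ℂ) → ℂ) :
    ∃ x : Fin d → ℂ, ∀ τ : K →+* ℂ, ∑ j, x j * τ (b j) = v τ := by
  let T : (Fin d → ℂ) →ₗ[ℂ] ((K →+* ℂ) → ℂ) :=
    { toFun := fun x τ => ∑ j, x j * τ (b j)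
      map_add' := by
        intro c c'; funext j
        simp [add_mul, Finset.sum_add_distrib]
      map_smul' := by
        intro a c; funext j
        simp [Finset.mul_sum, mul_assoc] }
  have hfin : Module.finrank ℂ (Fin d → ℂ) = Module.finrank ℂ ((K →+* ℂ) → ℂ) := by
    rw [Module.finrank_fintype_fun_eq_card, Module.finrank_fintype_fun_eq_card,
      NumberField.Embeddings.card K ℂ, Module.finrank_eq_card_basis b]
  have hinj : Function.Injective T := by
    rw [injective_iff_map_eq_zero]
    intro x hx
    -- pair `x` with all vectors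
    have key : ∀ y : Fin d → ℂ, ∑ j, y j * x j = 0 := by
      intro y
      obtain ⟨c, hc⟩ := embed_surj b y
      have : ∑ j, y j * x j = ∑ τ : K →+* ℂ, c τ * ∑ j, x j * τ (b j) := by
        simp only [hc, Finset.sum_mul, Finset.mul_sum]
        rw [Finset.sum_comm]
        refine Finset.sum_congr rfl fun τ _ => Finset.sum_congr rfl fun j _ => ?_
        ring
      rw [this]
      refine Finset.sum_eq_zero fun τ _ => ?_
      have h1 : ∑ j, x j * τ (b j) = 0 := congrFun hx τ
      rw [h1, mul_zero]
    funext j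
    have := key (Pi.single j 1)
    simpa [Pi.single_apply] using this
  have hsurj := (LinearMap.injective_iff_surjective_of_finrank_eq_finrank hfin).1 hinj
  obtain ⟨x, hx⟩ := hsurj v
  exact ⟨x, fun τ => congrFun hx τ⟩

end H715R2
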