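import Mathlib

/-! # Small linear algebra and approximation lemmas -/

open Filter Topology

namespace H715R2

lemma exp_all_one (z : ℂ) (h : ∀ t : ℝ, Complex.exp (t * z) = 1) : z = 0 := by
  by_contra hz
  have hz' : 0 < ‖z‖ := norm_pos_iff.2 hz
  have h1 := h (Real.pi / ‖z‖)
  rw [Complex.exp_eq_one_iff] at h1
  obtain ⟨n, hn⟩ := h1
  have h2 := congrArg norm hn
  rw [norm_mul, Complex.norm_real, Real.norm_eq_abs, abs_of_pos (by positivity),
    div_mul_cancel₀ _ hz'.ne', norm_mul, Complex.norm_intCast, norm_mul, norm_mul,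
    Complex.norm_I, mul_one, Complex.norm_real, Real.norm_eq_abs, abs_of_pos Real.pi_pos] at h2
  simp only [Complex.norm_ofNat] at h2
  have h3 : (|n| : ℝ) * 2 = 1 := by
    have hpi := Real.pi_pos
    have : (|(n : ℝ)| * 2 - 1) * Real.pi = 0 := by linear_combination -h2
    rcases mul_eq_zero.1 this with h | h
    · linarith
    · exact absurd h hpi.ne'
  have h4 : |n| * 2 = 1 := by exact_mod_cast h3
  omega

/-- two functionals, the second not a nonnegative multiple of the first -/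
lemma exists_pos_neg {V : Type*} [AddCommGroup V] [Module ℝ V] (f g : V →ₗ[ℝ] ℝ) (hf : f ≠ 0)
    (h : ¬ ∃ κ : ℝ, 0 ≤ κ ∧ g = κ • f) : ∃ x, 0 < f x ∧ g x < 0 := by
  obtain ⟨x0, hx0⟩ : ∃ x0, f x0 = 1 := by
    obtain ⟨y, hy⟩ : ∃ y, f y ≠ 0 := by
      by_contra hcon
      push Not at hcon
      exact hf (LinearMap.ext hcon)
    exact ⟨(f y)⁻¹ • y, by rw [map_smul, smul_eq_mul, inv_mul_cancel₀ hy]⟩
  by_cases hker : ∃ y, f y = 0 ∧ g y ≠ 0
  · obtain ⟨y, hy, hgy⟩ := hker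
    refine ⟨x0 + ((-1 - g x0) / g y) • y, ?_, ?_⟩
    · rw [map_add, map_smul, hy, hx0]; simp
    · rw [map_add, map_smul, smul_eq_mul, div_mul_cancel₀ _ hgy]; linarith
  · push Not at hker
    have hg : g = (g x0) • f := by
      refine LinearMap.ext fun x => ?_
      have h1 := hker (x - f x • x0) (by rw [map_sub, map_smul, hx0]; simp)
      rw [map_sub, map_smul, smul_eq_mul, sub_eq_zero] at h1
      rw [LinearMap.smul_apply, smul_eq_mul, h1, mul_comm]
    refine ⟨x0, by rw [hx0]; exact one_pos, ?_⟩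
    by_contra hcon
    exact h ⟨g x0, not_lt.1 hcon, hg⟩

/-- an open set contains a rational point, with common denominator -/
lemma exists_int_point {d : ℕ} (U : Set (Fin d → ℝ)) (hU : IsOpen U) (x : Fin d → ℝ) (hx : x ∈ U) :
    ∃ (m : Fin d → ℤ) (k : ℕ), 0 < k ∧ (fun j => (m j : ℝ) / k) ∈ U := by
  have h1 : Tendsto (fun (k : ℕ) (j : Fin d) => ((⌊(k + 1 : ℝ) * x j⌋ : ℤ) : ℝ) / ((k + 1 : ℕ) : ℝ))
      atTop (𝓝 x) := by
    rw [tendsto_pi_nhds]
    intro j
    have h2 : ∀ k : ℕ, |((⌊(k + 1 : ℝ) * x j⌋ : ℤ) : ℝ) / ((k + 1 : ℕ) : ℝ) - x j|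
        ≤ 1 / ((k : ℝ) + 1) := by
      intro k
      have hk : (0 : ℝ) < (k : ℝ) + 1 := by positivity
      have e1 := Int.floor_le ((k + 1 : ℝ) * x j)
      have e2 := Int.lt_floor_add_one ((k + 1 : ℝ) * x j)
      have e3 : ((⌊(k + 1 : ℝ) * x j⌋ : ℤ) : ℝ) / ((k + 1 : ℕ) : ℝ) - x j
          = (((⌊(k + 1 : ℝ) * x j⌋ : ℤ) : ℝ) - ((k : ℝ) + 1) * x j) / ((k : ℝ) + 1) := by
        push_cast
        field_simp
      rw [e3, abs_div, abs_of_pos hk]
      refine div_le_div_of_nonneg_right ?_ hk.le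
      rw [abs_le]
      constructor <;> linarith
    rw [tendsto_iff_norm_sub_tendsto_zero]
    exact squeeze_zero (fun k => norm_nonneg _) h2 tendsto_one_div_add_atTop_nhds_zero_nat
  have h3 := h1.eventually (hU.mem_nhds hx)
  obtain ⟨k, hk⟩ := h3.exists
  exact ⟨fun j => ⌊(k + 1 : ℝ) * x j⌋, k + 1, by omega, hk⟩

end H715R2
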