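import Mathlib

/-! # Units of a number field: approximation of directions, action on a full module -/

open NumberField NumberField.Units NumberField.Units.dirichletUnitTheorem

namespace H715R2

variable (K : Type*) [Field K] [NumberField K]

open scoped Classical in
/-- Every point of the hyperplane `∑ mult w * p w = 0` is within bounded distance of the
logarithmic image of a unit. -/
theorem exists_unit_near :
    ∃ R : ℝ, 0 ≤ R ∧ ∀ p : InfinitePlace K → ℝ, ∑ w, (w.mult : ℝ) * p w = 0 →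
      ∃ u : (𝓞 K)ˣ, ∀ w : InfinitePlace K, |Real.log (w ((u : 𝓞 K) : K)) - p w| ≤ R := by
  let B := (basisUnitLattice K).ofZLatticeBasis ℝ (unitLattice K)
  set R1 : ℝ := ∑ k, ‖B k‖ with hR1
  have hR1' : 0 ≤ R1 := Finset.sum_nonneg fun _ _ => norm_nonneg _
  set R : ℝ := (1 + Fintype.card {w : InfinitePlace K // w ≠ w₀}) * R1 with hR
  refine ⟨R, by positivity, fun p hp => ?_⟩
  set p' : logSpace K := fun w => (w.1.mult : ℝ) * p w.1 with hp'
  set a : Fin (rank K) → ℝ := fun k => B.repr p' k with ha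
  have hsum : p' = ∑ k, a k • B k := (B.sum_repr p').symm
  set u : (𝓞 K)ˣ := ∏ k, fundSystem K k ^ ⌊a k⌋ with hu
  have hBk : ∀ k, B k = logEmbedding K (Additive.ofMul (fundSystem K k)) := by
    intro k
    rw [Module.Basis.ofZLatticeBasis_apply, logEmbedding_fundSystem]
  have hlog : logEmbedding K (Additive.ofMul u) = ∑ k, (⌊a k⌋ : ℝ) • B k := by
    rw [hu, ofMul_prod, map_sum]
    refine Finset.sum_congr rfl fun k _ => ?_
    rw [ofMul_zpow, map_zsmul, hBk, Int.cast_smul_eq_zsmul]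
  have hdiff : ‖logEmbedding K (Additive.ofMul u) - p'‖ ≤ R1 := by
    rw [hlog, hsum, ← Finset.sum_sub_distrib]
    refine (norm_sum_le _ _).trans ?_
    refine Finset.sum_le_sum fun k _ => ?_
    rw [← sub_smul, norm_smul]
    refine mul_le_of_le_one_left (norm_nonneg _) ?_
    rw [Real.norm_eq_abs, abs_sub_comm, abs_of_nonneg (sub_nonneg.2 (Int.floor_le _))]
    exact (Int.fract_lt_one (a k)).le
  have hcomp : ∀ w : {w : InfinitePlace K // w ≠ w₀},
      |(w.1.mult : ℝ) * (Real.log (w.1 ((u : 𝓞 K) : K)) - p w.1)| ≤ R1 := by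
    intro w
    have h1 := norm_le_pi_norm (logEmbedding K (Additive.ofMul u) - p') w
    rw [Pi.sub_apply, logEmbedding_component, hp', Real.norm_eq_abs] at h1
    rw [mul_sub]
    exact h1.trans hdiff
  have hmult : ∀ w : InfinitePlace K, (1 : ℝ) ≤ w.mult := by
    intro w
    exact_mod_cast w.one_le_mult
  have hle : ∀ w : InfinitePlace K,
      |Real.log (w ((u : 𝓞 K) : K)) - p w| ≤
        |(w.mult : ℝ) * (Real.log (w ((u : 𝓞 K) : K)) - p w)| := by
    intro w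
    rw [abs_mul, abs_of_nonneg (show (0 : ℝ) ≤ w.mult by linarith [hmult w])]
    exact le_mul_of_one_le_left (abs_nonneg _) (hmult w)
  have hR1R : R1 ≤ R := by
    rw [hR]
    have : (0 : ℝ) ≤ Fintype.card {w : InfinitePlace K // w ≠ w₀} := by positivity
    nlinarith
  refine ⟨u, fun w => ?_⟩
  by_cases hw : w = w₀
  · subst hw
    refine (hle _).trans ?_
    have h2 := sum_mult_mul_log u
    have h3 : ∑ w : InfinitePlace K, (w.mult : ℝ) * (Real.log (w ((u : 𝓞 K) : K)) - p w) = 0 := by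
      simp only [mul_sub, Finset.sum_sub_distrib, hp, sub_zero]
      exact h2
    rw [Fintype.sum_eq_add_sum_subtype_ne _ w₀] at h3
    have h4 : ((w₀ : InfinitePlace K).mult : ℝ) *
        (Real.log ((w₀ : InfinitePlace K) ((u : 𝓞 K) : K)) - p w₀) =
        - ∑ w : {w : InfinitePlace K // w ≠ w₀},
          (w.1.mult : ℝ) * (Real.log (w.1 ((u : 𝓞 K) : K)) - p w.1) := by linarith
    rw [h4, abs_neg]
    refine (Finset.abs_sum_le_sum_abs _ _).trans ?_
    refine (Finset.sum_le_sum fun w _ => hcomp w).trans ?_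
    rw [Finset.sum_const, Finset.card_univ, nsmul_eq_mul, hR]
    nlinarith
  · exact (hle _).trans ((hcomp ⟨w, hw⟩).trans hR1R)

open scoped Classical in
/-- The same in terms of complex embeddings and for `N`-th powers of units. -/
theorem exists_unit_pow_near (N : ℕ) (hN : 0 < N) :
    ∃ R : ℝ, 0 ≤ R ∧ ∀ p : InfinitePlace K → ℝ, ∑ τ : K →+* ℂ, p (InfinitePlace.mk τ) = 0 →
      ∃ u : (𝓞 K)ˣ, ∀ τ : K →+* ℂ,
        |Real.log ‖τ (((u ^ N : (𝓞 K)ˣ) : 𝓞 K) : K)‖ - p (InfinitePlace.mk τ)| ≤ R := by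
  obtain ⟨R, hR, h⟩ := exists_unit_near K
  have hN' : (0 : ℝ) < N := by exact_mod_cast hN
  refine ⟨N * R, by positivity, fun p hp => ?_⟩
  have hsum : ∑ w : InfinitePlace K, (w.mult : ℝ) * (p w / N) = 0 := by
    have h1 : ∑ τ : K →+* ℂ, p (InfinitePlace.mk τ)
        = ∑ w : InfinitePlace K, (w.mult : ℝ) * p w := by
      rw [← Finset.sum_fiberwise (s := Finset.univ) (g := fun τ : K →+* ℂ => InfinitePlace.mk τ)]
      refine Finset.sum_congr rfl fun w _ => ?_
      rw [Finset.sum_congr rfl (g := fun _ => p w)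
        (fun τ hτ => by rw [(Finset.mem_filter.1 hτ).2])]
      rw [Finset.sum_const, InfinitePlace.card_filter_mk_eq, nsmul_eq_mul]
    have h2 : ∑ w : InfinitePlace K, (w.mult : ℝ) * (p w / N)
        = (∑ w : InfinitePlace K, (w.mult : ℝ) * p w) / N := by
      rw [Finset.sum_div]
      refine Finset.sum_congr rfl fun w _ => ?_
      ring
    rw [h2, ← h1, hp, zero_div]
  obtain ⟨u, hu⟩ := h (fun w => p w / N) hsum
  refine ⟨u, fun τ => ?_⟩
  have h3 := hu (InfinitePlace.mk τ)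
  rw [InfinitePlace.apply] at h3
  have h4 : Real.log ‖τ (((u ^ N : (𝓞 K)ˣ) : 𝓞 K) : K)‖ = N * Real.log ‖τ ((u : 𝓞 K) : K)‖ := by
    push_cast
    rw [map_pow, norm_pow, Real.log_pow]
  rw [h4]
  have h5 : (N : ℝ) * Real.log ‖τ ((u : 𝓞 K) : K)‖ - p (InfinitePlace.mk τ)
      = N * (Real.log ‖τ ((u : 𝓞 K) : K)‖ - p (InfinitePlace.mk τ) / N) := by
    field_simp
  rw [h5, abs_mul, abs_of_pos hN']
  exact mul_le_mul_of_nonneg_left h3 hN'.le

/-- common integral multiple -/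
lemma exists_int_mult {d : ℕ} (b : Fin d → K) : ∃ n : ℤ, 0 < n ∧ ∀ x : Fin d → ℤ,
    IsIntegral ℤ ((n : K) * ∑ j, (x j : ℚ) • b j) := by
  have h1 : ∀ j, ∃ y : ℤ, y ≠ 0 ∧ IsIntegral ℤ (y • b j) := fun j => by
    have : IsAlgebraic ℤ (b j) :=
      (IsFractionRing.isAlgebraic_iff ℤ ℚ K).2 (Algebra.IsAlgebraic.isAlgebraic (b j))
    exact this.exists_integral_multiple
  choose y hy hy' using h1
  have hne : ∏ j, y j ≠ 0 := Finset.prod_ne_zero_iff.2 fun j _ => hy j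
  refine ⟨(∏ j, y j) ^ 2, by positivity, fun x => ?_⟩
  rw [Finset.mul_sum]
  refine IsIntegral.sum _ fun j _ => ?_
  have h2 : (((∏ j, y j) ^ 2 : ℤ) : K) * (x j : ℚ) • b j
      = (((∏ j, y j) * (∏ k ∈ Finset.univ.erase j, y k) * x j : ℤ) : K) * (y j • b j) := by
    rw [zsmul_eq_mul, ← Finset.mul_prod_erase Finset.univ y (Finset.mem_univ j)]
    push_cast
    rw [Algebra.smul_def, map_intCast]
    ring
  rw [h2]
  exact IsIntegral.mul (isIntegral_intCast _) (hy' j)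

lemma exists_rat_mult {d : ℕ} (b : Module.Basis (Fin d) ℚ K) : ∃ n : ℤ, 0 < n ∧ ∀ z : 𝓞 K,
    ∃ y : Fin d → ℤ, ∑ j, (y j : ℚ) • b j = (n : K) * (z : K) := by
  set ω := RingOfIntegers.basis K with hω
  set D : ℤ := ∏ k, ∏ j, ((b.repr (ω k : K) j).den : ℤ) with hD
  have hDpos : 0 < D := by
    refine Finset.prod_pos fun k _ => Finset.prod_pos fun j _ => ?_
    exact_mod_cast (b.repr (ω k : K) j).den_pos
  refine ⟨D, hDpos, fun z => ?_⟩
  have h1 : ∀ k j, ∃ a : ℤ, (a : ℚ) = D * b.repr (ω k : K) j := by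
    intro k j
    have hdvd : ((b.repr (ω k : K) j).den : ℤ) ∣ D := by
      refine (Finset.dvd_prod_of_mem (fun j => ((b.repr (ω k : K) j).den : ℤ))
        (Finset.mem_univ j)).trans ?_
      exact Finset.dvd_prod_of_mem (fun k => ∏ j, ((b.repr (ω k : K) j).den : ℤ))
        (Finset.mem_univ k)
    obtain ⟨e, he⟩ := hdvd
    refine ⟨e * (b.repr (ω k : K) j).num, ?_⟩
    have h3 := Rat.num_div_den (b.repr (ω k : K) j)
    have h4 : ((b.repr (ω k : K) j).den : ℚ) ≠ 0 := by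
      exact_mod_cast (b.repr (ω k : K) j).den_ne_zero
    conv_rhs => rw [← h3, he]
    push_cast
    field_simp
  choose a ha using h1
  have hz : (z : K) = ∑ k, (ω.repr z k : K) * (ω k : K) := by
    conv_lhs => rw [← ω.sum_repr z]
    push_cast
    simp [zsmul_eq_mul]
  refine ⟨fun j => ∑ k, ω.repr z k * a k j, ?_⟩
  have h5 : ∀ k, (D : K) * (ω k : K) = ∑ j, (a k j : ℚ) • b j := by
    intro k
    conv_lhs => rw [← b.sum_repr (ω k : K), Finset.mul_sum]
    refine Finset.sum_congr rfl fun j _ => ?_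
    rw [ha, Algebra.smul_def, Algebra.smul_def, map_mul, map_intCast]
    ring
  rw [hz, Finset.mul_sum]
  have h6 : ∀ k, (D : K) * ((ω.repr z k : K) * (ω k : K))
      = ∑ j, ((ω.repr z k * a k j : ℤ) : ℚ) • b j := by
    intro k
    rw [mul_left_comm, h5, Finset.mul_sum]
    refine Finset.sum_congr rfl fun j _ => ?_
    rw [Algebra.smul_def, Algebra.smul_def]
    push_cast
    simp only [map_intCast]
    ring
  rw [Finset.sum_congr rfl fun k _ => h6 k, Finset.sum_comm]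
  refine Finset.sum_congr rfl fun j _ => ?_
  rw [← Finset.sum_smul]
  push_cast
  rfl

/-- A power of every unit acts on a given full module. -/
theorem exists_pow_act {d : ℕ} (b : Module.Basis (Fin d) ℚ K) :
    ∃ N : ℕ, 0 < N ∧ Even N ∧ ∀ u : (𝓞 K)ˣ, ∀ x : Fin d → ℤ, ∃ y : Fin d → ℤ,
      ∑ j, (y j : ℚ) • b j = (((u ^ N : (𝓞 K)ˣ) : 𝓞 K) : K) * ∑ j, (x j : ℚ) • b j := by
  obtain ⟨n1, hn1, h1⟩ := exists_int_mult K (fun j => b j)
  obtain ⟨n2, hn2, h2⟩ := exists_rat_mult K b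
  set I : Ideal (𝓞 K) := Ideal.span {((n1 * n2 : ℤ) : 𝓞 K)} with hI
  have hIne : I ≠ ⊥ := by
    rw [hI, Ne, Ideal.span_singleton_eq_bot]
    exact_mod_cast (mul_pos hn1 hn2).ne'
  have : Finite (𝓞 K ⧸ I) := I.finiteQuotientOfFreeOfNeBot hIne
  have : Finite (𝓞 K ⧸ I)ˣ := inferInstance
  set N0 := Nat.card (𝓞 K ⧸ I)ˣ with hN0
  have hN0pos : 0 < N0 := Nat.card_pos
  refine ⟨2 * N0, by omega, even_two_mul _, fun u x => ?_⟩
  have h3 : (Ideal.Quotient.mk I) ((u ^ (2 * N0) : (𝓞 K)ˣ) : 𝓞 K) = (Ideal.Quotient.mk I) 1 := by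
    have h4 : (Units.map (Ideal.Quotient.mk I : 𝓞 K →* 𝓞 K ⧸ I) u) ^ (2 * N0) = 1 := by
      rw [mul_comm, pow_mul, hN0, pow_card_eq_one', one_pow]
    have h5 := congrArg (fun v : (𝓞 K ⧸ I)ˣ => (v : 𝓞 K ⧸ I)) h4
    simpa using h5
  rw [Ideal.Quotient.eq, hI, Ideal.mem_span_singleton] at h3
  obtain ⟨z, hz⟩ := h3
  set β : K := ∑ j, (x j : ℚ) • b j with hβ
  obtain ⟨β', hβ'⟩ : ∃ β' : 𝓞 K, (β' : K) = (n1 : K) * β := ⟨⟨_, h1 x⟩, rfl⟩
  obtain ⟨y, hy⟩ := h2 (z * β')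
  refine ⟨fun j => x j + y j, ?_⟩
  have h6 : (((u ^ (2 * N0) : (𝓞 K)ˣ) : 𝓞 K) : K) = 1 + (n1 : K) * n2 * (z : K) := by
    have := congrArg (fun t : 𝓞 K => (t : K)) hz
    simp only [map_sub, map_one, map_mul, map_intCast] at this
    have h7 : (((u ^ (2 * N0) : (𝓞 K)ˣ) : 𝓞 K) : K) - 1 = (n1 : K) * n2 * (z : K) := by
      push_cast at this ⊢
      exact this
    linear_combination h7
  rw [h6]
  have h8 : ∑ j, ((x j + y j : ℤ) : ℚ) • b j = β + ∑ j, (y j : ℚ) • b j := by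
    rw [hβ, ← Finset.sum_add_distrib]
    refine Finset.sum_congr rfl fun j _ => ?_
    push_cast
    rw [add_smul]
  rw [h8, hy]
  have h9 : ((z * β' : 𝓞 K) : K) = (z : K) * (β' : K) := rfl
  rw [h9, hβ']
  ring

end H715R2
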