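import Mathlib
import Pool.Agent.H715R2.Units
import Pool.Agent.H715R2.ClosedSub
import Pool.Agent.H715R2.Embed
import Pool.Agent.H715R2.LinAlg

/-! # Products of linear forms one of which is algebraic of degree `d` -/

open NumberField Filter Topology

namespace H715R2

set_option linter.unusedSectionVars false

variable {K : Type*} [Field K] [NumberField K] {d : ℕ}

/-- the `N`-th power of a unit, in `K` -/
def uu (N : ℕ) (v : (𝓞 K)ˣ) : K := (((v ^ N : (𝓞 K)ˣ) : 𝓞 K) : K)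

lemma uu_mul (N : ℕ) (v w : (𝓞 K)ˣ) : uu N (v * w) = uu N v * uu N w := by
  simp only [uu, mul_pow]
  push_cast
  rfl

lemma uu_one (N : ℕ) : uu N (1 : (𝓞 K)ˣ) = 1 := by simp [uu]

lemma uu_ne (N : ℕ) (v : (𝓞 K)ˣ) : uu N v ≠ 0 := by
  intro h
  have := uu_mul N v v⁻¹
  rw [mul_inv_cancel, uu_one, h, zero_mul] at this
  exact one_ne_zero this

lemma tau_ne (N : ℕ) (v : (𝓞 K)ˣ) (τ : K →+* ℂ) : τ (uu N v) ≠ 0 :=
  (map_ne_zero τ).2 (uu_ne N v)

/-- evaluation of an embedding at a real combination of the basis -/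
noncomputable def ev (b : Module.Basis (Fin d) ℚ K) (τ : K →+* ℂ) (x : Fin d → ℝ) : ℂ :=
  ∑ j, (x j : ℂ) * τ (b j)

/-- integer vector as a real vector -/
def iR (m : Fin d → ℤ) : Fin d → ℝ := fun j => (m j : ℝ)

lemma ev_int (b : Module.Basis (Fin d) ℚ K) (τ : K →+* ℂ) (m : Fin d → ℤ) :
    ev b τ (iR m) = τ (∑ j, (m j : ℚ) • b j) := by
  rw [map_sum]
  refine Finset.sum_congr rfl fun j _ => ?_
  rw [Algebra.smul_def, map_mul]
  simp [iR]

lemma ev_add (b : Module.Basis (Fin d) ℚ K) (τ : K →+* ℂ) (x y : Fin d → ℝ) :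
    ev b τ (x + y) = ev b τ x + ev b τ y := by
  simp [ev, add_mul, Finset.sum_add_distrib]

lemma ev_smul (b : Module.Basis (Fin d) ℚ K) (τ : K →+* ℂ) (a : ℝ) (x : Fin d → ℝ) :
    ev b τ (a • x) = a * ev b τ x := by
  simp [ev, Finset.mul_sum, mul_assoc]

lemma continuous_ev (b : Module.Basis (Fin d) ℚ K) (τ : K →+* ℂ) : Continuous (ev b τ) := by
  unfold ev
  fun_prop

/-- the data: a number field with a basis, an invertible real matrix `g = H · (τ(b_j))`, whose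
row `i₀` is supported at a real embedding `φ` -/
structure Dat (K : Type*) [Field K] [NumberField K] (d : ℕ) where
  hd : 3 ≤ d
  b : Module.Basis (Fin d) ℚ K
  N : ℕ
  hN : 0 < N
  hNe : Even N
  act : ∀ u : (𝓞 K)ˣ, ∀ x : Fin d → ℤ, ∃ y : Fin d → ℤ,
      ∑ j, (y j : ℚ) • b j = (((u ^ N : (𝓞 K)ˣ) : 𝓞 K) : K) * ∑ j, (x j : ℚ) • b j
  g : Matrix (Fin d) (Fin d) ℝ
  hg : g.det ≠ 0
  H : Fin d → (K →+* ℂ) → ℂ
  hH : ∀ i j, (g i j : ℂ) = ∑ τ : K →+* ℂ, H i τ * τ (b j)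
  i₀ : Fin d
  φ : K →+* ℂ
  hφ : ComplexEmbedding.IsReal φ
  hi₀ : ∀ τ, τ ≠ φ → H i₀ τ = 0

namespace Dat

variable (D : Dat K d)

/-- the product of the linear forms -/
noncomputable def P (x : Fin d → ℝ) : ℝ := ∏ i, ∑ j, D.g i j * x j

/-- closure of the set of values at integer points -/
def Val : Set ℝ := closure (Set.range fun m : Fin d → ℤ => D.P (iR m))

lemma lin (i : Fin d) (x : Fin d → ℝ) :
    ((∑ j, D.g i j * x j : ℝ) : ℂ) = ∑ τ : K →+* ℂ, D.H i τ * ev D.b τ x := by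
  push_cast
  simp only [D.hH, ev, Finset.sum_mul, Finset.mul_sum]
  rw [Finset.sum_comm]
  refine Finset.sum_congr rfl fun τ _ => Finset.sum_congr rfl fun j _ => ?_
  ring

lemma act' (v : (𝓞 K)ˣ) (m : Fin d → ℤ) : ∃ y : Fin d → ℤ, ∀ τ : K →+* ℂ,
    ev D.b τ (iR y) = τ (uu D.N v) * ev D.b τ (iR m) := by
  obtain ⟨y, hy⟩ := D.act v m
  refine ⟨y, fun τ => ?_⟩
  rw [ev_int, ev_int, hy, map_mul]
  rfl

/-- the other embeddings -/
abbrev I : Type _ := {τ : K →+* ℂ // τ ≠ D.φ}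

noncomputable instance : Fintype D.I := Fintype.ofFinite _

/-- normalising factor -/
noncomputable def r (v : (𝓞 K)ˣ) : ℝ := ‖D.φ (uu D.N v)‖ ^ (1 / ((d : ℝ) - 1))

lemma r_pos (v : (𝓞 K)ˣ) : 0 < D.r v :=
  Real.rpow_pos_of_pos (norm_pos_iff.2 (tau_ne _ _ _)) _

lemma r_mul (v w : (𝓞 K)ˣ) : D.r (v * w) = D.r v * D.r w := by
  simp only [r, uu_mul, map_mul, norm_mul]
  exact Real.mul_rpow (norm_nonneg _) (norm_nonneg _)

lemma r_one : D.r (1 : (𝓞 K)ˣ) = 1 := by simp [r, uu_one]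

include D in
lemma d_sub_pos : (0 : ℝ) < (d : ℝ) - 1 := by
  have h := D.hd
  have : (3 : ℝ) ≤ d := by exact_mod_cast h
  linarith

lemma r_pow (v : (𝓞 K)ˣ) : D.r v ^ (d - 1) = ‖D.φ (uu D.N v)‖ := by
  have h := D.hd
  have h1 : ((d - 1 : ℕ) : ℝ) = (d : ℝ) - 1 := by
    rw [Nat.cast_sub (by omega)]; simp
  rw [r, ← Real.rpow_natCast, ← Real.rpow_mul (norm_nonneg _), h1, one_div,
    inv_mul_cancel₀ D.d_sub_pos.ne', Real.rpow_one]

lemma phi_real (z : K) : (starRingEnd ℂ) (D.φ z) = D.φ z := by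
  have := congrArg (fun f : K →+* ℂ => f z) (ComplexEmbedding.isReal_iff.1 D.hφ)
  simpa using this

lemma phi_pos (v : (𝓞 K)ˣ) : D.φ (uu D.N v) = ((D.r v ^ (d - 1) : ℝ) : ℂ) := by
  rw [D.r_pow]
  obtain ⟨k, hk⟩ := D.hNe
  have h1 : uu D.N v = uu k v * uu k v := by
    simp only [uu, hk, pow_add]
    push_cast
    rfl
  have h2 := Complex.conj_eq_iff_real.1 (D.phi_real (uu k v))
  obtain ⟨a, ha⟩ := h2
  rw [h1, map_mul, ha, ← Complex.ofReal_mul, Complex.norm_real, Real.norm_eq_abs,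
    abs_of_nonneg (mul_self_nonneg a)]

/-- the normalised embedding of the units -/
noncomputable def rho : (𝓞 K)ˣ →* (D.I → ℂˣ) where
  toFun v := fun τ => Units.mk0 (τ.1 (uu D.N v) * (D.r v : ℂ))
    (mul_ne_zero (tau_ne _ _ _) (by exact_mod_cast (D.r_pos v).ne'))
  map_one' := by
    funext τ
    apply Units.ext
    simp [uu_one, r_one]
  map_mul' v w := by
    funext τ
    apply Units.ext
    simp only [Units.val_mk0, Pi.mul_apply, Units.val_mul, uu_mul, map_mul, r_mul,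
      Complex.ofReal_mul]
    ring

lemma rho_val (v : (𝓞 K)ˣ) (τ : D.I) :
    ((D.rho v τ : ℂˣ) : ℂ) = τ.1 (uu D.N v) * (D.r v : ℂ) := rfl

/-- closure of the normalised group of units -/
noncomputable def C : Subgroup (D.I → ℂˣ) := D.rho.range.topologicalClosure

lemma isClosed_C : IsClosed (D.C : Set (D.I → ℂˣ)) := Subgroup.isClosed_topologicalClosure _

/-- the normalised linear functionals -/
noncomputable def Lam (i : Fin d) (c : D.I → ℂ) (x : Fin d → ℝ) : ℂ :=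
  ∑ τ : D.I, D.H i τ.1 * c τ * ev D.b τ.1 x

/-- the limit values -/
noncomputable def Phi (c : D.I → ℂ) (x : Fin d → ℝ) : ℂ :=
  D.H D.i₀ D.φ * ev D.b D.φ x * ∏ i ∈ Finset.univ.erase D.i₀, D.Lam i c x

lemma sum_split {M : Type*} [AddCommMonoid M] (f : (K →+* ℂ) → M) :
    ∑ τ : K →+* ℂ, f τ = f D.φ + ∑ τ : D.I, f τ.1 := by
  classical
  rw [Fintype.sum_eq_add_sum_subtype_ne f D.φ]
  congr 1
  exact Finset.sum_congr (by ext; simp) fun _ _ => rfl

lemma lin_unit (v : (𝓞 K)ˣ) (m y : Fin d → ℤ)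
    (hy : ∀ τ : K →+* ℂ, ev D.b τ (iR y) = τ (uu D.N v) * ev D.b τ (iR m)) (i : Fin d) :
    ((∑ j, D.g i j * iR y j : ℝ) : ℂ) = (D.r v : ℂ)⁻¹ *
      (D.H i D.φ * (D.r v : ℂ) ^ d * ev D.b D.φ (iR m)
          + D.Lam i (fun τ => ((D.rho v τ : ℂˣ) : ℂ)) (iR m)) := by
  have hr : (D.r v : ℂ) ≠ 0 := by exact_mod_cast (D.r_pos v).ne'
  have hd := D.hd
  have hφv := D.phi_pos v
  rw [D.lin, D.sum_split, hy, hφv, mul_add]
  congr 1
  · have : (D.r v : ℂ) ^ d = (D.r v : ℂ) * (D.r v : ℂ) ^ (d - 1) := by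
      rw [← pow_succ']; congr 1; omega
    rw [this]
    push_cast
    field_simp
  · rw [Lam, Finset.mul_sum]
    refine Finset.sum_congr rfl fun τ _ => ?_
    rw [hy, D.rho_val]
    field_simp

/-- the fundamental identity -/
lemma value_unit (v : (𝓞 K)ˣ) (m : Fin d → ℤ) : ∃ y : Fin d → ℤ,
    ((D.P (iR y) : ℝ) : ℂ) = D.H D.i₀ D.φ * ev D.b D.φ (iR m) *
      ∏ i ∈ Finset.univ.erase D.i₀,
        (D.H i D.φ * (D.r v : ℂ) ^ d * ev D.b D.φ (iR m)
          + D.Lam i (fun τ => ((D.rho v τ : ℂˣ) : ℂ)) (iR m)) := by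
  obtain ⟨y, hy⟩ := D.act' v m
  refine ⟨y, ?_⟩
  have hr : (D.r v : ℂ) ≠ 0 := by exact_mod_cast (D.r_pos v).ne'
  have hd := D.hd
  have hφv := D.phi_pos v
  have h0 : ((∑ j, D.g D.i₀ j * iR y j : ℝ) : ℂ)
      = D.H D.i₀ D.φ * ((D.r v : ℂ) ^ (d - 1) * ev D.b D.φ (iR m)) := by
    rw [D.lin, D.sum_split, Finset.sum_eq_zero (fun τ _ => by rw [D.hi₀ τ.1 τ.2, zero_mul]),
      add_zero, hy, hφv]
    push_cast
    rfl
  have h1 : ∀ i, ((∑ j, D.g i j * iR y j : ℝ) : ℂ) = (D.r v : ℂ)⁻¹ *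
      (D.H i D.φ * (D.r v : ℂ) ^ d * ev D.b D.φ (iR m)
          + D.Lam i (fun τ => ((D.rho v τ : ℂˣ) : ℂ)) (iR m)) := fun i => D.lin_unit v m y hy i
  have h2 : ((D.P (iR y) : ℝ) : ℂ) = ((∑ j, D.g D.i₀ j * iR y j : ℝ) : ℂ) *
      ∏ i ∈ Finset.univ.erase D.i₀, ((∑ j, D.g i j * iR y j : ℝ) : ℂ) := by
    rw [P, ← Finset.mul_prod_erase Finset.univ _ (Finset.mem_univ D.i₀)]
    push_cast
    rfl
  rw [h2, h0, Finset.prod_congr rfl fun i _ => h1 i, Finset.prod_mul_distrib, Finset.prod_const,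
    Finset.card_erase_of_mem (Finset.mem_univ _), Finset.card_univ, Fintype.card_fin]
  have h3 : (D.r v : ℂ) ^ (d - 1) * ((D.r v : ℂ)⁻¹) ^ (d - 1) = 1 := by
    rw [← mul_pow, mul_inv_cancel₀ hr, one_pow]
  linear_combination (D.H D.i₀ D.φ * ev D.b D.φ (iR m) *
      ∏ i ∈ Finset.univ.erase D.i₀,
        (D.H i D.φ * (D.r v : ℂ) ^ d * ev D.b D.φ (iR m)
          + D.Lam i (fun τ => ((D.rho v τ : ℂˣ) : ℂ)) (iR m))) * h3

/-- the place of another embedding differs from the place of `φ` -/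
lemma mk_ne (τ : D.I) : InfinitePlace.mk τ.1 ≠ InfinitePlace.mk D.φ := by
  intro h
  rcases InfinitePlace.mk_eq_iff.1 h with h | h
  · exact τ.2 h
  · apply τ.2
    have h1 := ComplexEmbedding.isReal_iff.1 D.hφ
    calc τ.1 = ComplexEmbedding.conjugate (ComplexEmbedding.conjugate τ.1) :=
          (star_involutive τ.1).symm
      _ = ComplexEmbedding.conjugate D.φ := by rw [h]
      _ = D.φ := h1

lemma card_I : (Fintype.card D.I : ℝ) = (d : ℝ) - 1 := by
  classical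
  have h1 : Fintype.card D.I = Fintype.card (K →+* ℂ) - 1 := by
    have h2 : Fintype.card D.I = Fintype.card {τ : K →+* ℂ // ¬ (τ = D.φ)} :=
      Fintype.card_congr (Equiv.refl _)
    rw [h2, Fintype.card_subtype_compl, Fintype.card_subtype_eq]
  rw [h1, NumberField.Embeddings.card K ℂ, Module.finrank_eq_card_basis D.b, Fintype.card_fin]
  have := D.hd
  rw [Nat.cast_sub (by omega)]
  simp

open scoped Classical in
/-- a sequence of units in the direction contracting `φ` -/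
lemma exists_seq : ∃ R : ℝ, 0 ≤ R ∧ ∀ m : ℕ, ∃ v : (𝓞 K)ˣ,
    (∀ τ : D.I, Real.exp (-R) ≤ ‖((D.rho v τ : ℂˣ) : ℂ)‖ ∧ ‖((D.rho v τ : ℂˣ) : ℂ)‖ ≤ Real.exp R)
      ∧ Real.exp (-(m : ℝ) - R) ≤ D.r v ∧ D.r v ≤ Real.exp (-(m : ℝ) + R) := by
  obtain ⟨R, hR, h⟩ := exists_unit_pow_near K D.N D.hN
  have hd1 := D.d_sub_pos
  have hd2 : (1 : ℝ) ≤ (d : ℝ) - 1 := by
    have h := D.hd
    have : (3 : ℝ) ≤ d := by exact_mod_cast h
    linarith
  refine ⟨2 * R, by positivity, fun m => ?_⟩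
  set p : InfinitePlace K → ℝ := fun w => if w = InfinitePlace.mk D.φ then -((d : ℝ) - 1) * m else m
    with hp
  have hsum : ∑ τ : K →+* ℂ, p (InfinitePlace.mk τ) = 0 := by
    rw [D.sum_split]
    have h1 : ∀ τ : D.I, p (InfinitePlace.mk τ.1) = m := by
      intro τ
      simp only [hp]
      rw [if_neg (D.mk_ne τ)]
    rw [Finset.sum_congr rfl fun τ _ => h1 τ, Finset.sum_const, nsmul_eq_mul, Finset.card_univ,
      D.card_I]
    simp only [hp, if_true]
    ring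
  obtain ⟨v, hv⟩ := h p hsum
  have hφ := hv D.φ
  have hlogr : Real.log (D.r v) = (1 / ((d : ℝ) - 1)) * Real.log ‖D.φ (uu D.N v)‖ :=
    Real.log_rpow (norm_pos_iff.2 (tau_ne _ _ _)) _
  have hφ' : |Real.log ‖D.φ (uu D.N v)‖ - (-((d : ℝ) - 1) * m)| ≤ R := by
    have : p (InfinitePlace.mk D.φ) = -((d : ℝ) - 1) * m := by simp [hp]
    rw [← this]
    exact hφ
  have hr1 : |Real.log (D.r v) - (-(m : ℝ))| ≤ R := by
    have h5 : Real.log (D.r v) - (-(m : ℝ))
        = (1 / ((d : ℝ) - 1)) * (Real.log ‖D.φ (uu D.N v)‖ - (-((d : ℝ) - 1) * m)) := by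
      rw [hlogr]; field_simp
    rw [h5, abs_mul, abs_of_pos (by positivity)]
    refine (mul_le_mul_of_nonneg_left hφ' (by positivity)).trans ?_
    rw [one_div, inv_mul_le_iff₀ hd1]
    nlinarith
  rw [abs_le] at hr1
  refine ⟨v, fun τ => ?_, ?_, ?_⟩
  · have h6 := hv τ.1
    have h7 : p (InfinitePlace.mk τ.1) = m := by simp only [hp]; rw [if_neg (D.mk_ne τ)]
    rw [h7, abs_le] at h6
    have h8 : Real.log ‖((D.rho v τ : ℂˣ) : ℂ)‖ = Real.log ‖τ.1 (uu D.N v)‖ + Real.log (D.r v) := by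
      rw [D.rho_val, norm_mul, Real.log_mul (norm_ne_zero_iff.2 (tau_ne _ _ _)) _]
      · rw [Complex.norm_real, Real.norm_eq_abs, abs_of_pos (D.r_pos v)]
      · rw [Complex.norm_real, Real.norm_eq_abs, abs_of_pos (D.r_pos v)]
        exact (D.r_pos v).ne'
    have hpos : 0 < ‖((D.rho v τ : ℂˣ) : ℂ)‖ := norm_pos_iff.2 (Units.ne_zero _)
    have h9 : Real.log ‖τ.1 (uu D.N v)‖ = Real.log ‖τ.1 (((v ^ D.N : (𝓞 K)ˣ) : 𝓞 K) : K)‖ := rfl
    constructor
    · rw [← Real.exp_log hpos, Real.exp_le_exp, h8, h9]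
      linarith [h6.1, hr1.1]
    · rw [← Real.exp_log hpos, Real.exp_le_exp, h8, h9]
      linarith [h6.2, hr1.2]
  · rw [← Real.exp_log (D.r_pos v), Real.exp_le_exp]
    linarith [hr1.1]
  · rw [← Real.exp_log (D.r_pos v), Real.exp_le_exp]
    linarith [hr1.2]

/-- units close to `1` in the normalised sense and contracting `φ` -/
lemma exists_small (δ : ℝ) (hδ : 0 < δ) : ∃ v : (𝓞 K)ˣ,
    (∀ τ : D.I, ‖((D.rho v τ : ℂˣ) : ℂ) - 1‖ < δ) ∧ D.r v < δ := by
  obtain ⟨R, hR, h⟩ := D.exists_seq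
  choose v hv hv1 hv2 using h
  set s : ℕ → D.I → ℂ := fun m τ => ((D.rho (v m) τ : ℂˣ) : ℂ) with hs
  have hbd : ∀ m, s m ∈ Metric.closedBall (0 : D.I → ℂ) (Real.exp R) := by
    intro m
    rw [mem_closedBall_zero_iff, pi_norm_le_iff_of_nonneg (Real.exp_pos R).le]
    exact fun τ => (hv m τ).2
  obtain ⟨s', _, σ, hσ, hlim⟩ := (isCompact_closedBall (0 : D.I → ℂ) (Real.exp R)).tendsto_subseq hbd
  set δ' := δ * Real.exp (-R) / 2 with hδ'
  have hδ'pos : 0 < δ' := by positivity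
  rw [Metric.tendsto_atTop] at hlim
  obtain ⟨k0, hk0⟩ := hlim δ' hδ'pos
  -- choose `l` large
  have hr0 : Tendsto (fun l : ℕ => D.r (v (σ l)) * (D.r (v (σ k0)))⁻¹) atTop (𝓝 0) := by
    have h1 : Tendsto (fun l : ℕ => Real.exp (-(σ l : ℝ) + R)) atTop (𝓝 0) := by
      refine Real.tendsto_exp_atBot.comp ?_
      refine tendsto_atBot_add_const_right _ _ ?_
      refine tendsto_neg_atTop_atBot.comp ?_
      exact tendsto_natCast_atTop_atTop.comp hσ.tendsto_atTop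
    have h2 : Tendsto (fun l : ℕ => D.r (v (σ l))) atTop (𝓝 0) :=
      squeeze_zero (fun l => (D.r_pos _).le) (fun l => hv2 (σ l)) h1
    simpa using h2.mul_const ((D.r (v (σ k0)))⁻¹)
  obtain ⟨l, hl0, hl⟩ := ((hr0.eventually_lt_const hδ).and (eventually_ge_atTop k0)).exists
  refine ⟨v (σ l) * (v (σ k0))⁻¹, fun τ => ?_, ?_⟩
  · have e1 : ((D.rho (v (σ l) * (v (σ k0))⁻¹) τ : ℂˣ) : ℂ)
        = s (σ l) τ * (s (σ k0) τ)⁻¹ := by
      rw [map_mul, map_inv]
      simp [hs]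
    have hne : s (σ k0) τ ≠ 0 := Units.ne_zero _
    have e2 : s (σ l) τ * (s (σ k0) τ)⁻¹ - 1 = (s (σ l) τ - s (σ k0) τ) * (s (σ k0) τ)⁻¹ := by
      field_simp
    rw [e1, e2, norm_mul, norm_inv]
    have h3 : ‖s (σ l) τ - s (σ k0) τ‖ < 2 * δ' := by
      have a1 := (dist_pi_lt_iff hδ'pos).1 (hk0 l hl) τ
      have a2 := (dist_pi_lt_iff hδ'pos).1 (hk0 k0 le_rfl) τ
      rw [← dist_eq_norm]
      have a3 := dist_triangle_right (s (σ l) τ) (s (σ k0) τ) (s' τ)
      simp only [Function.comp] at a1 a2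
      linarith
    have h4 : ‖s (σ k0) τ‖⁻¹ ≤ Real.exp R := by
      rw [inv_le_comm₀ (norm_pos_iff.2 hne) (Real.exp_pos R), ← Real.exp_neg]
      exact (hv (σ k0) τ).1
    calc ‖s (σ l) τ - s (σ k0) τ‖ * ‖s (σ k0) τ‖⁻¹
        < 2 * δ' * Real.exp R := by
          refine lt_of_lt_of_le (mul_lt_mul_of_pos_right h3 (inv_pos.2 (norm_pos_iff.2 hne))) ?_
          exact mul_le_mul_of_nonneg_left h4 (by positivity)
      _ = δ := by
          rw [hδ']
          have : Real.exp (-R) * Real.exp R = 1 := by rw [← Real.exp_add]; simp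
          linear_combination δ * this
  · rw [D.r_mul]
    have e3 : D.r (v (σ k0))⁻¹ = (D.r (v (σ k0)))⁻¹ := by
      refine eq_inv_of_mul_eq_one_left ?_
      rw [← D.r_mul, inv_mul_cancel, D.r_one]
    rw [e3]
    exact hl0

/-! ### Limit values -/

lemma isClosed_image_Val : IsClosed ((fun a : ℝ => (a : ℂ)) '' D.Val) :=
  Complex.isometry_ofReal.isClosedEmbedding.isClosedMap _ isClosed_closure

lemma continuous_Lam (i : Fin d) (x : Fin d → ℝ) : Continuous fun c : D.I → ℂ => D.Lam i c x := by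
  unfold Lam
  fun_prop

lemma phi_rho (v : (𝓞 K)ˣ) (m : Fin d → ℤ) :
    D.Phi (fun τ => ((D.rho v τ : ℂˣ) : ℂ)) (iR m) ∈ (fun a : ℝ => (a : ℂ)) '' D.Val := by
  have h := fun k : ℕ => D.exists_small (1 / ((k : ℝ) + 1)) (by positivity)
  choose w hw1 hw2 using h
  choose y hy using fun k : ℕ => D.value_unit (v * w k) m
  have hr0 : Tendsto (fun k : ℕ => D.r (v * w k)) atTop (𝓝 0) := by
    have h1 : Tendsto (fun k : ℕ => D.r (w k)) atTop (𝓝 0) :=
      squeeze_zero (fun k => (D.r_pos _).le) (fun k => (hw2 k).le)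
        tendsto_one_div_add_atTop_nhds_zero_nat
    simp only [D.r_mul]
    simpa using h1.const_mul (D.r v)
  have hρ : Tendsto (fun (k : ℕ) (τ : D.I) => ((D.rho (v * w k) τ : ℂˣ) : ℂ)) atTop
      (𝓝 (fun τ => ((D.rho v τ : ℂˣ) : ℂ))) := by
    rw [tendsto_pi_nhds]
    intro τ
    have h1 : Tendsto (fun k : ℕ => ((D.rho (w k) τ : ℂˣ) : ℂ)) atTop (𝓝 1) := by
      rw [tendsto_iff_norm_sub_tendsto_zero]
      exact squeeze_zero (fun k => norm_nonneg _) (fun k => (hw1 k τ).le)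
        tendsto_one_div_add_atTop_nhds_zero_nat
    have h2 : ∀ k, ((D.rho (v * w k) τ : ℂˣ) : ℂ)
        = ((D.rho v τ : ℂˣ) : ℂ) * ((D.rho (w k) τ : ℂˣ) : ℂ) := by
      intro k; rw [map_mul]; rfl
    simp only [h2]
    simpa using h1.const_mul ((D.rho v τ : ℂˣ) : ℂ)
  have hd := D.hd
  have htend : Tendsto (fun k : ℕ => ((D.P (iR (y k)) : ℝ) : ℂ)) atTop
      (𝓝 (D.Phi (fun τ => ((D.rho v τ : ℂˣ) : ℂ)) (iR m))) := by
    simp only [hy]
    refine Tendsto.mul tendsto_const_nhds ?_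
    refine tendsto_finsetProd _ fun i _ => ?_
    have h3 : Tendsto (fun k : ℕ => D.H i D.φ * ((D.r (v * w k) : ℝ) : ℂ) ^ d * ev D.b D.φ (iR m))
        atTop (𝓝 0) := by
      have h4 : Tendsto (fun k : ℕ => ((D.r (v * w k) : ℝ) : ℂ) ^ d) atTop (𝓝 0) := by
        have h5 : Tendsto (fun k : ℕ => ((D.r (v * w k) : ℝ) : ℂ)) atTop (𝓝 ((0 : ℝ) : ℂ)) :=
          (Complex.continuous_ofReal.tendsto _).comp hr0
        have h6 := h5.pow d
        rw [Complex.ofReal_zero, zero_pow (by omega)] at h6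
        exact h6
      have := (h4.const_mul (D.H i D.φ)).mul_const (ev D.b D.φ (iR m))
      simpa using this
    have h7 := ((D.continuous_Lam i (iR m)).tendsto _).comp hρ
    have h8 := h3.add h7
    rw [zero_add] at h8
    exact h8
  exact D.isClosed_image_Val.mem_of_tendsto htend
    (Eventually.of_forall fun k => ⟨_, subset_closure ⟨y k, rfl⟩, rfl⟩)

lemma continuous_coe : Continuous fun (c : D.I → ℂˣ) => (fun τ => ((c τ : ℂˣ) : ℂ)) :=
  continuous_pi fun τ => Units.continuous_val.comp (continuous_apply τ)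

lemma phi_mem (c : D.I → ℂˣ) (hc : c ∈ D.C) (m : Fin d → ℤ) :
    D.Phi (fun τ => ((c τ : ℂˣ) : ℂ)) (iR m) ∈ (fun a : ℝ => (a : ℂ)) '' D.Val := by
  have hcl : IsClosed {c : D.I → ℂˣ | D.Phi (fun τ => ((c τ : ℂˣ) : ℂ)) (iR m) ∈
      (fun a : ℝ => (a : ℂ)) '' D.Val} := by
    refine D.isClosed_image_Val.preimage ?_
    unfold Phi
    refine continuous_const.mul (continuous_finsetProd _ fun i _ => ?_)
    exact (D.continuous_Lam i (iR m)).comp D.continuous_coe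
  have hsub : (D.rho.range : Set (D.I → ℂˣ)) ⊆ {c : D.I → ℂˣ |
      D.Phi (fun τ => ((c τ : ℂˣ) : ℂ)) (iR m) ∈ (fun a : ℝ => (a : ℂ)) '' D.Val} := by
    rintro _ ⟨v, rfl⟩
    exact D.phi_rho v m
  have hc' : c ∈ closure (D.rho.range : Set (D.I → ℂˣ)) := hc
  exact closure_minimal hsub hcl hc'

/-! ### Reality -/

lemma H_conj (i : Fin d) (τ : K →+* ℂ) :
    D.H i (ComplexEmbedding.conjugate τ) = (starRingEnd ℂ) (D.H i τ) := by
  have h := embed_indep D.b
    (fun τ => D.H i τ - (starRingEnd ℂ) (D.H i (ComplexEmbedding.conjugate τ))) ?_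
  · have h1 := congrFun h (ComplexEmbedding.conjugate τ)
    have h2 : ComplexEmbedding.conjugate (ComplexEmbedding.conjugate τ) = τ := star_involutive τ
    simp only [h2, Pi.zero_apply] at h1
    exact sub_eq_zero.1 h1
  · intro j
    simp only [sub_mul, Finset.sum_sub_distrib]
    rw [← D.hH i j]
    have h3 : ∑ τ : K →+* ℂ, (starRingEnd ℂ) (D.H i (ComplexEmbedding.conjugate τ)) * τ (D.b j)
        = ∑ τ : K →+* ℂ, (starRingEnd ℂ) (D.H i τ) *
            (ComplexEmbedding.conjugate τ) (D.b j) := by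
      refine Fintype.sum_equiv (Function.Involutive.toPerm _ (star_involutive (R := K →+* ℂ)))
        _ _ fun τ => ?_
      have h2 : ComplexEmbedding.conjugate (ComplexEmbedding.conjugate τ) = τ := star_involutive τ
      show _ = (starRingEnd ℂ) (D.H i (ComplexEmbedding.conjugate τ)) *
        (ComplexEmbedding.conjugate (ComplexEmbedding.conjugate τ)) (D.b j)
      rw [h2]
    rw [h3]
    have h4 : ∀ τ : K →+* ℂ, (starRingEnd ℂ) (D.H i τ) * (ComplexEmbedding.conjugate τ) (D.b j)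
        = (starRingEnd ℂ) (D.H i τ * τ (D.b j)) := by
      intro τ
      rw [map_mul]
      rfl
    rw [Finset.sum_congr rfl fun τ _ => h4 τ, ← map_sum, ← D.hH i j, Complex.conj_ofReal, sub_self]

lemma H_phi_real (i : Fin d) : ((D.H i D.φ).re : ℂ) = D.H i D.φ := by
  have h1 := D.H_conj i D.φ
  rw [ComplexEmbedding.isReal_iff.1 D.hφ] at h1
  exact Complex.conj_eq_iff_re.1 h1.symm

lemma ev_phi_real (x : Fin d → ℝ) : ((ev D.b D.φ x).re : ℂ) = ev D.b D.φ x := by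
  refine Complex.conj_eq_iff_re.1 ?_
  rw [ev, map_sum]
  refine Finset.sum_congr rfl fun j _ => ?_
  rw [map_mul, D.phi_real, Complex.conj_ofReal]

lemma lam_rho_real (i : Fin d) (v : (𝓞 K)ˣ) (m : Fin d → ℤ) :
    (D.Lam i (fun τ => ((D.rho v τ : ℂˣ) : ℂ)) (iR m)).im = 0 := by
  obtain ⟨y, hy⟩ := D.act' v m
  have h1 := D.lin_unit v m y hy i
  have hr : (D.r v : ℂ) ≠ 0 := by exact_mod_cast (D.r_pos v).ne'
  have h2 : D.Lam i (fun τ => ((D.rho v τ : ℂˣ) : ℂ)) (iR m)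
      = ((D.r v * (∑ j, D.g i j * iR y j)
        - (D.H i D.φ).re * D.r v ^ d * (ev D.b D.φ (iR m)).re : ℝ) : ℂ) := by
    have h3 : ((D.r v * (∑ j, D.g i j * iR y j)
        - (D.H i D.φ).re * D.r v ^ d * (ev D.b D.φ (iR m)).re : ℝ) : ℂ)
        = (D.r v : ℂ) * ((∑ j, D.g i j * iR y j : ℝ) : ℂ)
          - D.H i D.φ * (D.r v : ℂ) ^ d * ev D.b D.φ (iR m) := by
      rw [← D.H_phi_real i, ← D.ev_phi_real]
      push_cast
      simp
    rw [h3, h1]
    field_simp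
    ring
  rw [h2, Complex.ofReal_im]

lemma lam_real (i : Fin d) (c : D.I → ℂˣ) (hc : c ∈ D.C) (m : Fin d → ℤ) :
    (D.Lam i (fun τ => ((c τ : ℂˣ) : ℂ)) (iR m)).im = 0 := by
  have hcl : IsClosed {c : D.I → ℂˣ | (D.Lam i (fun τ => ((c τ : ℂˣ) : ℂ)) (iR m)).im = 0} := by
    refine isClosed_eq ?_ continuous_const
    exact Complex.continuous_im.comp ((D.continuous_Lam i (iR m)).comp D.continuous_coe)
  have hsub : (D.rho.range : Set (D.I → ℂˣ)) ⊆
      {c : D.I → ℂˣ | (D.Lam i (fun τ => ((c τ : ℂˣ) : ℂ)) (iR m)).im = 0} := by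
    rintro _ ⟨v, rfl⟩
    exact D.lam_rho_real i v m
  have hc' : c ∈ closure (D.rho.range : Set (D.I → ℂˣ)) := hc
  exact closure_minimal hsub hcl hc'

/-! ### Separation of embeddings by the tangent space -/

theorem separation (τ τ' : D.I) (hne : τ ≠ τ') : ∃ η ∈ tang D.C, η τ ≠ η τ' := by
  by_contra hcon
  push Not at hcon
  obtain ⟨δ0, hδ0, h0⟩ := exists_nhds_tang D.C D.isClosed_C
  obtain ⟨δ1, hδ1, h1⟩ := exists_log (ι := D.I) δ0 hδ0
  obtain ⟨ψ, hψ, hψ'⟩ := exists_other τ.1 τ'.1 D.φ (fun h => hne (Subtype.ext h))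
  obtain ⟨v, hv1, hv2⟩ := D.exists_small (min δ1 (1 / 2)) (lt_min hδ1 (by norm_num))
  obtain ⟨η, hη, hη'⟩ := h1 (D.rho v) (fun i => (hv1 i).trans_le (min_le_left _ _))
  have hmem : D.rho v ∈ D.C := by
    have : D.rho v ∈ D.rho.range := ⟨v, rfl⟩
    exact Subgroup.le_topologicalClosure _ this
  have hη2 := h0 η hη (by rw [hη']; exact hmem)
  have h2 := hcon η hη2
  have h3 : ((D.rho v τ : ℂˣ) : ℂ) = ((D.rho v τ' : ℂˣ) : ℂ) := by
    rw [← hη', coe_expM, coe_expM, h2]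
  rw [D.rho_val, D.rho_val] at h3
  have hr : (D.r v : ℂ) ≠ 0 := by exact_mod_cast (D.r_pos v).ne'
  have h4 := hψ' _ (mul_right_cancel₀ hr h3)
  -- sizes
  have h5 := hv1 ⟨ψ, hψ⟩
  have h6 : (1 : ℝ) / 2 < ‖((D.rho v ⟨ψ, hψ⟩ : ℂˣ) : ℂ)‖ := by
    have h7 := h5.trans_le (min_le_right _ _)
    have h8 := norm_sub_norm_le (1 : ℂ) ((D.rho v ⟨ψ, hψ⟩ : ℂˣ) : ℂ)
    rw [norm_one, norm_sub_rev] at h8
    linarith
  rw [D.rho_val] at h6
  simp only at h6
  rw [h4, norm_mul, D.phi_pos, Complex.norm_real, Complex.norm_real, Real.norm_eq_abs,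
    Real.norm_eq_abs, abs_of_pos (pow_pos (D.r_pos v) _), abs_of_pos (D.r_pos v), ← pow_succ] at h6
  have h9 : D.r v < 1 / 2 := hv2.trans_le (min_le_right _ _)
  have h10 : D.r v ^ (d - 1 + 1) ≤ D.r v := by
    refine pow_le_of_le_one (D.r_pos v).le (by linarith) (by omega)
  linarith

/-! ### Real vectors with prescribed values -/

lemma exists_real_vec (w : (K →+* ℂ) → ℂ)
    (hw : ∀ τ, w (ComplexEmbedding.conjugate τ) = (starRingEnd ℂ) (w τ)) :
    ∃ x : Fin d → ℝ, ∀ τ, ev D.b τ x = w τ := by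
  obtain ⟨x, hx⟩ := embed_surj' D.b w
  refine ⟨fun j => (x j).re, fun τ => ?_⟩
  have h1 : ∀ j, (((x j).re : ℝ) : ℂ) = (x j + (starRingEnd ℂ) (x j)) / 2 := by
    intro j
    rw [Complex.add_conj]
    push_cast
    ring
  have h2 : ∑ j, (starRingEnd ℂ) (x j) * τ (D.b j) = w τ := by
    have h3 : ∀ j, (starRingEnd ℂ) (x j) * τ (D.b j)
        = (starRingEnd ℂ) (x j * (ComplexEmbedding.conjugate τ) (D.b j)) := by
      intro j
      rw [map_mul, ComplexEmbedding.conjugate_coe_eq, Complex.conj_conj]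
    rw [Finset.sum_congr rfl fun j _ => h3 j, ← map_sum, hx, hw, Complex.conj_conj]
  unfold ev
  have h4 : ∀ j, (((x j).re : ℝ) : ℂ) * τ (D.b j)
      = (x j * τ (D.b j)) / 2 + ((starRingEnd ℂ) (x j) * τ (D.b j)) / 2 := by
    intro j
    rw [h1]
    ring
  rw [Finset.sum_congr rfl fun j _ => h4 j, Finset.sum_add_distrib, ← Finset.sum_div,
    ← Finset.sum_div, hx, h2]
  ring

lemma H0_ne : D.H D.i₀ D.φ ≠ 0 := by
  intro h
  apply D.hg
  refine Matrix.det_eq_zero_of_row_eq_zero D.i₀ fun j => ?_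
  have h1 : (D.g D.i₀ j : ℂ) = 0 := by
    rw [D.hH]
    refine Finset.sum_eq_zero fun τ _ => ?_
    by_cases hτ : τ = D.φ
    · rw [hτ, h, zero_mul]
    · rw [D.hi₀ τ hτ, zero_mul]
  exact_mod_cast h1

/-! ### Scaling of the value set -/

lemma P_smul (a : ℝ) (x : Fin d → ℝ) : D.P (a • x) = a ^ d * D.P x := by
  unfold P
  have h1 : ∀ i, ∑ j, D.g i j * (a • x) j = a * ∑ j, D.g i j * x j := by
    intro i
    rw [Finset.mul_sum]
    refine Finset.sum_congr rfl fun j _ => ?_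
    simp only [Pi.smul_apply, smul_eq_mul]; ring
  rw [Finset.prod_congr rfl fun i _ => h1 i, Finset.prod_mul_distrib, Finset.prod_const,
    Finset.card_univ, Fintype.card_fin]

lemma Val_scale (a : ℝ) (ha : a ∈ D.Val) (k : ℕ) : (k : ℝ) ^ d * a ∈ D.Val := by
  have h1 : Continuous fun a : ℝ => (k : ℝ) ^ d * a := continuous_const.mul continuous_id
  have h2 : Set.MapsTo (fun a : ℝ => (k : ℝ) ^ d * a)
      (Set.range fun m : Fin d → ℤ => D.P (iR m)) (Set.range fun m : Fin d → ℤ => D.P (iR m)) := by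
    rintro _ ⟨m, rfl⟩
    refine ⟨(k : ℤ) • m, ?_⟩
    have : iR ((k : ℤ) • m) = (k : ℝ) • iR m := by
      funext j; simp [iR]
    show D.P (iR ((k : ℤ) • m)) = _
    rw [this, D.P_smul]
  exact map_mem_closure h1 ha h2

lemma Val_ray (a : ℝ) (h : ∀ s : ℝ, 0 ≤ s → s ≤ 1 → s * a ∈ D.Val) (s : ℝ) (hs : 0 ≤ s) :
    s * a ∈ D.Val := by
  obtain ⟨k, hk⟩ := exists_nat_ge s
  have hd := D.hd
  have hk1 : (0 : ℝ) < (k : ℝ) + 1 := by positivity
  have hkd : s ≤ ((k : ℝ) + 1) ^ d := by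
    have h1 : (k : ℝ) + 1 ≤ ((k : ℝ) + 1) ^ d := le_self_pow₀ (by linarith [k.cast_nonneg (α := ℝ)])
      (by omega)
    linarith
  have h2 := h (s / ((k : ℝ) + 1) ^ d) (by positivity) (by rw [div_le_one (by positivity)]; exact hkd)
  have h3 := D.Val_scale _ h2 (k + 1)
  have h4 : ((k + 1 : ℕ) : ℝ) ^ d * (s / ((k : ℝ) + 1) ^ d * a) = s * a := by
    push_cast
    field_simp
  rwa [h4] at h3

lemma Val_univ (a a' : ℝ) (ha : 0 < a) (ha' : a' < 0)
    (h : ∀ s : ℝ, 0 ≤ s → s ≤ 1 → s * a ∈ D.Val) (h' : ∀ s : ℝ, 0 ≤ s → s ≤ 1 → s * a' ∈ D.Val) :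
    D.Val = Set.univ := by
  rw [Set.eq_univ_iff_forall]
  intro y
  rcases le_total 0 y with hy | hy
  · have := D.Val_ray a h (y / a) (by positivity)
    rwa [div_mul_cancel₀ _ ha.ne'] at this
  · have := D.Val_ray a' h' (y / a') (div_nonneg_of_nonpos hy ha'.le)
    rwa [div_mul_cancel₀ _ ha'.ne] at this

/-! ### Case A -/

/-- the real functional attached to `Lam` -/
noncomputable def fr (i : Fin d) (c : D.I → ℂ) : (Fin d → ℝ) →ₗ[ℝ] ℝ where
  toFun x := (D.Lam i c x).re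
  map_add' x y := by
    simp only [Lam, ev_add, mul_add, Finset.sum_add_distrib, Complex.add_re]
  map_smul' a x := by
    have h1 : D.Lam i c (a • x) = a * D.Lam i c x := by
      simp only [Lam, ev_smul, Finset.mul_sum]
      refine Finset.sum_congr rfl fun τ _ => ?_
      ring
    rw [h1]
    simp

lemma fr_apply (i : Fin d) (c : D.I → ℂ) (x : Fin d → ℝ) : D.fr i c x = (D.Lam i c x).re := rfl

lemma Lam_basis (i : Fin d) (c : D.I → ℂ) (x : Fin d → ℝ) :
    D.Lam i c x = ∑ j, (x j : ℂ) * D.Lam i c (iR (Pi.single j 1)) := by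
  have h1 : ∀ j (τ : K →+* ℂ), ev D.b τ (iR (Pi.single j 1)) = τ (D.b j) := by
    intro j τ
    unfold ev
    rw [Finset.sum_eq_single j]
    · simp [iR]
    · intro k _ hk; simp [iR, hk]
    · simp
  simp only [Lam, h1]
  unfold ev
  simp only [Finset.mul_sum]
  rw [Finset.sum_comm]
  refine Finset.sum_congr rfl fun j _ => Finset.sum_congr rfl fun τ _ => ?_
  ring

lemma Lam_eq_fr (i : Fin d) (c : D.I → ℂˣ) (hc : c ∈ D.C) (x : Fin d → ℝ) :
    D.Lam i (fun τ => ((c τ : ℂˣ) : ℂ)) x = (D.fr i (fun τ => ((c τ : ℂˣ) : ℂ)) x : ℂ) := by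
  have him : (D.Lam i (fun τ => ((c τ : ℂˣ) : ℂ)) x).im = 0 := by
    rw [D.Lam_basis, Complex.im_sum]
    refine Finset.sum_eq_zero fun j _ => ?_
    rw [Complex.mul_im, D.lam_real i c hc, Complex.ofReal_im]
    ring
  rw [fr_apply]
  exact (Complex.ext (by simp) (by simp [him]))

/-- real version of `Phi` -/
noncomputable def PhiR (c : D.I → ℂ) (x : Fin d → ℝ) : ℝ :=
  (D.H D.i₀ D.φ).re * (ev D.b D.φ x).re * ∏ i ∈ Finset.univ.erase D.i₀, D.fr i c x

lemma Phi_eq (c : D.I → ℂˣ) (hc : c ∈ D.C) (x : Fin d → ℝ) :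
    D.Phi (fun τ => ((c τ : ℂˣ) : ℂ)) x = (D.PhiR (fun τ => ((c τ : ℂˣ) : ℂ)) x : ℂ) := by
  rw [Phi, PhiR]
  push_cast
  rw [D.H_phi_real, D.ev_phi_real]
  congr 1
  exact Finset.prod_congr rfl fun i _ => D.Lam_eq_fr i c hc x

lemma PhiR_mem (c : D.I → ℂˣ) (hc : c ∈ D.C) (m : Fin d → ℤ) :
    D.PhiR (fun τ => ((c τ : ℂˣ) : ℂ)) (iR m) ∈ D.Val := by
  have h := D.phi_mem c hc m
  rw [D.Phi_eq c hc] at h
  obtain ⟨a, ha, hae⟩ := h
  have : a = D.PhiR (fun τ => ((c τ : ℂˣ) : ℂ)) (iR m) := Complex.ofReal_injective hae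
  rwa [← this]

/-- the segment of values -/
lemma segment_of_sign_change (i : Fin d) (hi : i ≠ D.i₀) (η : D.I → ℂ) (hη : η ∈ tang D.C)
    (t₀ : ℝ) (m : Fin d → ℤ) (h0 : 0 < D.fr i 1 (iR m))
    (h1 : D.fr i (fun τ => ((expM (t₀ • η) τ : ℂˣ) : ℂ)) (iR m) < 0) (s : ℝ) (hs : 0 ≤ s)
    (hs1 : s ≤ 1) : s * D.PhiR 1 (iR m) ∈ D.Val := by
  have hcont : Continuous fun (t : ℝ) (τ : D.I) => ((expM (t • η) τ : ℂˣ) : ℂ) := by
    simp only [coe_expM]
    fun_prop
  have hfr : ∀ i, Continuous fun t : ℝ =>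
      D.fr i (fun τ => ((expM (t • η) τ : ℂˣ) : ℂ)) (iR m) := by
    intro i
    simp only [fr_apply]
    exact Complex.continuous_re.comp ((D.continuous_Lam i (iR m)).comp hcont)
  have hG : Continuous fun t : ℝ => D.PhiR (fun τ => ((expM (t • η) τ : ℂˣ) : ℂ)) (iR m) := by
    unfold PhiR
    exact continuous_const.mul (continuous_finsetProd _ fun i _ => hfr i)
  have hone : (fun τ => ((expM ((0 : ℝ) • η) τ : ℂˣ) : ℂ)) = (1 : D.I → ℂ) := by
    funext τ; simp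
  -- a zero of the factor
  obtain ⟨t1, ht1⟩ : (0 : ℝ) ∈ Set.range fun t : ℝ =>
      D.fr i (fun τ => ((expM (t • η) τ : ℂˣ) : ℂ)) (iR m) := by
    refine mem_range_of_exists_le_of_exists_ge (hfr i) ⟨t₀, h1.le⟩ ⟨0, ?_⟩
    rw [hone]; exact h0.le
  have hz : D.PhiR (fun τ => ((expM (t1 • η) τ : ℂˣ) : ℂ)) (iR m) = 0 := by
    unfold PhiR
    rw [Finset.prod_eq_zero (Finset.mem_erase.2 ⟨hi, Finset.mem_univ i⟩) ht1, mul_zero]
  have hz0 : D.PhiR (fun τ => ((expM ((0 : ℝ) • η) τ : ℂˣ) : ℂ)) (iR m) = D.PhiR 1 (iR m) := by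
    rw [hone]
  obtain ⟨t2, ht2⟩ : s * D.PhiR 1 (iR m) ∈ Set.range fun t : ℝ =>
      D.PhiR (fun τ => ((expM (t • η) τ : ℂˣ) : ℂ)) (iR m) := by
    rcases le_total 0 (D.PhiR 1 (iR m)) with hp | hp
    · refine mem_range_of_exists_le_of_exists_ge hG ⟨t1, ?_⟩ ⟨0, ?_⟩
      · rw [hz]; positivity
      · rw [hz0]; exact mul_le_of_le_one_left hp hs1
    · refine mem_range_of_exists_le_of_exists_ge hG ⟨0, ?_⟩ ⟨t1, ?_⟩
      · rw [hz0]; nlinarith
      · rw [hz]; exact mul_nonpos_of_nonneg_of_nonpos hs hp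
  rw [← ht2]
  exact D.PhiR_mem _ (hη t2) m

lemma one_mem_coe : (fun τ : D.I => (((1 : D.I → ℂˣ) τ : ℂˣ) : ℂ)) = 1 := by
  funext τ; simp

lemma Lam_one_eq (i : Fin d) (x : Fin d → ℝ) : D.Lam i 1 x = (D.fr i 1 x : ℂ) := by
  have := D.Lam_eq_fr i 1 D.C.one_mem x
  rwa [D.one_mem_coe] at this

/-- a row functional in terms of `fr` -/
lemma lin_eq_fr (i : Fin d) (x : Fin d → ℝ) :
    ∑ j, D.g i j * x j = (D.H i D.φ).re * (ev D.b D.φ x).re + D.fr i 1 x := by
  have h1 := D.lin i x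
  rw [D.sum_split] at h1
  have h2 : ∑ τ : D.I, D.H i τ.1 * ev D.b τ.1 x = D.Lam i 1 x := by
    unfold Lam; simp
  rw [h2, D.Lam_one_eq, ← D.H_phi_real, ← D.ev_phi_real] at h1
  exact_mod_cast h1

lemma fr_zero_of_ev (i : Fin d) (c : D.I → ℂ) (x : Fin d → ℝ) (hx : ∀ τ : D.I, ev D.b τ.1 x = 0) :
    D.fr i c x = 0 := by
  rw [fr_apply, Lam, Finset.sum_eq_zero, Complex.zero_re]
  intro τ _
  rw [hx, mul_zero]

/-- the vector on which only `φ` is non-zero -/
lemma exists_z : ∃ z : Fin d → ℝ, ev D.b D.φ z = 1 ∧ ∀ τ : D.I, ev D.b τ.1 z = 0 := by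
  classical
  obtain ⟨z, hz⟩ := D.exists_real_vec (fun τ => if τ = D.φ then 1 else 0) (by
    intro τ
    by_cases h : τ = D.φ
    · rw [h, ComplexEmbedding.isReal_iff.1 D.hφ]; simp
    · have h' : ComplexEmbedding.conjugate τ ≠ D.φ := by
        intro h2
        apply h
        calc τ = ComplexEmbedding.conjugate (ComplexEmbedding.conjugate τ) :=
              (star_involutive τ).symm
          _ = ComplexEmbedding.conjugate D.φ := by rw [h2]
          _ = D.φ := ComplexEmbedding.isReal_iff.1 D.hφ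
      rw [if_neg h, if_neg h', map_zero])
  exact ⟨z, by rw [hz]; simp, fun τ => by rw [hz, if_neg τ.2]⟩

/-- a vector on which all the functionals `fr i 1` are equal to one -/
lemma exists_y : ∃ y : Fin d → ℝ, ∀ i, i ≠ D.i₀ → D.fr i 1 y = 1 := by
  classical
  set w : Fin d → ℝ := fun i => if i = D.i₀ then 0 else 1 with hw
  set y : Fin d → ℝ := D.g⁻¹.mulVec w with hy
  have hgy : ∀ i, ∑ j, D.g i j * y j = w i := by
    intro i
    have : D.g.mulVec y = w := by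
      rw [hy, Matrix.mulVec_mulVec, Matrix.mul_nonsing_inv _ (isUnit_iff_ne_zero.2 D.hg),
        Matrix.one_mulVec]
    exact congrFun this i
  have hev : (ev D.b D.φ y).re = 0 := by
    have h1 := D.lin D.i₀ y
    rw [hgy, D.sum_split, Finset.sum_eq_zero (fun τ _ => by rw [D.hi₀ τ.1 τ.2, zero_mul]),
      add_zero] at h1
    simp only [hw, if_true, Complex.ofReal_zero] at h1
    have h2 := (mul_eq_zero.1 h1.symm).resolve_left D.H0_ne
    rw [h2, Complex.zero_re]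
  refine ⟨y, fun i hi => ?_⟩
  have h3 := D.lin_eq_fr i y
  rw [hgy, hev, mul_zero, zero_add] at h3
  rw [← h3]
  simp [hw, hi]

theorem caseA (i : Fin d) (hi : i ≠ D.i₀) (τ τ' : D.I) (hne : τ ≠ τ') (hτ : D.H i τ.1 ≠ 0)
    (hτ' : D.H i τ'.1 ≠ 0) : D.Val = Set.univ := by
  classical
  obtain ⟨η, hη, hηne⟩ := D.separation τ τ' hne
  set f0 := D.fr i 1 with hf0
  -- the functionals along the one-parameter group
  have key : ∃ t : ℝ, ¬ ∃ κ : ℝ, 0 ≤ κ ∧
      D.fr i (fun τ => ((expM (t • η) τ : ℂˣ) : ℂ)) = κ • f0 := by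
    by_contra hcon
    push Not at hcon
    apply hηne
    have h1 : ∀ t : ℝ, Complex.exp (t * η τ) = Complex.exp (t * η τ') := by
      intro t
      obtain ⟨κ, _, hκ⟩ := hcon t
      have h2 : ∀ x : Fin d → ℝ, ∑ σ : D.I, D.H i σ.1 * (Complex.exp (t * η σ) - κ) * ev D.b σ.1 x = 0 := by
        intro x
        have h3 := D.Lam_eq_fr i (expM (t • η)) (hη t) x
        rw [hκ, LinearMap.smul_apply, smul_eq_mul, Complex.ofReal_mul, hf0, ← D.Lam_one_eq] at h3
        have h4 : ∑ σ : D.I, D.H i σ.1 * (Complex.exp (t * η σ) - κ) * ev D.b σ.1 x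
            = D.Lam i (fun τ => ((expM (t • η) τ : ℂˣ) : ℂ)) x - κ * D.Lam i 1 x := by
          simp only [Lam, Finset.mul_sum]
          rw [← Finset.sum_sub_distrib]
          refine Finset.sum_congr rfl fun σ _ => ?_
          simp only [coe_expM, Pi.smul_apply, Pi.one_apply, Complex.real_smul]
          ring
        rw [h4, h3, sub_self]
      -- by independence all coefficients vanish
      have h5 : ∀ σ : D.I, D.H i σ.1 * (Complex.exp (t * η σ) - κ) = 0 := by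
        have h6 := embed_indep D.b (fun σ : K →+* ℂ => if h : σ ≠ D.φ then
          D.H i σ * (Complex.exp (t * η ⟨σ, h⟩) - κ) else 0) ?_
        · intro σ
          have := congrFun h6 σ.1
          simpa [σ.2] using this
        · intro j
          rw [D.sum_split]
          have h7 := h2 (Pi.single j 1)
          have h8 : ∀ σ : K →+* ℂ, ev D.b σ (Pi.single j 1) = σ (D.b j) := by
            intro σ
            unfold ev
            rw [Finset.sum_eq_single j]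
            · simp
            · intro k _ hk; simp [hk]
            · simp
          simp only [h8] at h7
          simp only [ne_eq, not_true_eq_false, dite_false, zero_mul, zero_add]
          rw [← h7]
          refine Finset.sum_congr rfl fun σ _ => ?_
          rw [dif_pos σ.2]
      have h9 := (mul_eq_zero.1 (h5 τ)).resolve_left hτ
      have h10 := (mul_eq_zero.1 (h5 τ')).resolve_left hτ'
      rw [sub_eq_zero] at h9 h10
      rw [h9, h10]
    have h11 := exp_all_one (η τ - η τ') (fun t => by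
      rw [mul_sub, Complex.exp_sub, h1 t, div_self (Complex.exp_ne_zero _)])
    exact sub_eq_zero.1 h11
  obtain ⟨t₀, ht₀⟩ := key
  set f1 := D.fr i (fun τ => ((expM (t₀ • η) τ : ℂˣ) : ℂ)) with hf1
  obtain ⟨y, hy⟩ := D.exists_y
  have hf0ne : f0 ≠ 0 := by
    intro h
    have := hy i hi
    rw [← hf0, h, LinearMap.zero_apply] at this
    exact zero_ne_one this
  obtain ⟨x0, hx0, hx0'⟩ := exists_pos_neg f0 f1 hf0ne ht₀
  -- perturb to make all the factors non-zero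
  obtain ⟨x1, hx1, hx1', hx1ne⟩ : ∃ x1, 0 < f0 x1 ∧ f1 x1 < 0 ∧ ∀ k, k ≠ D.i₀ → D.fr k 1 x1 ≠ 0 := by
    set F : Finset ℝ := Finset.univ.image fun k => - D.fr k 1 x0 with hF
    have hlim : ∀ᶠ s : ℝ in 𝓝[>] 0, f1 (x0 + s • y) < 0 := by
      have hc : Continuous fun s : ℝ => f1 (x0 + s • y) := by
        simp only [map_add, map_smul, smul_eq_mul]
        fun_prop
      have h1 : Tendsto (fun s : ℝ => f1 (x0 + s • y)) (𝓝[>] 0) (𝓝 (f1 (x0 + (0 : ℝ) • y))) :=
        hc.continuousAt.tendsto.mono_left nhdsWithin_le_nhds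
      rw [zero_smul, add_zero] at h1
      exact h1.eventually_lt_const hx0'
    have hpos : ∀ᶠ s : ℝ in 𝓝[>] 0, 0 < s := eventually_mem_nhdsWithin
    have hF' : ∀ᶠ s : ℝ in 𝓝[>] 0, s ∉ F := by
      have h2 : ∀ᶠ s : ℝ in 𝓝[>] (0 : ℝ), s ∉ F.erase 0 := by
        refine nhdsWithin_le_nhds ?_
        have : (((F.erase 0 : Finset ℝ) : Set ℝ))ᶜ ∈ 𝓝 (0 : ℝ) :=
          (F.erase 0).finite_toSet.isClosed.isOpen_compl.mem_nhds (by simp)
        exact this
      filter_upwards [h2, hpos] with s h3 h4 h5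
      exact h3 (Finset.mem_erase.2 ⟨h4.ne', h5⟩)
    obtain ⟨s, ⟨h1, h2⟩, h3⟩ := ((hlim.and hpos).and hF').exists
    refine ⟨x0 + s • y, ?_, h1, fun k hk h4 => h3 ?_⟩
    · rw [map_add, map_smul, hf0, hy i hi, smul_eq_mul, mul_one, ← hf0]
      linarith
    · rw [map_add, map_smul, hy k hk, smul_eq_mul, mul_one] at h4
      rw [hF, Finset.mem_image]
      exact ⟨k, Finset.mem_univ k, by linarith⟩
  obtain ⟨z, hz1, hz2⟩ := D.exists_z
  set Q : ℝ := ∏ k ∈ Finset.univ.erase D.i₀, D.fr k 1 x1 with hQ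
  have hQne : Q ≠ 0 := Finset.prod_ne_zero_iff.2 fun k hk => hx1ne k (Finset.ne_of_mem_erase hk)
  set h : ℝ := (D.H D.i₀ D.φ).re with hh
  have hhne : h ≠ 0 := by
    intro h0
    apply D.H0_ne
    rw [← D.H_phi_real, ← hh, h0, Complex.ofReal_zero]
  -- for each sign find an integer point
  have hsign : ∀ σ : ℝ, ∃ m : Fin d → ℤ, 0 < f0 (iR m) ∧ f1 (iR m) < 0 ∧ (σ ≠ 0 → 0 < σ * D.PhiR 1 (iR m)) := by
    intro σ
    set a : ℝ := σ / (h * Q) - (ev D.b D.φ x1).re with ha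
    set x2 : Fin d → ℝ := x1 + a • z with hx2
    have e0 : ∀ k (c : D.I → ℂ), D.fr k c x2 = D.fr k c x1 := by
      intro k c
      rw [hx2, map_add, map_smul, D.fr_zero_of_ev k c z hz2, smul_zero, add_zero]
    have e1 : D.PhiR 1 x2 = σ := by
      have h5 : (ev D.b D.φ x2).re = σ / (h * Q) := by
        rw [hx2, ev_add, ev_smul, hz1, mul_one, Complex.add_re, Complex.ofReal_re, ha]
        ring
      rw [PhiR, h5, Finset.prod_congr rfl fun k _ => e0 k 1, ← hQ, ← hh]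
      field_simp
    by_cases hσ : σ = 0
    · -- only need the first two conditions
      have hU : IsOpen {x : Fin d → ℝ | 0 < f0 x ∧ f1 x < 0} :=
        (isOpen_lt continuous_const f0.continuous_of_finiteDimensional).inter
          (isOpen_lt f1.continuous_of_finiteDimensional continuous_const)
      obtain ⟨m, k, hk, hm⟩ := exists_int_point _ hU x1 ⟨hx1, hx1'⟩
      have hk' : (0 : ℝ) < k := by exact_mod_cast hk
      have e2 : (fun j => (m j : ℝ) / k) = (k : ℝ)⁻¹ • iR m := by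
        funext j; simp [iR]; ring
      rw [e2] at hm
      obtain ⟨h6, h7⟩ := hm
      rw [map_smul, smul_eq_mul] at h6 h7
      refine ⟨m, ?_, ?_, fun h => absurd hσ h⟩
      · exact pos_of_mul_pos_right h6 (inv_nonneg.2 hk'.le)
      · by_contra hcon
        exact absurd h7 (not_lt.2 (mul_nonneg (inv_nonneg.2 hk'.le) (not_lt.1 hcon)))
    · have hc : Continuous fun x : Fin d → ℝ => D.PhiR 1 x := by
        unfold PhiR
        refine (continuous_const.mul (Complex.continuous_re.comp (continuous_ev D.b D.φ))).mul ?_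
        exact continuous_finsetProd _ fun k _ => (D.fr k 1).continuous_of_finiteDimensional
      have hU : IsOpen {x : Fin d → ℝ | (0 < f0 x ∧ f1 x < 0) ∧ 0 < σ * D.PhiR 1 x} :=
        ((isOpen_lt continuous_const f0.continuous_of_finiteDimensional).inter
          (isOpen_lt f1.continuous_of_finiteDimensional continuous_const)).inter
          (isOpen_lt continuous_const (continuous_const.mul hc))
      have hx2mem : x2 ∈ {x : Fin d → ℝ | (0 < f0 x ∧ f1 x < 0) ∧ 0 < σ * D.PhiR 1 x} := by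
        refine ⟨⟨?_, ?_⟩, ?_⟩
        · rw [hf0, e0]; exact hx1
        · rw [hf1, e0]; exact hx1'
        · rw [e1]; exact mul_self_pos.2 hσ
      obtain ⟨m, k, hk, hm⟩ := exists_int_point _ hU x2 hx2mem
      have hk' : (0 : ℝ) < k := by exact_mod_cast hk
      have e2 : (fun j => (m j : ℝ) / k) = (k : ℝ)⁻¹ • iR m := by
        funext j; simp [iR]; ring
      rw [e2] at hm
      obtain ⟨⟨h6, h7⟩, h8⟩ := hm
      rw [map_smul, smul_eq_mul] at h6 h7
      have e3 : D.PhiR 1 ((k : ℝ)⁻¹ • iR m) = ((k : ℝ)⁻¹) ^ d * D.PhiR 1 (iR m) := by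
        have hd := D.hd
        have : ((k : ℝ)⁻¹) ^ d = (k : ℝ)⁻¹ * ((k : ℝ)⁻¹) ^ (d - 1) := by
          rw [← pow_succ']; congr 1; omega
        rw [PhiR, PhiR, ev_smul, this]
        have e4 : ((((k : ℝ)⁻¹ : ℝ) : ℂ) * ev D.b D.φ (iR m)).re
            = (k : ℝ)⁻¹ * (ev D.b D.φ (iR m)).re := Complex.re_ofReal_mul _ _
        rw [e4]
        simp only [map_smul, smul_eq_mul]
        rw [Finset.prod_mul_distrib, Finset.prod_const,
          Finset.card_erase_of_mem (Finset.mem_univ _), Finset.card_univ, Fintype.card_fin]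
        ring
      refine ⟨m, ?_, ?_, fun _ => ?_⟩
      · exact pos_of_mul_pos_right h6 (inv_nonneg.2 hk'.le)
      · by_contra hcon
        exact absurd h7 (not_lt.2 (mul_nonneg (inv_nonneg.2 hk'.le) (not_lt.1 hcon)))
      · rw [e3] at h8
        have h9 : 0 < ((k : ℝ)⁻¹) ^ d * (σ * D.PhiR 1 (iR m)) := by
          convert h8 using 1; ring
        exact pos_of_mul_pos_right h9 (by positivity)
  obtain ⟨m, hm1, hm2, hm3⟩ := hsign 1
  obtain ⟨m', hm1', hm2', hm3'⟩ := hsign (-1)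
  have a1 := hm3 one_ne_zero
  have a2 := hm3' (by norm_num)
  refine D.Val_univ (D.PhiR 1 (iR m)) (D.PhiR 1 (iR m')) (by linarith) (by linarith) ?_ ?_
  · intro s hs hs1
    exact D.segment_of_sign_change i hi η hη t₀ m hm1 hm2 s hs hs1
  · intro s hs hs1
    exact D.segment_of_sign_change i hi η hη t₀ m' hm1' hm2' s hs hs1

end Dat

end H715R2
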