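import Mathlib
import Pool.Agent.H715R2.AlgFactor

/-! # The totally real case: units with prescribed ratio of two conjugates -/

open NumberField Filter Topology

namespace H715R2

set_option linter.unusedSectionVars false

variable {K : Type*} [Field K] [NumberField K] {d : ℕ}

/-- `log ‖τ (v^N)‖` -/
noncomputable def lg (N : ℕ) (τ : K →+* ℂ) (v : (𝓞 K)ˣ) : ℝ := Real.log ‖τ (uu N v)‖

lemma lg_mul (N : ℕ) (τ : K →+* ℂ) (v w : (𝓞 K)ˣ) : lg N τ (v * w) = lg N τ v + lg N τ w := by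
  unfold lg
  rw [uu_mul, map_mul, norm_mul,
    Real.log_mul (norm_ne_zero_iff.2 (tau_ne _ _ _)) (norm_ne_zero_iff.2 (tau_ne _ _ _))]

lemma lg_one (N : ℕ) (τ : K →+* ℂ) : lg N τ (1 : (𝓞 K)ˣ) = 0 := by
  simp [lg, uu_one]

lemma lg_inv (N : ℕ) (τ : K →+* ℂ) (v : (𝓞 K)ˣ) : lg N τ v⁻¹ = - lg N τ v := by
  have := lg_mul N τ v v⁻¹
  rw [mul_inv_cancel, lg_one] at this
  linarith

lemma lg_zpow (N : ℕ) (τ : K →+* ℂ) (v : (𝓞 K)ˣ) (k : ℤ) : lg N τ (v ^ k) = k * lg N τ v := by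
  have hnat : ∀ n : ℕ, lg N τ (v ^ n) = n * lg N τ v := by
    intro n
    induction n with
    | zero => simp [lg_one]
    | succ n ih => rw [pow_succ, lg_mul, ih]; push_cast; ring
  cases k with
  | ofNat n => simpa using hnat n
  | negSucc n =>
    rw [zpow_negSucc, lg_inv, hnat]
    push_cast
    ring

open scoped Classical in
lemma sum_lg (N : ℕ) (v : (𝓞 K)ˣ) : ∑ τ : K →+* ℂ, lg N τ v = 0 := by
  have h1 : ∑ τ : K →+* ℂ, lg N τ v
      = ∑ w : InfinitePlace K, (w.mult : ℝ) * Real.log (w (uu N v)) := by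
    have e : ∀ τ : K →+* ℂ, lg N τ v = Real.log (InfinitePlace.mk τ (uu N v)) := by
      intro τ; rw [InfinitePlace.apply]; rfl
    rw [Finset.sum_congr rfl fun τ _ => e τ,
      ← Finset.sum_fiberwise (s := Finset.univ) (g := fun τ : K →+* ℂ => InfinitePlace.mk τ)]
    refine Finset.sum_congr rfl fun w _ => ?_
    rw [Finset.sum_congr rfl (g := fun _ => Real.log (w (uu N v)))
      (fun τ hτ => by rw [(Finset.mem_filter.1 hτ).2])]
    rw [Finset.sum_const, InfinitePlace.card_filter_mk_eq, nsmul_eq_mul]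
  rw [h1]
  exact Units.sum_mult_mul_log (v ^ N)

open scoped Classical in
lemma near_real (hreal : ∀ τ : K →+* ℂ, ComplexEmbedding.IsReal τ) (N : ℕ) (hN : 0 < N) :
    ∃ R : ℝ, 0 ≤ R ∧ ∀ q : (K →+* ℂ) → ℝ, ∑ τ : K →+* ℂ, q τ = 0 →
      ∃ v : (𝓞 K)ˣ, ∀ τ : K →+* ℂ, |lg N τ v - q τ| ≤ R := by
  obtain ⟨R, hR, h⟩ := exists_unit_pow_near K N hN
  refine ⟨R, hR, fun q hq => ?_⟩
  have e : ∀ τ : K →+* ℂ, (InfinitePlace.mk τ).embedding = τ := fun τ =>
    InfinitePlace.embedding_mk_eq_of_isReal (hreal τ)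
  obtain ⟨v, hv⟩ := h (fun w => q w.embedding) (by simp only [e]; exact hq)
  refine ⟨v, fun τ => ?_⟩
  have := hv τ
  simp only [e] at this
  exact this

lemma pos_real (hreal : ∀ τ : K →+* ℂ, ComplexEmbedding.IsReal τ) (N : ℕ) (hN : Even N)
    (τ : K →+* ℂ) (v : (𝓞 K)ˣ) : τ (uu N v) = ((Real.exp (lg N τ v) : ℝ) : ℂ) := by
  obtain ⟨k, hk⟩ := hN
  have h1 : uu N v = uu k v * uu k v := by
    simp only [uu, hk, pow_add]
    push_cast
    rfl
  have hc : (starRingEnd ℂ) (τ (uu k v)) = τ (uu k v) := by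
    have := congrArg (fun f : K →+* ℂ => f (uu k v)) (ComplexEmbedding.isReal_iff.1 (hreal τ))
    simpa using this
  obtain ⟨a, ha⟩ := Complex.conj_eq_iff_real.1 hc
  have hne : ‖τ (uu N v)‖ ≠ 0 := norm_ne_zero_iff.2 (tau_ne _ _ _)
  rw [lg, Real.exp_log (norm_pos_iff.2 (tau_ne _ _ _)), h1, map_mul, ha, ← Complex.ofReal_mul,
    Complex.norm_real, Real.norm_eq_abs, abs_of_nonneg (mul_self_nonneg a)]

/-- the difference of two logarithms as a homomorphism -/
noncomputable def psi (N : ℕ) (φ τ₁ : K →+* ℂ) : Additive (𝓞 K)ˣ →+ ℝ where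
  toFun v := lg N φ v.toMul - lg N τ₁ v.toMul
  map_zero' := by
    have : (0 : Additive (𝓞 K)ˣ).toMul = 1 := rfl
    rw [this, lg_one, lg_one, sub_zero]
  map_add' v w := by
    have : (v + w).toMul = v.toMul * w.toMul := rfl
    rw [this, lg_mul, lg_mul]; ring

lemma psi_apply (N : ℕ) (φ τ₁ : K →+* ℂ) (v : (𝓞 K)ˣ) :
    psi N φ τ₁ (Additive.ofMul v) = lg N φ v - lg N τ₁ v := rfl

open scoped Classical in
/-- the ratio of two conjugates of the units is dense -/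
lemma psi_dense (hreal : ∀ τ : K →+* ℂ, ComplexEmbedding.IsReal τ) (N : ℕ) (hN : 0 < N)
    (hNe : Even N) (φ τ₁ τ₃ : K →+* ℂ) (h1 : τ₁ ≠ φ) (h3 : τ₃ ≠ φ) (h31 : τ₃ ≠ τ₁) :
    Dense ((psi N φ τ₁).range : Set ℝ) := by
  rcases AddSubgroup.dense_or_cyclic (psi N φ τ₁).range with h | ⟨a, ha⟩
  · exact h
  exfalso
  obtain ⟨R, hR, hnear⟩ := near_real hreal N hN
  have hamem : a ∈ (psi N φ τ₁).range := by rw [ha]; exact AddSubgroup.mem_closure_singleton_self a
  obtain ⟨v1', hv1'⟩ := hamem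
  obtain ⟨v1, hv1⟩ : ∃ v1 : (𝓞 K)ˣ, lg N φ v1 - lg N τ₁ v1 = a := ⟨v1'.toMul, hv1'⟩
  -- constants
  set c1 : ℝ := ∑ τ : K →+* ℂ, |lg N τ v1| with hc1
  have hc1' : ∀ τ : K →+* ℂ, |lg N τ v1| ≤ c1 := fun τ =>
    Finset.single_le_sum (f := fun τ : K →+* ℂ => |lg N τ v1|) (fun _ _ => abs_nonneg _)
      (Finset.mem_univ τ)
  have hc1nn : 0 ≤ c1 := Finset.sum_nonneg fun _ _ => abs_nonneg _
  set M : ℝ := 2 * R / |a| with hM
  have hMnn : 0 ≤ M := by positivity
  set T : ℝ := 2 * R + 2 * M * c1 + 1 with hT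
  set q : (K →+* ℂ) → ℝ := fun τ => if τ = φ then -T else if τ = τ₁ then -T else
    if τ = τ₃ then 2 * T else 0 with hq
  have hqφ : q φ = -T := by simp [hq]
  have hq1 : q τ₁ = -T := by simp [hq, h1]
  have hq3 : q τ₃ = 2 * T := by simp [hq, h3, h31]
  have hqo : ∀ τ, τ ≠ φ → τ ≠ τ₁ → τ ≠ τ₃ → q τ = 0 := by
    intro τ e1 e2 e3; simp [hq, e1, e2, e3]
  have hqsum : ∑ τ : K →+* ℂ, q τ = 0 := by
    have hsub : ∑ τ ∈ ({φ, τ₁, τ₃} : Finset (K →+* ℂ)), q τ = ∑ τ : K →+* ℂ, q τ := by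
      refine Finset.sum_subset (Finset.subset_univ _) fun τ _ hτ => ?_
      simp only [Finset.mem_insert, Finset.mem_singleton, not_or] at hτ
      exact hqo τ hτ.1 hτ.2.1 hτ.2.2
    rw [← hsub, Finset.sum_insert (by simp [h1.symm, h3.symm]),
      Finset.sum_insert (by simp [h31.symm]), Finset.sum_singleton, hqφ, hq1, hq3]
    ring
  obtain ⟨v, hv⟩ := hnear q hqsum
  have hψv : |lg N φ v - lg N τ₁ v| ≤ 2 * R := by
    have e1 := abs_le.1 (hv φ)
    have e2 := abs_le.1 (hv τ₁)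
    rw [hqφ] at e1
    rw [hq1] at e2
    rw [abs_le]; constructor <;> linarith [e1.1, e1.2, e2.1, e2.2]
  have hmem : lg N φ v - lg N τ₁ v ∈ AddSubgroup.closure {a} := by
    rw [← ha]; exact ⟨Additive.ofMul v, psi_apply _ _ _ _⟩
  rw [AddSubgroup.mem_closure_singleton] at hmem
  obtain ⟨n0, hn0⟩ := hmem
  rw [zsmul_eq_mul] at hn0
  obtain ⟨n, hn, hnM⟩ : ∃ n : ℤ, (n : ℝ) * a = lg N φ v - lg N τ₁ v ∧ |(n : ℝ)| ≤ M := by
    by_cases ha0 : a = 0
    · refine ⟨0, ?_, ?_⟩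
      · rw [← hn0, ha0]; simp
      · simpa using hMnn
    · refine ⟨n0, hn0, ?_⟩
      rw [hM, le_div_iff₀ (abs_pos.2 ha0), ← abs_mul, hn0]
      exact hψv
  set v' := v * v1 ^ (-n) with hv'
  have hlg : ∀ τ : K →+* ℂ, lg N τ v' = lg N τ v - n * lg N τ v1 := by
    intro τ; rw [hv', lg_mul, lg_zpow]; push_cast; ring
  have hbound : ∀ τ : K →+* ℂ, |lg N τ v' - q τ| ≤ R + M * c1 := by
    intro τ
    rw [hlg]
    have e1 : lg N τ v - n * lg N τ v1 - q τ = (lg N τ v - q τ) + (-(n : ℝ) * lg N τ v1) := by ring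
    rw [e1]
    refine (abs_add_le _ _).trans (add_le_add (hv τ) ?_)
    rw [abs_mul, abs_neg]
    exact mul_le_mul hnM (hc1' τ) (abs_nonneg _) hMnn
  have hψ0 : lg N φ v' = lg N τ₁ v' := by
    rw [hlg, hlg]
    have : lg N φ v - lg N τ₁ v = n * (lg N φ v1 - lg N τ₁ v1) := by rw [hv1, hn]
    linarith
  have heq : φ (uu N v') = τ₁ (uu N v') := by
    rw [pos_real hreal N hNe, pos_real hreal N hNe, hψ0]
  obtain ⟨ψ, hψ, hψ'⟩ := exists_other φ τ₁ τ₃ h1.symm
  have h5 := hψ' _ heq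
  have h6 : lg N ψ v' = lg N τ₃ v' := by unfold lg; rw [h5]
  have h7 : q ψ ≤ 0 := by
    by_cases e1 : ψ = φ
    · rw [e1, hqφ, hT]
      have : 0 ≤ M * c1 := mul_nonneg hMnn hc1nn
      linarith
    · by_cases e2 : ψ = τ₁
      · rw [e2, hq1, hT]
        have : 0 ≤ M * c1 := mul_nonneg hMnn hc1nn
        linarith
      · rw [hqo ψ e1 e2 hψ]
  have e1 := abs_le.1 (hbound ψ)
  have e2 := abs_le.1 (hbound τ₃)
  rw [hq3] at e2
  rw [h6] at e1
  have : 0 ≤ M * c1 := mul_nonneg hMnn hc1nn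
  rw [hT] at e2
  linarith [e1.2, e2.1]

open scoped Classical in
/-- units with prescribed ratio at two embeddings, contracting both relative to all the others -/
theorem exists_ratio (hreal : ∀ τ : K →+* ℂ, ComplexEmbedding.IsReal τ) (N : ℕ) (hN : 0 < N)
    (hNe : Even N) (φ τ₁ τ₃ : K →+* ℂ) (h1 : τ₁ ≠ φ) (h3 : τ₃ ≠ φ) (h31 : τ₃ ≠ τ₁)
    (s ε T : ℝ) (hε : 0 < ε) :
    ∃ v : (𝓞 K)ˣ, |lg N φ v - lg N τ₁ v - s| < ε ∧
      ∀ τ : K →+* ℂ, τ ≠ φ → τ ≠ τ₁ → lg N φ v - lg N τ v < -T := by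
  have hdense := psi_dense hreal N hN hNe φ τ₁ τ₃ h1 h3 h31
  obtain ⟨R, hR, hnear⟩ := near_real hreal N hN
  -- a small element
  obtain ⟨a, ⟨v1', hv1'⟩, ⟨ha0, haε⟩⟩ := hdense.exists_mem_open
    (isOpen_Ioo (a := (0:ℝ)) (b := ε)) ⟨ε / 2, by constructor <;> linarith⟩
  obtain ⟨v1, hv1⟩ : ∃ v1 : (𝓞 K)ˣ, lg N φ v1 - lg N τ₁ v1 = a := ⟨v1'.toMul, hv1'⟩
  set c1 : ℝ := ∑ τ : K →+* ℂ, |lg N τ v1| with hc1
  have hc1' : ∀ τ : K →+* ℂ, |lg N τ v1| ≤ c1 := fun τ =>
    Finset.single_le_sum (f := fun τ : K →+* ℂ => |lg N τ v1|) (fun _ _ => abs_nonneg _)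
      (Finset.mem_univ τ)
  have hc1nn : 0 ≤ c1 := Finset.sum_nonneg fun _ _ => abs_nonneg _
  set M : ℝ := (|s| + 2 * R) / a + 1 with hM
  have hMnn : 0 ≤ M := by positivity
  set n : ℕ := Fintype.card (K →+* ℂ) with hn
  have hn3 : 3 ≤ n := by
    have hcard : ({φ, τ₁, τ₃} : Finset (K →+* ℂ)).card = 3 := by
      rw [Finset.card_insert_of_notMem (by simp [h1.symm, h3.symm]),
        Finset.card_insert_of_notMem (by simp [h31.symm]), Finset.card_singleton]
    rw [hn, ← hcard]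
    exact Finset.card_le_univ _
  set W : ℝ := |T| + 2 * R + 2 * M * c1 + 1 with hW
  have hWpos : 0 < W := by
    have : 0 ≤ M * c1 := mul_nonneg hMnn hc1nn
    have : 0 ≤ |T| := abs_nonneg _
    rw [hW]; nlinarith
  set q : (K →+* ℂ) → ℝ := fun τ => if τ = φ then -((n : ℝ) - 2) * W else
    if τ = τ₁ then -((n : ℝ) - 2) * W else 2 * W with hq
  have hqφ : q φ = -((n : ℝ) - 2) * W := by simp [hq]
  have hq1 : q τ₁ = -((n : ℝ) - 2) * W := by simp [hq, h1]
  have hqo : ∀ τ, τ ≠ φ → τ ≠ τ₁ → q τ = 2 * W := by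
    intro τ e1 e2; simp [hq, e1, e2]
  have hqsum : ∑ τ : K →+* ℂ, q τ = 0 := by
    have e0 : ∑ τ : K →+* ℂ, q τ = q φ + (q τ₁ + ∑ τ ∈ (Finset.univ.erase φ).erase τ₁, q τ) := by
      rw [Finset.add_sum_erase _ _ (Finset.mem_erase.2 ⟨h1, Finset.mem_univ _⟩),
        Finset.add_sum_erase _ _ (Finset.mem_univ _)]
    rw [e0, Finset.sum_congr rfl (g := fun _ => 2 * W) (fun τ hτ => hqo τ
      (Finset.ne_of_mem_erase (Finset.mem_of_mem_erase hτ)) (Finset.ne_of_mem_erase hτ)),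
      Finset.sum_const, Finset.card_erase_of_mem (Finset.mem_erase.2 ⟨h1, Finset.mem_univ _⟩),
      Finset.card_erase_of_mem (Finset.mem_univ _), Finset.card_univ, ← hn, hqφ, hq1, nsmul_eq_mul]
    have : ((n - 1 - 1 : ℕ) : ℝ) = (n : ℝ) - 2 := by
      rw [Nat.sub_sub, Nat.cast_sub (by omega)]; norm_num
    rw [this]; ring
  obtain ⟨v, hv⟩ := hnear q hqsum
  have hψv : |lg N φ v - lg N τ₁ v| ≤ 2 * R := by
    have e1 := abs_le.1 (hv φ)
    have e2 := abs_le.1 (hv τ₁)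
    rw [hqφ] at e1
    rw [hq1] at e2
    rw [abs_le]; constructor <;> linarith [e1.1, e1.2, e2.1, e2.2]
  set k : ℤ := ⌊(s - (lg N φ v - lg N τ₁ v)) / a⌋ with hk
  have hk1 : (k : ℝ) * a ≤ s - (lg N φ v - lg N τ₁ v) := by
    have := mul_le_mul_of_nonneg_right (Int.floor_le ((s - (lg N φ v - lg N τ₁ v)) / a)) ha0.le
    rwa [div_mul_cancel₀ _ ha0.ne'] at this
  have hk2 : s - (lg N φ v - lg N τ₁ v) < (k : ℝ) * a + a := by
    have := mul_lt_mul_of_pos_right (Int.lt_floor_add_one ((s - (lg N φ v - lg N τ₁ v)) / a)) ha0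
    rw [div_mul_cancel₀ _ ha0.ne'] at this
    linarith
  have hkM : |(k : ℝ)| ≤ M := by
    have e1 : |(k : ℝ)| * a ≤ |s| + 2 * R + a := by
      rw [← abs_of_pos ha0, ← abs_mul, abs_of_pos ha0, abs_le]
      have f1 := abs_le.1 hψv
      have f2 := neg_abs_le s
      have f3 := le_abs_self s
      constructor <;> linarith [f1.1, f1.2]
    rw [hM]
    have : |(k : ℝ)| ≤ (|s| + 2 * R + a) / a := by rwa [le_div_iff₀ ha0]
    rwa [add_div, div_self ha0.ne'] at this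
  refine ⟨v * v1 ^ k, ?_, ?_⟩
  · rw [lg_mul, lg_mul, lg_zpow, lg_zpow]
    have e1 : lg N φ v + k * lg N φ v1 - (lg N τ₁ v + k * lg N τ₁ v1) - s
        = -(s - (lg N φ v - lg N τ₁ v) - k * a) := by rw [← hv1]; ring
    rw [e1, abs_neg, abs_of_nonneg (by linarith)]
    linarith
  · intro τ e1 e2
    rw [lg_mul, lg_mul, lg_zpow, lg_zpow]
    have f1 := abs_le.1 (hv φ)
    have f2 := abs_le.1 (hv τ)
    rw [hqφ] at f1
    rw [hqo τ e1 e2] at f2
    have f3 : |(k : ℝ) * lg N φ v1| ≤ M * c1 := by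
      rw [abs_mul]; exact mul_le_mul hkM (hc1' _) (abs_nonneg _) hMnn
    have f4 : |(k : ℝ) * lg N τ v1| ≤ M * c1 := by
      rw [abs_mul]; exact mul_le_mul hkM (hc1' _) (abs_nonneg _) hMnn
    have f5 := abs_le.1 f3
    have f6 := abs_le.1 f4
    have f7 : (1 : ℝ) ≤ (n : ℝ) - 2 := by
      have : (3 : ℝ) ≤ n := by exact_mod_cast hn3
      linarith
    have f8 : W ≤ ((n : ℝ) - 2) * W := by nlinarith
    have f9 := le_abs_self T
    have f10 : 0 ≤ M * c1 := mul_nonneg hMnn hc1nn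
    rw [hW] at f8
    nlinarith [f1.2, f2.1, f5.2, f6.1]

namespace Dat

variable (D : Dat K d)

open scoped Classical in
/-- the case where every other row is supported on at most one further embedding -/
theorem caseB (hB : ∀ i, i ≠ D.i₀ → ∀ τ τ' : D.I, τ ≠ τ' → D.H i τ.1 = 0 ∨ D.H i τ'.1 = 0) :
    (∀ i, ∃ τ, ∀ τ', τ' ≠ τ → D.H i τ' = 0) ∨ D.Val = Set.univ := by
  -- dual vectors
  have hdual : ∀ i, i ≠ D.i₀ → ∃ x : Fin d → ℝ, ev D.b D.φ x = 0 ∧
      (∑ j, D.g i j * x j = 1) ∧ ∀ k, k ≠ i → ∑ j, D.g k j * x j = 0 := by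
    intro i hi
    set w : Fin d → ℝ := fun k => if k = i then 1 else 0 with hw
    set x : Fin d → ℝ := D.g⁻¹.mulVec w with hx
    have hgx : ∀ k, ∑ j, D.g k j * x j = w k := by
      intro k
      have : D.g.mulVec x = w := by
        rw [hx, Matrix.mulVec_mulVec, Matrix.mul_nonsing_inv _ (isUnit_iff_ne_zero.2 D.hg),
          Matrix.one_mulVec]
      exact congrFun this k
    refine ⟨x, ?_, by rw [hgx]; simp [hw], fun k hk => by rw [hgx]; simp [hw, hk]⟩
    have h1 := D.lin D.i₀ x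
    rw [hgx, D.sum_split, Finset.sum_eq_zero (fun τ _ => by rw [D.hi₀ τ.1 τ.2, zero_mul]),
      add_zero] at h1
    simp only [hw, if_neg hi.symm, Complex.ofReal_zero] at h1
    exact (mul_eq_zero.1 h1.symm).resolve_left D.H0_ne
  have hex : ∀ i : {i // i ≠ D.i₀}, ∃ τ : D.I, D.H i.1 τ.1 ≠ 0 := by
    intro i
    by_contra hcon
    push Not at hcon
    obtain ⟨x, hx1, hx2, _⟩ := hdual i.1 i.2
    have h1 := D.lin i.1 x
    rw [hx2, D.sum_split, hx1, Finset.sum_eq_zero (fun τ _ => by rw [hcon τ, zero_mul])] at h1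
    simp at h1
  choose t ht using hex
  -- the row is supported on `φ` and `t i`
  have hzero : ∀ i : {i // i ≠ D.i₀}, ∀ τ : D.I, τ ≠ t i → D.H i.1 τ.1 = 0 := by
    intro i τ hτ
    exact (hB i.1 i.2 τ (t i) hτ).resolve_right (ht i)
  have hlin : ∀ (i : {i // i ≠ D.i₀}) (x : Fin d → ℝ), ((∑ j, D.g i.1 j * x j : ℝ) : ℂ)
      = D.H i.1 D.φ * ev D.b D.φ x + D.H i.1 (t i).1 * ev D.b (t i).1 x := by
    intro i x
    rw [D.lin, D.sum_split]
    congr 1
    refine Finset.sum_eq_single (t i) (fun τ _ hτ => ?_) (fun h => absurd (Finset.mem_univ _) h)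
    rw [hzero i τ hτ, zero_mul]
  have hlin0 : ∀ (x : Fin d → ℝ), ((∑ j, D.g D.i₀ j * x j : ℝ) : ℂ)
      = D.H D.i₀ D.φ * ev D.b D.φ x := by
    intro x
    rw [D.lin, D.sum_split, Finset.sum_eq_zero (fun τ _ => by rw [D.hi₀ τ.1 τ.2, zero_mul]),
      add_zero]
  have hinj : Function.Injective t := by
    intro i k hik
    by_contra hne
    obtain ⟨x, hx1, hx2, hx3⟩ := hdual i.1 i.2
    have h1 := hlin k x
    rw [hx3 k.1 (fun h => hne (Subtype.ext h.symm)), hx1, mul_zero, zero_add,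
      Complex.ofReal_zero] at h1
    have h2 := (mul_eq_zero.1 h1.symm).resolve_left (ht k)
    have h3 := hlin i x
    rw [hx2, hx1, hik, h2] at h3
    simp at h3
  have hbij : Function.Bijective t := by
    rw [Fintype.bijective_iff_injective_and_card]
    refine ⟨hinj, ?_⟩
    have h1 : Fintype.card {i // i ≠ D.i₀} = d - 1 := by
      rw [Fintype.card_subtype_compl, Fintype.card_subtype_eq, Fintype.card_fin]
    have h2 := D.card_I
    have hd := D.hd
    rw [h1]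
    have h3 : ((d - 1 : ℕ) : ℝ) = (d : ℝ) - 1 := by rw [Nat.cast_sub (by omega)]; simp
    have h4 : ((d - 1 : ℕ) : ℝ) = (Fintype.card D.I : ℝ) := by rw [h3, h2]
    exact_mod_cast h4
  have hreal : ∀ τ : K →+* ℂ, ComplexEmbedding.IsReal τ := by
    intro τ
    by_cases hτ : τ = D.φ
    · rw [hτ]; exact D.hφ
    obtain ⟨i, hi⟩ := hbij.2 ⟨τ, hτ⟩
    have h1 : D.H i.1 (ComplexEmbedding.conjugate τ) ≠ 0 := by
      rw [D.H_conj]
      have h2 := ht i
      rw [hi] at h2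
      exact (map_ne_zero _).2 h2
    have h3 : ComplexEmbedding.conjugate τ ≠ D.φ := by
      intro h
      apply hτ
      calc τ = ComplexEmbedding.conjugate (ComplexEmbedding.conjugate τ) :=
            (star_involutive τ).symm
        _ = ComplexEmbedding.conjugate D.φ := by rw [h]
        _ = D.φ := ComplexEmbedding.isReal_iff.1 D.hφ
    by_contra hcon
    have h4 : (⟨ComplexEmbedding.conjugate τ, h3⟩ : D.I) ≠ t i := by
      rw [hi]
      intro h
      exact hcon (ComplexEmbedding.isReal_iff.2 (congrArg Subtype.val h))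
    exact h1 (hzero i _ h4)
  by_cases hmono : ∀ i, i ≠ D.i₀ → D.H i D.φ = 0
  · left
    intro i
    by_cases hi : i = D.i₀
    · exact ⟨D.φ, fun τ' hτ' => by rw [hi]; exact D.hi₀ τ' hτ'⟩
    · refine ⟨(t ⟨i, hi⟩).1, fun τ' hτ' => ?_⟩
      by_cases h : τ' = D.φ
      · rw [h]; exact hmono i hi
      · exact hzero ⟨i, hi⟩ ⟨τ', h⟩ (fun h2 => hτ' (congrArg Subtype.val h2))
  right
  push Not at hmono
  obtain ⟨i1', hi1', hi1ne⟩ := hmono
  set i1 : {i // i ≠ D.i₀} := ⟨i1', hi1'⟩ with hi1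
  obtain ⟨i2, hi2⟩ : ∃ i2 : {i // i ≠ D.i₀}, i2 ≠ i1 := by
    have hd := D.hd
    have h1 : 1 < Fintype.card {i // i ≠ D.i₀} := by
      rw [Fintype.card_subtype_compl, Fintype.card_subtype_eq, Fintype.card_fin]
      omega
    exact Fintype.exists_ne_of_one_lt_card h1 i1
  -- real values
  have hevr : ∀ (τ : K →+* ℂ) (x : Fin d → ℝ), (((ev D.b τ x).re : ℝ) : ℂ) = ev D.b τ x := by
    intro τ x
    refine Complex.conj_eq_iff_re.1 ?_
    rw [ev, map_sum]
    refine Finset.sum_congr rfl fun j _ => ?_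
    have := congrArg (fun f : K →+* ℂ => f (D.b j)) (ComplexEmbedding.isReal_iff.1 (hreal τ))
    have h1 : (starRingEnd ℂ) (τ (D.b j)) = τ (D.b j) := by simpa using this
    rw [map_mul, h1, Complex.conj_ofReal]
  have hHr : ∀ (i : Fin d) (τ : K →+* ℂ), (((D.H i τ).re : ℝ) : ℂ) = D.H i τ := by
    intro i τ
    have h1 := D.H_conj i τ
    rw [ComplexEmbedding.isReal_iff.1 (hreal τ)] at h1
    exact Complex.conj_eq_iff_re.1 h1.symm
  set E : (K →+* ℂ) → (Fin d → ℝ) → ℝ := fun τ x => (ev D.b τ x).re with hE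
  set h : Fin d → (K →+* ℂ) → ℝ := fun i τ => (D.H i τ).re with hh
  have hL : ∀ (i : {i // i ≠ D.i₀}) (x : Fin d → ℝ), ∑ j, D.g i.1 j * x j
      = h i.1 D.φ * E D.φ x + h i.1 (t i).1 * E (t i).1 x := by
    intro i x
    have h1 := hlin i x
    rw [← hHr i.1 D.φ, ← hHr i.1 (t i).1, ← hevr D.φ x, ← hevr (t i).1 x] at h1
    exact_mod_cast h1
  have hL0 : ∀ (x : Fin d → ℝ), ∑ j, D.g D.i₀ j * x j = h D.i₀ D.φ * E D.φ x := by
    intro x
    have h1 := hlin0 x
    rw [← hHr D.i₀ D.φ, ← hevr D.φ x] at h1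
    exact_mod_cast h1
  have hne0 : h D.i₀ D.φ ≠ 0 := by
    intro h0
    apply D.H0_ne
    rw [← hHr]
    exact_mod_cast h0
  have hne1 : h i1.1 D.φ ≠ 0 := by
    intro h0
    apply hi1ne
    rw [← hHr]
    exact_mod_cast h0
  have hnet : ∀ i : {i // i ≠ D.i₀}, h i.1 (t i).1 ≠ 0 := by
    intro i h0
    apply ht i
    rw [← hHr]
    exact_mod_cast h0
  -- values at unit multiples
  have hval : ∀ (v : (𝓞 K)ˣ) (m : Fin d → ℤ), ∃ y : Fin d → ℤ, D.P (iR y)
      = h D.i₀ D.φ * E D.φ (iR m) * ∏ i : {i // i ≠ D.i₀},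
        (h i.1 D.φ * Real.exp (lg D.N D.φ v - lg D.N (t i).1 v) * E D.φ (iR m)
          + h i.1 (t i).1 * E (t i).1 (iR m)) := by
    intro v m
    obtain ⟨y, hy⟩ := D.act' v m
    refine ⟨y, ?_⟩
    have hEy : ∀ τ : K →+* ℂ, E τ (iR y) = Real.exp (lg D.N τ v) * E τ (iR m) := by
      intro τ
      have h1 := hy τ
      rw [pos_real hreal D.N D.hNe, ← hevr τ (iR y), ← hevr τ (iR m)] at h1
      exact_mod_cast h1
    rw [P, Fintype.prod_eq_mul_prod_subtype_ne _ D.i₀, hL0, hEy,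
      Finset.prod_congr rfl fun i _ => hL i (iR y)]
    have h2 : ∀ i : {i // i ≠ D.i₀}, h i.1 D.φ * E D.φ (iR y) + h i.1 (t i).1 * E (t i).1 (iR y)
        = Real.exp (lg D.N (t i).1 v) *
          (h i.1 D.φ * Real.exp (lg D.N D.φ v - lg D.N (t i).1 v) * E D.φ (iR m)
            + h i.1 (t i).1 * E (t i).1 (iR m)) := by
      intro i
      rw [hEy, hEy, Real.exp_sub]
      have := (Real.exp_pos (lg D.N (t i).1 v)).ne'
      field_simp
    rw [Finset.prod_congr rfl fun i _ => h2 i, Finset.prod_mul_distrib, ← Real.exp_sum]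
    have h3 : lg D.N D.φ v + ∑ i : {i // i ≠ D.i₀}, lg D.N (t i).1 v = 0 := by
      have h4 : ∑ i : {i // i ≠ D.i₀}, lg D.N (t i).1 v = ∑ τ : D.I, lg D.N τ.1 v :=
        Fintype.sum_bijective t hbij _ _ fun i => rfl
      rw [h4, ← D.sum_split (fun τ => lg D.N τ v)]
      exact sum_lg D.N v
    have h5 : Real.exp (lg D.N D.φ v) * Real.exp (∑ i : {i // i ≠ D.i₀}, lg D.N (t i).1 v) = 1 := by
      rw [← Real.exp_add, h3, Real.exp_zero]
    linear_combination (h D.i₀ D.φ * E D.φ (iR m) * ∏ i : {i // i ≠ D.i₀},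
        (h i.1 D.φ * Real.exp (lg D.N D.φ v - lg D.N (t i).1 v) * E D.φ (iR m)
          + h i.1 (t i).1 * E (t i).1 (iR m))) * h5
  -- limit values
  have hlimit : ∀ (ρ : ℝ), 0 < ρ → ∀ m : Fin d → ℤ,
      h D.i₀ D.φ * E D.φ (iR m) * ∏ i : {i // i ≠ D.i₀},
        (h i.1 D.φ * (if i = i1 then ρ else 0) * E D.φ (iR m)
          + h i.1 (t i).1 * E (t i).1 (iR m)) ∈ D.Val := by
    intro ρ hρ m
    have h1 := fun k : ℕ => exists_ratio hreal D.N D.hN D.hNe D.φ (t i1).1 (t i2).1 (t i1).2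
      (t i2).2 (fun h => hi2 (hinj (Subtype.ext h))) (Real.log ρ) (1 / ((k : ℝ) + 1)) k
      (by positivity)
    choose v hv1 hv2 using h1
    choose y hy using fun k => hval (v k) m
    have hlim : Tendsto (fun k => D.P (iR (y k))) atTop (𝓝
        (h D.i₀ D.φ * E D.φ (iR m) * ∏ i : {i // i ≠ D.i₀},
        (h i.1 D.φ * (if i = i1 then ρ else 0) * E D.φ (iR m)
          + h i.1 (t i).1 * E (t i).1 (iR m)))) := by
      simp only [hy]
      refine Tendsto.mul tendsto_const_nhds (tendsto_finsetProd _ fun i _ => ?_)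
      refine Tendsto.add (Tendsto.mul (Tendsto.mul tendsto_const_nhds ?_) tendsto_const_nhds)
        tendsto_const_nhds
      by_cases hi : i = i1
      · rw [if_pos hi, hi]
        have h2 : Tendsto (fun k => lg D.N D.φ (v k) - lg D.N (t i1).1 (v k)) atTop
            (𝓝 (Real.log ρ)) := by
          rw [tendsto_iff_norm_sub_tendsto_zero]
          exact squeeze_zero (fun k => norm_nonneg _) (fun k => (hv1 k).le)
            tendsto_one_div_add_atTop_nhds_zero_nat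
        have h3 := (Real.continuous_exp.tendsto _).comp h2
        rw [Real.exp_log hρ] at h3
        exact h3
      · rw [if_neg hi]
        refine Real.tendsto_exp_atBot.comp ?_
        have h4 : Tendsto (fun k : ℕ => -(k : ℝ)) atTop atBot :=
          tendsto_neg_atTop_atBot.comp tendsto_natCast_atTop_atTop
        refine tendsto_atBot_mono (fun k => ?_) h4
        exact (hv2 k (t i).1 (t i).2 (fun h => hi (hinj (Subtype.ext h)))).le
    exact isClosed_closure.mem_of_tendsto hlim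
      (Eventually.of_forall fun k => subset_closure ⟨y k, rfl⟩)
  -- the functions `A, B, Q`
  have hEc : ∀ τ, Continuous (E τ) := fun τ => Complex.continuous_re.comp (continuous_ev D.b τ)
  have hEs : ∀ τ (a : ℝ) x, E τ (a • x) = a * E τ x := by
    intro τ a x
    simp only [hE, ev_smul]
    exact Complex.re_ofReal_mul _ _
  set Q : (Fin d → ℝ) → ℝ := fun x => h D.i₀ D.φ * E D.φ x *
    ∏ i ∈ Finset.univ.erase i1, (h i.1 (t i).1 * E (t i).1 x) with hQ
  have hQc : Continuous Q := by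
    simp only [hQ]
    exact (continuous_const.mul (hEc _)).mul
      (continuous_finsetProd _ fun i _ => continuous_const.mul (hEc _))
  have hsign : ∀ σ : ℝ, σ ≠ 0 → ∃ m : Fin d → ℤ, 0 < h i1.1 D.φ * E D.φ (iR m) ∧
      h i1.1 (t i1).1 * E (t i1).1 (iR m) < 0 ∧ 0 < σ * Q (iR m) := by
    intro σ hσ
    -- prescribed values
    obtain ⟨x, hx⟩ : ∃ x : Fin d → ℝ, ∀ τ : K →+* ℂ, E τ x =
        if τ = D.φ then 1 / h i1.1 D.φ else if τ = (t i1).1 then -1 / h i1.1 (t i1).1 else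
          ∑ i : {i // i ≠ D.i₀}, if τ = (t i).1 then
            (if i = i2 then (σ * h i1.1 D.φ / h D.i₀ D.φ) / h i.1 (t i).1 else 1 / h i.1 (t i).1)
            else 0 := by
      obtain ⟨x, hx⟩ := D.exists_real_vec (fun τ => (((
        if τ = D.φ then 1 / h i1.1 D.φ else if τ = (t i1).1 then -1 / h i1.1 (t i1).1 else
          ∑ i : {i // i ≠ D.i₀}, if τ = (t i).1 then
            (if i = i2 then (σ * h i1.1 D.φ / h D.i₀ D.φ) / h i.1 (t i).1 else 1 / h i.1 (t i).1)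
            else 0) : ℝ) : ℂ)) (by
        intro τ
        rw [ComplexEmbedding.isReal_iff.1 (hreal τ), Complex.conj_ofReal])
      refine ⟨x, fun τ => ?_⟩
      have := hx τ
      simp only [hE]
      rw [this, Complex.ofReal_re]
    have hxφ : E D.φ x = 1 / h i1.1 D.φ := by rw [hx, if_pos rfl]
    have hx1 : E (t i1).1 x = -1 / h i1.1 (t i1).1 := by
      rw [hx, if_neg (t i1).2, if_pos rfl]
    have hxi : ∀ i : {i // i ≠ D.i₀}, i ≠ i1 → E (t i).1 x =
        if i = i2 then (σ * h i1.1 D.φ / h D.i₀ D.φ) / h i.1 (t i).1 else 1 / h i.1 (t i).1 := by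
      intro i hi
      rw [hx, if_neg (t i).2, if_neg (fun h => hi (hinj (Subtype.ext h))),
        Finset.sum_eq_single i]
      · rw [if_pos rfl]
      · intro k _ hk
        rw [if_neg (fun h => hk (hinj (Subtype.ext h)).symm)]
      · intro hk; exact absurd (Finset.mem_univ _) hk
    have hQx : Q x = σ := by
      simp only [hQ]
      rw [hxφ, ← Finset.mul_prod_erase (Finset.univ.erase i1) _
        (Finset.mem_erase.2 ⟨hi2, Finset.mem_univ _⟩), hxi i2 hi2, if_pos rfl]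
      have h1 : ∀ i ∈ (Finset.univ.erase i1).erase i2, h i.1 (t i).1 * E (t i).1 x = 1 := by
        intro i hi
        rw [hxi i (Finset.ne_of_mem_erase (Finset.mem_of_mem_erase hi)),
          if_neg (Finset.ne_of_mem_erase hi)]
        have := hnet i
        field_simp
      rw [Finset.prod_congr rfl h1, Finset.prod_const_one]
      have := hnet i2
      field_simp
    have hU : IsOpen {x : Fin d → ℝ | (0 < h i1.1 D.φ * E D.φ x ∧
        h i1.1 (t i1).1 * E (t i1).1 x < 0) ∧ 0 < σ * Q x} :=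
      ((isOpen_lt continuous_const (continuous_const.mul (hEc _))).inter
        (isOpen_lt (continuous_const.mul (hEc _)) continuous_const)).inter
        (isOpen_lt continuous_const (continuous_const.mul hQc))
    have hxU : x ∈ {x : Fin d → ℝ | (0 < h i1.1 D.φ * E D.φ x ∧
        h i1.1 (t i1).1 * E (t i1).1 x < 0) ∧ 0 < σ * Q x} := by
      refine ⟨⟨?_, ?_⟩, ?_⟩
      · rw [hxφ, mul_one_div_cancel hne1]; exact one_pos
      · rw [hx1]
        have := hnet i1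
        have e : h i1.1 (t i1).1 * (-1 / h i1.1 (t i1).1) = -1 := by field_simp
        rw [e]; norm_num
      · rw [hQx]; exact mul_self_pos.2 hσ
    obtain ⟨m, k, hk, hm⟩ := exists_int_point _ hU x hxU
    have hk' : (0 : ℝ) < k := by exact_mod_cast hk
    have e2 : (fun j => (m j : ℝ) / k) = (k : ℝ)⁻¹ • iR m := by
      funext j; simp [iR]; ring
    rw [e2] at hm
    obtain ⟨⟨h6, h7⟩, h8⟩ := hm
    have hQs : Q ((k : ℝ)⁻¹ • iR m) = (k : ℝ)⁻¹ ^ (1 + (Finset.univ.erase i1).card) * Q (iR m) := by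
      simp only [hQ, hEs]
      have : ∀ i : {i // i ≠ D.i₀}, h i.1 (t i).1 * ((k : ℝ)⁻¹ * E (t i).1 (iR m))
          = (k : ℝ)⁻¹ * (h i.1 (t i).1 * E (t i).1 (iR m)) := by intro i; ring
      rw [Finset.prod_congr rfl fun i _ => this i, Finset.prod_mul_distrib, Finset.prod_const,
        pow_add, pow_one]
      ring
    rw [hEs] at h6 h7
    rw [hQs] at h8
    refine ⟨m, ?_, ?_, ?_⟩
    · have : 0 < (k : ℝ)⁻¹ * (h i1.1 D.φ * E D.φ (iR m)) := by convert h6 using 1; ring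
      exact pos_of_mul_pos_right this (by positivity)
    · by_contra hcon
      have h9 : 0 ≤ (k : ℝ)⁻¹ * (h i1.1 (t i1).1 * E (t i1).1 (iR m)) :=
        mul_nonneg (by positivity) (not_lt.1 hcon)
      have h10 : h i1.1 (t i1).1 * ((k : ℝ)⁻¹ * E (t i1).1 (iR m))
          = (k : ℝ)⁻¹ * (h i1.1 (t i1).1 * E (t i1).1 (iR m)) := by ring
      linarith
    · have : 0 < (k : ℝ)⁻¹ ^ (1 + (Finset.univ.erase i1).card) * (σ * Q (iR m)) := by
        convert h8 using 1; ring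
      exact pos_of_mul_pos_right this (by positivity)
  -- conclusion
  rw [Set.eq_univ_iff_forall]
  intro yv
  obtain ⟨σ, hσ, hσy⟩ : ∃ σ : ℝ, σ ≠ 0 ∧ 0 ≤ σ * yv := by
    rcases le_total 0 yv with h | h
    · exact ⟨1, one_ne_zero, by linarith⟩
    · exact ⟨-1, by norm_num, by linarith⟩
  obtain ⟨m, hm1, hm2, hm3⟩ := hsign σ hσ
  set A := h i1.1 D.φ * E D.φ (iR m) with hA
  set B := h i1.1 (t i1).1 * E (t i1).1 (iR m) with hBdef
  have hQne : Q (iR m) ≠ 0 := by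
    intro h0
    rw [h0, mul_zero] at hm3
    exact lt_irrefl _ hm3
  have hyQ : 0 ≤ yv / Q (iR m) := by
    have h1 : yv / Q (iR m) = (σ * yv) * (σ * Q (iR m)) / (σ * Q (iR m)) ^ 2 := by
      field_simp
    rw [h1]
    exact div_nonneg (mul_nonneg hσy hm3.le) (sq_nonneg _)
  set ρ : ℝ := (yv / Q (iR m) - B) / A with hρ
  have hρpos : 0 < ρ := div_pos (by linarith) hm1
  have hfin := hlimit ρ hρpos m
  rw [← Finset.mul_prod_erase Finset.univ _ (Finset.mem_univ i1), if_pos rfl] at hfin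
  have h1 : ∀ i ∈ Finset.univ.erase i1, (h i.1 D.φ * (if i = i1 then ρ else 0) * E D.φ (iR m)
          + h i.1 (t i).1 * E (t i).1 (iR m)) = h i.1 (t i).1 * E (t i).1 (iR m) := by
    intro i hi
    rw [if_neg (Finset.ne_of_mem_erase hi)]
    ring
  rw [Finset.prod_congr rfl h1] at hfin
  have h2 : h D.i₀ D.φ * E D.φ (iR m) *
      ((h i1.1 D.φ * ρ * E D.φ (iR m) + h i1.1 (t i1).1 * E (t i1).1 (iR m)) *
        ∏ i ∈ Finset.univ.erase i1, h i.1 (t i).1 * E (t i).1 (iR m)) = yv := by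
    have h3 : h D.i₀ D.φ * E D.φ (iR m) *
      ((h i1.1 D.φ * ρ * E D.φ (iR m) + h i1.1 (t i1).1 * E (t i1).1 (iR m)) *
        ∏ i ∈ Finset.univ.erase i1, h i.1 (t i).1 * E (t i).1 (iR m))
        = Q (iR m) * (ρ * A + B) := by
      simp only [hQ, hA, hBdef]
      ring
    rw [h3, hρ, div_mul_cancel₀ _ hm1.ne']
    field_simp
    ring
  rw [h2] at hfin
  exact hfin

/-- **Part I.** Either the coefficient matrix is monomial or the values are dense. -/
theorem monomial_or_dense :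
    (∀ i, ∃ τ, ∀ τ', τ' ≠ τ → D.H i τ' = 0) ∨ D.Val = Set.univ := by
  by_cases hB : ∀ i, i ≠ D.i₀ → ∀ τ τ' : D.I, τ ≠ τ' → D.H i τ.1 = 0 ∨ D.H i τ'.1 = 0
  · exact D.caseB hB
  · push Not at hB
    obtain ⟨i, hi, τ, τ', hne, h1, h2⟩ := hB
    exact Or.inr (D.caseA i hi τ τ' hne h1 h2)

end Dat

end H715R2
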