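import Mathlib

/-! # Norm forms are proportional to integral forms -/

open NumberField MvPolynomial

namespace H715R2

set_option linter.unusedSectionVars false

variable {K : Type*} [Field K] [NumberField K] {d : ℕ}

/-- the product of the linear forms given by the rows of `g`, as a polynomial -/
noncomputable def polyF (g : Matrix (Fin d) (Fin d) ℝ) : MvPolynomial (Fin d) ℝ :=
  ∏ i : Fin d, ∑ j : Fin d, C (g i j) * X j

/-- the product of the linear forms given by the rows of `g` is a nonzero real multiple of a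
polynomial with integer coefficients -/
def PropInt (g : Matrix (Fin d) (Fin d) ℝ) : Prop :=
  ∃ c : ℝ, c ≠ 0 ∧ ∀ m : Fin d →₀ ℕ, ∃ z : ℤ, MvPolynomial.coeff m (c • polyF g) = (z : ℝ)

lemma eval_polyF (g : Matrix (Fin d) (Fin d) ℝ) (x : Fin d → ℝ) :
    eval x (polyF g) = ∏ i, ∑ j, g i j * x j := by
  simp [polyF, map_prod, map_sum]

lemma exists_common_den (Q : MvPolynomial (Fin d) ℚ) :
    ∃ n : ℤ, n ≠ 0 ∧ ∀ m, ∃ z : ℤ, (n : ℚ) * coeff m Q = z := by
  classical
  refine ⟨∏ m ∈ Q.support, ((coeff m Q).den : ℤ), ?_, fun m => ?_⟩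
  · exact Finset.prod_ne_zero_iff.2 fun m _ => by exact_mod_cast (coeff m Q).den_nz
  · by_cases hm : m ∈ Q.support
    · refine ⟨(∏ m' ∈ Q.support.erase m, ((coeff m' Q).den : ℤ)) * (coeff m Q).num, ?_⟩
      rw [← Finset.prod_erase_mul _ _ hm]
      push_cast
      rw [mul_assoc]
      congr 1
      rw [mul_comm]
      exact Rat.mul_den_eq_num _
    · exact ⟨0, by rw [notMem_support_iff.1 hm]; simp⟩

theorem norm_form (hd : 0 < d) (β : Fin d → K) (t : Fin d → (K →+* ℂ))
    (ht : Function.Bijective t) (c : Fin d → ℂ) (g : Matrix (Fin d) (Fin d) ℝ)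
    (hgd : g.det ≠ 0) (hg : ∀ i j, (g i j : ℂ) = c i * t i (β j)) : PropInt g := by
  classical
  have : Nonempty (Fin d) := ⟨⟨0, hd⟩⟩
  let B := Module.finBasis ℚ K
  set Q : MvPolynomial (Fin d) ℚ :=
    Matrix.det (∑ j, (X j : MvPolynomial (Fin d) ℚ) • (Algebra.leftMulMatrix B (β j)).map
      (C : ℚ →+* MvPolynomial (Fin d) ℚ)) with hQ
  have hevQ : ∀ x : Fin d → ℚ, eval x Q = Algebra.norm ℚ (∑ j, x j • β j) := by
    intro x
    rw [hQ, RingHom.map_det, Algebra.norm_eq_matrix_det B]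
    congr 1
    ext p q
    rw [RingHom.mapMatrix_apply, Matrix.map_apply, Matrix.sum_apply, map_sum, map_sum,
      Matrix.sum_apply]
    refine Finset.sum_congr rfl fun j _ => ?_
    rw [map_smul]
    simp [Matrix.smul_apply]
  have hnorm : ∀ z : K, ((Algebra.norm ℚ z : ℚ) : ℂ) = ∏ i, t i z := by
    intro z
    have h1 := Algebra.norm_eq_prod_embeddings ℚ ℂ z
    rw [eq_ratCast] at h1
    rw [h1, ← Fintype.prod_equiv (RingHom.equivRatAlgHom K ℂ) (fun f => f z)
      (fun φ => φ z) fun _ => by simp [RingHom.equivRatAlgHom_apply]]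
    exact (Fintype.prod_bijective t ht _ _ fun i => rfl).symm
  set κ : ℂ := ∏ i, c i with hκ
  have hF : ∀ x : Fin d → ℤ, (((∏ i, ∑ j, g i j * (x j : ℝ) : ℝ)) : ℂ)
      = κ * ((Algebra.norm ℚ (∑ j, (x j : ℚ) • β j) : ℚ) : ℂ) := by
    intro x
    rw [hnorm, hκ, ← Finset.prod_mul_distrib]
    push_cast
    refine Finset.prod_congr rfl fun i _ => ?_
    rw [map_sum, Finset.mul_sum]
    refine Finset.sum_congr rfl fun j _ => ?_
    rw [hg, Algebra.smul_def, map_mul]
    simp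
    ring
  have hβ : ∃ j, β j ≠ 0 := by
    by_contra hcon
    push Not at hcon
    apply hgd
    apply Matrix.det_eq_zero_of_row_eq_zero ⟨0, hd⟩
    intro j
    have := hg ⟨0, hd⟩ j
    rw [hcon j, map_zero, mul_zero] at this
    exact_mod_cast this
  obtain ⟨j0, hj0⟩ := hβ
  have hκ0 : κ ≠ 0 := by
    rw [hκ]
    refine Finset.prod_ne_zero_iff.2 fun i _ h0 => hgd ?_
    apply Matrix.det_eq_zero_of_row_eq_zero i
    intro j
    have := hg i j
    rw [h0, zero_mul] at this
    exact_mod_cast this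
  obtain ⟨k, hk⟩ : ∃ k : ℝ, (k : ℂ) = κ := by
    have h1 := hF (Pi.single j0 1)
    have h2 : (∑ j, ((Pi.single j0 1 : Fin d → ℤ) j : ℚ) • β j) = β j0 := by
      rw [Finset.sum_eq_single j0]
      · simp
      · intro j _ hj
        simp [Pi.single_eq_of_ne hj]
      · intro h
        exact absurd (Finset.mem_univ _) h
    rw [h2] at h1
    have h3 : Algebra.norm ℚ (β j0) ≠ 0 := Algebra.norm_ne_zero_iff.2 hj0
    refine ⟨(∏ i, ∑ j, g i j * (((Pi.single j0 1 : Fin d → ℤ) j : ℤ) : ℝ)) /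
      ((Algebra.norm ℚ (β j0) : ℚ) : ℝ), ?_⟩
    rw [Complex.ofReal_div, h1]
    have h4 : (((Algebra.norm ℚ (β j0) : ℚ) : ℝ) : ℂ) = ((Algebra.norm ℚ (β j0) : ℚ) : ℂ) := by
      push_cast; rfl
    rw [h4, mul_div_assoc, div_self, mul_one]
    exact_mod_cast h3
  have hk0 : k ≠ 0 := by
    intro h
    apply hκ0
    rw [← hk, h, Complex.ofReal_zero]
  have hpoly : polyF g = C k * map (algebraMap ℚ ℝ) Q := by
    refine funext_set (fun _ => Set.range (Int.cast : ℤ → ℝ))
      (fun _ => Set.infinite_range_of_injective Int.cast_injective) fun x hx => ?_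
    choose m hm using fun i => hx i (Set.mem_univ i)
    have hx' : x = fun i => ((m i : ℤ) : ℝ) := funext fun i => (hm i).symm
    rw [eval_polyF, map_mul, eval_C, eval_map, hx']
    have h1 : eval₂ (algebraMap ℚ ℝ) (fun i => ((m i : ℤ) : ℝ)) Q
        = ((eval (fun i => ((m i : ℤ) : ℚ)) Q : ℚ) : ℝ) := by
      rw [← eq_ratCast (algebraMap ℚ ℝ), ← coe_eval₂Hom, ← eval₂_id, ← coe_eval₂Hom]
      rw [coe_eval₂Hom, coe_eval₂Hom, eval₂_comp_left]
      congr 1
    rw [h1, hevQ]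
    have h2 := hF m
    rw [← hk] at h2
    exact_mod_cast h2
  obtain ⟨n, hn, hnz⟩ := exists_common_den Q
  refine ⟨(n : ℝ) / k, div_ne_zero (by exact_mod_cast hn) hk0, fun m => ?_⟩
  obtain ⟨z, hz⟩ := hnz m
  refine ⟨z, ?_⟩
  rw [coeff_smul, hpoly, coeff_C_mul, coeff_map, smul_eq_mul, ← mul_assoc,
    div_mul_cancel₀ _ hk0, eq_ratCast]
  exact_mod_cast congrArg (fun q : ℚ => (q : ℝ)) hz

end H715R2
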