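import Mathlib
import Pool.Agent.H715R2.AlgFactor
import Pool.Agent.H715R2.NormForm

/-! # Orbits of the diagonal group on matrices modulo `GL_d(ℤ)` -/

open Filter Topology Matrix

namespace H715R2

set_option linter.unusedSectionVars false

variable {d : ℕ}

/-- the product of the linear forms -/
noncomputable def FF (g : Matrix (Fin d) (Fin d) ℝ) (x : Fin d → ℝ) : ℝ :=
  ∏ i, ∑ j, g i j * x j

/-- closure of the set of values at integer points -/
def VV (g : Matrix (Fin d) (Fin d) ℝ) : Set ℝ :=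
  closure (Set.range fun m : Fin d → ℤ => FF g (iR m))

/-- the integer matrix as a real matrix -/
def zR (γ : Matrix (Fin d) (Fin d) ℤ) : Matrix (Fin d) (Fin d) ℝ := γ.map (Int.cast : ℤ → ℝ)

/-- the orbit of `g` -/
def Orb (g : Matrix (Fin d) (Fin d) ℝ) : Set (Matrix (Fin d) (Fin d) ℝ) :=
  {h | ∃ (a : Fin d → ℝ) (γ : Matrix (Fin d) (Fin d) ℤ), (∀ i, 0 < a i) ∧ ∏ i, a i = 1 ∧
    IsUnit γ.det ∧ h = diagonal a * g * zR γ}

lemma zR_mul (γ δ : Matrix (Fin d) (Fin d) ℤ) : zR (γ * δ) = zR γ * zR δ := by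
  have := (Int.castRingHom ℝ).mapMatrix.map_mul γ δ
  simpa [zR] using this

lemma zR_one : zR (1 : Matrix (Fin d) (Fin d) ℤ) = 1 := by
  simp [zR]

lemma det_zR (γ : Matrix (Fin d) (Fin d) ℤ) : (zR γ).det = (γ.det : ℝ) := by
  have := (Int.castRingHom ℝ).map_det γ
  simpa [zR] using this.symm

lemma abs_det_of_isUnit {γ : Matrix (Fin d) (Fin d) ℤ} (h : IsUnit γ.det) :
    |(γ.det : ℝ)| = 1 := by
  rcases Int.isUnit_iff.1 h with h | h <;> simp [h]

lemma zR_mulVec_iR (γ : Matrix (Fin d) (Fin d) ℤ) (m : Fin d → ℤ) :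
    zR γ *ᵥ iR m = iR (γ *ᵥ m) := by
  funext i
  simp [zR, iR, mulVec, dotProduct]

lemma zR_inv {γ : Matrix (Fin d) (Fin d) ℤ} (h : IsUnit γ.det) : zR γ * zR γ⁻¹ = 1 := by
  rw [← zR_mul, Matrix.mul_nonsing_inv _ h, zR_one]

lemma zR_inv' {γ : Matrix (Fin d) (Fin d) ℤ} (h : IsUnit γ.det) : zR γ⁻¹ * zR γ = 1 := by
  rw [← zR_mul, Matrix.nonsing_inv_mul _ h, zR_one]

lemma FF_eq (g : Matrix (Fin d) (Fin d) ℝ) (x : Fin d → ℝ) : FF g x = ∏ i, (g *ᵥ x) i := rfl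

lemma FF_diag_mul (a : Fin d → ℝ) (g : Matrix (Fin d) (Fin d) ℝ) (x : Fin d → ℝ) :
    FF (diagonal a * g) x = (∏ i, a i) * FF g x := by
  rw [FF_eq, FF_eq, ← Finset.prod_mul_distrib]
  refine Finset.prod_congr rfl fun i _ => ?_
  rw [← mulVec_mulVec, mulVec_diagonal]

lemma FF_mul (g h : Matrix (Fin d) (Fin d) ℝ) (x : Fin d → ℝ) :
    FF (g * h) x = FF g (h *ᵥ x) := by
  rw [FF_eq, FF_eq, mulVec_mulVec]

lemma FF_orb {a : Fin d → ℝ} (ha : ∏ i, a i = 1) (g : Matrix (Fin d) (Fin d) ℝ)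
    (γ : Matrix (Fin d) (Fin d) ℤ) (m : Fin d → ℤ) :
    FF (diagonal a * g * zR γ) (iR m) = FF g (iR (γ *ᵥ m)) := by
  rw [Matrix.mul_assoc, FF_diag_mul, ha, one_mul, FF_mul, zR_mulVec_iR]

lemma continuous_FF (x : Fin d → ℝ) :
    Continuous (fun g : Matrix (Fin d) (Fin d) ℝ => FF g x) := by
  unfold FF
  refine continuous_finsetProd _ fun i _ => continuous_finsetSum _ fun j _ => ?_
  exact (continuous_apply_apply i j).mul continuous_const

lemma mem_VV_of_mem_closure {g h : Matrix (Fin d) (Fin d) ℝ} (hh : h ∈ closure (Orb g))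
    (m : Fin d → ℤ) : FF h (iR m) ∈ VV g := by
  have h1 : Set.MapsTo (fun h : Matrix (Fin d) (Fin d) ℝ => FF h (iR m)) (Orb g)
      (Set.range fun m : Fin d → ℤ => FF g (iR m)) := by
    rintro _ ⟨a, γ, _, ha, _, rfl⟩
    exact ⟨γ *ᵥ m, (FF_orb ha g γ m).symm⟩
  exact map_mem_closure (f := fun h : Matrix (Fin d) (Fin d) ℝ => FF h (iR m))
    (continuous_FF (iR m)) hh h1

lemma VV_subset {g h : Matrix (Fin d) (Fin d) ℝ} (hh : h ∈ closure (Orb g)) : VV h ⊆ VV g := by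
  refine closure_minimal ?_ isClosed_closure
  rintro _ ⟨m, rfl⟩
  exact mem_VV_of_mem_closure hh m

lemma abs_det_orb {g h : Matrix (Fin d) (Fin d) ℝ} (hh : h ∈ Orb g) : |h.det| = |g.det| := by
  obtain ⟨a, γ, _, ha, hγ, rfl⟩ := hh
  rw [det_mul, det_mul, det_diagonal, ha, one_mul, abs_mul, det_zR, abs_det_of_isUnit hγ, mul_one]

lemma continuous_det' :
    Continuous (fun g : Matrix (Fin d) (Fin d) ℝ => g.det) :=
  Continuous.matrix_det continuous_id

lemma abs_det_closure {g h : Matrix (Fin d) (Fin d) ℝ} (hh : h ∈ closure (Orb g)) :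
    |h.det| = |g.det| := by
  have h1 : IsClosed {h : Matrix (Fin d) (Fin d) ℝ | |h.det| = |g.det|} :=
    isClosed_eq (continuous_abs.comp continuous_det') continuous_const
  exact closure_minimal (fun h hh => abs_det_orb hh) h1 hh

lemma orb_mul {g h : Matrix (Fin d) (Fin d) ℝ} (hh : h ∈ Orb g) {a : Fin d → ℝ}
    {γ : Matrix (Fin d) (Fin d) ℤ} (ha0 : ∀ i, 0 < a i) (ha : ∏ i, a i = 1) (hγ : IsUnit γ.det) :
    diagonal a * h * zR γ ∈ Orb g := by
  obtain ⟨b, δ, hb0, hb, hδ, rfl⟩ := hh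
  refine ⟨fun i => a i * b i, δ * γ, fun i => mul_pos (ha0 i) (hb0 i), ?_, ?_, ?_⟩
  · rw [Finset.prod_mul_distrib, ha, hb, one_mul]
  · rw [det_mul]; exact hδ.mul hγ
  · rw [zR_mul, ← diagonal_mul_diagonal]
    simp only [Matrix.mul_assoc]

lemma closure_mul {g h : Matrix (Fin d) (Fin d) ℝ} (hh : h ∈ closure (Orb g)) {a : Fin d → ℝ}
    {γ : Matrix (Fin d) (Fin d) ℤ} (ha0 : ∀ i, 0 < a i) (ha : ∏ i, a i = 1) (hγ : IsUnit γ.det) :
    diagonal a * h * zR γ ∈ closure (Orb g) := by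
  refine map_mem_closure (f := fun h : Matrix (Fin d) (Fin d) ℝ => diagonal a * h * zR γ)
    ?_ hh (fun h hh => orb_mul hh ha0 ha hγ)
  exact (continuous_const.matrix_mul continuous_id).matrix_mul continuous_const

lemma mem_orb_self (g : Matrix (Fin d) (Fin d) ℝ) : g ∈ Orb g := by
  refine ⟨fun _ => 1, 1, fun _ => one_pos, by simp, by simp, ?_⟩
  rw [zR_one, Matrix.mul_one]
  have : diagonal (fun _ : Fin d => (1 : ℝ)) = 1 := diagonal_one
  rw [this, Matrix.one_mul]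

instance : FirstCountableTopology (Matrix (Fin d) (Fin d) ℝ) :=
  inferInstanceAs (FirstCountableTopology (Fin d → Fin d → ℝ))

lemma exists_seq_of_mem_closure {S : Set (Matrix (Fin d) (Fin d) ℝ)}
    {h : Matrix (Fin d) (Fin d) ℝ} (hh : h ∈ closure S) :
    ∃ u : ℕ → Matrix (Fin d) (Fin d) ℝ, (∀ n, u n ∈ S) ∧ Tendsto u atTop (𝓝 h) :=
  mem_closure_iff_seq_limit.1 hh

end H715R2
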