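import Mathlib
import Pool.Agent.H715R2.CaseB
import Pool.Agent.H715R2.Orbit

/-! # Isolation: a limit point with an algebraic row -/

open NumberField Filter Topology Matrix

namespace H715R2

set_option linter.unusedSectionVars false

variable {K : Type*} [Field K] [NumberField K] {d : ℕ}

/-- injective directions with sum zero and prescribed order of two entries -/
lemma exists_theta (hd : 0 < d) (i k : Fin d) (hik : i ≠ k) :
    ∃ θ : Fin d → ℝ, Function.Injective θ ∧ ∑ j, θ j = 0 ∧ θ i < θ k := by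
  have hd' : (d : ℝ) ≠ 0 := by exact_mod_cast hd.ne'
  have key : ∀ s : ℝ, s ≠ 0 → (s * (i : ℕ) < s * (k : ℕ)) →
      ∃ θ : Fin d → ℝ, Function.Injective θ ∧ ∑ j, θ j = 0 ∧ θ i < θ k := by
    intro s hs hlt
    refine ⟨fun j => s * (j : ℕ) - (∑ l : Fin d, s * ((l : ℕ) : ℝ)) / d, ?_, ?_, ?_⟩
    · intro j l hjl
      have h1 : s * ((j : ℕ) : ℝ) = s * ((l : ℕ) : ℝ) := by simpa using hjl
      have h2 := mul_left_cancel₀ hs h1
      exact Fin.ext (by exact_mod_cast h2)
    · rw [Finset.sum_sub_distrib, Finset.sum_const, Finset.card_univ, Fintype.card_fin,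
        nsmul_eq_mul, mul_div_cancel₀ _ hd', sub_self]
    · simpa using hlt
  rcases lt_or_gt_of_ne (fun h => hik (Fin.ext h) : (i : ℕ) ≠ (k : ℕ)) with h | h
  · exact key 1 one_ne_zero (by simpa using h)
  · exact key (-1) (by norm_num) (by simpa using h)

namespace Dat

variable (D : Dat K d)

lemma mono_bij (t : Fin d → (K →+* ℂ)) (ht : ∀ i τ, τ ≠ t i → D.H i τ = 0) :
    Function.Bijective t := by
  classical
  rw [Fintype.bijective_iff_surjective_and_card]
  refine ⟨fun τ0 => ?_, ?_⟩
  · by_contra hcon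
    push Not at hcon
    obtain ⟨x, hx⟩ := embed_surj' D.b (fun τ => if τ = τ0 then 1 else 0)
    have h1 : (D.g.map (Complex.ofRealHom : ℝ →+* ℂ)) *ᵥ x = 0 := by
      funext i
      have h2 : ((D.g.map (Complex.ofRealHom : ℝ →+* ℂ)) *ᵥ x) i
          = ∑ τ : K →+* ℂ, D.H i τ * ∑ j, x j * τ (D.b j) := by
        simp only [mulVec, dotProduct, Matrix.map_apply, Complex.ofRealHom_eq_coe, D.hH,
          Finset.sum_mul, Finset.mul_sum]
        rw [Finset.sum_comm]
        refine Finset.sum_congr rfl fun τ _ => Finset.sum_congr rfl fun j _ => ?_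
        ring
      rw [h2]
      refine Finset.sum_eq_zero fun τ _ => ?_
      rw [hx]
      by_cases h3 : τ = τ0
      · rw [h3, ht i τ0 (fun h => hcon i h.symm), zero_mul]
      · rw [if_neg h3, mul_zero]
    have h4 : (D.g.map (Complex.ofRealHom : ℝ →+* ℂ)).det ≠ 0 := by
      have := (Complex.ofRealHom : ℝ →+* ℂ).map_det D.g
      rw [RingHom.mapMatrix_apply] at this
      rw [← this]
      exact (map_ne_zero _).2 D.hg
    have h5 := Matrix.eq_zero_of_mulVec_eq_zero h4 h1
    have h6 := hx τ0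
    rw [h5, if_pos rfl] at h6
    simp at h6
  · rw [NumberField.Embeddings.card K ℂ, Module.finrank_eq_card_basis D.b]

lemma mono_ne (t : Fin d → (K →+* ℂ)) (ht : ∀ i τ, τ ≠ t i → D.H i τ = 0) (i : Fin d) :
    D.H i (t i) ≠ 0 := by
  intro h0
  apply D.hg
  refine Matrix.det_eq_zero_of_row_eq_zero i fun j => ?_
  have h1 : (D.g i j : ℂ) = 0 := by
    rw [D.hH]
    refine Finset.sum_eq_zero fun τ _ => ?_
    by_cases h : τ = t i
    · rw [h, h0, zero_mul]
    · rw [ht i τ h, zero_mul]
  exact_mod_cast h1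

lemma mono_real (t : Fin d → (K →+* ℂ)) (ht : ∀ i τ, τ ≠ t i → D.H i τ = 0) (i : Fin d) :
    ComplexEmbedding.IsReal (t i) := by
  rw [ComplexEmbedding.isReal_iff]
  by_contra hcon
  have h1 := D.H_conj i (t i)
  rw [ht i _ hcon] at h1
  exact D.mono_ne t ht i ((map_eq_zero _).1 h1.symm)

end Dat

/-- **Part II.** If the orbit closure of `g` contains a matrix with an algebraic row, then the form
is proportional to an integral form or its values are dense. -/
theorem isolation (D : Dat K d) (g : Matrix (Fin d) (Fin d) ℝ) (hg : g.det ≠ 0)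
    (hDg : D.g ∈ closure (Orb g)) : PropInt g ∨ VV g = Set.univ := by
  classical
  have hd := D.hd
  rcases D.monomial_or_dense with hmono | hdense
  swap
  · right
    have h1 : VV D.g = Set.univ := hdense
    exact Set.eq_univ_of_univ_subset (h1 ▸ VV_subset hDg)
  choose t ht using hmono
  have hbij := D.mono_bij t ht
  have hne := D.mono_ne t ht
  have hrealt := D.mono_real t ht
  have hreal : ∀ τ : K →+* ℂ, ComplexEmbedding.IsReal τ := by
    intro τ
    obtain ⟨i, rfl⟩ := hbij.2 τ
    exact hrealt i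
  have hre : ∀ (τ : K →+* ℂ) (z : K), (((τ z).re : ℝ) : ℂ) = τ z := by
    intro τ z
    refine Complex.conj_eq_iff_re.1 ?_
    have := congrArg (fun f : K →+* ℂ => f z) (ComplexEmbedding.isReal_iff.1 (hreal τ))
    simpa using this
  have hHr : ∀ (i : Fin d) (τ : K →+* ℂ), (((D.H i τ).re : ℝ) : ℂ) = D.H i τ := by
    intro i τ
    have h1 := D.H_conj i τ
    rw [ComplexEmbedding.isReal_iff.1 (hreal τ)] at h1
    exact Complex.conj_eq_iff_re.1 h1.symm
  set B : Matrix (Fin d) (Fin d) ℝ := fun k j => (t k (D.b j)).re with hB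
  have hBc : ∀ k j, ((B k j : ℝ) : ℂ) = t k (D.b j) := fun k j => hre _ _
  set c : Fin d → ℝ := fun i => (D.H i (t i)).re with hc
  have hcc : ∀ i, ((c i : ℝ) : ℂ) = D.H i (t i) := fun i => hHr _ _
  have hc0 : ∀ i, c i ≠ 0 := by
    intro i h0
    apply hne i
    rw [← hcc, h0, Complex.ofReal_zero]
  have hgB : D.g = diagonal c * B := by
    ext i j
    rw [diagonal_mul]
    have h1 : (D.g i j : ℂ) = D.H i (t i) * t i (D.b j) := by
      rw [D.hH]
      refine Finset.sum_eq_single (t i) (fun τ _ hτ => ?_) (fun h => absurd (Finset.mem_univ _) h)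
      rw [ht i τ hτ, zero_mul]
    rw [← hcc, ← hBc] at h1
    exact_mod_cast h1
  have hBdet : B.det ≠ 0 := by
    intro h0
    apply D.hg
    rw [hgB, det_mul, h0, mul_zero]
  have hBu : IsUnit B.det := isUnit_iff_ne_zero.2 hBdet
  obtain ⟨hs, hs1, hs2⟩ := exists_seq_of_mem_closure hDg
  set E : ℕ → Matrix (Fin d) (Fin d) ℝ := fun n => hs n * B⁻¹ with hE
  have hEB : ∀ n, E n * B = hs n := by
    intro n
    simp only [hE]
    rw [Matrix.mul_assoc, Matrix.nonsing_inv_mul _ hBu, Matrix.mul_one]
  have hElim : Tendsto E atTop (𝓝 (diagonal c)) := by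
    have h1 : Tendsto E atTop (𝓝 (D.g * B⁻¹)) := by
      have hcont : Continuous (fun M : Matrix (Fin d) (Fin d) ℝ => M * B⁻¹) :=
        continuous_id.matrix_mul continuous_const
      exact (hcont.tendsto _).comp hs2
    rwa [hgB, Matrix.mul_assoc, Matrix.mul_nonsing_inv _ hBu, Matrix.mul_one] at h1
  -- first case: some `E n` is diagonal
  by_cases hdiag : ∃ n, ∀ i k, i ≠ k → E n i k = 0
  · left
    obtain ⟨n, hn⟩ := hdiag
    obtain ⟨a, γ, ha0, ha1, hγ, hh⟩ := hs1 n
    refine norm_form (by omega) (fun j => ∑ k, ((γ⁻¹ k j : ℤ) : ℚ) • D.b k) t hbij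
      (fun i => ((((a i)⁻¹ * E n i i : ℝ)) : ℂ)) g hg fun i j => ?_
    have h1 : diagonal a * g = diagonal (fun i => E n i i) * B * zR γ⁻¹ := by
      have h2 : E n = diagonal (fun i => E n i i) := by
        ext i k
        by_cases hik : i = k
        · rw [hik, diagonal_apply_eq]
        · rw [diagonal_apply_ne _ hik, hn i k hik]
      rw [← h2, hEB, hh, Matrix.mul_assoc, zR_inv hγ, Matrix.mul_one]
    have h3 : a i * g i j = E n i i * (B * zR γ⁻¹) i j := by
      have := congrFun (congrFun h1 i) j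
      rwa [Matrix.mul_assoc, diagonal_mul, diagonal_mul] at this
    have h4 : g i j = (a i)⁻¹ * E n i i * (B * zR γ⁻¹) i j := by
      rw [mul_assoc, ← h3, ← mul_assoc, inv_mul_cancel₀ (ha0 i).ne', one_mul]
    rw [h4, map_sum]
    push_cast
    congr 1
    rw [Matrix.mul_apply]
    push_cast
    refine Finset.sum_congr rfl fun k _ => ?_
    rw [hBc, Algebra.smul_def, map_mul]
    simp [zR, mul_comm]
  push Not at hdiag
  right
  -- a fixed pair for infinitely many `n`
  obtain ⟨⟨i₁, k₁⟩, hfreq⟩ : ∃ p : Fin d × Fin d, ∃ᶠ n in atTop, p.1 ≠ p.2 ∧ E n p.1 p.2 ≠ 0 := by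
    by_contra hcon
    rw [not_exists] at hcon
    have h1 : ∀ᶠ n in atTop, ∀ p : Fin d × Fin d, ¬ (p.1 ≠ p.2 ∧ E n p.1 p.2 ≠ 0) :=
      Filter.eventually_all.2 fun p => not_frequently.1 (hcon p)
    obtain ⟨n, hn⟩ := h1.exists
    obtain ⟨i, k, hik, hE0⟩ := hdiag n
    exact hn (i, k) ⟨hik, hE0⟩
  obtain ⟨hik1, -⟩ := hfreq.exists.choose_spec
  simp only at hik1
  obtain ⟨θ, hθinj, hθsum, hθlt⟩ := exists_theta (by omega : 0 < d) i₁ k₁ hik1
  obtain ⟨R, hR0, hR⟩ := near_real hreal D.N D.hN
  -- the off-diagonal entries tend to zero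
  have hoff : ∀ᶠ n in atTop, ∀ i k, i ≠ k → |E n i k| ≤ 1 := by
    refine Filter.eventually_all.2 fun i => Filter.eventually_all.2 fun k => ?_
    by_cases hik : i = k
    · exact Eventually.of_forall fun n h => absurd hik h
    · have h1 : Tendsto (fun n => E n i k) atTop (𝓝 0) := by
        have := (continuous_apply_apply i k).tendsto (diagonal c) |>.comp hElim
        rwa [diagonal_apply_ne _ hik] at this
      have h2 := (h1.abs).eventually (gt_mem_nhds (by rw [abs_zero]; exact one_pos))
      exact h2.mono fun n hn _ => hn.le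
  have hfreq2 : ∃ᶠ n in atTop, E n i₁ k₁ ≠ 0 ∧ ∀ i k, i ≠ k → |E n i k| ≤ 1 :=
    (hfreq.and_eventually hoff).mono fun n hn => ⟨hn.1.2, hn.2⟩
  obtain ⟨σ, hσ, hσ2⟩ := extraction_of_frequently_atTop hfreq2
  -- the exit time and the new matrix
  have step : ∀ n, ∃ E' : Matrix (Fin d) (Fin d) ℝ, E' * B ∈ Orb g ∧
      (∀ i, E' i i = E (σ n) i i) ∧
      (∀ i k, θ k < θ i → |E' i k| ≤ Real.exp (2 * R) * |E (σ n) i k|) ∧
      (∀ i k, θ i < θ k → |E' i k| ≤ Real.exp (2 * R)) ∧
      (∃ i k, θ i < θ k ∧ Real.exp (-(2 * R)) ≤ |E' i k|) := by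
    intro n
    obtain ⟨hn1, hn2⟩ := hσ2 n
    set S : Finset (Fin d × Fin d) :=
      Finset.univ.filter (fun p => θ p.1 < θ p.2 ∧ E (σ n) p.1 p.2 ≠ 0) with hS
    have hSne : S.Nonempty := ⟨(i₁, k₁), by rw [hS, Finset.mem_filter]; exact ⟨Finset.mem_univ _, hθlt, hn1⟩⟩
    obtain ⟨p, hpS, hpmin⟩ := S.exists_min_image
      (fun p => - Real.log |E (σ n) p.1 p.2| / (θ p.2 - θ p.1)) hSne
    set T : ℝ := - Real.log |E (σ n) p.1 p.2| / (θ p.2 - θ p.1) with hT
    have hp := (Finset.mem_filter.1 hpS).2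
    have hp1 : 0 < θ p.2 - θ p.1 := sub_pos.2 hp.1
    have hpne : p.1 ≠ p.2 := fun h => by rw [h] at hp1; simp at hp1
    have hT0 : 0 ≤ T := by
      refine div_nonneg ?_ hp1.le
      rw [neg_nonneg]
      exact Real.log_nonpos (abs_nonneg _) (hn2 _ _ hpne)
    -- the unit
    obtain ⟨v, hv⟩ := hR (fun τ => T * θ (Function.surjInv hbij.2 τ)) (by
      rw [← Finset.mul_sum]
      have h1 : ∑ τ : K →+* ℂ, θ (Function.surjInv hbij.2 τ) = ∑ k, θ k := by
        refine (Fintype.sum_bijective t hbij _ _ fun k => ?_).symm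
        rw [Function.leftInverse_surjInv hbij k]
      rw [h1, hθsum, mul_zero])
    have hv' : ∀ k, |lg D.N (t k) v - T * θ k| ≤ R := by
      intro k
      have := hv (t k)
      rwa [Function.leftInverse_surjInv hbij k] at this
    choose U hU using fun j => D.act v (Pi.single j 1)
    -- column `j` of the integer matrix
    set γ : Matrix (Fin d) (Fin d) ℤ := fun j' j => U j j' with hγdef
    have hBγ : B * zR γ = diagonal (fun k => Real.exp (lg D.N (t k) v)) * B := by
      ext k j
      rw [diagonal_mul, Matrix.mul_apply]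
      have h1 := congrArg (t k) (hU j)
      have h2 : (∑ j', ((Pi.single j (1 : ℤ) : Fin d → ℤ) j' : ℚ) • D.b j') = D.b j := by
        rw [Finset.sum_eq_single j]
        · simp
        · intro j' _ hj'
          simp [Pi.single_eq_of_ne hj']
        · intro h
          exact absurd (Finset.mem_univ _) h
      rw [h2, map_mul, map_sum] at h1
      have h3 : t k ((((v ^ D.N : (𝓞 K)ˣ) : 𝓞 K) : K)) = ((Real.exp (lg D.N (t k) v) : ℝ) : ℂ) :=
        pos_real hreal D.N D.hNe (t k) v
      rw [h3, ← hBc] at h1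
      have h4 : ∀ j', t k (((U j j' : ℤ) : ℚ) • D.b j') = ((zR γ j' j : ℝ) : ℂ) * ((B k j' : ℝ) : ℂ) := by
        intro j'
        have hz : zR γ j' j = ((U j j' : ℤ) : ℝ) := rfl
        rw [Algebra.smul_def, map_mul, hBc, hz]
        simp
      rw [Finset.sum_congr rfl fun j' _ => h4 j'] at h1
      have h5 : ∑ j', zR γ j' j * B k j' = Real.exp (lg D.N (t k) v) * B k j := by
        exact_mod_cast h1
      rw [← h5]
      exact Finset.sum_congr rfl fun j' _ => mul_comm _ _
    have hprod : ∏ k, Real.exp (lg D.N (t k) v) = 1 := by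
      rw [← Real.exp_sum]
      have h1 : ∑ k, lg D.N (t k) v = ∑ τ : K →+* ℂ, lg D.N τ v :=
        Fintype.sum_bijective t hbij _ _ fun i => rfl
      rw [h1, sum_lg, Real.exp_zero]
    have hγdet : (γ.det : ℝ) = 1 := by
      have h1 := congrArg Matrix.det hBγ
      rw [det_mul, det_mul, det_diagonal, hprod, det_zR, one_mul] at h1
      exact mul_left_cancel₀ hBdet (by rw [h1, mul_one])
    have hγu : IsUnit γ.det := by
      have : γ.det = 1 := by exact_mod_cast hγdet
      rw [this]; exact isUnit_one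
    refine ⟨fun i k => Real.exp (lg D.N (t k) v - lg D.N (t i) v) * E (σ n) i k, ?_, ?_, ?_, ?_, ?_⟩
    · have h1 : (Matrix.of fun i k => Real.exp (lg D.N (t k) v - lg D.N (t i) v) * E (σ n) i k) * B
          = diagonal (fun k => Real.exp (-lg D.N (t k) v)) * hs (σ n) * zR γ := by
        rw [← hEB, Matrix.mul_assoc, Matrix.mul_assoc, hBγ]
        ext i j
        rw [diagonal_mul, Matrix.mul_apply, Matrix.mul_apply, Finset.mul_sum]
        refine Finset.sum_congr rfl fun k _ => ?_
        rw [diagonal_mul, Matrix.of_apply, sub_eq_add_neg, Real.exp_add]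
        ring
      show (Matrix.of fun i k => Real.exp (lg D.N (t k) v - lg D.N (t i) v) * E (σ n) i k) * B ∈ _
      rw [h1]
      refine orb_mul (hs1 _) (fun i => Real.exp_pos _) ?_ hγu
      rw [← Real.exp_sum, Finset.sum_neg_distrib, Real.exp_neg, Real.exp_sum, hprod, inv_one]
    · intro i
      simp
    · intro i k hik
      simp only
      rw [abs_mul, abs_of_pos (Real.exp_pos _)]
      refine mul_le_mul_of_nonneg_right (Real.exp_le_exp.2 ?_) (abs_nonneg _)
      have h1 := (abs_le.1 (hv' k)).2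
      have h2 := (abs_le.1 (hv' i)).1
      nlinarith [mul_nonneg hT0 (sub_nonneg.2 hik.le)]
    · intro i k hik
      simp only
      by_cases hz : E (σ n) i k = 0
      · rw [hz, mul_zero, abs_zero]
        exact (Real.exp_pos _).le
      have h3 := hpmin (i, k) (by rw [hS, Finset.mem_filter]; exact ⟨Finset.mem_univ _, hik, hz⟩)
      simp only at h3
      rw [abs_mul, abs_of_pos (Real.exp_pos _)]
      have hpos : 0 < |E (σ n) i k| := abs_pos.2 hz
      rw [← Real.exp_log hpos, ← Real.exp_add]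
      apply Real.exp_le_exp.2
      have h1 := (abs_le.1 (hv' k)).2
      have h2 := (abs_le.1 (hv' i)).1
      have h4 : 0 < θ k - θ i := sub_pos.2 hik
      have h5 : T * (θ k - θ i) ≤ - Real.log |E (σ n) i k| := by
        rw [← le_div_iff₀ h4]; exact h3
      nlinarith
    · refine ⟨p.1, p.2, hp.1, ?_⟩
      simp only
      rw [abs_mul, abs_of_pos (Real.exp_pos _)]
      have hpos : 0 < |E (σ n) p.1 p.2| := abs_pos.2 hp.2
      rw [← Real.exp_log hpos, ← Real.exp_add]
      apply Real.exp_le_exp.2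
      have h1 := (abs_le.1 (hv' p.2)).1
      have h2 := (abs_le.1 (hv' p.1)).2
      have h5 : T * (θ p.2 - θ p.1) = - Real.log |E (σ n) p.1 p.2| := by
        rw [hT, div_mul_cancel₀ _ hp1.ne']
      nlinarith
  choose E' hE1 hE2 hE3 hE4 hE5 using step
  have hElim' : Tendsto (fun n => E (σ n)) atTop (𝓝 (diagonal c)) := hElim.comp hσ.tendsto_atTop
  have hent : ∀ i k, Tendsto (fun n => E (σ n) i k) atTop (𝓝 (diagonal c i k)) := fun i k =>
    (continuous_apply_apply i k).tendsto (diagonal c) |>.comp hElim'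
  -- boundedness
  obtain ⟨M, hM⟩ : ∃ M : ℝ, ∀ n i k, |E' n i k| ≤ M := by
    have hb : ∀ i k, ∃ M : ℝ, ∀ n, |E (σ n) i k| ≤ M := by
      intro i k
      obtain ⟨M, hM⟩ := (hent i k).abs.bddAbove_range
      exact ⟨M, fun n => hM ⟨n, rfl⟩⟩
    choose M hM using hb
    set M' : ℝ := ∑ i, ∑ k, |M i k| with hM'
    have hM2 : ∀ n i k, |E (σ n) i k| ≤ M' := by
      intro n i k
      refine ((hM i k n).trans (le_abs_self _)).trans ?_
      refine (Finset.single_le_sum (f := fun k => |M i k|) (fun k _ => abs_nonneg _)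
        (Finset.mem_univ k)).trans ?_
      exact Finset.single_le_sum (f := fun i => ∑ k, |M i k|)
        (fun i _ => Finset.sum_nonneg fun k _ => abs_nonneg _) (Finset.mem_univ i)
    have hexp : (1 : ℝ) ≤ Real.exp (2 * R) := Real.one_le_exp (by positivity)
    have hM'0 : 0 ≤ M' := Finset.sum_nonneg fun i _ => Finset.sum_nonneg fun k _ => abs_nonneg _
    refine ⟨Real.exp (2 * R) * (M' + 1), fun n i k => ?_⟩
    rcases lt_trichotomy (θ i) (θ k) with h | h | h
    · refine (hE4 n i k h).trans ?_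
      nlinarith
    · have := hθinj h
      subst this
      rw [hE2]
      refine (hM2 n i i).trans ?_
      nlinarith
    · refine (hE3 n i k h).trans ?_
      have := hM2 n i k
      nlinarith
  -- a convergent subsequence
  obtain ⟨L, ρ, hρ, hL⟩ : ∃ (L : Matrix (Fin d) (Fin d) ℝ) (ρ : ℕ → ℕ), StrictMono ρ ∧
      Tendsto (fun n => E' (ρ n)) atTop (𝓝 L) := by
    have hcpt : IsCompact (Set.univ.pi fun _ : Fin d => Set.univ.pi fun _ : Fin d =>
        Set.Icc (-M) M : Set (Fin d → Fin d → ℝ)) :=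
      isCompact_univ_pi fun _ => isCompact_univ_pi fun _ => isCompact_Icc
    let x : ℕ → (Fin d → Fin d → ℝ) := fun n => E' n
    have hx : ∀ n, x n ∈ (Set.univ.pi fun _ : Fin d => Set.univ.pi fun _ : Fin d =>
        Set.Icc (-M) M : Set (Fin d → Fin d → ℝ)) := fun n i _ k _ => abs_le.1 (hM n i k)
    obtain ⟨L, -, ρ, hρ, hL⟩ := hcpt.tendsto_subseq hx
    exact ⟨L, ρ, hρ, hL⟩
  have hLent : ∀ i k, Tendsto (fun n => E' (ρ n) i k) atTop (𝓝 (L i k)) := fun i k =>
    (continuous_apply_apply i k).tendsto L |>.comp hL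
  have hL1 : ∀ i, L i i = c i := by
    intro i
    refine tendsto_nhds_unique (hLent i i) ?_
    simp only [hE2]
    have := (hent i i).comp hρ.tendsto_atTop
    rwa [diagonal_apply_eq] at this
  have hL2 : ∀ i k, θ k < θ i → L i k = 0 := by
    intro i k hik
    refine tendsto_nhds_unique (hLent i k) ?_
    have hne' : i ≠ k := fun h => by rw [h] at hik; exact lt_irrefl _ hik
    have h1 := ((hent i k).comp hρ.tendsto_atTop)
    rw [diagonal_apply_ne _ hne'] at h1
    have h2 : Tendsto (fun n => Real.exp (2 * R) * |E (σ (ρ n)) i k|) atTop (𝓝 0) := by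
      have := (h1.abs).const_mul (Real.exp (2 * R))
      rw [abs_zero, mul_zero] at this
      exact this
    exact squeeze_zero_norm (fun n => by
      rw [Real.norm_eq_abs]; exact hE3 (ρ n) i k hik) h2
  have hL3 : ∃ i k, θ i < θ k ∧ L i k ≠ 0 := by
    by_contra hcon
    push Not at hcon
    have h1 : Tendsto (fun n => ∑ p : Fin d × Fin d, if θ p.1 < θ p.2 then |E' (ρ n) p.1 p.2| else 0)
        atTop (𝓝 (∑ p : Fin d × Fin d, if θ p.1 < θ p.2 then |L p.1 p.2| else 0)) := by
      refine tendsto_finsetSum _ fun p _ => ?_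
      by_cases hp : θ p.1 < θ p.2
      · simp only [if_pos hp]
        exact (hLent p.1 p.2).abs
      · simp only [if_neg hp]
        exact tendsto_const_nhds
    have h2 : (∑ p : Fin d × Fin d, if θ p.1 < θ p.2 then |L p.1 p.2| else 0) = 0 := by
      refine Finset.sum_eq_zero fun p _ => ?_
      by_cases hp : θ p.1 < θ p.2
      · rw [if_pos hp, hcon p.1 p.2 hp, abs_zero]
      · rw [if_neg hp]
    rw [h2] at h1
    have h3 : Real.exp (-(2 * R)) ≤ 0 := by
      refine ge_of_tendsto' h1 fun n => ?_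
      obtain ⟨i, k, hik, hle⟩ := hE5 (ρ n)
      refine hle.trans ?_
      have := Finset.single_le_sum (f := fun p : Fin d × Fin d =>
        if θ p.1 < θ p.2 then |E' (ρ n) p.1 p.2| else 0) (fun p _ => by
          show (0 : ℝ) ≤ if θ p.1 < θ p.2 then |E' (ρ n) p.1 p.2| else 0
          split_ifs
          · exact abs_nonneg _
          · exact le_refl _) (Finset.mem_univ (i, k))
      simp only [if_pos hik] at this
      exact this
    exact absurd h3 (not_le.2 (Real.exp_pos _))
  -- the new data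
  have hLB : L * B ∈ closure (Orb g) := by
    have h1 : Tendsto (fun n => E' (ρ n) * B) atTop (𝓝 (L * B)) := by
      have hcont : Continuous (fun M : Matrix (Fin d) (Fin d) ℝ => M * B) :=
        continuous_id.matrix_mul continuous_const
      exact (hcont.tendsto _).comp hL
    exact mem_closure_of_tendsto h1 (Eventually.of_forall fun n => hE1 (ρ n))
  have : Nonempty (Fin d) := ⟨⟨0, by omega⟩⟩
  obtain ⟨i₀, hi₀⟩ := Finite.exists_max θ
  let D' : Dat K d :=
    { hd := D.hd
      b := D.b
      N := D.N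
      hN := D.hN
      hNe := D.hNe
      act := D.act
      g := L * B
      hg := by
        intro h0
        have := abs_det_closure hLB
        rw [h0, abs_zero] at this
        exact hg (abs_eq_zero.1 this.symm)
      H := fun i τ => ((L i (Function.surjInv hbij.2 τ) : ℝ) : ℂ)
      hH := by
        intro i j
        rw [Matrix.mul_apply]
        push_cast
        refine Fintype.sum_bijective t hbij _ _ fun k => ?_
        rw [Function.leftInverse_surjInv hbij k, hBc]
      i₀ := i₀
      φ := t i₀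
      hφ := hrealt i₀
      hi₀ := by
        intro τ hτ
        have h1 : Function.surjInv hbij.2 τ ≠ i₀ := by
          intro h
          apply hτ
          rw [← h]
          exact (Function.surjInv_eq hbij.2 τ).symm
        have h2 : θ (Function.surjInv hbij.2 τ) < θ i₀ :=
          lt_of_le_of_ne (hi₀ _) (fun h => h1 (hθinj h))
        rw [hL2 _ _ h2, Complex.ofReal_zero] }
  rcases D'.monomial_or_dense with hmono' | hdense'
  · exfalso
    obtain ⟨i, k, hik, hLik⟩ := hL3
    obtain ⟨τ, hτ⟩ := hmono' i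
    have hHt : ∀ k, D'.H i (t k) = ((L i k : ℝ) : ℂ) := by
      intro k
      show ((L i (Function.surjInv hbij.2 (t k)) : ℝ) : ℂ) = _
      rw [Function.leftInverse_surjInv hbij k]
    have h1 : t i = τ := by
      by_contra h
      have := hτ (t i) h
      rw [hHt, hL1] at this
      exact hc0 i (by exact_mod_cast this)
    have h2 : t k = τ := by
      by_contra h
      have := hτ (t k) h
      rw [hHt] at this
      exact hLik (by exact_mod_cast this)
    have h3 : i = k := hbij.1 (h1.trans h2.symm)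
    rw [h3] at hik
    exact lt_irrefl _ hik
  · have h1 : VV (L * B) = Set.univ := hdense'
    exact Set.eq_univ_of_univ_subset (h1 ▸ VV_subset hLB)

end H715R2
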