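import Mathlib
import Pool.Agent.H715R2.Isolation

/-! # From a row with coefficients in a number field to the data `Dat` -/

open NumberField Filter Topology Matrix

namespace H715R2

set_option linter.unusedSectionVars false

variable {d : ℕ}

theorem build_dat (hd : 3 ≤ d) (h : Matrix (Fin d) (Fin d) ℝ) (hh : h.det ≠ 0) (i₀ : Fin d)
    (s : ℝ) (hs : s ≠ 0) (K : IntermediateField ℚ ℝ) [FiniteDimensional ℚ K]
    (hK : Module.finrank ℚ K ≤ d) (hmem : ∀ j, s * h i₀ j ∈ K)
    (hind : ∀ m : Fin d → ℤ, ∑ j, h i₀ j * (m j : ℝ) = 0 → m = 0) :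
    ∃ (_ : NumberField K) (D : Dat K d), D.g = h := by
  classical
  have hNF : NumberField K := { to_charZero := inferInstance, to_finiteDimensional := inferInstance }
  refine ⟨hNF, ?_⟩
  set w : Fin d → K := fun j => ⟨s * h i₀ j, hmem j⟩ with hw
  have hli : LinearIndependent ℚ w := by
    rw [← LinearIndependent.iff_fractionRing ℤ ℚ]
    rw [Fintype.linearIndependent_iff]
    intro m hm
    have h1 : ∑ j, h i₀ j * (m j : ℝ) = 0 := by
      have h2 := congrArg (fun z : K => (z : ℝ)) hm
      simp only [hw] at h2
      push_cast at h2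
      have h3 : s * ∑ j, h i₀ j * (m j : ℝ) = 0 := by
        rw [Finset.mul_sum, ← h2]
        refine Finset.sum_congr rfl fun j _ => ?_
        rw [zsmul_eq_mul]
        ring
      exact (mul_eq_zero.1 h3).resolve_left hs
    have h2 := hind m h1
    intro j
    rw [h2]; rfl
  have hcard : Fintype.card (Fin d) = Module.finrank ℚ K := by
    refine le_antisymm ?_ (by simpa using hK)
    exact hli.fintype_card_le_finrank
  have : Nonempty (Fin d) := ⟨⟨0, by omega⟩⟩
  let b : Module.Basis (Fin d) ℚ K := basisOfLinearIndependentOfCardEqFinrank hli hcard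
  have hb : ∀ j, b j = w j := fun j => by
    simp [b, basisOfLinearIndependentOfCardEqFinrank]
  obtain ⟨N, hN, hNe, act⟩ := exists_pow_act (K := K) b
  let φ : K →+* ℂ := (Complex.ofRealHom : ℝ →+* ℂ).comp (algebraMap K ℝ)
  have hφ : ComplexEmbedding.IsReal φ := by
    rw [ComplexEmbedding.isReal_iff]
    ext z
    simp [φ]
  have hφb : ∀ j, φ (b j) = ((s * h i₀ j : ℝ) : ℂ) := by
    intro j
    rw [hb]
    rfl
  choose H0 hH0 using fun i => embed_surj b (fun j => (h i j : ℂ))
  refine ⟨{ hd := hd
            b := b
            N := N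
            hN := hN
            hNe := hNe
            act := act
            g := h
            hg := hh
            H := fun i τ => if i = i₀ then (if τ = φ then ((s⁻¹ : ℝ) : ℂ) else 0) else H0 i τ
            hH := ?_
            i₀ := i₀
            φ := φ
            hφ := hφ
            hi₀ := ?_ }, rfl⟩
  · intro i j
    by_cases hi : i = i₀
    · simp only [if_pos hi]
      rw [Finset.sum_eq_single φ]
      · rw [if_pos rfl, hφb, hi, ← Complex.ofReal_mul, ← mul_assoc, inv_mul_cancel₀ hs, one_mul]
      · intro τ _ hτ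
        rw [if_neg hτ, zero_mul]
      · intro h
        exact absurd (Finset.mem_univ _) h
    · simp only [if_neg hi]
      exact hH0 i j
  · intro τ hτ
    simp [hτ]

end H715R2
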