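import Mathlib
import Pool.Agent.H715R2.Mink

/-! # Compactness modulo `GL_d(ℤ)` for matrices whose form is bounded away from zero -/

open Filter Topology Matrix

namespace H715R2

set_option linter.unusedSectionVars false

variable {d : ℕ}

/-- the form is bounded below by `ν` at nonzero integer points -/
def HasNu (h : Matrix (Fin d) (Fin d) ℝ) (ν : ℝ) : Prop :=
  ∀ m : Fin d → ℤ, m ≠ 0 → ν ≤ |FF h (iR m)|

lemma amgm (hd : 0 < d) (y : Fin d → ℝ) (hy : ∀ i, 0 ≤ y i) : ∏ i, y i ≤ ((∑ i, y i) / d) ^ d := by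
  have hd' : (0 : ℝ) < d := by exact_mod_cast hd
  have h1 := Real.geom_mean_le_arith_mean_weighted Finset.univ (fun _ : Fin d => (1 : ℝ) / d) y
    (fun i _ => by positivity) (by
      rw [Finset.sum_const, Finset.card_univ, Fintype.card_fin, nsmul_eq_mul]
      field_simp) (fun i _ => hy i)
  rw [Real.finsetProd_rpow _ _ (fun i _ => hy i), ← Finset.mul_sum] at h1
  have h2 : 0 ≤ ∏ i, y i := Finset.prod_nonneg fun i _ => hy i
  have h3 : (∏ i, y i) = ((∏ i, y i) ^ ((1 : ℝ) / d)) ^ d := by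
    rw [← Real.rpow_natCast, ← Real.rpow_mul h2, one_div, inv_mul_cancel₀ hd'.ne', Real.rpow_one]
  rw [h3]
  refine pow_le_pow_left₀ (Real.rpow_nonneg h2 _) (h1.trans (le_of_eq ?_)) d
  ring

/-- a short vector for every diagonal matrix, with all coordinates under control -/
theorem exists_vec (hd : 0 < d) {h : Matrix (Fin d) (Fin d) ℝ} {ν r : ℝ} (hν : 0 < ν)
    (hdet : h.det ≠ 0) (hnu : HasNu h ν) (hr : 0 < r)
    (hvol : (d.factorial : ℝ) * |h.det| < r ^ d) (b : Fin d → ℝ) (hb : ∀ i, 0 < b i)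
    (hb1 : ∏ i, b i = 1) :
    ∃ m : Fin d → ℤ, m ≠ 0 ∧ (∀ i, b i * |(h *ᵥ iR m) i| < r) ∧
      (∀ i, ν / r ^ (d - 1) ≤ b i * |(h *ᵥ iR m) i|) ∧ |FF h (iR m)| < (r / d) ^ d := by
  classical
  obtain ⟨m, hm, hsum⟩ := mink hd (diagonal b * h)
    (by rw [det_mul, det_diagonal, hb1, one_mul]; exact hdet) r hr
    (by rw [det_mul, det_diagonal, hb1, one_mul]; exact hvol)
  have hent : ∀ i, |((diagonal b * h) *ᵥ iR m) i| = b i * |(h *ᵥ iR m) i| := by
    intro i
    rw [← mulVec_mulVec, mulVec_diagonal, abs_mul, abs_of_pos (hb i)]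
  simp only [hent] at hsum
  have hnn : ∀ i, 0 ≤ b i * |(h *ᵥ iR m) i| := fun i => mul_nonneg (hb i).le (abs_nonneg _)
  have hlt : ∀ i, b i * |(h *ᵥ iR m) i| < r := by
    intro i
    refine lt_of_le_of_lt ?_ hsum
    exact Finset.single_le_sum (f := fun i => b i * |(h *ᵥ iR m) i|) (fun i _ => hnn i)
      (Finset.mem_univ i)
  have hprod : ∏ i, (b i * |(h *ᵥ iR m) i|) = |FF h (iR m)| := by
    rw [Finset.prod_mul_distrib, hb1, one_mul, FF_eq, Finset.abs_prod]
  refine ⟨m, hm, hlt, fun i => ?_, ?_⟩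
  · have h1 : ∏ j ∈ Finset.univ.erase i, (b j * |(h *ᵥ iR m) j|) ≤ r ^ (d - 1) := by
      refine (Finset.prod_le_prod (g := fun _ => r) (fun j _ => hnn j)
        (fun j _ => (hlt j).le)).trans (le_of_eq ?_)
      rw [Finset.prod_const, Finset.card_erase_of_mem (Finset.mem_univ i), Finset.card_univ,
        Fintype.card_fin]
    have h2 := hnu m hm
    rw [← hprod, ← Finset.mul_prod_erase Finset.univ _ (Finset.mem_univ i)] at h2
    rw [div_le_iff₀ (pow_pos hr _)]
    exact h2.trans (mul_le_mul_of_nonneg_left h1 (hnn i))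
  · rw [← hprod]
    refine (amgm hd _ hnn).trans_lt ?_
    have hd' : (0 : ℝ) < d := by exact_mod_cast hd
    exact pow_lt_pow_left₀ (div_lt_div_of_pos_right hsum hd')
      (div_nonneg (Finset.sum_nonneg fun i _ => hnn i) hd'.le) hd.ne'

/-- congruent integer matrices -/
lemma exists_gamma (M T E : Matrix (Fin d) (Fin d) ℤ) (N : ℤ) (hT : T.det ≠ 0) (hN : T.det ∣ N)
    (hdet : |M.det| = |T.det|) (hE : M = T + N • E) :
    ∃ γ : Matrix (Fin d) (Fin d) ℤ, IsUnit γ.det ∧ M = γ * T := by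
  obtain ⟨k, hk⟩ := hN
  have h1 : M = (1 + k • (E * T.adjugate)) * T := by
    rw [Matrix.add_mul, Matrix.one_mul, Matrix.smul_mul, Matrix.mul_assoc, Matrix.adjugate_mul,
      Matrix.mul_smul, Matrix.mul_one, hE, hk, smul_smul, mul_comm k]
  refine ⟨1 + k • (E * T.adjugate), ?_, h1⟩
  rw [Int.isUnit_iff_abs_eq]
  have h2 := congrArg (fun M : Matrix (Fin d) (Fin d) ℤ => |M.det|) h1
  simp only [det_mul, abs_mul, hdet] at h2
  have h3 : |T.det| ≠ 0 := abs_ne_zero.2 hT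
  have h4 : (1 : ℤ) * |T.det| = |(1 + k • (E * T.adjugate)).det| * |T.det| := by
    rw [one_mul]; exact h2
  exact (mul_right_cancel₀ h3 h4).symm

/-- finitely many classes of integer matrices with bounded determinant -/
lemma exists_reps (D : ℕ) : ∃ (ι : Type) (_ : Fintype ι) (T : ι → Matrix (Fin d) (Fin d) ℤ),
    (∀ k, (T k).det ≠ 0) ∧ ∀ M : Matrix (Fin d) (Fin d) ℤ, M.det ≠ 0 → M.det.natAbs ≤ D →
      ∃ k, ∃ γ : Matrix (Fin d) (Fin d) ℤ, IsUnit γ.det ∧ M = γ * T k := by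
  classical
  set N : ℕ := D.factorial with hN
  have : NeZero N := ⟨Nat.factorial_ne_zero D⟩
  let f : Matrix (Fin d) (Fin d) ℤ → (Fin d → Fin d → ZMod N) × Fin (D + 1) := fun M =>
    (fun i j => (M i j : ZMod N), Fin.ofNat (D + 1) M.det.natAbs)
  refine ⟨(Fin d → Fin d → ZMod N) × Fin (D + 1), inferInstance, fun k =>
    if h : ∃ M : Matrix (Fin d) (Fin d) ℤ, M.det ≠ 0 ∧ M.det.natAbs ≤ D ∧ f M = k then h.choose
    else 1, ?_, ?_⟩
  · intro k
    dsimp only
    split_ifs with h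
    · exact h.choose_spec.1
    · simp
  · intro M hM hMD
    have h : ∃ M' : Matrix (Fin d) (Fin d) ℤ, M'.det ≠ 0 ∧ M'.det.natAbs ≤ D ∧ f M' = f M :=
      ⟨M, hM, hMD, rfl⟩
    refine ⟨f M, ?_⟩
    dsimp only
    rw [dif_pos h]
    obtain ⟨h1, h2, h3⟩ := h.choose_spec
    set T := h.choose with hT
    have h4 : ∀ i j, (M i j : ZMod N) = (T i j : ZMod N) := by
      intro i j
      have := congrFun (congrFun (congrArg Prod.fst h3) i) j
      exact this.symm
    have h5 : T.det.natAbs = M.det.natAbs := by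
      have := congrArg (fun p => (Prod.snd p : Fin (D + 1)).val) h3
      simp only [f, Fin.ofNat] at this
      rwa [Nat.mod_eq_of_lt (by omega), Nat.mod_eq_of_lt (by omega)] at this
    choose E hE using fun i j => (ZMod.intCast_eq_intCast_iff_dvd_sub (T i j) (M i j) N).1 (h4 i j).symm
    refine exists_gamma M T (Matrix.of E) (N : ℤ) h1 ?_ ?_ ?_
    · rw [← Int.natAbs_dvd_natAbs, Int.natAbs_natCast, hN]
      exact Nat.dvd_factorial (Int.natAbs_pos.2 h1) h2
    · rw [Int.abs_eq_natAbs, Int.abs_eq_natAbs, h5]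
    · ext i j
      rw [Matrix.add_apply, Matrix.smul_apply, Matrix.of_apply, smul_eq_mul]
      have := hE i j
      linarith

/-- **Compactness.** -/
theorem exists_bound (hd : 0 < d) (V ν : ℝ) (hV : 0 < V) (hν : 0 < ν) :
    ∃ R : ℝ, ∀ h : Matrix (Fin d) (Fin d) ℝ, |h.det| = V → HasNu h ν →
      ∃ γ : Matrix (Fin d) (Fin d) ℤ, IsUnit γ.det ∧ ∀ i j, |(h * zR γ) i j| ≤ R := by
  classical
  have hd' : (0 : ℝ) < d := by exact_mod_cast hd
  have hfac : (0 : ℝ) < d.factorial := by positivity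
  set r : ℝ := d.factorial * V + 1 with hr
  have hr1 : 1 ≤ r := by rw [hr]; nlinarith [mul_pos hfac hV]
  have hr0 : 0 < r := by linarith
  have hrd : (d.factorial : ℝ) * V < r ^ d := by
    have h1 : r ^ 1 ≤ r ^ d := pow_le_pow_right₀ hr1 hd
    rw [pow_one] at h1
    linarith
  set c : ℝ := ν / r ^ (d - 1) with hc
  have hc0 : 0 < c := div_pos hν (pow_pos hr0 _)
  set β : ℝ := d * r / c + 1 with hβ
  have hβ1 : 1 ≤ β := by
    have : 0 < d * r / c := by positivity
    linarith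
  have hβ0 : 0 < β := by linarith
  set R1 : ℝ := r * β ^ (d - 1) with hR1
  have hβd : 1 ≤ β ^ (d - 1) := one_le_pow₀ hβ1
  have hR10 : 0 < R1 := by positivity
  obtain ⟨ι, _, T, hT0, hT⟩ := exists_reps (d := d) ⌈d.factorial * R1 ^ d / V⌉₊
  set B : ℝ := ∑ k, ∑ i, ∑ j, |(zR (T k))⁻¹ i j| with hB
  have hBb : ∀ k i j, |(zR (T k))⁻¹ i j| ≤ B := by
    intro k i j
    refine (Finset.single_le_sum (f := fun j => |(zR (T k))⁻¹ i j|) (fun j _ => abs_nonneg _)
      (Finset.mem_univ j)).trans ?_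
    refine (Finset.single_le_sum (f := fun i => ∑ j, |(zR (T k))⁻¹ i j|)
      (fun i _ => Finset.sum_nonneg fun j _ => abs_nonneg _) (Finset.mem_univ i)).trans ?_
    exact Finset.single_le_sum (f := fun k => ∑ i, ∑ j, |(zR (T k))⁻¹ i j|)
      (fun k _ => Finset.sum_nonneg fun i _ => Finset.sum_nonneg fun j _ => abs_nonneg _)
      (Finset.mem_univ k)
  refine ⟨d * (R1 * B), fun h hdet hnu => ?_⟩
  have hdet0 : h.det ≠ 0 := by
    intro h0
    rw [h0, abs_zero] at hdet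
    exact hV.ne hdet
  -- vectors near the coordinate axes
  have hvec : ∀ i : Fin d, ∃ m : Fin d → ℤ, (∀ j, j ≠ i → |(h *ᵥ iR m) j| < r / β) ∧
      |(h *ᵥ iR m) i| < R1 ∧ c ≤ |(h *ᵥ iR m) i| := by
    intro i
    obtain ⟨m, -, h1, h2, -⟩ := exists_vec hd hν hdet0 hnu hr0 (by rw [hdet]; exact hrd)
      (fun j => if j = i then (β ^ (d - 1))⁻¹ else β) (fun j => by
        split_ifs <;> positivity) (by
        rw [← Finset.mul_prod_erase Finset.univ _ (Finset.mem_univ i), if_pos rfl,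
          Finset.prod_congr rfl (g := fun _ => β) (fun j hj => if_neg (Finset.ne_of_mem_erase hj)),
          Finset.prod_const, Finset.card_erase_of_mem (Finset.mem_univ i), Finset.card_univ,
          Fintype.card_fin]
        exact inv_mul_cancel₀ (by positivity))
    refine ⟨m, fun j hj => ?_, ?_, ?_⟩
    · have := h1 j
      rw [if_neg hj] at this
      rwa [lt_div_iff₀ hβ0, mul_comm]
    · have := h1 i
      rw [if_pos rfl, inv_mul_lt_iff₀ (by positivity)] at this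
      rw [hR1, mul_comm]; exact this
    · have := h2 i
      rw [if_pos rfl, le_inv_mul_iff₀ (by positivity)] at this
      refine le_trans ?_ this
      nlinarith
  choose m hm1 hm2 hm3 using hvec
  set M : Matrix (Fin d) (Fin d) ℤ := Matrix.of fun j i => m i j with hM
  have hZ : ∀ j i, (h * zR M) j i = (h *ᵥ iR (m i)) j := by
    intro j i
    rw [Matrix.mul_apply]
    rfl
  have hZb : ∀ j i, |(h * zR M) j i| ≤ R1 := by
    intro j i
    rw [hZ]
    by_cases hji : j = i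
    · rw [hji]; exact (hm2 i).le
    · refine (hm1 i j hji).le.trans ?_
      rw [hR1]
      refine (div_le_self hr0.le hβ1).trans ?_
      nlinarith
  have hZdet : (h * zR M).det ≠ 0 := by
    refine det_ne_zero_of_sum_col_lt_diag fun i => ?_
    simp only [Real.norm_eq_abs, hZ]
    refine lt_of_lt_of_le ?_ (hm3 i)
    have h1 : ∑ j ∈ Finset.univ.erase i, |(h *ᵥ iR (m i)) j| ≤
        ∑ j ∈ Finset.univ.erase i, r / β :=
      Finset.sum_le_sum fun j hj => (hm1 i j (Finset.ne_of_mem_erase hj)).le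
    refine h1.trans_lt ?_
    rw [Finset.sum_const, Finset.card_erase_of_mem (Finset.mem_univ i), Finset.card_univ,
      Fintype.card_fin, nsmul_eq_mul]
    have h2 : ((d - 1 : ℕ) : ℝ) ≤ d := by
      exact_mod_cast Nat.sub_le d 1
    have h3 : ((d - 1 : ℕ) : ℝ) * (r / β) ≤ d * (r / β) :=
      mul_le_mul_of_nonneg_right h2 (by positivity)
    refine h3.trans_lt ?_
    rw [← mul_div_assoc, div_lt_iff₀ hβ0, hβ]
    have h4 : c * (d * r / c + 1) = d * r + c := by
      field_simp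
    linarith
  have hMdet : M.det ≠ 0 := by
    intro h0
    apply hZdet
    rw [det_mul, det_zR, h0, Int.cast_zero, mul_zero]
  have hMD : M.det.natAbs ≤ ⌈d.factorial * R1 ^ d / V⌉₊ := by
    have h1 : |(h * zR M).det| ≤ (d.factorial : ℝ) * R1 ^ d := by
      have := Matrix.det_le (A := h * zR M) (abv := AbsoluteValue.abs) (x := R1) (fun i j => by
        rw [AbsoluteValue.abs_apply]; exact hZb i j)
      rw [AbsoluteValue.abs_apply, Fintype.card_fin, nsmul_eq_mul] at this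
      exact this
    rw [det_mul, abs_mul, hdet, det_zR] at h1
    have h2 : |((M.det : ℤ) : ℝ)| = (M.det.natAbs : ℝ) := by
      rw [Nat.cast_natAbs, Int.cast_abs]
    rw [h2] at h1
    have h3 : (M.det.natAbs : ℝ) ≤ d.factorial * R1 ^ d / V := by
      rw [le_div_iff₀ hV, mul_comm]; exact h1
    exact_mod_cast h3.trans (Nat.le_ceil _)
  obtain ⟨k, γ, hγ, hMγ⟩ := hT M hMdet hMD
  refine ⟨γ, hγ, fun i j => ?_⟩
  have hTdet : IsUnit (zR (T k)).det := by
    rw [det_zR]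
    exact isUnit_iff_ne_zero.2 (by exact_mod_cast hT0 k)
  have h1 : h * zR γ = (h * zR M) * (zR (T k))⁻¹ := by
    rw [hMγ, zR_mul, ← Matrix.mul_assoc, Matrix.mul_nonsing_inv_cancel_right _ _ hTdet]
  rw [h1, Matrix.mul_apply]
  refine (Finset.abs_sum_le_sum_abs _ _).trans ?_
  have h2 : ∑ l, |(h * zR M) i l * (zR (T k))⁻¹ l j| ≤ ∑ l : Fin d, R1 * B := by
    refine Finset.sum_le_sum fun l _ => ?_
    rw [abs_mul]
    exact mul_le_mul (hZb i l) (hBb k l j) (abs_nonneg _) hR10.le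
  refine h2.trans (le_of_eq ?_)
  rw [Finset.sum_const, Finset.card_univ, Fintype.card_fin, nsmul_eq_mul]

lemma isCompact_box (R : ℝ) :
    IsCompact {h : Matrix (Fin d) (Fin d) ℝ | ∀ i j, |h i j| ≤ R} := by
  have hcpt : IsCompact (Set.univ.pi fun _ : Fin d => Set.univ.pi fun _ : Fin d =>
      Set.Icc (-R) R : Set (Fin d → Fin d → ℝ)) :=
    isCompact_univ_pi fun _ => isCompact_univ_pi fun _ => isCompact_Icc
  have heq : (Set.univ.pi fun _ : Fin d => Set.univ.pi fun _ : Fin d =>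
      Set.Icc (-R) R : Set (Fin d → Fin d → ℝ)) =
      {h : Fin d → Fin d → ℝ | ∀ i j, |h i j| ≤ R} := by
    ext h
    constructor
    · intro hh i j
      exact abs_le.2 (hh i (Set.mem_univ i) j (Set.mem_univ j))
    · intro hh i _ j _
      exact abs_le.1 (hh i j)
  rw [heq] at hcpt
  exact hcpt

lemma lower_bound (y : Fin d → ℝ) {ν r : ℝ} (hr : 0 < r) (hy : ∀ i, 0 ≤ y i) (hyr : ∀ i, y i < r)
    (hν : ν ≤ ∏ i, y i) (i : Fin d) : ν / r ^ (d - 1) ≤ y i := by
  classical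
  have h1 : ∏ j ∈ Finset.univ.erase i, y j ≤ r ^ (d - 1) := by
    refine (Finset.prod_le_prod (g := fun _ => r) (fun j _ => hy j)
      (fun j _ => (hyr j).le)).trans (le_of_eq ?_)
    rw [Finset.prod_const, Finset.card_erase_of_mem (Finset.mem_univ i), Finset.card_univ,
      Fintype.card_fin]
  rw [← Finset.mul_prod_erase Finset.univ _ (Finset.mem_univ i)] at hν
  rw [div_le_iff₀ (pow_pos hr _)]
  exact hν.trans (mul_le_mul_of_nonneg_left h1 (hy i))

/-- vectors with small value and all coordinates under control, for every diagonal matrix -/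
theorem exists_vec_gen (hd : 0 < d) (V ν T : ℝ) (hV : 0 < V) (hν : 0 < ν)
    (hT : ∀ h : Matrix (Fin d) (Fin d) ℝ, |h.det| = V →
      ∃ m : Fin d → ℤ, m ≠ 0 ∧ |FF h (iR m)| < T) :
    ∃ r : ℝ, 0 < r ∧ ∀ h : Matrix (Fin d) (Fin d) ℝ, |h.det| = V → HasNu h ν →
      ∀ b : Fin d → ℝ, (∀ i, 0 < b i) → ∏ i, b i = 1 → ∃ m : Fin d → ℤ, 
        (∀ i, b i * |(h *ᵥ iR m) i| < r) ∧ (∀ i, ν / r ^ (d - 1) ≤ b i * |(h *ᵥ iR m) i|) ∧
        |FF h (iR m)| < T := by
  classical
  obtain ⟨R, hR⟩ := exists_bound hd V ν hV hν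
  set 𝒦 : Set (Matrix (Fin d) (Fin d) ℝ) := {h | ∀ i j, |h i j| ≤ R} ∩ {h | |h.det| = V} with h𝒦
  have hcpt : IsCompact 𝒦 := by
    refine (isCompact_box R).inter_right ?_
    exact isClosed_eq (continuous_abs.comp continuous_det') continuous_const
  obtain ⟨S, hS⟩ := hcpt.elim_finite_subcover
    (fun m : {m : Fin d → ℤ // m ≠ 0} => {h : Matrix (Fin d) (Fin d) ℝ | |FF h (iR m.1)| < T})
    (fun m => isOpen_lt (continuous_abs.comp (continuous_FF (iR m.1))) continuous_const)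
    (fun h hh => by
      obtain ⟨m, hm, hmT⟩ := hT h hh.2
      exact Set.mem_iUnion.2 ⟨⟨m, hm⟩, hmT⟩)
  set B : ℝ := ∑ m ∈ S, ∑ j, |(m.1 j : ℝ)| with hB
  have hB0 : 0 ≤ B := Finset.sum_nonneg fun m _ => Finset.sum_nonneg fun j _ => abs_nonneg _
  set r : ℝ := |R| * B + 1 with hr
  have hr0 : 0 < r := by positivity
  refine ⟨r, hr0, fun h hdet hnu b hb0 hb1 => ?_⟩
  have hdet' : |(diagonal b * h).det| = V := by
    rw [det_mul, det_diagonal, hb1, one_mul]; exact hdet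
  have hnu' : HasNu (diagonal b * h) ν := by
    intro m hm
    rw [FF_diag_mul, hb1, one_mul]
    exact hnu m hm
  obtain ⟨γ, hγ, hγR⟩ := hR _ hdet' hnu'
  have hmem : diagonal b * h * zR γ ∈ 𝒦 := by
    refine ⟨hγR, ?_⟩
    show |(diagonal b * h * zR γ).det| = V
    rw [det_mul, abs_mul, hdet', det_zR, abs_det_of_isUnit hγ, mul_one]
  obtain ⟨m, hmS, hmT⟩ := Set.mem_iUnion₂.1 (hS hmem)
  have hmT' : |FF h (iR (γ *ᵥ m.1))| < T := by
    have h1 : |FF (diagonal b * h * zR γ) (iR m.1)| < T := hmT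
    rwa [FF_orb hb1] at h1
  have hne : γ *ᵥ m.1 ≠ 0 := by
    intro h0
    apply m.2
    have h3 : γ⁻¹ *ᵥ (γ *ᵥ m.1) = 0 := by rw [h0, mulVec_zero]
    rwa [mulVec_mulVec, Matrix.nonsing_inv_mul _ hγ, one_mulVec] at h3
  have hent : ∀ i, b i * |(h *ᵥ iR (γ *ᵥ m.1)) i| = |((diagonal b * h * zR γ) *ᵥ iR m.1) i| := by
    intro i
    rw [← mulVec_mulVec, zR_mulVec_iR, ← mulVec_mulVec, mulVec_diagonal, abs_mul,
      abs_of_pos (hb0 i)]
  have hlt : ∀ i, b i * |(h *ᵥ iR (γ *ᵥ m.1)) i| < r := by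
    intro i
    rw [hent]
    have h1 : |((diagonal b * h * zR γ) *ᵥ iR m.1) i| ≤ ∑ j, |R| * |(m.1 j : ℝ)| := by
      rw [mulVec, dotProduct]
      refine (Finset.abs_sum_le_sum_abs _ _).trans (Finset.sum_le_sum fun j _ => ?_)
      rw [abs_mul]
      exact mul_le_mul_of_nonneg_right ((hγR i j).trans (le_abs_self R)) (abs_nonneg _)
    have h2 : ∑ j, |(m.1 j : ℝ)| ≤ B :=
      Finset.single_le_sum (f := fun m : {m : Fin d → ℤ // m ≠ 0} => ∑ j, |(m.1 j : ℝ)|)
        (fun m _ => Finset.sum_nonneg fun j _ => abs_nonneg _) hmS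
    rw [← Finset.mul_sum] at h1
    have h3 := mul_le_mul_of_nonneg_left h2 (abs_nonneg R)
    rw [hr]
    linarith
  refine ⟨γ *ᵥ m.1, hlt, ?_, hmT'⟩
  refine lower_bound _ hr0 (fun i => mul_nonneg (hb0 i).le (abs_nonneg _)) hlt ?_
  rw [Finset.prod_mul_distrib, hb1, one_mul, ← Finset.abs_prod, ← FF_eq]
  exact hnu _ hne

end H715R2
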