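import Mathlib
import Pool.Agent.H715R2.BuildDat

/-! # Limits with an algebraic row: general signs and final form -/

open NumberField Filter Topology Matrix

namespace H715R2

set_option linter.unusedSectionVars false

variable {d : ℕ}

lemma small_of_zero {g h : Matrix (Fin d) (Fin d) ℝ} (hh : h ∈ closure (Orb g))
    (x : Fin d → ℤ) (hx : x ≠ 0) (h0 : FF h (iR x) = 0) (ε : ℝ) (hε : 0 < ε) :
    ∃ y : Fin d → ℤ, y ≠ 0 ∧ |FF g (iR y)| < ε := by
  obtain ⟨u, hu, hlim⟩ := exists_seq_of_mem_closure hh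
  have h1 : Tendsto (fun n => FF (u n) (iR x)) atTop (𝓝 0) := by
    have := ((continuous_FF (iR x)).tendsto h).comp hlim
    rwa [h0] at this
  have h2 := (h1.abs).eventually (gt_mem_nhds (by rw [abs_zero]; exact hε))
  obtain ⟨n, hn⟩ := h2.exists
  obtain ⟨a, γ, _, ha, hγ, hun⟩ := hu n
  refine ⟨γ *ᵥ x, fun h => hx ?_, ?_⟩
  · have h3 : γ⁻¹ *ᵥ (γ *ᵥ x) = 0 := by rw [h, mulVec_zero]
    rwa [mulVec_mulVec, Matrix.nonsing_inv_mul _ hγ, one_mulVec] at h3
  · rw [hun, FF_orb ha] at hn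
    exact hn

lemma dense_ne {g : Matrix (Fin d) (Fin d) ℝ} (hd : 0 < d) (hV : VV g = Set.univ) (t ε : ℝ) (hε : 0 < ε) :
    ∃ x : Fin d → ℤ, x ≠ 0 ∧ |FF g (iR x) - t| < ε := by
  obtain ⟨t', ht', htt⟩ : ∃ t' : ℝ, t' ≠ 0 ∧ |t' - t| < ε / 2 := by
    by_cases h : t = 0
    · exact ⟨ε / 4, by positivity, by rw [h, sub_zero, abs_of_pos (by positivity)]; linarith⟩
    · exact ⟨t, h, by rw [sub_self, abs_zero]; positivity⟩
  have h1 : t' ∈ VV g := by rw [hV]; trivial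
  obtain ⟨_, ⟨x, rfl⟩, hx⟩ := Metric.mem_closure_iff.1 h1 (min (ε / 2) |t'|)
    (lt_min (by positivity) (abs_pos.2 ht'))
  rw [Real.dist_eq] at hx
  simp only at hx
  refine ⟨x, ?_, ?_⟩
  · rintro rfl
    have h2 : FF g (iR (0 : Fin d → ℤ)) = 0 := by
      rw [FF]
      exact Finset.prod_eq_zero (Finset.mem_univ ⟨0, hd⟩) (by simp [iR])
    rw [h2, sub_zero] at hx
    exact lt_irrefl _ (lt_of_lt_of_le hx (min_le_right _ _))
  · have h2 := lt_of_lt_of_le hx (min_le_left _ _)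
    have h3 := abs_sub_le (FF g (iR x)) t' t
    rw [abs_sub_comm (FF g (iR x)) t'] at h3
    linarith

/-- limit points with an algebraic row -/
theorem limit_alg (hd : 3 ≤ d) {g h : Matrix (Fin d) (Fin d) ℝ} (hg : g.det ≠ 0)
    (hh : h ∈ closure (Orb g)) (i₀ : Fin d) (s : ℝ) (hs : s ≠ 0) (K : IntermediateField ℚ ℝ)
    [FiniteDimensional ℚ K] (hK : Module.finrank ℚ K ≤ d) (hmem : ∀ j, s * h i₀ j ∈ K) :
    (∃ x : Fin d → ℤ, x ≠ 0 ∧ ∑ j, h i₀ j * (x j : ℝ) = 0) ∨ PropInt g ∨ VV g = Set.univ := by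
  by_cases hind : ∀ m : Fin d → ℤ, ∑ j, h i₀ j * (m j : ℝ) = 0 → m = 0
  · right
    have hhd : h.det ≠ 0 := by
      intro h0
      have := abs_det_closure hh
      rw [h0, abs_zero] at this
      exact hg (abs_eq_zero.1 this.symm)
    obtain ⟨_, D, hD⟩ := build_dat hd h hhd i₀ s hs K hK hmem hind
    exact isolation D g hg (by rw [hD]; exact hh)
  · left
    push Not at hind
    obtain ⟨m, hm1, hm2⟩ := hind
    exact ⟨m, hm2, hm1⟩

/-- the same with arbitrary diagonal matrices of determinant `±1` -/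
theorem limit_alg' (hd : 3 ≤ d) {g h : Matrix (Fin d) (Fin d) ℝ} (hg : g.det ≠ 0)
    (a : ℕ → Fin d → ℝ) (γ : ℕ → Matrix (Fin d) (Fin d) ℤ)
    (ha : ∀ n, |∏ i, a n i| = 1) (hγ : ∀ n, |(γ n).det| = 1)
    (hlim : Tendsto (fun n => diagonal (a n) * g * (γ n).map (Int.cast : ℤ → ℝ)) atTop (𝓝 h))
    (i₀ : Fin d) (s : ℝ) (hs : s ≠ 0) (K : IntermediateField ℚ ℝ)
    [FiniteDimensional ℚ K] (hK : Module.finrank ℚ K ≤ d) (hmem : ∀ j, s * h i₀ j ∈ K) :
    PropInt g ∨ ((∀ ε : ℝ, 0 < ε → ∃ x : Fin d → ℤ, x ≠ 0 ∧ |FF g (iR x)| < ε) ∧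
      ((∃ x : Fin d → ℤ, x ≠ 0 ∧ ∑ j, h i₀ j * (x j : ℝ) = 0) ∨
        ∀ t ε : ℝ, 0 < ε → ∃ x : Fin d → ℤ, x ≠ 0 ∧ |FF g (iR x) - t| < ε)) := by
  classical
  -- a sign pattern occurring infinitely often
  have hane : ∀ n i, a n i ≠ 0 := by
    intro n i h0
    have h1 := ha n
    rw [Finset.prod_eq_zero (Finset.mem_univ i) h0, abs_zero] at h1
    exact zero_ne_one h1
  obtain ⟨p, hfreq⟩ : ∃ p : Fin d → Bool, ∃ᶠ n in atTop, (fun i => decide (0 < a n i)) = p := by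
    by_contra hcon
    rw [not_exists] at hcon
    have h1 : ∀ᶠ n in atTop, ∀ p : Fin d → Bool, ¬ ((fun i => decide (0 < a n i)) = p) :=
      Filter.eventually_all.2 fun p => not_frequently.1 (hcon p)
    obtain ⟨n, hn⟩ := h1.exists
    exact hn _ rfl
  obtain ⟨σ, hσ, hσ2⟩ := extraction_of_frequently_atTop hfreq
  set e : Fin d → ℝ := fun i => if p i then 1 else -1 with he
  have hea : ∀ n i, e i * a (σ n) i = |a (σ n) i| := by
    intro n i
    have h1 := congrFun (hσ2 n) i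
    simp only [he]
    by_cases h2 : 0 < a (σ n) i
    · rw [← h1, abs_of_pos h2]; simp [h2]
    · have h3 : a (σ n) i < 0 := lt_of_le_of_ne (not_lt.1 h2) (hane _ _)
      rw [← h1, abs_of_neg h3]; simp [h2]
  have hlim2 : Tendsto (fun n => diagonal (fun i => |a (σ n) i|) * g * zR (γ (σ n))) atTop
      (𝓝 (diagonal e * h)) := by
    have hcont : Continuous (fun M : Matrix (Fin d) (Fin d) ℝ => diagonal e * M) :=
      continuous_const.matrix_mul continuous_id
    have h1 := (hcont.tendsto h).comp (hlim.comp hσ.tendsto_atTop)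
    refine h1.congr fun n => ?_
    simp only [Function.comp_apply]
    rw [← Matrix.mul_assoc, ← Matrix.mul_assoc, diagonal_mul_diagonal]
    have h2 : (fun i => e i * a (σ n) i) = fun i => |a (σ n) i| := funext (hea n)
    rw [h2]
    rfl
  have hmemc : diagonal e * h ∈ closure (Orb g) := by
    refine mem_closure_of_tendsto hlim2 (Eventually.of_forall fun n => ?_)
    refine ⟨fun i => |a (σ n) i|, γ (σ n), fun i => abs_pos.2 (hane _ _), ?_, ?_, rfl⟩
    · rw [← Finset.abs_prod]; exact ha _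
    · exact Int.isUnit_iff_abs_eq.2 (hγ _)
  have he1 : e i₀ = 1 ∨ e i₀ = -1 := by
    simp only [he]
    split_ifs <;> simp
  have hene : e i₀ ≠ 0 := by rcases he1 with h | h <;> rw [h] <;> norm_num
  have hmem' : ∀ j, s * (diagonal e * h) i₀ j ∈ K := by
    intro j
    rw [diagonal_mul]
    rcases he1 with h1 | h1
    · rw [h1, one_mul]; exact hmem j
    · rw [h1]
      have : s * (-1 * h i₀ j) = - (s * h i₀ j) := by ring
      rw [this]
      exact neg_mem (hmem j)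
  have hzero : ∀ x : Fin d → ℤ, ∑ j, (diagonal e * h) i₀ j * (x j : ℝ)
      = e i₀ * ∑ j, h i₀ j * (x j : ℝ) := by
    intro x
    rw [Finset.mul_sum]
    refine Finset.sum_congr rfl fun j _ => ?_
    rw [diagonal_mul]
    ring
  rcases limit_alg hd hg hmemc i₀ s hs K hK hmem' with ⟨x, hx, hx0⟩ | hint | hdense
  · right
    have h1 : ∑ j, h i₀ j * (x j : ℝ) = 0 := by
      rw [hzero] at hx0
      exact (mul_eq_zero.1 hx0).resolve_left hene
    refine ⟨fun ε hε => ?_, Or.inl ⟨x, hx, h1⟩⟩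
    refine small_of_zero hmemc x hx ?_ ε hε
    rw [FF]
    exact Finset.prod_eq_zero (Finset.mem_univ i₀) hx0
  · exact Or.inl hint
  · right
    refine ⟨fun ε hε => ?_, Or.inr fun t ε hε => dense_ne (by omega) hdense t ε hε⟩
    obtain ⟨x, hx, hx2⟩ := dense_ne (by omega : 0 < d) hdense 0 ε hε
    exact ⟨x, hx, by rwa [sub_zero] at hx2⟩

end H715R2
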