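import Mathlib
import Pool.Agent.H715R2.Determine

/-! # Minimal invariant sets -/

open Filter Topology Matrix

namespace H715R2

set_option linter.unusedSectionVars false

variable {d : ℕ}

lemma hasNu_closure {g h : Matrix (Fin d) (Fin d) ℝ} {ν : ℝ} (hnu : HasNu g ν)
    (hh : h ∈ closure (Orb g)) : HasNu h ν := by
  intro m hm
  have h1 : IsClosed {h : Matrix (Fin d) (Fin d) ℝ | ν ≤ |FF h (iR m)|} :=
    isClosed_le continuous_const (continuous_abs.comp (continuous_FF (iR m)))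
  refine closure_minimal ?_ h1 hh
  rintro _ ⟨a, γ, _, ha, hγ, rfl⟩
  rw [Set.mem_ofPred_eq, FF_orb ha]
  refine hnu _ fun h0 => hm ?_
  have h3 : γ⁻¹ *ᵥ (γ *ᵥ m) = 0 := by rw [h0, mulVec_zero]
  rwa [mulVec_mulVec, Matrix.nonsing_inv_mul _ hγ, one_mulVec] at h3

/-- invariance under positive diagonal matrices of determinant one and `GL_d(ℤ)` -/
def Inv (Y : Set (Matrix (Fin d) (Fin d) ℝ)) : Prop :=
  ∀ h ∈ Y, ∀ (a : Fin d → ℝ) (γ : Matrix (Fin d) (Fin d) ℤ), (∀ i, 0 < a i) → ∏ i, a i = 1 →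
    IsUnit γ.det → diagonal a * h * zR γ ∈ Y

theorem exists_minimal (hd : 0 < d) {g : Matrix (Fin d) (Fin d) ℝ} {ν : ℝ} (hν : 0 < ν)
    (hg : g.det ≠ 0) (hnu : HasNu g ν) :
    ∃ M : Set (Matrix (Fin d) (Fin d) ℝ), M ⊆ closure (Orb g) ∧ IsClosed M ∧ M.Nonempty ∧ Inv M ∧
      ∀ Y ⊆ M, IsClosed Y → Y.Nonempty → Inv Y → Y = M := by
  classical
  obtain ⟨R, hR⟩ := exists_bound hd |g.det| ν (abs_pos.2 hg) hν
  set 𝒦 : Set (Matrix (Fin d) (Fin d) ℝ) := {h | ∀ i j, |h i j| ≤ R} with h𝒦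
  have hcpt : IsCompact 𝒦 := isCompact_box R
  have hmeet : ∀ Y : Set (Matrix (Fin d) (Fin d) ℝ), Y ⊆ closure (Orb g) → Y.Nonempty → Inv Y →
      (Y ∩ 𝒦).Nonempty := by
    intro Y hY ⟨h, hh⟩ hinv
    obtain ⟨γ, hγ, hγR⟩ := hR h (abs_det_closure (hY hh)) (hasNu_closure hnu (hY hh))
    refine ⟨h * zR γ, ?_, hγR⟩
    have h1 := hinv h hh (fun _ => 1) γ (fun _ => one_pos) (by simp) hγ
    have h2 : diagonal (fun _ : Fin d => (1 : ℝ)) = 1 := diagonal_one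
    rwa [h2, Matrix.one_mul] at h1
  set S : Set (Set (Matrix (Fin d) (Fin d) ℝ)) :=
    {Y | Y ⊆ closure (Orb g) ∧ IsClosed Y ∧ Y.Nonempty ∧ Inv Y} with hS
  have hx : closure (Orb g) ∈ S :=
    ⟨subset_rfl, isClosed_closure, ⟨g, subset_closure (mem_orb_self g)⟩,
      fun h hh a γ ha0 ha hγ => closure_mul hh ha0 ha hγ⟩
  obtain ⟨M, hMx, hMin⟩ := zorn_superset_nonempty S (by
    intro c hcS hchain hcne
    refine ⟨⋂₀ c, ⟨?_, ?_, ?_, ?_⟩, fun s hs => Set.sInter_subset_of_mem hs⟩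
    · obtain ⟨Y, hY⟩ := hcne
      exact (Set.sInter_subset_of_mem hY).trans (hcS hY).1
    · exact isClosed_sInter fun Y hY => (hcS hY).2.1
    · have : Nonempty c := ⟨⟨hcne.some, hcne.some_mem⟩⟩
      have h1 : (⋂ Y : c, (Y : Set (Matrix (Fin d) (Fin d) ℝ)) ∩ 𝒦).Nonempty := by
        refine IsCompact.nonempty_iInter_of_directed_nonempty_isCompact_isClosed
          (fun Y : c => (Y : Set (Matrix (Fin d) (Fin d) ℝ)) ∩ 𝒦) ?_ ?_ ?_ ?_
        · intro Y Z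
          rcases hchain.total Y.2 Z.2 with h | h
          · exact ⟨Y, subset_rfl, Set.inter_subset_inter_left _ h⟩
          · exact ⟨Z, Set.inter_subset_inter_left _ h, subset_rfl⟩
        · intro Y
          exact hmeet Y (hcS Y.2).1 (hcS Y.2).2.2.1 (hcS Y.2).2.2.2
        · intro Y
          exact hcpt.inter_left (hcS Y.2).2.1
        · intro Y
          exact (hcS Y.2).2.1.inter hcpt.isClosed
      obtain ⟨h, hh⟩ := h1
      rw [Set.mem_iInter] at hh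
      exact ⟨h, fun Y hY => (hh ⟨Y, hY⟩).1⟩
    · intro h hh a γ ha0 ha hγ Y hY
      exact (hcS hY).2.2.2 h (hh Y hY) a γ ha0 ha hγ) _ hx
  obtain ⟨hMS, hMmin⟩ := hMin
  refine ⟨M, hMS.1, hMS.2.1, hMS.2.2.1, hMS.2.2.2, fun Y hY hYc hYn hYi => ?_⟩
  exact subset_antisymm hY (hMmin ⟨hY.trans hMS.1, hYc, hYn, hYi⟩ hY)

instance : LocallyCompactSpace (Matrix (Fin d) (Fin d) ℝ) :=
  inferInstanceAs (LocallyCompactSpace (Fin d → Fin d → ℝ))

/-- Baire: all values in a countable set are locally constant at a suitable point. -/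
theorem locally_const {M : Set (Matrix (Fin d) (Fin d) ℝ)} (hM : IsClosed M) (hne : M.Nonempty)
    (C : Set ℝ) (hC : C.Countable) :
    ∃ h₀ ∈ M, ∀ m : Fin d → ℤ, FF h₀ (iR m) ∈ C →
      ∀ᶠ h in 𝓝[M] h₀, FF h (iR m) = FF h₀ (iR m) := by
  classical
  have hlc : LocallyCompactSpace M := hM.locallyCompactSpace
  have hB : BaireSpace M := BaireSpace.of_t2Space_locallyCompactSpace
  have : Countable C := hC.to_subtype
  have hMne : Nonempty M := hne.to_subtype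
  let Z : (Fin d → ℤ) × C → Set M := fun p => {h | FF (h : Matrix (Fin d) (Fin d) ℝ) (iR p.1) = p.2}
  have hZc : ∀ p, IsClosed (Z p) := fun p =>
    isClosed_eq ((continuous_FF (iR p.1)).comp continuous_subtype_val) continuous_const
  have hdense : Dense (⋂ p, (frontier (Z p))ᶜ) := by
    refine dense_iInter_of_isOpen (fun p => isClosed_frontier.isOpen_compl) fun p => ?_
    rw [← interior_eq_empty_iff_dense_compl]
    exact interior_frontier (hZc p)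
  obtain ⟨h₀, hh₀⟩ := hdense.nonempty
  rw [Set.mem_iInter] at hh₀
  refine ⟨h₀, h₀.2, fun m hm => ?_⟩
  have h1 := hh₀ (m, ⟨_, hm⟩)
  have h2 : h₀ ∈ Z (m, ⟨_, hm⟩) := rfl
  have h3 : h₀ ∈ interior (Z (m, ⟨_, hm⟩)) := by
    by_contra hcon
    exact h1 ⟨subset_closure h2, hcon⟩
  have h4 : ∀ᶠ h : M in 𝓝 h₀, FF (h : Matrix (Fin d) (Fin d) ℝ) (iR m) = FF h₀ (iR m) := by
    filter_upwards [mem_interior_iff_mem_nhds.1 h3] with h hh
    exact hh
  rw [nhdsWithin_eq_map_subtype_coe h₀.2, Filter.eventually_map]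
  exact h4

/-- In a minimal set, a point whose neighbours are all on its diagonal orbit has the whole set as
orbit. -/
theorem single_orbit {M : Set (Matrix (Fin d) (Fin d) ℝ)} (hM : IsClosed M) (hinv : Inv M)
    (hmin : ∀ Y ⊆ M, IsClosed Y → Y.Nonempty → Inv Y → Y = M)
    {h₀ : Matrix (Fin d) (Fin d) ℝ} (hh₀ : h₀ ∈ M)
    (hloc : ∀ᶠ h in 𝓝[M] h₀, ∃ a : Fin d → ℝ, (∀ i, 0 < a i) ∧ ∏ i, a i = 1 ∧
      h = diagonal a * h₀) :
    ∀ h ∈ M, ∃ (a : Fin d → ℝ) (γ : Matrix (Fin d) (Fin d) ℤ), (∀ i, 0 < a i) ∧ ∏ i, a i = 1 ∧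
      IsUnit γ.det ∧ diagonal a * h * zR γ = h₀ := by
  classical
  obtain ⟨U, hU, hh₀U, hUM⟩ := mem_nhdsWithin.1 hloc
  set Y : Set (Matrix (Fin d) (Fin d) ℝ) := {h | h ∈ M ∧ ∀ (a : Fin d → ℝ)
    (γ : Matrix (Fin d) (Fin d) ℤ), (∀ i, 0 < a i) → ∏ i, a i = 1 → IsUnit γ.det →
      diagonal a * h * zR γ ∉ U} with hY
  have hYc : IsClosed Y := by
    have h1 : Y = M ∩ ⋂ (a : Fin d → ℝ), ⋂ (γ : Matrix (Fin d) (Fin d) ℤ),
        ⋂ (_ : ∀ i, 0 < a i), ⋂ (_ : ∏ i, a i = 1), ⋂ (_ : IsUnit γ.det),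
          (fun h : Matrix (Fin d) (Fin d) ℝ => diagonal a * h * zR γ) ⁻¹' Uᶜ := by
      ext h
      simp [hY]
    rw [h1]
    refine hM.inter ?_
    refine isClosed_iInter fun a => isClosed_iInter fun γ => isClosed_iInter fun _ =>
      isClosed_iInter fun _ => isClosed_iInter fun _ => hU.isClosed_compl.preimage ?_
    exact (continuous_const.matrix_mul continuous_id).matrix_mul continuous_const
  have hYi : Inv Y := by
    intro h hh b δ hb0 hb hδ
    refine ⟨hinv h hh.1 b δ hb0 hb hδ, fun a γ ha0 ha hγ => ?_⟩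
    have h1 := hh.2 (fun i => a i * b i) (δ * γ) (fun i => mul_pos (ha0 i) (hb0 i))
      (by rw [Finset.prod_mul_distrib, ha, hb, one_mul]) (by rw [det_mul]; exact hδ.mul hγ)
    rw [zR_mul, ← diagonal_mul_diagonal] at h1
    simp only [Matrix.mul_assoc] at h1 ⊢
    exact h1
  have hYne : ¬ Y.Nonempty := by
    intro hne
    have h1 := hmin Y (fun h hh => hh.1) hYc hne hYi
    have h2 : h₀ ∈ Y := by rw [h1]; exact hh₀
    have h3 := h2.2 (fun _ => 1) 1 (fun _ => one_pos) (by simp) (by simp)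
    have h4 : diagonal (fun _ : Fin d => (1 : ℝ)) = 1 := diagonal_one
    rw [h4, Matrix.one_mul, zR_one, Matrix.mul_one] at h3
    exact h3 hh₀U
  intro h hh
  have h1 : h ∉ Y := fun hhY => hYne ⟨h, hhY⟩
  simp only [hY, Set.mem_ofPred_eq, not_and, not_forall, not_not] at h1
  obtain ⟨a, γ, ha0, ha, hγ, hmem⟩ := h1 hh
  obtain ⟨b, hb0, hb, hbe⟩ := hUM ⟨hmem, hinv h hh a γ ha0 ha hγ⟩
  refine ⟨fun i => (b i)⁻¹ * a i, γ, fun i => mul_pos (inv_pos.2 (hb0 i)) (ha0 i), ?_, hγ, ?_⟩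
  · rw [Finset.prod_mul_distrib, ha, mul_one, Finset.prod_inv_distrib, hb, inv_one]
  · rw [← diagonal_mul_diagonal, Matrix.mul_assoc, Matrix.mul_assoc, ← Matrix.mul_assoc (diagonal a),
      hbe, ← Matrix.mul_assoc, diagonal_mul_diagonal]
    have h5 : (fun i => (b i)⁻¹ * b i) = fun _ => (1 : ℝ) :=
      funext fun i => inv_mul_cancel₀ (hb0 i).ne'
    rw [h5]
    have h4 : diagonal (fun _ : Fin d => (1 : ℝ)) = 1 := diagonal_one
    rw [h4, Matrix.one_mul]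

end H715R2
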