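import Mathlib
import Pool.Agent.H715R2.MinimalSet
import Pool.Agent.H715R2.LimitAlg

/-! # A closed single orbit has an algebraic row -/

open Filter Topology Matrix

namespace H715R2

set_option linter.unusedSectionVars false

variable {d : ℕ}

/-- a stabiliser with distinct eigenvalues -/
theorem exists_stabilizer (hd : 2 ≤ d) {g : Matrix (Fin d) (Fin d) ℝ} {ν : ℝ} (hν : 0 < ν)
    (hg : g.det ≠ 0) (hnu : HasNu g ν) {M : Set (Matrix (Fin d) (Fin d) ℝ)}
    (hMg : M ⊆ closure (Orb g)) (hM : IsClosed M) (hinv : Inv M)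
    {h₀ : Matrix (Fin d) (Fin d) ℝ} (hh₀ : h₀ ∈ M)
    (hloc : ∀ᶠ h in 𝓝[M] h₀, ∃ a : Fin d → ℝ, (∀ i, 0 < a i) ∧ ∏ i, a i = 1 ∧
      h = diagonal a * h₀)
    (horb : ∀ h ∈ M, ∃ (a : Fin d → ℝ) (γ : Matrix (Fin d) (Fin d) ℤ), (∀ i, 0 < a i) ∧
      ∏ i, a i = 1 ∧ IsUnit γ.det ∧ diagonal a * h * zR γ = h₀) :
    ∃ (δ : Matrix (Fin d) (Fin d) ℤ) (c : Fin d → ℝ), Function.Injective c ∧
      h₀ * zR δ = diagonal c * h₀ := by
  classical
  obtain ⟨θ, hθinj, hθsum, -⟩ := exists_theta (by omega : 0 < d) (⟨0, by omega⟩ : Fin d)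
    ⟨1, by omega⟩ (by simp)
  obtain ⟨R, hR⟩ := exists_bound (by omega : 0 < d) |g.det| ν (abs_pos.2 hg) hν
  have hdet₀ : h₀.det ≠ 0 := by
    intro h0
    have := abs_det_closure (hMg hh₀)
    rw [h0, abs_zero] at this
    exact hg (abs_eq_zero.1 this.symm)
  have hu : IsUnit h₀.det := isUnit_iff_ne_zero.2 hdet₀
  set a : ℕ → Fin d → ℝ := fun n i => Real.exp (n * θ i) with ha
  have ha0 : ∀ n i, 0 < a n i := fun n i => Real.exp_pos _
  have ha1 : ∀ n, ∏ i, a n i = 1 := by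
    intro n
    simp only [ha]
    rw [← Real.exp_sum, ← Finset.mul_sum, hθsum, mul_zero, Real.exp_zero]
  have hone : diagonal (fun _ : Fin d => (1 : ℝ)) = 1 := diagonal_one
  have hxn : ∀ n, ∃ γ : Matrix (Fin d) (Fin d) ℤ, IsUnit γ.det ∧
      diagonal (a n) * h₀ * zR γ ∈ M ∧ ∀ i j, |(diagonal (a n) * h₀ * zR γ) i j| ≤ R := by
    intro n
    have h1 : diagonal (a n) * h₀ ∈ M := by
      have := hinv h₀ hh₀ (a n) 1 (ha0 n) (ha1 n) (by simp)
      rwa [zR_one, Matrix.mul_one] at this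
    obtain ⟨γ, hγ, hγR⟩ := hR _ (abs_det_closure (hMg h1)) (hasNu_closure hnu (hMg h1))
    exact ⟨γ, hγ, hinv h₀ hh₀ (a n) γ (ha0 n) (ha1 n) hγ, hγR⟩
  choose γ hγ hγM hγR using hxn
  obtain ⟨h', -, φ, hφ, hlim⟩ := (isCompact_box (d := d) R).tendsto_subseq hγR
  have hh' : h' ∈ M := hM.mem_of_tendsto hlim (Eventually.of_forall fun n => hγM _)
  obtain ⟨a', γ', ha'0, ha'1, hγ', hh'e⟩ := horb h' hh'
  set y : ℕ → Matrix (Fin d) (Fin d) ℝ := fun n =>
    diagonal a' * (diagonal (a (φ n)) * h₀ * zR (γ (φ n))) * zR γ' with hy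
  have hylim : Tendsto y atTop (𝓝 h₀) := by
    have hcont : Continuous (fun h : Matrix (Fin d) (Fin d) ℝ => diagonal a' * h * zR γ') :=
      (continuous_const.matrix_mul continuous_id).matrix_mul continuous_const
    have := (hcont.tendsto h').comp hlim
    rwa [hh'e] at this
  have hyM : ∀ n, y n ∈ M := fun n => hinv _ (hγM _) a' γ' ha'0 ha'1 hγ'
  have hylim' : Tendsto y atTop (𝓝[M] h₀) :=
    tendsto_nhdsWithin_iff.2 ⟨hylim, Eventually.of_forall hyM⟩
  have hev := hylim'.eventually hloc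
  set S : ℕ → Matrix (Fin d) (Fin d) ℝ := fun n => y n * h₀⁻¹ with hS
  have hSlim : Tendsto S atTop (𝓝 1) := by
    have hcont : Continuous (fun h : Matrix (Fin d) (Fin d) ℝ => h * h₀⁻¹) :=
      continuous_id.matrix_mul continuous_const
    have := (hcont.tendsto h₀).comp hylim
    rwa [Matrix.mul_nonsing_inv _ hu] at this
  have hSd : ∀ i, Tendsto (fun n => S n i i) atTop (𝓝 1) := by
    intro i
    have := ((continuous_apply_apply i i).tendsto (1 : Matrix (Fin d) (Fin d) ℝ)).comp hSlim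
    rwa [Matrix.one_apply_eq] at this
  set c : ℕ → Fin d → ℝ := fun n i => (a' i * a (φ n) i)⁻¹ * S n i i with hc
  have hcne : ∀ i j, θ j < θ i → ∀ᶠ n in atTop, c n i ≠ c n j := by
    intro i j hij
    have h1 : Tendsto (fun n => S n i i * a' j * Real.exp (-((φ n : ℝ) * (θ i - θ j)))) atTop
        (𝓝 (1 * a' j * 0)) := by
      refine ((hSd i).mul tendsto_const_nhds).mul ?_
      refine Real.tendsto_exp_atBot.comp ?_
      refine tendsto_neg_atTop_atBot.comp ?_
      exact (tendsto_natCast_atTop_atTop.comp hφ.tendsto_atTop).atTop_mul_const (sub_pos.2 hij)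
    have h2 : Tendsto (fun n => S n j j * a' i) atTop (𝓝 (1 * a' i)) :=
      (hSd j).mul tendsto_const_nhds
    have h3 : (1 : ℝ) * a' j * 0 < 1 * a' i := by
      rw [mul_zero, one_mul]; exact ha'0 i
    filter_upwards [h1.eventually_lt h2 h3] with n hn heq
    have h4 : S n i i * a' j * Real.exp (-((φ n : ℝ) * (θ i - θ j))) = S n j j * a' i := by
      have e1 : c n i = (a' i * Real.exp ((φ n : ℝ) * θ i))⁻¹ * S n i i := rfl
      have e2 : c n j = (a' j * Real.exp ((φ n : ℝ) * θ j))⁻¹ * S n j j := rfl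
      rw [e1, e2] at heq
      have hi := (ha'0 i).ne'
      have hj := (ha'0 j).ne'
      have hei := (Real.exp_pos ((φ n : ℝ) * θ i)).ne'
      have hej := (Real.exp_pos ((φ n : ℝ) * θ j)).ne'
      have e3 : Real.exp (-((φ n : ℝ) * (θ i - θ j)))
          = Real.exp ((φ n : ℝ) * θ j) / Real.exp ((φ n : ℝ) * θ i) := by
        rw [← Real.exp_sub]
        congr 1
        ring
      rw [e3]
      field_simp at heq ⊢
      linarith
    exact absurd h4 hn.ne
  have hinjev : ∀ᶠ n in atTop, ∀ i j : Fin d, i ≠ j → c n i ≠ c n j := by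
    refine Filter.eventually_all.2 fun i => Filter.eventually_all.2 fun j => ?_
    by_cases hij : i = j
    · exact Eventually.of_forall fun n h => absurd hij h
    · rcases lt_or_gt_of_ne (fun h => hij (hθinj h) : θ i ≠ θ j) with h | h
      · exact (hcne j i h).mono fun n hn _ h2 => hn h2.symm
      · exact (hcne i j h).mono fun n hn _ => hn
  obtain ⟨n, hn1, hn2⟩ := (hev.and hinjev).exists
  obtain ⟨s, hs0, -, hse⟩ := hn1
  have hSs : S n = diagonal s := by
    simp only [hS]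
    rw [hse, Matrix.mul_assoc, Matrix.mul_nonsing_inv _ hu, Matrix.mul_one]
  refine ⟨γ (φ n) * γ', c n, fun i j hij => by_contra fun h => hn2 i j h hij, ?_⟩
  have h1 : diagonal (fun i => a' i * a (φ n) i) * (h₀ * zR (γ (φ n) * γ')) = diagonal s * h₀ := by
    rw [← hse, zR_mul, ← diagonal_mul_diagonal]
    simp only [hy, Matrix.mul_assoc]
  have h2 : diagonal (fun i => (a' i * a (φ n) i)⁻¹) * diagonal (fun i => a' i * a (φ n) i) = 1 := by
    rw [diagonal_mul_diagonal, ← hone]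
    congr 1
    funext i
    exact inv_mul_cancel₀ (mul_pos (ha'0 i) (ha0 _ i)).ne'
  have h3 : h₀ * zR (γ (φ n) * γ') = diagonal (fun i => (a' i * a (φ n) i)⁻¹) * (diagonal s * h₀) := by
    rw [← h1, ← Matrix.mul_assoc, h2, Matrix.one_mul]
  rw [h3, ← Matrix.mul_assoc, diagonal_mul_diagonal]
  congr 2
  funext i
  simp only [hc]
  rw [hSs, diagonal_apply_eq]

open IntermediateField in
/-- a row of a matrix with a stabiliser with distinct eigenvalues is algebraic -/
theorem exists_alg_row {h₀ : Matrix (Fin d) (Fin d) ℝ} (hdet : h₀.det ≠ 0)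
    (δ : Matrix (Fin d) (Fin d) ℤ) (c : Fin d → ℝ) (hc : Function.Injective c)
    (hδ : h₀ * zR δ = diagonal c * h₀) (i : Fin d) :
    ∃ (K : IntermediateField ℚ ℝ), FiniteDimensional ℚ K ∧ Module.finrank ℚ K ≤ d ∧
      ∃ s : ℝ, s ≠ 0 ∧ ∀ j, s * h₀ i j ∈ K := by
  classical
  have hu : IsUnit h₀.det := isUnit_iff_ne_zero.2 hdet
  -- the row is an eigenvector
  have hrow : h₀ i ᵥ* zR δ = c i • h₀ i := by
    have := congrFun hδ i
    funext j
    have h1 := congrFun this j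
    rw [diagonal_mul] at h1
    exact h1
  have hrow0 : h₀ i ≠ 0 := by
    intro h0
    exact hdet (Matrix.det_eq_zero_of_row_eq_zero i fun j => congrFun h0 j)
  have hdetR : (Matrix.scalar (Fin d) (c i) - zR δ).det = 0 := by
    rw [← Matrix.exists_vecMul_eq_zero_iff]
    refine ⟨h₀ i, hrow0, ?_⟩
    rw [Matrix.vecMul_sub, hrow]
    funext j
    simp [Matrix.scalar_apply, mul_comm]
  set P : Polynomial ℚ := (δ.map (Int.cast : ℤ → ℚ)).charpoly with hP
  have hPm : P.Monic := Matrix.charpoly_monic _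
  have hPd : P.natDegree = d := by
    rw [hP, Matrix.charpoly_natDegree_eq_dim, Fintype.card_fin]
  have hPc : Polynomial.aeval (c i) P = 0 := by
    rw [Polynomial.aeval_def, ← Polynomial.eval_map, hP, ← Matrix.charpoly_map,
      Matrix.eval_charpoly]
    rw [← hdetR]
    congr 2
  have hint : IsIntegral ℚ (c i) := ⟨P, hPm, hPc⟩
  have hfin : FiniteDimensional ℚ ℚ⟮c i⟯ := adjoin.finiteDimensional hint
  refine ⟨ℚ⟮c i⟯, hfin, ?_, ?_⟩
  · rw [adjoin.finrank hint, ← hPd]
    exact Polynomial.natDegree_le_of_dvd (minpoly.dvd ℚ (c i) hPc) hPm.ne_zero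
  set K := ℚ⟮c i⟯ with hK
  set cK : K := ⟨c i, mem_adjoin_simple_self ℚ (c i)⟩ with hcK
  have hdetK : (Matrix.scalar (Fin d) cK - (δ.map (Int.cast : ℤ → K))).det = 0 := by
    apply (algebraMap K ℝ).injective
    rw [map_zero, RingHom.map_det, ← hdetR]
    congr 1
    ext p q
    simp only [RingHom.mapMatrix_apply, Matrix.map_apply, Matrix.sub_apply, map_sub, zR,
      Matrix.scalar_apply, Matrix.diagonal_apply]
    congr 1
    split_ifs
    · rfl
    · simp
  obtain ⟨w, hw0, hw⟩ := Matrix.exists_vecMul_eq_zero_iff.2 hdetK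
  set wR : Fin d → ℝ := fun j => (w j : ℝ) with hwR
  have hwR0 : wR ≠ 0 := by
    intro h0
    apply hw0
    funext j
    exact Subtype.ext (congrFun h0 j)
  have hwe : wR ᵥ* zR δ = c i • wR := by
    funext j
    have h1 := congrArg (fun z : K => (z : ℝ)) (congrFun hw j)
    rw [Matrix.vecMul_sub] at h1
    simp only [Pi.sub_apply, Matrix.scalar_apply, Matrix.vecMul_diagonal, Pi.zero_apply] at h1
    have h2 : (((w ᵥ* (δ.map (Int.cast : ℤ → K))) j : K) : ℝ) = (wR ᵥ* zR δ) j := by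
      simp only [Matrix.vecMul, dotProduct, Matrix.map_apply, zR]
      push_cast
      rfl
    have h3 : ((w j * cK - (w ᵥ* (δ.map (Int.cast : ℤ → K))) j : K) : ℝ)
        = wR j * c i - (wR ᵥ* zR δ) j := by
      rw [← h2]; rfl
    rw [h3] at h1
    have h4 : ((0 : K) : ℝ) = 0 := rfl
    rw [h4] at h1
    rw [Pi.smul_apply, smul_eq_mul]
    linarith
  set lam : Fin d → ℝ := wR ᵥ* h₀⁻¹ with hlam
  have hlw : lam ᵥ* h₀ = wR := by
    rw [hlam, Matrix.vecMul_vecMul, Matrix.nonsing_inv_mul _ hu, Matrix.vecMul_one]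
  have h5 : (lam ᵥ* diagonal c) ᵥ* h₀ = (c i • lam) ᵥ* h₀ := by
    rw [Matrix.vecMul_vecMul, ← hδ, ← Matrix.vecMul_vecMul, hlw, hwe, Matrix.smul_vecMul, hlw]
  have h6 : lam ᵥ* diagonal c = c i • lam := by
    have := congrArg (fun v => v ᵥ* h₀⁻¹) h5
    simpa [Matrix.vecMul_vecMul, Matrix.mul_assoc, Matrix.mul_nonsing_inv _ hu] using this
  have h7 : ∀ j, j ≠ i → lam j = 0 := by
    intro j hj
    have h8 := congrFun h6 j
    rw [Matrix.vecMul_diagonal, Pi.smul_apply, smul_eq_mul] at h8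
    have h9 : lam j * (c j - c i) = 0 := by linarith
    exact (mul_eq_zero.1 h9).resolve_right (sub_ne_zero.2 fun h => hj (hc h))
  have h8 : ∀ j, lam i * h₀ i j = wR j := by
    intro j
    rw [← hlw, Matrix.vecMul, dotProduct, Finset.sum_eq_single i]
    · intro k _ hk
      rw [h7 k hk, zero_mul]
    · intro h
      exact absurd (Finset.mem_univ _) h
  refine ⟨lam i, ?_, fun j => ?_⟩
  · intro h0
    apply hwR0
    funext j
    rw [← h8 j, h0, zero_mul]; rfl
  · rw [h8 j]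
    exact (w j).2

end H715R2
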