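import Mathlib
import Pool.Agent.H715R2.Periodic

/-! # Forms with countably many small values -/

open Filter Topology Matrix

namespace H715R2

set_option linter.unusedSectionVars false

variable {d : ℕ}

lemma mem_small_closure {g h : Matrix (Fin d) (Fin d) ℝ} (hh : h ∈ closure (Orb g)) (T : ℝ)
    (m : Fin d → ℤ) (hm : |FF h (iR m)| < T) :
    FF h (iR m) ∈ closure {t : ℝ | ∃ x : Fin d → ℤ, FF g (iR x) = t ∧ |t| < T} := by
  obtain ⟨u, hu, hlim⟩ := exists_seq_of_mem_closure hh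
  have h1 : Tendsto (fun n => FF (u n) (iR m)) atTop (𝓝 (FF h (iR m))) :=
    ((continuous_FF (iR m)).tendsto h).comp hlim
  have h2 := (h1.abs).eventually (gt_mem_nhds hm)
  refine mem_closure_of_tendsto h1 (h2.mono fun n hn => ?_)
  obtain ⟨a, γ, _, ha, hγ, hun⟩ := hu n
  refine ⟨γ *ᵥ m, ?_, hn⟩
  rw [hun, FF_orb ha]

/-- Minkowski's theorem for products of linear forms -/
theorem mink_prod (hd : 0 < d) (V T : ℝ) (hV : 0 < V)
    (hT : (d.factorial : ℝ) * V < (d : ℝ) ^ d * T) (h : Matrix (Fin d) (Fin d) ℝ)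
    (hdet : |h.det| = V) : ∃ m : Fin d → ℤ, m ≠ 0 ∧ |FF h (iR m)| < T := by
  have hdR : (0 : ℝ) < d := by exact_mod_cast hd
  have hT0 : 0 < T := by
    have h1 : 0 < (d.factorial : ℝ) * V := mul_pos (by positivity) hV
    have h2 : 0 < (d : ℝ) ^ d * T := h1.trans hT
    exact (mul_pos_iff_of_pos_left (by positivity)).1 h2
  set r : ℝ := d * T ^ ((1 : ℝ) / d) with hr
  have hr0 : 0 < r := mul_pos hdR (Real.rpow_pos_of_pos hT0 _)
  have hTd : (T ^ ((1 : ℝ) / d)) ^ d = T := by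
    rw [← Real.rpow_natCast, ← Real.rpow_mul hT0.le, one_div, inv_mul_cancel₀ hdR.ne',
      Real.rpow_one]
  have hrd : r ^ d = (d : ℝ) ^ d * T := by
    rw [hr, mul_pow, hTd]
  have hrd2 : (r / d) ^ d = T := by
    rw [div_pow, hrd, mul_div_cancel_left₀ _ (by positivity)]
  have hdet0 : h.det ≠ 0 := by
    intro h0
    rw [h0, abs_zero] at hdet
    exact hV.ne hdet
  obtain ⟨m, hm, hsum⟩ := mink hd h hdet0 r hr0 (by rw [hdet, hrd]; exact hT)
  refine ⟨m, hm, ?_⟩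
  rw [FF_eq, Finset.abs_prod]
  refine (amgm hd _ fun i => abs_nonneg _).trans_lt ?_
  rw [← hrd2]
  exact pow_lt_pow_left₀ (div_lt_div_of_pos_right hsum hdR)
    (div_nonneg (Finset.sum_nonneg fun i _ => abs_nonneg _) hdR.le) hd.ne'

/-- If the closure of the set of values of absolute value `< T` is countable, where `T` is such that
every form with the same determinant takes a value of absolute value `< T`, then the form is
proportional to an integral form or takes arbitrarily small values at nonzero integer points. -/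
theorem countable_values (hd : 3 ≤ d) {g : Matrix (Fin d) (Fin d) ℝ} (hg : g.det ≠ 0) (T : ℝ)
    (hT : ∀ h : Matrix (Fin d) (Fin d) ℝ, |h.det| = |g.det| →
      ∃ m : Fin d → ℤ, m ≠ 0 ∧ |FF h (iR m)| < T)
    (hC : (closure {t : ℝ | ∃ x : Fin d → ℤ, FF g (iR x) = t ∧ |t| < T}).Countable) :
    PropInt g ∨ ∀ ε : ℝ, 0 < ε → ∃ x : Fin d → ℤ, x ≠ 0 ∧ |FF g (iR x)| < ε := by
  classical
  by_cases hsmall : ∀ ε : ℝ, 0 < ε → ∃ x : Fin d → ℤ, x ≠ 0 ∧ |FF g (iR x)| < ε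
  · exact Or.inr hsmall
  left
  push Not at hsmall
  obtain ⟨ν, hν, hnu⟩ := hsmall
  have hnu' : HasNu g ν := hnu
  have hd0 : 0 < d := by omega
  obtain ⟨r, hr0, hvec⟩ := exists_vec_gen hd0 |g.det| ν T (abs_pos.2 hg) hν hT
  obtain ⟨M, hMg, hMc, hMne, hMinv, hMmin⟩ := exists_minimal hd0 hν hg hnu'
  obtain ⟨h₀, hh₀, hconst⟩ := locally_const hMc hMne _ hC
  have hdet : |h₀.det| = |g.det| := abs_det_closure (hMg hh₀)
  have hdet0 : h₀.det ≠ 0 := by
    intro h0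
    rw [h0, abs_zero] at hdet
    exact hg (abs_eq_zero.1 hdet.symm)
  have hnu₀ := hasNu_closure hnu' (hMg hh₀)
  obtain ⟨m, hm1, hm2⟩ := determine hd0 (div_pos hν (pow_pos hr0 _)) hdet0 hr0
    (hvec h₀ hdet hnu₀)
  have hev1 : ∀ᶠ h in 𝓝[M] h₀, ∀ p, FF h (iR (m p)) = FF h₀ (iR (m p)) := by
    refine Filter.eventually_all.2 fun p => ?_
    exact hconst (m p) (mem_small_closure (hMg hh₀) T (m p) (hm1 p))
  have hloc : ∀ᶠ h in 𝓝[M] h₀, ∃ a : Fin d → ℝ, (∀ i, 0 < a i) ∧ ∏ i, a i = 1 ∧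
      h = diagonal a * h₀ := by
    filter_upwards [hev1, nhdsWithin_le_nhds hm2] with h hh1 hh2
    exact hh2 hh1
  have horb := single_orbit hMc hMinv hMmin hh₀ hloc
  obtain ⟨δ, c, hc, hδ⟩ := exists_stabilizer (by omega) hν hg hnu' hMg hMc hMinv hh₀ hloc horb
  obtain ⟨K, hfin, hK, s, hs, hmem⟩ := exists_alg_row hdet0 δ c hc hδ ⟨0, hd0⟩
  rcases limit_alg hd hg (hMg hh₀) ⟨0, hd0⟩ s hs K hK hmem with ⟨x, hx, hx0⟩ | hint | hdense
  · exfalso
    have h1 := hnu₀ x hx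
    have h2 : FF h₀ (iR x) = 0 := by
      rw [FF]
      exact Finset.prod_eq_zero (Finset.mem_univ ⟨0, hd0⟩) hx0
    rw [h2, abs_zero] at h1
    exact absurd h1 (not_le.2 hν)
  · exact hint
  · exfalso
    obtain ⟨x, hx, hx2⟩ := dense_ne hd0 hdense 0 ν hν
    rw [sub_zero] at hx2
    exact absurd (hnu x hx) (not_le.2 hx2)

/-- version with absolute values -/
theorem countable_abs_values (hd : 3 ≤ d) {g : Matrix (Fin d) (Fin d) ℝ} (hg : g.det ≠ 0) (T : ℝ)
    (hT : (d.factorial : ℝ) * |g.det| < (d : ℝ) ^ d * T ∨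
      ∀ h : Matrix (Fin d) (Fin d) ℝ, |h.det| = |g.det| →
        ∃ m : Fin d → ℤ, m ≠ 0 ∧ |FF h (iR m)| < T)
    (hC : (closure {t : ℝ | ∃ x : Fin d → ℤ, |FF g (iR x)| = t ∧ t < T}).Countable) :
    PropInt g ∨ ∀ ε : ℝ, 0 < ε → ∃ x : Fin d → ℤ, x ≠ 0 ∧ |FF g (iR x)| < ε := by
  have hT' : ∀ h : Matrix (Fin d) (Fin d) ℝ, |h.det| = |g.det| →
      ∃ m : Fin d → ℤ, m ≠ 0 ∧ |FF h (iR m)| < T := by
    rcases hT with hT | hT
    · exact fun h hh => mink_prod (by omega) |g.det| T (abs_pos.2 hg) hT h hh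
    · exact hT
  refine countable_values hd hg T hT' ?_
  set S := closure {t : ℝ | ∃ x : Fin d → ℤ, |FF g (iR x)| = t ∧ t < T} with hS
  have h1 : closure {t : ℝ | ∃ x : Fin d → ℤ, FF g (iR x) = t ∧ |t| < T} ⊆
      S ∪ (fun t => -t) '' S := by
    have hcl : IsClosed (S ∪ (fun t => -t) '' S) := by
      refine isClosed_closure.union ?_
      exact (Homeomorph.neg ℝ).isClosedMap S isClosed_closure
    refine closure_minimal ?_ hcl
    rintro t ⟨x, hx, ht⟩
    have hmem : |t| ∈ S := subset_closure ⟨x, by rw [hx], ht⟩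
    rcases abs_choice t with h | h
    · left; rwa [h] at hmem
    · right
      exact ⟨|t|, hmem, by simp only; rw [h, neg_neg]⟩
  exact (hC.union (hC.image _)).mono h1

end H715R2
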