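import Mathlib
import Pool.Agent.H715R2.CountableValues

/-! # Counterexamples come in uncountable families -/

open Filter Topology Matrix

namespace H715R2

set_option linter.unusedSectionVars false

variable {d : ℕ}

/-- If all values on a minimal set lie in a countable set, the form is proportional to an integral
form. -/
theorem core (hd : 3 ≤ d) {g : Matrix (Fin d) (Fin d) ℝ} (hg : g.det ≠ 0) {ν : ℝ} (hν : 0 < ν)
    (hnu : HasNu g ν) {M : Set (Matrix (Fin d) (Fin d) ℝ)}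
    (hMg : M ⊆ closure (Orb g)) (hMc : IsClosed M) (hMne : M.Nonempty) (hMinv : Inv M)
    (hMmin : ∀ Y ⊆ M, IsClosed Y → Y.Nonempty → Inv Y → Y = M)
    (C : Set ℝ) (hC : C.Countable) (hMC : ∀ h ∈ M, ∀ m : Fin d → ℤ, FF h (iR m) ∈ C) :
    PropInt g := by
  classical
  have hd0 : 0 < d := by omega
  obtain ⟨T, hT⟩ : ∃ T : ℝ, (d.factorial : ℝ) * |g.det| < (d : ℝ) ^ d * T := by
    refine ⟨(d.factorial : ℝ) * |g.det| + 1, ?_⟩
    have h1 : (1 : ℝ) ≤ (d : ℝ) ^ d := one_le_pow₀ (by exact_mod_cast hd0)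
    have h2 : 0 ≤ (d.factorial : ℝ) * |g.det| := by positivity
    nlinarith
  obtain ⟨r, hr0, hvec⟩ := exists_vec_gen hd0 |g.det| ν T (abs_pos.2 hg) hν
    (fun h hh => mink_prod hd0 |g.det| T (abs_pos.2 hg) hT h hh)
  obtain ⟨h₀, hh₀, hconst⟩ := locally_const hMc hMne _ hC
  have hdet : |h₀.det| = |g.det| := abs_det_closure (hMg hh₀)
  have hdet0 : h₀.det ≠ 0 := by
    intro h0
    rw [h0, abs_zero] at hdet
    exact hg (abs_eq_zero.1 hdet.symm)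
  have hnu₀ := hasNu_closure hnu (hMg hh₀)
  obtain ⟨m, hm1, hm2⟩ := determine hd0 (div_pos hν (pow_pos hr0 _)) hdet0 hr0
    (hvec h₀ hdet hnu₀)
  have hev1 : ∀ᶠ h in 𝓝[M] h₀, ∀ p, FF h (iR (m p)) = FF h₀ (iR (m p)) :=
    Filter.eventually_all.2 fun p => hconst (m p) (hMC h₀ hh₀ (m p))
  have hloc : ∀ᶠ h in 𝓝[M] h₀, ∃ a : Fin d → ℝ, (∀ i, 0 < a i) ∧ ∏ i, a i = 1 ∧
      h = diagonal a * h₀ := by
    filter_upwards [hev1, nhdsWithin_le_nhds hm2] with h hh1 hh2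
    exact hh2 hh1
  have horb := single_orbit hMc hMinv hMmin hh₀ hloc
  obtain ⟨δ, c, hc, hδ⟩ := exists_stabilizer (by omega) hν hg hnu hMg hMc hMinv hh₀ hloc horb
  obtain ⟨K, hfin, hK, s, hs, hmem⟩ := exists_alg_row hdet0 δ c hc hδ ⟨0, hd0⟩
  rcases limit_alg hd hg (hMg hh₀) ⟨0, hd0⟩ s hs K hK hmem with ⟨x, hx, hx0⟩ | hint | hdense
  · exfalso
    have h1 := hnu₀ x hx
    have h2 : FF h₀ (iR x) = 0 := by
      rw [FF]
      exact Finset.prod_eq_zero (Finset.mem_univ ⟨0, hd0⟩) hx0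
    rw [h2, abs_zero] at h1
    exact absurd h1 (not_le.2 hν)
  · exact hint
  · exfalso
    obtain ⟨x, hx, hx2⟩ := dense_ne hd0 hdense 0 ν hν
    rw [sub_zero] at hx2
    exact absurd (hnu x hx) (not_le.2 hx2)

/-- the orbit closure of a point in an invariant closed set -/
lemma orb_subset {M : Set (Matrix (Fin d) (Fin d) ℝ)} (hMc : IsClosed M) (hMinv : Inv M)
    {h : Matrix (Fin d) (Fin d) ℝ} (hh : h ∈ M) : closure (Orb h) ⊆ M := by
  refine closure_minimal ?_ hMc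
  rintro _ ⟨a, γ, ha0, ha, hγ, rfl⟩
  exact hMinv h hh a γ ha0 ha hγ

lemma closure_orb_eq {M : Set (Matrix (Fin d) (Fin d) ℝ)} (hMc : IsClosed M) (hMinv : Inv M)
    (hMmin : ∀ Y ⊆ M, IsClosed Y → Y.Nonempty → Inv Y → Y = M)
    {h : Matrix (Fin d) (Fin d) ℝ} (hh : h ∈ M) : closure (Orb h) = M :=
  hMmin _ (orb_subset hMc hMinv hh) isClosed_closure ⟨h, subset_closure (mem_orb_self h)⟩
    (fun _ hh _ _ ha0 ha hγ => closure_mul hh ha0 ha hγ)

/-- values of a form proportional to an integral form -/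
lemma values_of_propInt {h : Matrix (Fin d) (Fin d) ℝ} (hh : PropInt h) :
    ∃ c : ℝ, c ≠ 0 ∧ ∀ x : Fin d → ℤ, ∃ z : ℤ, FF h (iR x) = c * z := by
  obtain ⟨c, hc, hz⟩ := hh
  choose z hz using hz
  refine ⟨c⁻¹, inv_ne_zero hc, fun x => ?_⟩
  have h1 : c * FF h (iR x) = MvPolynomial.eval (iR x) (c • polyF h) := by
    rw [MvPolynomial.smul_eval, eval_polyF]; rfl
  rw [MvPolynomial.eval_eq'] at h1
  refine ⟨∑ m ∈ (c • polyF h).support, z m * ∏ i, x i ^ m i, ?_⟩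
  have h2 : c * FF h (iR x) = ((∑ m ∈ (c • polyF h).support, z m * ∏ i, x i ^ m i : ℤ) : ℝ) := by
    rw [h1]
    push_cast
    refine Finset.sum_congr rfl fun m _ => ?_
    rw [hz]
    rfl
  rw [← h2, ← mul_assoc, inv_mul_cancel₀ hc, one_mul]

/-- the values of a form proportional to an integral form have countable closure -/
lemma countable_VV {h : Matrix (Fin d) (Fin d) ℝ} (hh : PropInt h) : (VV h).Countable := by
  obtain ⟨c, hc, hz⟩ := values_of_propInt hh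
  have h1 : VV h ⊆ (fun t : ℝ => c * t) '' (Set.range (Int.cast : ℤ → ℝ)) := by
    refine closure_minimal ?_ ?_
    · rintro _ ⟨x, rfl⟩
      obtain ⟨z, hz⟩ := hz x
      exact ⟨z, ⟨z, rfl⟩, hz.symm⟩
    · exact (Homeomorph.mulLeft₀ c hc).isClosedMap _ Int.isClosedEmbedding_coe_real.isClosed_range
  exact ((Set.countable_range _).image _).mono h1

/-- infimum of the absolute values at nonzero integer points -/
noncomputable def nuInf (h : Matrix (Fin d) (Fin d) ℝ) : ℝ :=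
  ⨅ x : {x : Fin d → ℤ // x ≠ 0}, |FF h (iR x.1)|

lemma nuInf_bdd (h : Matrix (Fin d) (Fin d) ℝ) :
    BddBelow (Set.range fun x : {x : Fin d → ℤ // x ≠ 0} => |FF h (iR x.1)|) :=
  ⟨0, by rintro _ ⟨x, rfl⟩; exact abs_nonneg _⟩

lemma nonempty_ne (hd : 0 < d) : Nonempty {x : Fin d → ℤ // x ≠ 0} :=
  ⟨⟨fun _ => 1, fun h => one_ne_zero (congrFun h ⟨0, hd⟩)⟩⟩

lemma nuInf_le_of_mem_closure (hd : 0 < d) {g h : Matrix (Fin d) (Fin d) ℝ}
    (hh : h ∈ closure (Orb g)) : nuInf g ≤ nuInf h := by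
  have := nonempty_ne hd
  have h1 : HasNu g (nuInf g) := fun m hm => ciInf_le (nuInf_bdd g) ⟨m, hm⟩
  have h2 := hasNu_closure h1 hh
  exact le_ciInf fun x => h2 x.1 x.2

lemma le_nuInf (hd : 0 < d) {g : Matrix (Fin d) (Fin d) ℝ} {ν : ℝ} (hnu : HasNu g ν) :
    ν ≤ nuInf g := by
  have := nonempty_ne hd
  exact le_ciInf fun x => hnu x.1 x.2

lemma nuInf_equiv (hd : 0 < d) {g h : Matrix (Fin d) (Fin d) ℝ} {γ : Matrix (Fin d) (Fin d) ℤ}
    (hγ : IsUnit γ.det) {c : ℝ} (heq : ∀ x : Fin d → ℤ, FF g (iR x) = c * FF h (iR (γ *ᵥ x))) :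
    nuInf g = |c| * nuInf h := by
  have := nonempty_ne hd
  let e : {x : Fin d → ℤ // x ≠ 0} ≃ {x : Fin d → ℤ // x ≠ 0} :=
    { toFun := fun x => ⟨γ *ᵥ x.1, fun h0 => x.2 (by
        have h3 : γ⁻¹ *ᵥ (γ *ᵥ x.1) = 0 := by rw [h0, mulVec_zero]
        rwa [mulVec_mulVec, Matrix.nonsing_inv_mul _ hγ, one_mulVec] at h3)⟩
      invFun := fun x => ⟨γ⁻¹ *ᵥ x.1, fun h0 => x.2 (by
        have h3 : γ *ᵥ (γ⁻¹ *ᵥ x.1) = 0 := by rw [h0, mulVec_zero]
        rwa [mulVec_mulVec, Matrix.mul_nonsing_inv _ hγ, one_mulVec] at h3)⟩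
      left_inv := fun x => Subtype.ext (by
        show γ⁻¹ *ᵥ (γ *ᵥ x.1) = x.1
        rw [mulVec_mulVec, Matrix.nonsing_inv_mul _ hγ, one_mulVec])
      right_inv := fun x => Subtype.ext (by
        show γ *ᵥ (γ⁻¹ *ᵥ x.1) = x.1
        rw [mulVec_mulVec, Matrix.mul_nonsing_inv _ hγ, one_mulVec]) }
  rw [nuInf, nuInf, Real.mul_iInf_of_nonneg (abs_nonneg c)]
  rw [← e.iInf_comp (g := fun x : {x : Fin d → ℤ // x ≠ 0} => |c| * |FF h (iR x.1)|)]
  congr 1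
  funext x
  rw [heq, abs_mul]
  rfl

/-- **Uncountably many counterexamples.** -/
theorem uncountable_family (hd : 3 ≤ d) {g : Matrix (Fin d) (Fin d) ℝ} (hg : g.det ≠ 0) {ν : ℝ}
    (hν : 0 < ν) (hnu : HasNu g ν) (hint : ¬ PropInt g)
    (h : ℕ → Matrix (Fin d) (Fin d) ℝ) :
    ∃ g' ∈ closure (Orb g), HasNu g' ν ∧ ¬ PropInt g' ∧
      ∀ (n : ℕ) (γ : Matrix (Fin d) (Fin d) ℤ) (c : ℝ), IsUnit γ.det →
        ∃ x : Fin d → ℤ, FF g' (iR x) ≠ c * FF (h n) (iR (γ *ᵥ x)) := by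
  classical
  have hd0 : 0 < d := by omega
  obtain ⟨M, hMg, hMc, hMne, hMinv, hMmin⟩ := exists_minimal hd0 hν hg hnu
  have hnint : ∀ g' ∈ M, ¬ PropInt g' := by
    intro g' hg' hP
    refine hint (core hd hg hν hnu hMg hMc hMne hMinv hMmin _ (countable_VV hP) ?_)
    intro h hh m
    exact mem_VV_of_mem_closure (by rw [closure_orb_eq hMc hMinv hMmin hg']; exact hh) m
  by_contra hcon
  push Not at hcon
  have hall : ∀ g' ∈ M, ∃ (n : ℕ) (γ : Matrix (Fin d) (Fin d) ℤ) (c : ℝ), IsUnit γ.det ∧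
      ∀ x : Fin d → ℤ, FF g' (iR x) = c * FF (h n) (iR (γ *ᵥ x)) := fun g' hg' =>
    hcon g' (hMg hg') (hasNu_closure hnu (hMg hg')) (hnint g' hg')
  obtain ⟨g₁, hg₁⟩ := hMne
  set μ := nuInf g₁ with hμ
  have hμ0 : 0 < μ := hν.trans_le (le_nuInf hd0 (hasNu_closure hnu (hMg hg₁)))
  have hμM : ∀ g' ∈ M, nuInf g' = μ := by
    intro g' hg'
    apply le_antisymm
    · exact nuInf_le_of_mem_closure hd0 (by rw [closure_orb_eq hMc hMinv hMmin hg']; exact hg₁)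
    · exact nuInf_le_of_mem_closure hd0 (by rw [closure_orb_eq hMc hMinv hMmin hg₁]; exact hg')
  set C : Set ℝ := Set.range (fun p : ℕ × Bool × (Fin d → ℤ) =>
    (if p.2.1 then 1 else -1) * (μ / nuInf (h p.1)) * FF (h p.1) (iR p.2.2)) with hC
  refine hint (core hd hg hν hnu hMg hMc ⟨g₁, hg₁⟩ hMinv hMmin C (Set.countable_range _) ?_)
  intro g' hg' m
  obtain ⟨n, γ, c, hγ, heq⟩ := hall g' hg'
  have h1 := nuInf_equiv hd0 hγ heq
  rw [hμM g' hg'] at h1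
  have h2 : nuInf (h n) ≠ 0 := by
    intro h0
    rw [h0, mul_zero] at h1
    exact hμ0.ne' h1
  have h3 : |c| = μ / nuInf (h n) := by
    rw [h1, mul_div_cancel_right₀ _ h2]
  rcases abs_choice c with hc | hc
  · refine ⟨(n, true, γ *ᵥ m), ?_⟩
    simp only [if_true, one_mul]
    rw [← h3, hc, heq]
  · refine ⟨(n, false, γ *ᵥ m), ?_⟩
    simp only [Bool.false_eq_true, if_false]
    rw [← h3, hc, heq]
    ring

end H715R2
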