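import Mathlib
import Pool.Agent.H715R2.Uncountable
import Pool.Agent.H715R2.Exit

/-! # Minimal sets in general closed invariant sets -/

open Filter Topology Matrix

namespace H715R2

set_option linter.unusedSectionVars false

variable {d : ℕ}

theorem exists_minimal' (hd : 0 < d) {Y : Set (Matrix (Fin d) (Fin d) ℝ)} {V ν : ℝ} (hV : 0 < V)
    (hν : 0 < ν) (hYc : IsClosed Y) (hYne : Y.Nonempty) (hYinv : Inv Y)
    (hYdet : ∀ h ∈ Y, |h.det| = V) (hYnu : ∀ h ∈ Y, HasNu h ν) :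
    ∃ M : Set (Matrix (Fin d) (Fin d) ℝ), M ⊆ Y ∧ IsClosed M ∧ M.Nonempty ∧ Inv M ∧
      ∀ Z ⊆ M, IsClosed Z → Z.Nonempty → Inv Z → Z = M := by
  classical
  obtain ⟨R, hR⟩ := exists_bound hd V ν hV hν
  set 𝒦 : Set (Matrix (Fin d) (Fin d) ℝ) := {h | ∀ i j, |h i j| ≤ R} with h𝒦
  have hcpt : IsCompact 𝒦 := isCompact_box R
  have hmeet : ∀ Z : Set (Matrix (Fin d) (Fin d) ℝ), Z ⊆ Y → Z.Nonempty → Inv Z →
      (Z ∩ 𝒦).Nonempty := by
    intro Z hZ ⟨h, hh⟩ hinv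
    obtain ⟨γ, hγ, hγR⟩ := hR h (hYdet h (hZ hh)) (hYnu h (hZ hh))
    refine ⟨h * zR γ, ?_, hγR⟩
    have h1 := hinv h hh (fun _ => 1) γ (fun _ => one_pos) (by simp) hγ
    have h2 : diagonal (fun _ : Fin d => (1 : ℝ)) = 1 := diagonal_one
    rwa [h2, Matrix.one_mul] at h1
  set S : Set (Set (Matrix (Fin d) (Fin d) ℝ)) :=
    {Z | Z ⊆ Y ∧ IsClosed Z ∧ Z.Nonempty ∧ Inv Z} with hS
  have hx : Y ∈ S := ⟨subset_rfl, hYc, hYne, hYinv⟩
  obtain ⟨M, hMx, hMin⟩ := zorn_superset_nonempty S (by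
    intro c hcS hchain hcne
    refine ⟨⋂₀ c, ⟨?_, ?_, ?_, ?_⟩, fun s hs => Set.sInter_subset_of_mem hs⟩
    · obtain ⟨Z, hZ⟩ := hcne
      exact (Set.sInter_subset_of_mem hZ).trans (hcS hZ).1
    · exact isClosed_sInter fun Z hZ => (hcS hZ).2.1
    · have : Nonempty c := ⟨⟨hcne.some, hcne.some_mem⟩⟩
      have h1 : (⋂ Z : c, (Z : Set (Matrix (Fin d) (Fin d) ℝ)) ∩ 𝒦).Nonempty := by
        refine IsCompact.nonempty_iInter_of_directed_nonempty_isCompact_isClosed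
          (fun Z : c => (Z : Set (Matrix (Fin d) (Fin d) ℝ)) ∩ 𝒦) ?_ ?_ ?_ ?_
        · intro Z W
          rcases hchain.total Z.2 W.2 with h | h
          · exact ⟨Z, subset_rfl, Set.inter_subset_inter_left _ h⟩
          · exact ⟨W, Set.inter_subset_inter_left _ h, subset_rfl⟩
        · intro Z
          exact hmeet Z (hcS Z.2).1 (hcS Z.2).2.2.1 (hcS Z.2).2.2.2
        · intro Z
          exact hcpt.inter_left (hcS Z.2).2.1
        · intro Z
          exact (hcS Z.2).2.1.inter hcpt.isClosed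
      obtain ⟨h, hh⟩ := h1
      rw [Set.mem_iInter] at hh
      exact ⟨h, fun Z hZ => (hh ⟨Z, hZ⟩).1⟩
    · intro h hh a γ ha0 ha hγ Z hZ
      exact (hcS hZ).2.2.2 h (hh Z hZ) a γ ha0 ha hγ) _ hx
  obtain ⟨hMS, hMmin⟩ := hMin
  refine ⟨M, hMS.1, hMS.2.1, hMS.2.2.1, hMS.2.2.2, fun Z hZ hZc hZn hZi => ?_⟩
  exact subset_antisymm hZ (hMmin ⟨hZ.trans hMS.1, hZc, hZn, hZi⟩ hZ)

/-- a stabiliser with distinct eigenvalues -/
theorem exists_stabilizer' (hd : 2 ≤ d) {V ν : ℝ} (hV : 0 < V) (hν : 0 < ν)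
    {M : Set (Matrix (Fin d) (Fin d) ℝ)} (hMdet : ∀ h ∈ M, |h.det| = V)
    (hMnu : ∀ h ∈ M, HasNu h ν) (hM : IsClosed M) (hinv : Inv M)
    {h₀ : Matrix (Fin d) (Fin d) ℝ} (hh₀ : h₀ ∈ M)
    (hloc : ∀ᶠ h in 𝓝[M] h₀, ∃ a : Fin d → ℝ, (∀ i, 0 < a i) ∧ ∏ i, a i = 1 ∧
      h = diagonal a * h₀)
    (horb : ∀ h ∈ M, ∃ (a : Fin d → ℝ) (γ : Matrix (Fin d) (Fin d) ℤ), (∀ i, 0 < a i) ∧
      ∏ i, a i = 1 ∧ IsUnit γ.det ∧ diagonal a * h * zR γ = h₀) :
    ∃ (δ : Matrix (Fin d) (Fin d) ℤ) (c : Fin d → ℝ), Function.Injective c ∧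
      h₀ * zR δ = diagonal c * h₀ := by
  classical
  obtain ⟨θ, hθinj, hθsum, -⟩ := exists_theta (by omega : 0 < d) (⟨0, by omega⟩ : Fin d)
    ⟨1, by omega⟩ (by simp)
  obtain ⟨R, hR⟩ := exists_bound (by omega : 0 < d) V ν hV hν
  have hdet₀ : h₀.det ≠ 0 := by
    intro h0
    have := hMdet h₀ hh₀
    rw [h0, abs_zero] at this
    exact hV.ne this
  have hu : IsUnit h₀.det := isUnit_iff_ne_zero.2 hdet₀
  set a : ℕ → Fin d → ℝ := fun n i => Real.exp (n * θ i) with ha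
  have ha0 : ∀ n i, 0 < a n i := fun n i => Real.exp_pos _
  have ha1 : ∀ n, ∏ i, a n i = 1 := by
    intro n
    simp only [ha]
    rw [← Real.exp_sum, ← Finset.mul_sum, hθsum, mul_zero, Real.exp_zero]
  have hone : diagonal (fun _ : Fin d => (1 : ℝ)) = 1 := diagonal_one
  have hxn : ∀ n, ∃ γ : Matrix (Fin d) (Fin d) ℤ, IsUnit γ.det ∧
      diagonal (a n) * h₀ * zR γ ∈ M ∧ ∀ i j, |(diagonal (a n) * h₀ * zR γ) i j| ≤ R := by
    intro n
    have h1 : diagonal (a n) * h₀ ∈ M := by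
      have := hinv h₀ hh₀ (a n) 1 (ha0 n) (ha1 n) (by simp)
      rwa [zR_one, Matrix.mul_one] at this
    obtain ⟨γ, hγ, hγR⟩ := hR _ (hMdet _ h1) (hMnu _ h1)
    exact ⟨γ, hγ, hinv h₀ hh₀ (a n) γ (ha0 n) (ha1 n) hγ, hγR⟩
  choose γ hγ hγM hγR using hxn
  obtain ⟨h', -, φ, hφ, hlim⟩ := (isCompact_box (d := d) R).tendsto_subseq hγR
  have hh' : h' ∈ M := hM.mem_of_tendsto hlim (Eventually.of_forall fun n => hγM _)
  obtain ⟨a', γ', ha'0, ha'1, hγ', hh'e⟩ := horb h' hh'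
  set y : ℕ → Matrix (Fin d) (Fin d) ℝ := fun n =>
    diagonal a' * (diagonal (a (φ n)) * h₀ * zR (γ (φ n))) * zR γ' with hy
  have hylim : Tendsto y atTop (𝓝 h₀) := by
    have hcont : Continuous (fun h : Matrix (Fin d) (Fin d) ℝ => diagonal a' * h * zR γ') :=
      (continuous_const.matrix_mul continuous_id).matrix_mul continuous_const
    have := (hcont.tendsto h').comp hlim
    rwa [hh'e] at this
  have hyM : ∀ n, y n ∈ M := fun n => hinv _ (hγM _) a' γ' ha'0 ha'1 hγ'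
  have hylim' : Tendsto y atTop (𝓝[M] h₀) :=
    tendsto_nhdsWithin_iff.2 ⟨hylim, Eventually.of_forall hyM⟩
  have hev := hylim'.eventually hloc
  set S : ℕ → Matrix (Fin d) (Fin d) ℝ := fun n => y n * h₀⁻¹ with hS
  have hSlim : Tendsto S atTop (𝓝 1) := by
    have hcont : Continuous (fun h : Matrix (Fin d) (Fin d) ℝ => h * h₀⁻¹) :=
      continuous_id.matrix_mul continuous_const
    have := (hcont.tendsto h₀).comp hylim
    rwa [Matrix.mul_nonsing_inv _ hu] at this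
  have hSd : ∀ i, Tendsto (fun n => S n i i) atTop (𝓝 1) := by
    intro i
    have := ((continuous_apply_apply i i).tendsto (1 : Matrix (Fin d) (Fin d) ℝ)).comp hSlim
    rwa [Matrix.one_apply_eq] at this
  set c : ℕ → Fin d → ℝ := fun n i => (a' i * a (φ n) i)⁻¹ * S n i i with hc
  have hcne : ∀ i j, θ j < θ i → ∀ᶠ n in atTop, c n i ≠ c n j := by
    intro i j hij
    have h1 : Tendsto (fun n => S n i i * a' j * Real.exp (-((φ n : ℝ) * (θ i - θ j)))) atTop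
        (𝓝 (1 * a' j * 0)) := by
      refine ((hSd i).mul tendsto_const_nhds).mul ?_
      refine Real.tendsto_exp_atBot.comp ?_
      refine tendsto_neg_atTop_atBot.comp ?_
      exact (tendsto_natCast_atTop_atTop.comp hφ.tendsto_atTop).atTop_mul_const (sub_pos.2 hij)
    have h2 : Tendsto (fun n => S n j j * a' i) atTop (𝓝 (1 * a' i)) :=
      (hSd j).mul tendsto_const_nhds
    have h3 : (1 : ℝ) * a' j * 0 < 1 * a' i := by
      rw [mul_zero, one_mul]; exact ha'0 i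
    filter_upwards [h1.eventually_lt h2 h3] with n hn heq
    have h4 : S n i i * a' j * Real.exp (-((φ n : ℝ) * (θ i - θ j))) = S n j j * a' i := by
      have e1 : c n i = (a' i * Real.exp ((φ n : ℝ) * θ i))⁻¹ * S n i i := rfl
      have e2 : c n j = (a' j * Real.exp ((φ n : ℝ) * θ j))⁻¹ * S n j j := rfl
      rw [e1, e2] at heq
      have hi := (ha'0 i).ne'
      have hj := (ha'0 j).ne'
      have hei := (Real.exp_pos ((φ n : ℝ) * θ i)).ne'
      have hej := (Real.exp_pos ((φ n : ℝ) * θ j)).ne'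
      have e3 : Real.exp (-((φ n : ℝ) * (θ i - θ j)))
          = Real.exp ((φ n : ℝ) * θ j) / Real.exp ((φ n : ℝ) * θ i) := by
        rw [← Real.exp_sub]
        congr 1
        ring
      rw [e3]
      field_simp at heq ⊢
      linarith
    exact absurd h4 hn.ne
  have hinjev : ∀ᶠ n in atTop, ∀ i j : Fin d, i ≠ j → c n i ≠ c n j := by
    refine Filter.eventually_all.2 fun i => Filter.eventually_all.2 fun j => ?_
    by_cases hij : i = j
    · exact Eventually.of_forall fun n h => absurd hij h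
    · rcases lt_or_gt_of_ne (fun h => hij (hθinj h) : θ i ≠ θ j) with h | h
      · exact (hcne j i h).mono fun n hn _ h2 => hn h2.symm
      · exact (hcne i j h).mono fun n hn _ => hn
  obtain ⟨n, hn1, hn2⟩ := (hev.and hinjev).exists
  obtain ⟨s, hs0, -, hse⟩ := hn1
  have hSs : S n = diagonal s := by
    simp only [hS]
    rw [hse, Matrix.mul_assoc, Matrix.mul_nonsing_inv _ hu, Matrix.mul_one]
  refine ⟨γ (φ n) * γ', c n, fun i j hij => by_contra fun h => hn2 i j h hij, ?_⟩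
  have h1 : diagonal (fun i => a' i * a (φ n) i) * (h₀ * zR (γ (φ n) * γ')) = diagonal s * h₀ := by
    rw [← hse, zR_mul, ← diagonal_mul_diagonal]
    simp only [hy, Matrix.mul_assoc]
  have h2 : diagonal (fun i => (a' i * a (φ n) i)⁻¹) * diagonal (fun i => a' i * a (φ n) i) = 1 := by
    rw [diagonal_mul_diagonal, ← hone]
    congr 1
    funext i
    exact inv_mul_cancel₀ (mul_pos (ha'0 i) (ha0 _ i)).ne'
  have h3 : h₀ * zR (γ (φ n) * γ') = diagonal (fun i => (a' i * a (φ n) i)⁻¹) * (diagonal s * h₀) := by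
    rw [← h1, ← Matrix.mul_assoc, h2, Matrix.one_mul]
  rw [h3, ← Matrix.mul_assoc, diagonal_mul_diagonal]
  congr 2
  funext i
  simp only [hc]
  rw [hSs, diagonal_apply_eq]

/-- If the small values on a minimal set lie in a countable set, then the minimal set contains a
point all of whose rows are algebraic of degree at most `d`. -/
theorem exists_alg_point (hd : 2 ≤ d) {V ν T : ℝ} (hV : 0 < V) (hν : 0 < ν)
    (hT : ∀ h : Matrix (Fin d) (Fin d) ℝ, |h.det| = V →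
      ∃ m : Fin d → ℤ, m ≠ 0 ∧ |FF h (iR m)| < T)
    {M : Set (Matrix (Fin d) (Fin d) ℝ)} (hMdet : ∀ h ∈ M, |h.det| = V)
    (hMnu : ∀ h ∈ M, HasNu h ν) (hMc : IsClosed M) (hMne : M.Nonempty) (hMinv : Inv M)
    (hMmin : ∀ Z ⊆ M, IsClosed Z → Z.Nonempty → Inv Z → Z = M)
    (C : Set ℝ) (hC : C.Countable)
    (hMC : ∀ h ∈ M, ∀ m : Fin d → ℤ, |FF h (iR m)| < T → FF h (iR m) ∈ C) :
    ∃ h₀ ∈ M, ∀ i, ∃ (K : IntermediateField ℚ ℝ), FiniteDimensional ℚ K ∧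
      Module.finrank ℚ K ≤ d ∧ ∃ s : ℝ, s ≠ 0 ∧ ∀ j, s * h₀ i j ∈ K := by
  classical
  have hd0 : 0 < d := by omega
  obtain ⟨r, hr0, hvec⟩ := exists_vec_gen hd0 V ν T hV hν hT
  obtain ⟨h₀, hh₀, hconst⟩ := locally_const hMc hMne _ hC
  have hdet : |h₀.det| = V := hMdet _ hh₀
  have hdet0 : h₀.det ≠ 0 := by
    intro h0
    rw [h0, abs_zero] at hdet
    exact hV.ne hdet
  have hnu₀ := hMnu _ hh₀
  obtain ⟨m, hm1, hm2⟩ := determine hd0 (div_pos hν (pow_pos hr0 _)) hdet0 hr0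
    (hvec h₀ hdet hnu₀)
  have hev1 : ∀ᶠ h in 𝓝[M] h₀, ∀ p, FF h (iR (m p)) = FF h₀ (iR (m p)) :=
    Filter.eventually_all.2 fun p => hconst (m p) (hMC h₀ hh₀ (m p) (hm1 p))
  have hloc : ∀ᶠ h in 𝓝[M] h₀, ∃ a : Fin d → ℝ, (∀ i, 0 < a i) ∧ ∏ i, a i = 1 ∧
      h = diagonal a * h₀ := by
    filter_upwards [hev1, nhdsWithin_le_nhds hm2] with h hh1 hh2
    exact hh2 hh1
  have horb := single_orbit hMc hMinv hMmin hh₀ hloc
  obtain ⟨δ, c, hc, hδ⟩ := exists_stabilizer' hd hV hν hMdet hMnu hMc hMinv hh₀ hloc horb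
  exact ⟨h₀, hh₀, fun i => exists_alg_row hdet0 δ c hc hδ i⟩

end H715R2
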