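import Mathlib
import Pool.Agent.H715R2.General

/-! # Limit sets of cone orbits: the Littlewood lattice -/

open Filter Topology Matrix

namespace H715R2

set_option linter.unusedSectionVars false

section loc

variable {d : ℕ}

theorem exists_vec_loc (hd : 0 < d) {h : Matrix (Fin d) (Fin d) ℝ} {ν r : ℝ}
    (hdet : h.det ≠ 0) (hr : 0 < r)
    (hvol : (d.factorial : ℝ) * |h.det| < r ^ d) (b : Fin d → ℝ) (hb : ∀ i, 0 < b i)
    (hb1 : ∏ i, b i = 1)
    (hnu : ∀ m : Fin d → ℤ, m ≠ 0 → (∀ i, b i * |(h *ᵥ iR m) i| < r) → ν ≤ |FF h (iR m)|) :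
    ∃ m : Fin d → ℤ, m ≠ 0 ∧ (∀ i, b i * |(h *ᵥ iR m) i| < r) ∧
      (∀ i, ν / r ^ (d - 1) ≤ b i * |(h *ᵥ iR m) i|) := by
  classical
  obtain ⟨m, hm, hsum⟩ := mink hd (diagonal b * h)
    (by rw [det_mul, det_diagonal, hb1, one_mul]; exact hdet) r hr
    (by rw [det_mul, det_diagonal, hb1, one_mul]; exact hvol)
  have hent : ∀ i, |((diagonal b * h) *ᵥ iR m) i| = b i * |(h *ᵥ iR m) i| := by
    intro i
    rw [← mulVec_mulVec, mulVec_diagonal, abs_mul, abs_of_pos (hb i)]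
  simp only [hent] at hsum
  have hnn : ∀ i, 0 ≤ b i * |(h *ᵥ iR m) i| := fun i => mul_nonneg (hb i).le (abs_nonneg _)
  have hlt : ∀ i, b i * |(h *ᵥ iR m) i| < r := by
    intro i
    refine lt_of_le_of_lt ?_ hsum
    exact Finset.single_le_sum (f := fun i => b i * |(h *ᵥ iR m) i|) (fun i _ => hnn i)
      (Finset.mem_univ i)
  have hprod : ∏ i, (b i * |(h *ᵥ iR m) i|) = |FF h (iR m)| := by
    rw [Finset.prod_mul_distrib, hb1, one_mul, FF_eq, Finset.abs_prod]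
  refine ⟨m, hm, hlt, fun i => lower_bound _ hr hnn hlt ?_ i⟩
  rw [hprod]
  exact hnu m hm hlt

/-- **Compactness**, local version. -/
theorem exists_bound_loc (hd : 0 < d) (V ν : ℝ) (hV : 0 < V) (hν : 0 < ν) :
    ∃ ρ R : ℝ, 0 < ρ ∧ ∀ h : Matrix (Fin d) (Fin d) ℝ, |h.det| = V →
      (∀ m : Fin d → ℤ, m ≠ 0 → (∀ i, |(h *ᵥ iR m) i| ≤ ρ) → ν ≤ |FF h (iR m)|) →
      ∃ γ : Matrix (Fin d) (Fin d) ℤ, IsUnit γ.det ∧ ∀ i j, |(h * zR γ) i j| ≤ R := by
  classical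
  have hd' : (0 : ℝ) < d := by exact_mod_cast hd
  have hfac : (0 : ℝ) < d.factorial := by positivity
  set r : ℝ := d.factorial * V + 1 with hr
  have hr1 : 1 ≤ r := by rw [hr]; nlinarith [mul_pos hfac hV]
  have hr0 : 0 < r := by linarith
  have hrd : (d.factorial : ℝ) * V < r ^ d := by
    have h1 : r ^ 1 ≤ r ^ d := pow_le_pow_right₀ hr1 hd
    rw [pow_one] at h1
    linarith
  set c : ℝ := ν / r ^ (d - 1) with hc
  have hc0 : 0 < c := div_pos hν (pow_pos hr0 _)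
  set β : ℝ := d * r / c + 1 with hβ
  have hβ1 : 1 ≤ β := by
    have : 0 < d * r / c := by positivity
    linarith
  have hβ0 : 0 < β := by linarith
  set R1 : ℝ := r * β ^ (d - 1) with hR1
  have hβd : 1 ≤ β ^ (d - 1) := one_le_pow₀ hβ1
  have hR10 : 0 < R1 := by positivity
  obtain ⟨ι, _, T, hT0, hT⟩ := exists_reps (d := d) ⌈d.factorial * R1 ^ d / V⌉₊
  set B : ℝ := ∑ k, ∑ i, ∑ j, |(zR (T k))⁻¹ i j| with hB
  have hBb : ∀ k i j, |(zR (T k))⁻¹ i j| ≤ B := by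
    intro k i j
    refine (Finset.single_le_sum (f := fun j => |(zR (T k))⁻¹ i j|) (fun j _ => abs_nonneg _)
      (Finset.mem_univ j)).trans ?_
    refine (Finset.single_le_sum (f := fun i => ∑ j, |(zR (T k))⁻¹ i j|)
      (fun i _ => Finset.sum_nonneg fun j _ => abs_nonneg _) (Finset.mem_univ i)).trans ?_
    exact Finset.single_le_sum (f := fun k => ∑ i, ∑ j, |(zR (T k))⁻¹ i j|)
      (fun k _ => Finset.sum_nonneg fun i _ => Finset.sum_nonneg fun j _ => abs_nonneg _)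
      (Finset.mem_univ k)
  refine ⟨R1, d * (R1 * B), hR10, fun h hdet hnu => ?_⟩
  have hdet0 : h.det ≠ 0 := by
    intro h0
    rw [h0, abs_zero] at hdet
    exact hV.ne hdet
  have hsmall : ∀ x : ℝ, x < r / β → x ≤ R1 := by
    intro x hx
    refine hx.le.trans ?_
    rw [hR1]
    refine (div_le_self hr0.le hβ1).trans ?_
    nlinarith
  -- vectors near the coordinate axes
  have hvec : ∀ i : Fin d, ∃ m : Fin d → ℤ, (∀ j, j ≠ i → |(h *ᵥ iR m) j| < r / β) ∧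
      |(h *ᵥ iR m) i| < R1 ∧ c ≤ |(h *ᵥ iR m) i| := by
    intro i
    have hconv : ∀ m : Fin d → ℤ, (∀ k, (if k = i then (β ^ (d - 1))⁻¹ else β) *
        |(h *ᵥ iR m) k| < r) → (∀ j, j ≠ i → |(h *ᵥ iR m) j| < r / β) ∧
        |(h *ᵥ iR m) i| < R1 := by
      intro m h1
      refine ⟨fun j hj => ?_, ?_⟩
      · have := h1 j
        rw [if_neg hj] at this
        rwa [lt_div_iff₀ hβ0, mul_comm]
      · have := h1 i
        rw [if_pos rfl, inv_mul_lt_iff₀ (by positivity)] at this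
        rw [hR1, mul_comm]; exact this
    obtain ⟨m, -, h1, h2⟩ := exists_vec_loc hd (ν := ν) hdet0 hr0 (by rw [hdet]; exact hrd)
      (fun j => if j = i then (β ^ (d - 1))⁻¹ else β) (fun j => by
        split_ifs <;> positivity) (by
        rw [← Finset.mul_prod_erase Finset.univ _ (Finset.mem_univ i), if_pos rfl,
          Finset.prod_congr rfl (g := fun _ => β) (fun j hj => if_neg (Finset.ne_of_mem_erase hj)),
          Finset.prod_const, Finset.card_erase_of_mem (Finset.mem_univ i), Finset.card_univ,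
          Fintype.card_fin]
        exact inv_mul_cancel₀ (by positivity)) (by
        intro m hm hlt
        obtain ⟨h3, h4⟩ := hconv m hlt
        refine hnu m hm fun j => ?_
        by_cases hj : j = i
        · rw [hj]; exact h4.le
        · exact hsmall _ (h3 j hj))
    obtain ⟨h3, h4⟩ := hconv m h1
    refine ⟨m, h3, h4, ?_⟩
    have := h2 i
    rw [if_pos rfl, le_inv_mul_iff₀ (by positivity)] at this
    refine le_trans ?_ this
    nlinarith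
  choose m hm1 hm2 hm3 using hvec
  set M : Matrix (Fin d) (Fin d) ℤ := Matrix.of fun j i => m i j with hM
  have hZ : ∀ j i, (h * zR M) j i = (h *ᵥ iR (m i)) j := by
    intro j i
    rw [Matrix.mul_apply]
    rfl
  have hZb : ∀ j i, |(h * zR M) j i| ≤ R1 := by
    intro j i
    rw [hZ]
    by_cases hji : j = i
    · rw [hji]; exact (hm2 i).le
    · exact hsmall _ (hm1 i j hji)
  have hZdet : (h * zR M).det ≠ 0 := by
    refine det_ne_zero_of_sum_col_lt_diag fun i => ?_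
    simp only [Real.norm_eq_abs, hZ]
    refine lt_of_lt_of_le ?_ (hm3 i)
    have h1 : ∑ j ∈ Finset.univ.erase i, |(h *ᵥ iR (m i)) j| ≤
        ∑ j ∈ Finset.univ.erase i, r / β :=
      Finset.sum_le_sum fun j hj => (hm1 i j (Finset.ne_of_mem_erase hj)).le
    refine h1.trans_lt ?_
    rw [Finset.sum_const, Finset.card_erase_of_mem (Finset.mem_univ i), Finset.card_univ,
      Fintype.card_fin, nsmul_eq_mul]
    have h2 : ((d - 1 : ℕ) : ℝ) ≤ d := by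
      exact_mod_cast Nat.sub_le d 1
    have h3 : ((d - 1 : ℕ) : ℝ) * (r / β) ≤ d * (r / β) :=
      mul_le_mul_of_nonneg_right h2 (by positivity)
    refine h3.trans_lt ?_
    rw [← mul_div_assoc, div_lt_iff₀ hβ0, hβ]
    have h4 : c * (d * r / c + 1) = d * r + c := by
      field_simp
    linarith
  have hMdet : M.det ≠ 0 := by
    intro h0
    apply hZdet
    rw [det_mul, det_zR, h0, Int.cast_zero, mul_zero]
  have hMD : M.det.natAbs ≤ ⌈d.factorial * R1 ^ d / V⌉₊ := by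
    have h1 : |(h * zR M).det| ≤ (d.factorial : ℝ) * R1 ^ d := by
      have := Matrix.det_le (A := h * zR M) (abv := AbsoluteValue.abs) (x := R1) (fun i j => by
        rw [AbsoluteValue.abs_apply]; exact hZb i j)
      rw [AbsoluteValue.abs_apply, Fintype.card_fin, nsmul_eq_mul] at this
      exact this
    rw [det_mul, abs_mul, hdet, det_zR] at h1
    have h2 : |((M.det : ℤ) : ℝ)| = (M.det.natAbs : ℝ) := by
      rw [Nat.cast_natAbs, Int.cast_abs]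
    rw [h2] at h1
    have h3 : (M.det.natAbs : ℝ) ≤ d.factorial * R1 ^ d / V := by
      rw [le_div_iff₀ hV, mul_comm]; exact h1
    exact_mod_cast h3.trans (Nat.le_ceil _)
  obtain ⟨k, γ, hγ, hMγ⟩ := hT M hMdet hMD
  refine ⟨γ, hγ, fun i j => ?_⟩
  have hTdet : IsUnit (zR (T k)).det := by
    rw [det_zR]
    exact isUnit_iff_ne_zero.2 (by exact_mod_cast hT0 k)
  have h1 : h * zR γ = (h * zR M) * (zR (T k))⁻¹ := by
    rw [hMγ, zR_mul, ← Matrix.mul_assoc, Matrix.mul_nonsing_inv_cancel_right _ _ hTdet]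
  rw [h1, Matrix.mul_apply]
  refine (Finset.abs_sum_le_sum_abs _ _).trans ?_
  have h2 : ∑ l, |(h * zR M) i l * (zR (T k))⁻¹ l j| ≤ ∑ l : Fin d, R1 * B := by
    refine Finset.sum_le_sum fun l _ => ?_
    rw [abs_mul]
    exact mul_le_mul (hZb i l) (hBb k l j) (abs_nonneg _) hR10.le
  refine h2.trans (le_of_eq ?_)
  rw [Finset.sum_const, Finset.card_univ, Fintype.card_fin, nsmul_eq_mul]

end loc

/-- the Littlewood lattice -/
def LLm (α β : ℝ) : Matrix (Fin 3) (Fin 3) ℝ := !![1, 0, 0; α, -1, 0; β, 0, -1]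

lemma LLm_mulVec (α β : ℝ) (x : Fin 3 → ℝ) :
    (LLm α β *ᵥ x) 0 = x 0 ∧ (LLm α β *ᵥ x) 1 = α * x 0 - x 1 ∧
    (LLm α β *ᵥ x) 2 = β * x 0 - x 2 := by
  refine ⟨?_, ?_, ?_⟩ <;> simp [LLm, mulVec, dotProduct, Fin.sum_univ_three] <;> ring

lemma LLm_det (α β : ℝ) : |(LLm α β).det| = 1 := by
  simp [LLm, Matrix.det_fin_three]

lemma FF_LLm (α β : ℝ) (m : Fin 3 → ℤ) :
    FF (LLm α β) (iR m) = m 0 * (α * m 0 - m 1) * (β * m 0 - m 2) := by
  rw [FF_eq, Fin.prod_univ_three]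
  obtain ⟨h0, h1, h2⟩ := LLm_mulVec α β (iR m)
  rw [h0, h1, h2]
  rfl

/-- cone orbits -/
def OrbN (g : Matrix (Fin 3) (Fin 3) ℝ) (N : ℕ) : Set (Matrix (Fin 3) (Fin 3) ℝ) :=
  {h | ∃ (a : Fin 3 → ℝ) (γ : Matrix (Fin 3) (Fin 3) ℤ), (∀ i, 0 < a i) ∧ ∏ i, a i = 1 ∧
    (N : ℝ) ≤ a 1 ∧ (N : ℝ) ≤ a 2 ∧ IsUnit γ.det ∧ h = diagonal a * g * zR γ}

/-- limit set -/
def YY (g : Matrix (Fin 3) (Fin 3) ℝ) : Set (Matrix (Fin 3) (Fin 3) ℝ) :=
  ⋂ N : ℕ, closure (OrbN g N)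

lemma OrbN_subset (g : Matrix (Fin 3) (Fin 3) ℝ) (N : ℕ) : OrbN g N ⊆ Orb g := by
  rintro h ⟨a, γ, ha0, ha1, -, -, hγ, rfl⟩
  exact ⟨a, γ, ha0, ha1, hγ, rfl⟩

lemma OrbN_anti (g : Matrix (Fin 3) (Fin 3) ℝ) {N N' : ℕ} (h : N ≤ N') :
    OrbN g N' ⊆ OrbN g N := by
  rintro x ⟨a, γ, ha0, ha1, h1, h2, hγ, rfl⟩
  have : (N : ℝ) ≤ N' := by exact_mod_cast h
  exact ⟨a, γ, ha0, ha1, this.trans h1, this.trans h2, hγ, rfl⟩

lemma YY_closed (g : Matrix (Fin 3) (Fin 3) ℝ) : IsClosed (YY g) :=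
  isClosed_iInter fun _ => isClosed_closure

lemma YY_subset (g : Matrix (Fin 3) (Fin 3) ℝ) : YY g ⊆ closure (Orb g) := fun _ hh =>
  closure_mono (OrbN_subset g 0) (Set.mem_iInter.1 hh 0)

lemma YY_inv (g : Matrix (Fin 3) (Fin 3) ℝ) : Inv (YY g) := by
  intro h hh b δ hb0 hb1 hδ
  rw [YY, Set.mem_iInter]
  intro N
  obtain ⟨N', hN'⟩ := exists_nat_ge (max ((N : ℝ) / b 1) ((N : ℝ) / b 2))
  have h1 : h ∈ closure (OrbN g N') := Set.mem_iInter.1 hh N'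
  refine map_mem_closure (f := fun h : Matrix (Fin 3) (Fin 3) ℝ => diagonal b * h * zR δ)
    ?_ h1 ?_
  · exact (continuous_const.matrix_mul continuous_id).matrix_mul continuous_const
  · rintro _ ⟨a, γ, ha0, ha1, h1, h2, hγ, rfl⟩
    refine ⟨fun i => b i * a i, γ * δ, fun i => mul_pos (hb0 i) (ha0 i), ?_, ?_, ?_, ?_, ?_⟩
    · rw [Finset.prod_mul_distrib, hb1, ha1, one_mul]
    · have h3 : (N : ℝ) / b 1 ≤ a 1 := (le_max_left _ _).trans (hN'.trans h1)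
      rw [div_le_iff₀ (hb0 1), mul_comm] at h3
      exact h3
    · have h3 : (N : ℝ) / b 2 ≤ a 2 := (le_max_right _ _).trans (hN'.trans h2)
      rw [div_le_iff₀ (hb0 2), mul_comm] at h3
      exact h3
    · rw [det_mul]; exact hγ.mul hδ
    · rw [zR_mul, ← diagonal_mul_diagonal]
      simp only [Matrix.mul_assoc]

/-- entries of `diag(a) g γ m` -/
lemma orb_mulVec (α β : ℝ) (a : Fin 3 → ℝ) (γ : Matrix (Fin 3) (Fin 3) ℤ) (m : Fin 3 → ℤ) :
    ((diagonal a * LLm α β * zR γ) *ᵥ iR m) 0 = a 0 * ((γ *ᵥ m) 0 : ℤ) ∧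
    ((diagonal a * LLm α β * zR γ) *ᵥ iR m) 1 = a 1 * (α * ((γ *ᵥ m) 0 : ℤ) - ((γ *ᵥ m) 1 : ℤ)) ∧
    ((diagonal a * LLm α β * zR γ) *ᵥ iR m) 2 = a 2 * (β * ((γ *ᵥ m) 0 : ℤ) - ((γ *ᵥ m) 2 : ℤ)) := by
  have h1 : ∀ i, ((diagonal a * LLm α β * zR γ) *ᵥ iR m) i
      = a i * (LLm α β *ᵥ iR (γ *ᵥ m)) i := by
    intro i
    rw [← mulVec_mulVec, zR_mulVec_iR, ← mulVec_mulVec, mulVec_diagonal]
  obtain ⟨h2, h3, h4⟩ := LLm_mulVec α β (iR (γ *ᵥ m))
  rw [h1, h1, h1, h2, h3, h4]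
  exact ⟨rfl, rfl, rfl⟩

lemma gamma_ne {d : ℕ} {γ : Matrix (Fin d) (Fin d) ℤ} (hγ : IsUnit γ.det) {m : Fin d → ℤ}
    (hm : m ≠ 0) : γ *ᵥ m ≠ 0 := by
  intro h0
  apply hm
  have h3 : γ⁻¹ *ᵥ (γ *ᵥ m) = 0 := by rw [h0, mulVec_zero]
  rwa [mulVec_mulVec, Matrix.nonsing_inv_mul _ hγ, one_mulVec] at h3

/-- key dichotomy: deep in the cone, bounded vectors have nonzero first coordinate -/
lemma first_ne (α β : ℝ) {a : Fin 3 → ℝ} {γ : Matrix (Fin 3) (Fin 3) ℤ} (ha0 : ∀ i, 0 < a i)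
    (hγ : IsUnit γ.det) {m : Fin 3 → ℤ} (hm : m ≠ 0) {ρ : ℝ} (h1 : ρ < a 1) (h2 : ρ < a 2)
    (hb : ∀ i, |((diagonal a * LLm α β * zR γ) *ᵥ iR m) i| ≤ ρ) : (γ *ᵥ m) 0 ≠ 0 := by
  intro h0
  obtain ⟨e0, e1, e2⟩ := orb_mulVec α β a γ m
  have hb1 := hb 1
  have hb2 := hb 2
  rw [e1, h0, Int.cast_zero, mul_zero, zero_sub, mul_neg, abs_neg, abs_mul, abs_of_pos (ha0 1)] at hb1
  rw [e2, h0, Int.cast_zero, mul_zero, zero_sub, mul_neg, abs_neg, abs_mul, abs_of_pos (ha0 2)] at hb2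
  have key : ∀ (z : ℤ) (x : ℝ), 0 < x → ρ < x → x * |(z : ℝ)| ≤ ρ → z = 0 := by
    intro z x hx hρx hz
    by_contra hne
    have h3 : (1 : ℝ) ≤ |(z : ℝ)| := by
      rw [← Int.cast_abs]
      exact_mod_cast Int.one_le_abs hne
    nlinarith
  have h3 := key _ _ (ha0 1) h1 hb1
  have h4 := key _ _ (ha0 2) h2 hb2
  apply gamma_ne hγ hm
  funext i
  fin_cases i
  · exact h0
  · exact h3
  · exact h4

/-- points of the limit set have forms bounded below -/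
lemma YY_nu {α β ν : ℝ} (hν : ∀ q p r : ℤ, q ≠ 0 → ν ≤ |(q : ℝ) * (α * q - p) * (β * q - r)|)
    {h : Matrix (Fin 3) (Fin 3) ℝ} (hh : h ∈ YY (LLm α β)) : HasNu h ν := by
  intro m hm
  by_contra hcon
  push Not at hcon
  set ρ : ℝ := ∑ i, |(h *ᵥ iR m) i| + 1 with hρ
  have hcont : ∀ i, Continuous (fun h' : Matrix (Fin 3) (Fin 3) ℝ => |(h' *ᵥ iR m) i|) := by
    intro i
    refine continuous_abs.comp ?_
    unfold mulVec dotProduct
    exact continuous_finsetSum _ fun j _ => (continuous_apply_apply i j).mul continuous_const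
  have hopen : ∀ᶠ h' in 𝓝 h, |FF h' (iR m)| < ν ∧ ∀ i, |(h' *ᵥ iR m) i| < ρ := by
    refine ((continuous_abs.comp (continuous_FF (iR m))).tendsto h).eventually
      (gt_mem_nhds hcon) |>.and (Filter.eventually_all.2 fun i => ?_)
    refine ((hcont i).tendsto h).eventually (gt_mem_nhds ?_)
    have := Finset.single_le_sum (f := fun i => |(h *ᵥ iR m) i|) (fun i _ => abs_nonneg _)
      (Finset.mem_univ i)
    rw [hρ]; linarith
  obtain ⟨N, hN⟩ := exists_nat_gt ρ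
  have hmem : h ∈ closure (OrbN (LLm α β) N) := Set.mem_iInter.1 hh N
  obtain ⟨h', ⟨h1, h2⟩, ⟨a, γ, ha0, ha1, haN1, haN2, hγ, rfl⟩⟩ :=
    mem_closure_iff_nhds.1 hmem _ hopen
  have h3 := first_ne α β ha0 hγ hm (hN.trans_le haN1) (hN.trans_le haN2) (fun i => (h2 i).le)
  have h4 := hν ((γ *ᵥ m) 0) ((γ *ᵥ m) 1) ((γ *ᵥ m) 2) h3
  rw [FF_orb ha1, FF_LLm] at h1
  exact absurd h4 (not_le.2 h1)

lemma YY_nonempty {α β ν : ℝ} (hν0 : 0 < ν)
    (hν : ∀ q p r : ℤ, q ≠ 0 → ν ≤ |(q : ℝ) * (α * q - p) * (β * q - r)|) :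
    (YY (LLm α β)).Nonempty := by
  obtain ⟨ρ, R, hρ, hR⟩ := exists_bound_loc (d := 3) (by norm_num) 1 ν one_pos hν0
  obtain ⟨N₀, hN₀⟩ := exists_nat_gt ρ
  have hstep : ∀ n : ℕ, ∃ x ∈ OrbN (LLm α β) n, ∀ i j, |x i j| ≤ R := by
    intro n
    set s : ℝ := (n : ℝ) + N₀ + 1 with hs
    have hs0 : 0 < s := by positivity
    set a : Fin 3 → ℝ := ![(s ^ 2)⁻¹, s, s] with ha
    have ha0 : ∀ i, 0 < a i := by
      intro i
      fin_cases i <;> simp [ha] <;> positivity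
    have ha1 : ∏ i, a i = 1 := by
      rw [Fin.prod_univ_three]
      simp only [ha, Matrix.cons_val_zero, Matrix.cons_val_one, Matrix.cons_val]
      field_simp
    have hn : (n : ℝ) ≤ s := by
      have : (0 : ℝ) ≤ N₀ := Nat.cast_nonneg _
      rw [hs]; linarith
    have hsρ : ρ < s := by
      have : (0 : ℝ) ≤ n := Nat.cast_nonneg _
      rw [hs]; linarith
    have e1 : a 1 = s := rfl
    have e2 : a 2 = s := rfl
    obtain ⟨γ, hγ, hγR⟩ := hR (diagonal a * LLm α β)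
      (by rw [det_mul, det_diagonal, ha1, one_mul]; exact LLm_det α β) (by
      intro m hm hb
      have h1 : diagonal a * LLm α β * zR (1 : Matrix (Fin 3) (Fin 3) ℤ) = diagonal a * LLm α β := by
        rw [zR_one, Matrix.mul_one]
      have h2 := first_ne α β (γ := 1) ha0 (by simp) hm (ρ := ρ) (by rw [e1]; exact hsρ)
        (by rw [e2]; exact hsρ) (by rw [h1]; exact hb)
      rw [one_mulVec] at h2
      have h3 := hν (m 0) (m 1) (m 2) h2
      rw [← h1, FF_orb ha1, one_mulVec, FF_LLm]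
      exact h3)
    exact ⟨_, ⟨a, γ, ha0, ha1, hn, hn, hγ, rfl⟩, hγR⟩
  choose x hx hxR using hstep
  obtain ⟨h, -, φ, hφ, hlim⟩ := (isCompact_box (d := 3) R).tendsto_subseq hxR
  refine ⟨h, Set.mem_iInter.2 fun N => ?_⟩
  refine mem_closure_of_tendsto hlim ?_
  filter_upwards [eventually_ge_atTop N] with n hn
  exact OrbN_anti _ (hn.trans (hφ.le_apply)) (hx (φ n))

end H715R2
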