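import Mathlib
import Pool.Agent.H715R2.Cone

/-! # Limit values of `q ‖qα‖ ‖qβ‖` -/

open Filter Topology Matrix NumberField

namespace H715R2

set_option linter.unusedSectionVars false

/-- `q ‖qα‖ ‖qβ‖` -/
noncomputable def fL (α β : ℝ) (q : ℕ) : ℝ :=
  (q : ℝ) * |(q : ℝ) * α - (round ((q : ℝ) * α) : ℝ)| * |(q : ℝ) * β - (round ((q : ℝ) * β) : ℝ)|

lemma dist_round {x : ℝ} {p : ℤ} (h : |x - p| < 1 / 2) : |x - (round x : ℝ)| = |x - p| := by
  have h1 := abs_sub_round x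
  have h2 : |((round x : ℤ) : ℝ) - p| < 1 := by
    have h3 := abs_sub_le ((round x : ℤ) : ℝ) x p
    rw [abs_sub_comm ((round x : ℤ) : ℝ) x] at h3
    linarith
  have h3 : round x = p := by
    have h4 : |round x - p| < 1 := by
      have : ((|round x - p| : ℤ) : ℝ) < 1 := by
        push_cast
        exact h2
      exact_mod_cast this
    have h5 := Int.abs_lt_one_iff.1 h4
    omega
  rw [h3]

lemma dist_round_natAbs (α : ℝ) {q p : ℤ} (h : |α * q - p| < 1 / 2) :
    |((q.natAbs : ℕ) : ℝ) * α - (round (((q.natAbs : ℕ) : ℝ) * α) : ℝ)| = |α * q - p| := by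
  rcases Int.natAbs_eq q with hq | hq
  · have h1 : (((q.natAbs : ℕ) : ℝ)) = (q : ℝ) := by
      rw [Nat.cast_natAbs]
      have : (0 : ℤ) ≤ q := by omega
      rw [abs_of_nonneg this]
    rw [h1, mul_comm (q : ℝ) α]
    exact dist_round h
  · have h1 : (((q.natAbs : ℕ) : ℝ)) = -(q : ℝ) := by
      rw [Nat.cast_natAbs]
      have : q ≤ 0 := by omega
      rw [abs_of_nonpos this]
      push_cast
      ring
    have h2 : |-(α * q) - ((-p : ℤ) : ℝ)| < 1 / 2 := by
      push_cast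
      have : -(α * q) - -(p : ℝ) = -(α * q - p) := by ring
      rw [this, abs_neg]
      exact h
    have h3 := dist_round h2
    have h4 : -(q : ℝ) * α = -(α * q) := by ring
    rw [h1, h4, h3]
    push_cast
    have : -(α * q) - -(p : ℝ) = -(α * q - p) := by ring
    rw [this, abs_neg]

/-- values at points of the limit set are limit values of `q ‖qα‖ ‖qβ‖` -/
theorem cluster {α β ν : ℝ} (hν0 : 0 < ν) {h : Matrix (Fin 3) (Fin 3) ℝ}
    (hh : h ∈ YY (LLm α β)) (hnu : HasNu h ν) (m : Fin 3 → ℤ) (hm : m ≠ 0) :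
    MapClusterPt |FF h (iR m)| atTop (fL α β) := by
  rw [mapClusterPt_iff_frequently]
  intro s hs
  rw [frequently_atTop]
  intro N₀
  have hFpos : 0 < |FF h (iR m)| := hν0.trans_le (hnu m hm)
  have hδ : 0 < |(h *ᵥ iR m) 0| := by
    rw [abs_pos]
    intro h0
    rw [FF_eq, Fin.prod_univ_three, h0, zero_mul, zero_mul, abs_zero] at hFpos
    exact lt_irrefl _ hFpos
  set δ := |(h *ᵥ iR m) 0| with hδdef
  set ρ : ℝ := ∑ i, |(h *ᵥ iR m) i| + 1 with hρ
  have hρ0 : 0 < ρ := by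
    have : 0 ≤ ∑ i, |(h *ᵥ iR m) i| := Finset.sum_nonneg fun i _ => abs_nonneg _
    linarith
  have hcont : ∀ i, Continuous (fun h' : Matrix (Fin 3) (Fin 3) ℝ => |(h' *ᵥ iR m) i|) := by
    intro i
    refine continuous_abs.comp ?_
    unfold mulVec dotProduct
    exact continuous_finsetSum _ fun j _ => (continuous_apply_apply i j).mul continuous_const
  have hopen : ∀ᶠ h' in 𝓝 h, |FF h' (iR m)| ∈ s ∧ (∀ i, |(h' *ᵥ iR m) i| < ρ) ∧
      δ / 2 < |(h' *ᵥ iR m) 0| := by
    refine (((continuous_abs.comp (continuous_FF (iR m))).tendsto h).eventually hs).and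
      ((Filter.eventually_all.2 fun i => ?_).and ?_)
    · refine ((hcont i).tendsto h).eventually (gt_mem_nhds ?_)
      have := Finset.single_le_sum (f := fun i => |(h *ᵥ iR m) i|) (fun i _ => abs_nonneg _)
        (Finset.mem_univ i)
      rw [hρ]; linarith
    · exact ((hcont 0).tendsto h).eventually (lt_mem_nhds (by linarith))
  obtain ⟨N, hN⟩ := exists_nat_gt (2 * ρ + (N₀ : ℝ) / (δ / 2) + 1)
  have hN0 : (0 : ℝ) ≤ (N₀ : ℝ) / (δ / 2) := by positivity
  have hN1 : 1 < (N : ℝ) := by linarith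
  have hmem : h ∈ closure (OrbN (LLm α β) N) := Set.mem_iInter.1 hh N
  obtain ⟨h', ⟨h1, h2, h3⟩, ⟨a, γ, ha0, ha1, haN1, haN2, hγ, rfl⟩⟩ :=
    mem_closure_iff_nhds.1 hmem _ hopen
  have hq := first_ne α β ha0 hγ hm (ρ := ρ) (by linarith) (by linarith) (fun i => (h2 i).le)
  obtain ⟨e0, e1, e2⟩ := orb_mulVec α β a γ m
  set q := (γ *ᵥ m) 0 with hqdef
  set p := (γ *ᵥ m) 1 with hpdef
  set r := (γ *ᵥ m) 2 with hrdef
  have hd1 : |α * q - p| < 1 / 2 := by
    have h4 := h2 1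
    rw [e1, abs_mul, abs_of_pos (ha0 1)] at h4
    have h5 : 2 * ρ < a 1 := by linarith
    by_contra hcon
    push Not at hcon
    nlinarith [ha0 1]
  have hd2 : |β * q - r| < 1 / 2 := by
    have h4 := h2 2
    rw [e2, abs_mul, abs_of_pos (ha0 2)] at h4
    have h5 : 2 * ρ < a 2 := by linarith
    by_contra hcon
    push Not at hcon
    nlinarith [ha0 2]
  refine ⟨q.natAbs, ?_, ?_⟩
  · -- `|q|` is large
    have h4 := h3
    rw [e0, abs_mul, abs_of_pos (ha0 0)] at h4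
    have h5 : a 0 * (a 1 * a 2) = 1 := by
      rw [← mul_assoc, ← Fin.prod_univ_three]; exact ha1
    have h6 : (N : ℝ) ≤ a 1 * a 2 := by
      have : (N : ℝ) * 1 ≤ a 1 * a 2 := mul_le_mul haN1 (by linarith) zero_le_one (ha0 1).le
      linarith
    have h7 : a 0 * N ≤ 1 := by
      rw [← h5]; exact mul_le_mul_of_nonneg_left h6 (ha0 0).le
    have h8 : (δ / 2) * N < |(q : ℝ)| := by
      have h9 : (δ / 2) * N < a 0 * |(q : ℝ)| * N :=
        mul_lt_mul_of_pos_right h4 (by linarith)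
      have h10 : a 0 * |(q : ℝ)| * N = (a 0 * N) * |(q : ℝ)| := by ring
      have h11 : (a 0 * N) * |(q : ℝ)| ≤ 1 * |(q : ℝ)| :=
        mul_le_mul_of_nonneg_right h7 (abs_nonneg _)
      linarith
    have h9 : (N₀ : ℝ) / (δ / 2) < N := by linarith
    rw [div_lt_iff₀ (by positivity)] at h9
    have h10 : (N₀ : ℝ) < ((q.natAbs : ℕ) : ℝ) := by
      rw [Nat.cast_natAbs, Int.cast_abs]
      linarith
    exact_mod_cast h10.le
  · have h4 : fL α β q.natAbs = |FF (diagonal a * LLm α β * zR γ) (iR m)| := by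
      rw [FF_orb ha1, FF_LLm, fL, dist_round_natAbs α hd1, dist_round_natAbs β hd2,
        abs_mul, abs_mul, Nat.cast_natAbs, Int.cast_abs]
    rw [h4]
    exact h1

/-- the limit set contains no point with an algebraic row -/
theorem no_alg_point {α β ν : ℝ} (hν0 : 0 < ν)
    (hν : ∀ q p r : ℤ, q ≠ 0 → ν ≤ |(q : ℝ) * (α * q - p) * (β * q - r)|)
    {h : Matrix (Fin 3) (Fin 3) ℝ} (hh : h ∈ YY (LLm α β)) (i₀ : Fin 3)
    (s : ℝ) (hs : s ≠ 0) (K : IntermediateField ℚ ℝ)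
    [FiniteDimensional ℚ K] (hK : Module.finrank ℚ K ≤ 3) (hmem : ∀ j, s * h i₀ j ∈ K) : False := by
  classical
  have hnu : HasNu h ν := YY_nu hν hh
  have hdet : |h.det| = 1 := by rw [abs_det_closure (YY_subset _ hh), LLm_det]
  have hdet0 : h.det ≠ 0 := by
    intro h0
    rw [h0, abs_zero] at hdet
    exact zero_ne_one hdet
  have hnotdense : ∀ h' ∈ YY (LLm α β), VV h' ≠ Set.univ := by
    intro h' hh' hV
    obtain ⟨x, hx, hx2⟩ := dense_ne (by norm_num : 0 < 3) hV 0 ν hν0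
    rw [sub_zero] at hx2
    exact absurd (YY_nu hν hh' x hx) (not_le.2 hx2)
  obtain ⟨_, D, hD⟩ := build_dat (le_refl 3) h hdet0 i₀ s hs K hK hmem (by
    intro m hm
    by_contra hne
    have h1 := hnu m hne
    have h2 : FF h (iR m) = 0 := by
      rw [FF]
      exact Finset.prod_eq_zero (Finset.mem_univ i₀) hm
    rw [h2, abs_zero] at h1
    exact absurd h1 (not_le.2 hν0))
  rcases D.monomial_or_dense with hmono | hdense
  swap
  · have h1 : VV D.g = Set.univ := hdense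
    rw [hD] at h1
    exact hnotdense h hh h1
  choose t ht using hmono
  have hbij := D.mono_bij t ht
  obtain ⟨B, c, hBc, hc0, hgB, hBdet, hreal⟩ := D.mono_matrix t ht
  have hBu : IsUnit B.det := isUnit_iff_ne_zero.2 hBdet
  rw [hD] at hgB
  -- the sequence
  obtain ⟨U, hU⟩ := (𝓝 h).exists_antitone_basis
  have hseq : ∀ n, ∃ x ∈ OrbN (LLm α β) n, x ∈ U n := by
    intro n
    obtain ⟨x, hx1, hx2⟩ := mem_closure_iff_nhds.1 (Set.mem_iInter.1 hh n) _
      (hU.toHasBasis.mem_of_mem trivial : U n ∈ 𝓝 h)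
    exact ⟨x, hx2, hx1⟩
  choose hs' hs1 hs2 using hseq
  have hlim : Tendsto hs' atTop (𝓝 h) := hU.tendsto hs2
  set E : ℕ → Matrix (Fin 3) (Fin 3) ℝ := fun n => hs' n * B⁻¹ with hE
  have hEB : ∀ n, E n * B = hs' n := by
    intro n
    simp only [hE]
    rw [Matrix.mul_assoc, Matrix.nonsing_inv_mul _ hBu, Matrix.mul_one]
  have hdetn : ∀ n, |(hs' n).det| = 1 := fun n => by
    rw [abs_det_orb (OrbN_subset _ _ (hs1 n)), LLm_det]
  -- row 1 is not diagonal
  have hrow : ∀ n, ∃ k, k ≠ 1 ∧ E n 1 k ≠ 0 := by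
    intro n
    by_contra hcon
    push Not at hcon
    obtain ⟨a, γ, ha0, ha1, -, -, hγ, hx⟩ := hs1 n
    set m : Fin 3 → ℤ := γ⁻¹ *ᵥ ![0, 0, 1] with hm
    have hγm : γ *ᵥ m = ![0, 0, 1] := by
      rw [hm, mulVec_mulVec, Matrix.mul_nonsing_inv _ hγ, one_mulVec]
    have hmne : m ≠ 0 := by
      intro h0
      rw [h0, mulVec_zero] at hγm
      have := congrFun hγm 2
      simp at this
    have h1 : (hs' n *ᵥ iR m) 1 = 0 := by
      obtain ⟨-, e1, -⟩ := orb_mulVec α β a γ m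
      rw [hx, e1, hγm]
      simp
    have h2 : (hs' n *ᵥ iR m) 1 = E n 1 1 * (B *ᵥ iR m) 1 := by
      rw [← hEB n, ← mulVec_mulVec]
      show ∑ k, E n 1 k * (B *ᵥ iR m) k = _
      rw [Finset.sum_eq_single 1]
      · intro k _ hk
        rw [hcon k hk, zero_mul]
      · intro h
        exact absurd (Finset.mem_univ _) h
    have h3 : E n 1 1 ≠ 0 := by
      intro h0
      have h4 : (hs' n).det = 0 := by
        refine Matrix.det_eq_zero_of_row_eq_zero 1 fun j => ?_
        rw [← hEB n, Matrix.mul_apply]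
        refine Finset.sum_eq_zero fun k _ => ?_
        by_cases hk : k = 1
        · rw [hk, h0, zero_mul]
        · rw [hcon k hk, zero_mul]
      have := hdetn n
      rw [h4, abs_zero] at this
      exact zero_ne_one this
    have h4 : (B *ᵥ iR m) 1 = 0 := by
      rw [h1] at h2
      exact (mul_eq_zero.1 h2.symm).resolve_left h3
    have h5 : t 1 (∑ j, (m j : ℚ) • D.b j) = 0 := by
      rw [← ev_int]
      have h6 : (((B *ᵥ iR m) 1 : ℝ) : ℂ) = ev D.b (t 1) (iR m) := by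
        simp only [mulVec, dotProduct, ev]
        push_cast
        exact Finset.sum_congr rfl fun j _ => by rw [hBc, mul_comm]
      rw [← h6, h4, Complex.ofReal_zero]
    have h6 : ∑ j, (m j : ℚ) • D.b j = 0 := (map_eq_zero _).1 h5
    have h7 := Fintype.linearIndependent_iff.1 D.b.linearIndependent _ h6
    apply hmne
    funext j
    exact_mod_cast h7 j
  obtain ⟨k₁, hfreq⟩ : ∃ k : Fin 3, ∃ᶠ n in atTop, k ≠ 1 ∧ E n 1 k ≠ 0 := by
    by_contra hcon
    rw [not_exists] at hcon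
    have h1 : ∀ᶠ n in atTop, ∀ k : Fin 3, ¬ (k ≠ 1 ∧ E n 1 k ≠ 0) :=
      Filter.eventually_all.2 fun k => not_frequently.1 (hcon k)
    obtain ⟨n, hn⟩ := h1.exists
    obtain ⟨k, hk⟩ := hrow n
    exact hn k hk
  have hk1 : k₁ ≠ 1 := hfreq.exists.choose_spec.1
  set θ : Fin 3 → ℝ := ![3, -2, -1] with hθ
  have hθinj : Function.Injective θ := by
    intro i j hij
    fin_cases i <;> fin_cases j <;> simp [hθ] at hij ⊢ <;> norm_num at hij
  have hθsum : ∑ j, θ j = 0 := by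
    rw [Fin.sum_univ_three]; simp [hθ]; norm_num
  have hθlt : θ 1 < θ k₁ := by
    fin_cases k₁
    · simp [hθ]; norm_num
    · exact absurd rfl hk1
    · simp [hθ]
  obtain ⟨h', φ, a, γ, T, R, hφ, ha0, ha1, hγ, hT0, haT, hlim', hV⟩ :=
    exit_lemma D t hbij hreal B c hBc hc0 hBdet hs' (by rw [← hgB]; exact hlim) 1 one_pos hdetn
      1 k₁ (hfreq.mono fun n hn => hn.2) θ hθinj hθsum hθlt
  refine hnotdense h' ?_ hV
  rw [YY, Set.mem_iInter]
  intro N
  refine mem_closure_of_tendsto hlim' ?_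
  obtain ⟨N₁, hN₁⟩ := exists_nat_ge ((N : ℝ) * Real.exp R)
  filter_upwards [eventually_ge_atTop N₁] with n hn
  obtain ⟨b, δ, hb0, hb1, hbn1, hbn2, hδ, hx⟩ := hs1 (φ n)
  have hφn : (N : ℝ) * Real.exp R ≤ (φ n : ℝ) := by
    refine hN₁.trans ?_
    exact_mod_cast hn.trans hφ.le_apply
  have hlow : ∀ i, θ i ≤ 0 → Real.exp (-R) ≤ a n i := by
    intro i hi
    rw [← Real.exp_log (ha0 n i)]
    apply Real.exp_le_exp.2
    have h1 := (abs_le.1 (haT n i)).1
    have h2 : T n * θ i ≤ 0 := mul_nonpos_of_nonneg_of_nonpos (hT0 n) hi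
    linarith
  have hmul : ∀ x y : ℝ, Real.exp (-R) ≤ x → (φ n : ℝ) ≤ y → (N : ℝ) ≤ x * y := by
    intro x y hx hy
    have h1 : Real.exp (-R) * ((N : ℝ) * Real.exp R) = N := by
      rw [mul_comm, mul_assoc, ← Real.exp_add, add_neg_cancel, Real.exp_zero, mul_one]
    rw [← h1]
    exact mul_le_mul hx (hφn.trans hy) (by positivity) ((Real.exp_pos _).le.trans hx)
  refine ⟨fun i => a n i * b i, δ * γ n, fun i => mul_pos (ha0 n i) (hb0 i), ?_, ?_, ?_, ?_, ?_⟩
  · rw [Finset.prod_mul_distrib, ha1, hb1, one_mul]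
  · exact hmul _ _ (hlow 1 (by simp [hθ])) hbn1
  · exact hmul _ _ (hlow 2 (by simp [hθ])) hbn2
  · rw [det_mul]; exact hδ.mul (hγ n)
  · rw [zR_mul, ← diagonal_mul_diagonal, hx]
    simp only [Matrix.mul_assoc]

/-- a lower bound for large `q` gives a lower bound for all `q` -/
lemma exists_nu {α β ε : ℝ} (hε : 0 < ε) {N : ℕ}
    (h : ∀ q : ℕ, N ≤ q → 0 < q → ε ≤ fL α β q) :
    ∃ ν : ℝ, 0 < ν ∧ ∀ q p r : ℤ, q ≠ 0 → ν ≤ |(q : ℝ) * (α * q - p) * (β * q - r)| := by
  have hpos : ∀ q : ℕ, 0 < q → 0 < fL α β q := by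
    intro q hq
    have hnn : 0 ≤ fL α β q := by unfold fL; positivity
    rcases hnn.lt_or_eq with h1 | h1
    · exact h1
    exfalso
    have hqR : (0 : ℝ) < q := by exact_mod_cast hq
    -- one of the factors vanishes
    have h2 : |(q : ℝ) * α - (round ((q : ℝ) * α) : ℝ)| = 0 ∨
        |(q : ℝ) * β - (round ((q : ℝ) * β) : ℝ)| = 0 := by
      unfold fL at h1
      rcases mul_eq_zero.1 h1.symm with h3 | h3
      · rcases mul_eq_zero.1 h3 with h4 | h4
        · exact absurd h4 hqR.ne'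
        · exact Or.inl h4
      · exact Or.inr h3
    have key : ∀ x : ℝ, |(q : ℝ) * x - (round ((q : ℝ) * x) : ℝ)| = 0 →
        ∀ k : ℕ, |((k * q : ℕ) : ℝ) * x - (round (((k * q : ℕ) : ℝ) * x) : ℝ)| = 0 := by
      intro x hx k
      have h3 : (q : ℝ) * x = ((round ((q : ℝ) * x) : ℤ) : ℝ) := by
        have := abs_eq_zero.1 hx
        linarith
      have h4 : ((k * q : ℕ) : ℝ) * x = (((k : ℤ) * round ((q : ℝ) * x) : ℤ) : ℝ) := by
        push_cast
        rw [mul_assoc, ← h3]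
      rw [h4, round_intCast, sub_self, abs_zero]
    have h5 : fL α β ((N + 1) * q) = 0 := by
      unfold fL
      rcases h2 with h2 | h2
      · rw [key α h2 (N + 1)]; ring
      · rw [key β h2 (N + 1)]; ring
    have h6 := h ((N + 1) * q) (by nlinarith) (by positivity)
    rw [h5] at h6
    exact absurd h6 (not_le.2 hε)
  -- minimum over the small `q`
  obtain ⟨ν, hν0, hν⟩ : ∃ ν : ℝ, 0 < ν ∧ ∀ q : ℕ, 0 < q → ν ≤ fL α β q := by
    by_cases hemp : (Finset.Ico 1 (N + 1)).Nonempty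
    · obtain ⟨q₀, hq₀, hmin⟩ := (Finset.Ico 1 (N + 1)).exists_min_image (fL α β) hemp
      refine ⟨min ε (fL α β q₀), lt_min hε (hpos q₀ (Finset.mem_Ico.1 hq₀).1), fun q hq => ?_⟩
      by_cases hqN : N ≤ q
      · exact (min_le_left _ _).trans (h q hqN hq)
      · exact (min_le_right _ _).trans (hmin q (Finset.mem_Ico.2 ⟨hq, by omega⟩))
    · refine ⟨ε, hε, fun q hq => h q ?_ hq⟩
      rw [Finset.nonempty_Ico] at hemp
      omega
  refine ⟨ν, hν0, fun q p r hq => ?_⟩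
  have h1 := hν q.natAbs (Int.natAbs_pos.2 hq)
  refine h1.trans ?_
  have hround : ∀ (x : ℝ) (z : ℤ), |((q.natAbs : ℕ) : ℝ) * x -
      (round (((q.natAbs : ℕ) : ℝ) * x) : ℝ)| ≤ |x * q - z| := by
    intro x z
    rcases Int.natAbs_eq q with hq' | hq'
    · have h2 : (((q.natAbs : ℕ) : ℝ)) = (q : ℝ) := by
        rw [Nat.cast_natAbs]
        have : (0 : ℤ) ≤ q := by omega
        rw [abs_of_nonneg this]
      rw [h2, mul_comm (q : ℝ) x]
      exact round_le _ _
    · have h2 : (((q.natAbs : ℕ) : ℝ)) = -(q : ℝ) := by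
        rw [Nat.cast_natAbs]
        have : q ≤ 0 := by omega
        rw [abs_of_nonpos this]
        push_cast
        ring
      have h3 := round_le (-(q : ℝ) * x) (-z)
      rw [h2]
      refine h3.trans (le_of_eq ?_)
      push_cast
      have : -(q : ℝ) * x - -(z : ℝ) = -(x * q - z) := by ring
      rw [this, abs_neg]
  rw [abs_mul, abs_mul, fL, Nat.cast_natAbs, Int.cast_abs]
  have h3 := hround α p
  have h4 := hround β r
  rw [Nat.cast_natAbs, Int.cast_abs] at h3 h4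
  exact mul_le_mul (mul_le_mul_of_nonneg_left h3 (abs_nonneg _)) h4 (abs_nonneg _)
    (mul_nonneg (abs_nonneg _) (abs_nonneg _))

/-- **Countably many limit values imply Littlewood.** -/
theorem littlewood_countable (α β T : ℝ)
    (hT : 2 / 9 < T ∨ ∀ h : Matrix (Fin 3) (Fin 3) ℝ, |h.det| = 1 →
      ∃ m : Fin 3 → ℤ, m ≠ 0 ∧ |FF h (iR m)| < T)
    (hC : {t : ℝ | t < T ∧ MapClusterPt t atTop (fL α β)}.Countable) :
    ∀ ε : ℝ, 0 < ε → ∀ N : ℕ, ∃ q : ℕ, N ≤ q ∧ 0 < q ∧ fL α β q < ε := by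
  by_contra hcon
  push Not at hcon
  obtain ⟨ε, hε, N, hN⟩ := hcon
  obtain ⟨ν, hν0, hν⟩ := exists_nu hε hN
  have hT' : ∀ h : Matrix (Fin 3) (Fin 3) ℝ, |h.det| = 1 →
      ∃ m : Fin 3 → ℤ, m ≠ 0 ∧ |FF h (iR m)| < T := by
    rcases hT with hT | hT
    · intro h hh
      refine mink_prod (by norm_num) 1 T one_pos ?_ h hh
      have : ((Nat.factorial 3 : ℕ) : ℝ) = 6 := by norm_num [Nat.factorial]
      rw [this]
      push_cast
      linarith
    · exact hT
  obtain ⟨M, hMY, hMc, hMne, hMinv, hMmin⟩ := exists_minimal' (by norm_num : 0 < 3) one_pos hν0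
    (YY_closed (LLm α β)) (YY_nonempty hν0 hν) (YY_inv _)
    (fun h hh => by rw [abs_det_closure (YY_subset _ hh), LLm_det]) (fun h hh => YY_nu hν hh)
  set S : Set ℝ := {t : ℝ | t < T ∧ MapClusterPt t atTop (fL α β)} with hS
  set C : Set ℝ := {0} ∪ (S ∪ (fun t => -t) '' S) with hCdef
  have hCc : C.Countable := (Set.countable_singleton 0).union (hC.union (hC.image _))
  obtain ⟨h₀, hh₀, hrows⟩ := exists_alg_point (by norm_num : 2 ≤ 3) one_pos hν0 hT'
    (fun h hh => by rw [abs_det_closure (YY_subset _ (hMY hh)), LLm_det])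
    (fun h hh => YY_nu hν (hMY hh)) hMc hMne hMinv hMmin C hCc (by
      intro h hh m hm
      by_cases hm0 : m = 0
      · left
        rw [Set.mem_singleton_iff, hm0, FF_eq, Fin.prod_univ_three]
        simp [iR, mulVec, dotProduct]
      right
      have hcl := cluster hν0 (hMY hh) (YY_nu hν (hMY hh)) m hm0
      have hmem : |FF h (iR m)| ∈ S := ⟨hm, hcl⟩
      rcases abs_choice (FF h (iR m)) with h1 | h1
      · left; rwa [h1] at hmem
      · right
        exact ⟨|FF h (iR m)|, hmem, by simp only; rw [h1, neg_neg]⟩)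
  obtain ⟨K, hfin, hK, s, hs, hmem⟩ := hrows 0
  exact no_alg_point hν0 hν (hMY hh₀) 0 s hs K hK hmem

end H715R2
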